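import Pool.Agent.Lib.MP_b41181_pr.Descent

-- part Pool.Agent.Lib.MP_b41181_pr.TwoPeak
section

/-!
The two-peak estimate: probability that a perturbed walk is nearly maximal in two given windows.
-/

open MeasureTheory ProbabilityTheory Finset
open scoped ENNReal NNReal

namespace Pool.Agent.Lib.MP_b41181_pr

/-- Local regularity of `m` around `a` at resolution `h`. -/
def Loc (n : ℕ) (m : ℕ → ℝ) (Rm : ℝ) (a h : ℕ) : Prop :=
  ∀ k ≤ n, ∀ d : ℕ, h ≤ d → k ≤ a + d → a ≤ k + d → |m k - m a| ≤ Rm * √d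

/-- The perturbed walk is nearly maximal in both windows. -/
def TwoPeak (n : ℕ) (m : ℕ → ℝ) (a ha b hb : ℕ) (η : ℝ) : Set (ℕ → ℝ) :=
  {z | ∃ a' ≤ n, ∃ b' ≤ n, a' ≤ a + ha ∧ a ≤ a' + ha ∧ b' ≤ b + hb ∧ b ≤ b' + hb ∧
     ∀ k ≤ n, 2 * (m k + S k z) ≤ (m a' + S a' z) + (m b' + S b' z) + η}

/-- One-sided condition. -/
def Side (h K : ℕ) (Rm ρ : ℝ) (x : ℕ → ℝ) : Prop :=
  (∀ d ≤ h, S d x ≤ 8 * Rm * √h) ∧
    ∀ d, h ≤ d → d ≤ K → (S d x ≤ -(Rm * √d) ∨ S d x ≤ -(2 * ρ))

lemma side_of_desc {h k : ℕ} {Rm ρ : ℝ} (hR : 1 ≤ Rm) {x : ℕ → ℝ} (hx : x ∈ Desc h k (8 * Rm)) :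
    Side h (4 ^ k * h) Rm ρ x := by
  refine ⟨hx.1, fun d h1 h2 => Or.inl ?_⟩
  have := hx.2.1 d h1 h2
  have h3 : 0 ≤ √(d : ℝ) := Real.sqrt_nonneg _
  nlinarith

lemma side_of_stay {h k n : ℕ} {Rm ρ y : ℝ} (hR : 1 ≤ Rm) (hρ : 4 * ρ ≤ 2 ^ k * √h)
    (hy : y ≤ 2 ^ k * √h) {x : ℕ → ℝ} (hx : x ∈ Stay h k n (8 * Rm) y) :
    Side h n Rm ρ x := by
  refine ⟨hx.1, fun d h1 h2 => ?_⟩
  rcases le_total d (4 ^ k * h) with h3 | h3
  · left
    have := hx.2.1 d h1 h3
    have h3 : 0 ≤ √(d : ℝ) := Real.sqrt_nonneg _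
    nlinarith
  · right
    have := hx.2.2 d h3 h2
    have h4 : (0 : ℝ) ≤ 2 ^ k * √h := by positivity
    nlinarith

lemma peak_facts {m u x y : ℕ → ℝ} {p top h K1 K2 : ℕ} {Rm ρ : ℝ} (hp : p ≤ top)
    (hK1 : p ≤ K1) (hK2 : top ≤ p + K2) (hx : Side h K1 Rm ρ x) (hy : Side h K2 Rm ρ y)
    (hl : ∀ k ≤ p, S k u - S p u = S (p - k) x) (hr : ∀ k, p ≤ k → S k u - S p u = S (k - p) y)
    (hm : Loc top m Rm p h) (hm2 : ∀ k ≤ top, |m k - m p| ≤ 2 * ρ) :
    ∃ k' ≤ top, k' ≤ p + h ∧ p ≤ k' + h ∧ (∀ k ≤ top, m k + S k u ≤ m k' + S k' u) ∧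
      m k' + S k' u ≤ m p + S p u + 9 * Rm * √h := by
  obtain ⟨k', hk', hmax⟩ := exists_max_image
    ((range (top + 1)).filter (fun k => k ≤ p + h ∧ p ≤ k + h)) (fun k => m k + S k u)
    ⟨p, by simp; omega⟩
  simp only [mem_filter, mem_range] at hk' hmax
  refine ⟨k', by omega, hk'.2.1, hk'.2.2, fun k hk => ?_, ?_⟩
  · by_cases hw : k ≤ p + h ∧ p ≤ k + h
    · exact hmax k ⟨by omega, hw⟩
    refine le_trans ?_ (hmax p ⟨by omega, by omega, by omega⟩)
    have h2 := (abs_le.1 (hm2 k hk)).2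
    rcases le_total k p with h3 | h3
    · have h4 := hl k h3
      have h5 := (abs_le.1 (hm k hk (p - k) (by omega) (by omega) (by omega))).2
      rcases hx.2 (p - k) (by omega) (by omega) with h6 | h6 <;> linarith
    · have h4 := hr k h3
      have h5 := (abs_le.1 (hm k hk (k - p) (by omega) (by omega) (by omega))).2
      rcases hy.2 (k - p) (by omega) (by omega) with h6 | h6 <;> linarith
  · have h5 := (abs_le.1 (hm k' (by omega) h le_rfl hk'.2.1 hk'.2.2)).2
    rcases le_total k' p with h3 | h3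
    · have h4 := hl k' h3
      have h6 := hx.1 (p - k') (by omega)
      linarith
    · have h4 := hr k' h3
      have h6 := hy.1 (k' - p) (by omega)
      linarith

lemma exists_scale {h D κ : ℕ} (hh : 1 ≤ h) (h1 : 3 * h ≤ D) (h2 : D ≤ 4 ^ κ * h) :
    ∃ k ≤ κ, 3 * (4 ^ k * h) ≤ D ∧ D ≤ 16 * (4 ^ k * h) := by
  have hex : ∃ k, D < 3 * (4 ^ (k + 1) * h) := by
    refine ⟨κ, lt_of_le_of_lt h2 ?_⟩
    have : 0 < 4 ^ κ * h := by positivity
    rw [pow_succ]
    nlinarith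
  classical
  refine ⟨Nat.find hex, Nat.find_min' hex ?_, ?_, ?_⟩
  · have : 0 < 4 ^ κ * h := by positivity
    rw [pow_succ]
    nlinarith
  · rcases Nat.eq_zero_or_pos (Nat.find hex) with h0 | h0
    · rw [h0]; simpa using h1
    · have := Nat.find_min hex (m := Nat.find hex - 1) (by omega)
      rw [Nat.sub_add_cancel h0] at this
      omega
  · have := Nat.find_spec hex
    rw [pow_succ] at this
    nlinarith

lemma two_peak_fiber {n a ha hb dA dB l D : ℕ} {m u z : ℕ → ℝ} {Rm ρ η : ℝ}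
    (hD : D = dA + l + dB) (hn : a + D ≤ n) (hl : 1 ≤ l) (hl3 : D ≤ 3 * l)
    (haA : ha ≤ dA) (hbB : hb ≤ dB) (hA : D ≤ 16 * dA) (hB : D ≤ 16 * dB)
    (hR : 1 ≤ Rm) (hη : 0 ≤ η) (hη2 : η ≤ 8 * Rm * √D)
    (hm : ∀ k ≤ n, |m k| ≤ ρ) (hma : Loc n m Rm a ha) (hmb : Loc n m Rm (a + D) hb)
    {x1 y1 x2 y2 : ℕ → ℝ} (hx1 : Side ha n Rm ρ x1) (hy1 : Side ha dA Rm ρ y1)
    (hy1' : S dA y1 ∈ Set.Icc (-(4 * (8 * Rm) * √dA)) (-(3 * (8 * Rm) * √dA)))
    (hl1 : ∀ k ≤ a, S k u - S a u = S (a - k) x1) (hr1 : ∀ k, a ≤ k → S k u - S a u = S (k - a) y1)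
    (hx2 : Side hb dB Rm ρ x2) (hy2 : Side hb n Rm ρ y2)
    (hx2' : S dB x2 ∈ Set.Icc (-(4 * (8 * Rm) * √dB)) (-(3 * (8 * Rm) * √dB)))
    (hl2 : ∀ k ≤ dB, S k z - S dB z = S (dB - k) x2)
    (hr2 : ∀ k, dB ≤ k → S k z - S dB z = S (k - dB) y2) :
    η / (6 * √D) * Real.exp (-(3750 * Rm ^ 2)) ≤
      mu.real {y | app (a + dA) u (app l y z) ∈ TwoPeak n m a ha (a + D) hb η} := by
  have hm2 : ∀ k ≤ n, ∀ j ≤ n, |m k - m j| ≤ 2 * ρ := by
    intro k hk j hj
    have h1 := abs_le.1 (hm k hk)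
    have h2 := abs_le.1 (hm j hj)
    rw [abs_le]; constructor <;> linarith
  obtain ⟨a', ha1, ha2, ha3, ha4, ha5⟩ := peak_facts (m := m) (u := u) (p := a) (top := a + dA)
    (by omega) (by omega) le_rfl hx1 hy1 hl1 hr1
    (fun k hk d h1 h2 h3 => hma k (by omega) d h1 h2 h3) (fun k hk => hm2 k (by omega) a (by omega))
  obtain ⟨j', hb1, hb2, hb3, hb4, hb5⟩ := peak_facts (m := fun j => m (a + dA + l + j)) (u := z)
    (p := dB) (top := n - (a + dA + l)) (by omega) le_rfl (by omega) hx2 hy2 hl2 hr2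
    (fun k hk d h1 h2 h3 => by
      have := hmb (a + dA + l + k) (by omega) d h1 (by omega) (by omega)
      rwa [show a + D = a + dA + l + dB by omega] at this)
    (fun k hk => hm2 _ (by omega) _ (by omega))
  rw [show a + dA + l + dB = a + D by omega] at hb5
  set MA := m a' + S a' u with hMA
  set MB := m (a + dA + l + j') + S j' z with hMB
  have hD0 : (0 : ℝ) < D := by exact_mod_cast (by omega : 0 < D)
  have hl0 : (0 : ℝ) < l := by exact_mod_cast hl
  set s := √(D : ℝ) with hs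
  have hs0 : 0 < s := Real.sqrt_pos.2 hD0
  have sq_le : ∀ d : ℕ, d ≤ D → Rm * √(d : ℝ) ≤ Rm * s := fun d hd =>
    mul_le_mul_of_nonneg_left (Real.sqrt_le_sqrt (by exact_mod_cast hd)) (by linarith)
  have le_sq : ∀ d : ℕ, D ≤ 16 * d → Rm * s ≤ 4 * (Rm * √(d : ℝ)) := fun d hd => by
    have : s ≤ 4 * √(d : ℝ) := by
      rw [hs, Real.sqrt_le_left (by positivity), mul_pow, Real.sq_sqrt (by positivity)]
      exact_mod_cast hd
    nlinarith
  have hsR : s ≤ Rm * s := by nlinarith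
  have hc : S (a + dA) u - S a u = S dA y1 := by
    rw [hr1 _ (by omega)]; simp
  have hz : - S dB z = S dB x2 := by
    have := hl2 0 (by omega)
    simpa using this
  have hZa : m a + S a u ≤ MA := ha4 a (by omega)
  have hZb : m (a + D) + S dB z ≤ MB := by
    have := hb4 dB (by omega)
    rwa [show a + dA + l + dB = a + D by omega] at this
  have hab := abs_le.1 (hma (a + D) hn D (by omega) le_rfl (by omega))
  have e1 := sq_le ha (by omega)
  have e2 := sq_le hb (by omega)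
  have e3 := sq_le dA (by omega)
  have e4 := sq_le dB (by omega)
  have e5 := le_sq dA hA
  have e6 := le_sq dB hB
  have hsl : √(l : ℝ) ≤ s := Real.sqrt_le_sqrt (by exact_mod_cast (by omega : l ≤ D))
  have h1 := tube hl (v := MA - S (a + dA) u - MB) (η := η) (b := 50 * Rm * s) hη
    (by linarith [hy1'.1, hy1'.2, hx2'.1, hx2'.2]) (by linarith [hy1'.1, hy1'.2, hx2'.1, hx2'.2])
  refine le_trans ?_ (h1.trans (measureReal_mono ?_))
  · refine mul_le_mul (div_le_div_of_nonneg_left hη (by positivity) (by linarith)) ?_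
      (Real.exp_pos _).le (by positivity)
    rw [Real.exp_le_exp, le_div_iff₀ (by positivity), mul_pow, hs, Real.sq_sqrt hD0.le]
    have : (D : ℝ) ≤ 3 * l := by exact_mod_cast hl3
    nlinarith [sq_nonneg Rm]
  rintro y ⟨hy, hy'⟩
  have S1 : ∀ k ≤ a + dA, S k (app (a + dA) u (app l y z)) = S k u := fun k hk => S_app_le _ _ hk
  have S2 : ∀ j ≤ l, S (a + dA + j) (app (a + dA) u (app l y z)) = S (a + dA) u + S j y :=
    fun j hj => by rw [S_app_add, S_app_le _ _ hj]
  have S3 : ∀ j, S (a + dA + l + j) (app (a + dA) u (app l y z)) = S (a + dA) u + S l y + S j z :=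
    fun j => by rw [add_assoc (a + dA), S_app_add, S_app_add, add_assoc]
  refine ⟨a', by omega, a + dA + l + j', by omega, ha2, ha3, by omega, by omega, fun k hk => ?_⟩
  rw [S1 a' ha1, S3 j']
  have hy1 := hy.1
  have hy2 := hy.2
  rcases le_total k (a + dA) with h2 | h2
  · rw [S1 k h2]
    linarith [ha4 k h2]
  obtain ⟨j, rfl⟩ := Nat.exists_eq_add_of_le h2
  rcases le_total j l with h3 | h3
  · rw [S2 j h3]
    have h4 := hy' j h3
    have h5 := (abs_le.1 (hma (a + dA + j) hk D (by omega) (by omega) (by omega))).2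
    have h6 := (abs_le.1 (hmb (a + dA + j) hk D (by omega) (by omega) (by omega))).2
    rcases le_total 0 (S l y) with h7 | h7
    · rw [max_eq_right h7] at h4
      linarith [hx2'.2]
    · rw [max_eq_left h7] at h4
      linarith [hy1'.2]
  · obtain ⟨i, rfl⟩ := Nat.exists_eq_add_of_le h3
    rw [← add_assoc, S3 i]
    linarith [hb4 i (by omega)]

theorem two_peak {n a ha hb D κ : ℕ} {m : ℕ → ℝ} {Rm ρ η : ℝ} (hn : a + D ≤ n)
    (ha1 : 1 ≤ ha) (hb1 : 1 ≤ hb) (ha3 : 3 * ha ≤ D) (hb3 : 3 * hb ≤ D)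
    (haκ : D ≤ 4 ^ κ * ha) (hbκ : D ≤ 4 ^ κ * hb)
    (haρ : 16 * ρ ^ 2 ≤ (4 ^ κ * ha : ℕ)) (hbρ : 16 * ρ ^ 2 ≤ (4 ^ κ * hb : ℕ))
    (hR : 1 ≤ Rm) (hη : 0 ≤ η) (hη2 : η ≤ 8 * Rm * √D)
    (hm : ∀ k ≤ n, |m k| ≤ ρ) (hma : Loc n m Rm a ha) (hmb : Loc n m Rm (a + D) hb) :
    Real.exp (-(7000 * Rm ^ 2 * (κ + 1))) * (η * √D / n) ≤
      mu.real (TwoPeak n m a ha (a + D) hb η) := by
  obtain ⟨kA, hkA, hA1, hA2⟩ := exists_scale ha1 ha3 haκ
  obtain ⟨kB, hkB, hB1, hB2⟩ := exists_scale hb1 hb3 hbκ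
  have hD0 : (0 : ℝ) < D := by exact_mod_cast (by omega : 0 < D)
  have hn0 : (0 : ℝ) < n := by exact_mod_cast (by omega : 0 < n)
  have hs0 : 0 < √(D : ℝ) := Real.sqrt_pos.2 hD0
  have hsn : √(D : ℝ) ≤ √n := Real.sqrt_le_sqrt (by exact_mod_cast (by omega : D ≤ n))
  have hρ' : ∀ h : ℕ, 16 * ρ ^ 2 ≤ (4 ^ κ * h : ℕ) → 4 * ρ ≤ 2 ^ κ * √h := by
    intro h hh
    rw [← sqrt_four_pow]
    exact Real.le_sqrt_of_sq_le (by linarith)
  have hy' : ∀ h : ℕ, D ≤ 4 ^ κ * h → √D ≤ 2 ^ κ * √h := by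
    intro h hh
    rw [← sqrt_four_pow]
    exact Real.sqrt_le_sqrt (by exact_mod_cast hh)
  have hle : ∀ k h : ℕ, h ≤ 4 ^ k * h := fun k h => Nat.le_mul_of_pos_left _ (by positivity)
  have h1 := three_ge (c := a + 4 ^ kA * ha) (l := D - 4 ^ kA * ha - 4 ^ kB * hb)
    (A := Pk a (Stay ha κ n (8 * Rm) √D) (Desc ha kA (8 * Rm)))
    (C := Pk (4 ^ kB * hb) (Desc hb kB (8 * Rm)) (Stay hb κ n (8 * Rm) √D))
    (E := TwoPeak n m a ha (a + D) hb η) (p := η / (6 * √D) * Real.exp (-(3750 * Rm ^ 2)))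
    (by positivity) (by
      rintro u ⟨x1, hx1, y1, hy1, hl1, hr1⟩ z ⟨x2, hx2, y2, hy2, hl2, hr2⟩
      exact two_peak_fiber (dB := 4 ^ kB * hb) (by omega) hn (by omega) (by omega) (hle _ _) (hle _ _)
        hA2 hB2 hR hη hη2 hm hma hmb (side_of_stay hR (hρ' _ haρ) (hy' _ haκ) hx1)
        (side_of_desc hR hy1) (by rw [sqrt_four_pow]; exact hy1.2.2) hl1 hr1
        (side_of_desc hR hx2) (side_of_stay hR (hρ' _ hbρ) (hy' _ hbκ) hy2)
        (by rw [sqrt_four_pow]; exact hx2.2.2) hl2 hr2)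
  refine le_trans ?_ h1
  set c := Real.exp (-(9 * (8 * Rm) ^ 2)) with hc
  have hc0 : 0 < c := Real.exp_pos _
  have hc1 : c ≤ 1 := by
    rw [hc, Real.exp_le_one_iff]
    have := sq_nonneg (8 * Rm)
    linarith
  have hR8 : 8 ≤ 8 * Rm := by linarith
  have d1 : c ^ (κ + 1) ≤ mu.real (Desc ha kA (8 * Rm)) :=
    (pow_le_pow_of_le_one hc0.le hc1 (by omega)).trans (desc_prob ha1 hR8 kA)
  have d2 : c ^ (κ + 1) ≤ mu.real (Desc hb kB (8 * Rm)) :=
    (pow_le_pow_of_le_one hc0.le hc1 (by omega)).trans (desc_prob hb1 hR8 kB)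
  have d3 := stay_prob ha1 (by omega : 1 ≤ n) hR8 hs0.le hsn κ
  have d4 := stay_prob hb1 (by omega : 1 ≤ n) hR8 hs0.le hsn κ
  rw [← hc] at d3 d4
  have p1 := (mul_le_mul d3 d1 (by positivity) measureReal_nonneg).trans (pk_prob a _ _)
  have p2 := (mul_le_mul d2 d4 (by positivity) measureReal_nonneg).trans (pk_prob (4 ^ kB * hb) _ _)
  refine le_trans ?_ (mul_le_mul (mul_le_mul_of_nonneg_left p2 (by positivity)) p1 (by positivity)
    (by positivity))
  have e1 : η / (6 * √D) * Real.exp (-(3750 * Rm ^ 2)) *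
      (c ^ (κ + 1) * (c ^ (κ + 1) * (√D / (3 * √n)))) *
      (c ^ (κ + 1) * (√D / (3 * √n)) * c ^ (κ + 1)) =
      (Real.exp (-(3750 * Rm ^ 2)) * c ^ (4 * (κ + 1)) * (1 / 54)) * (η * √D / (√n * √n)) := by
    field_simp
    ring
  rw [e1, Real.mul_self_sqrt hn0.le]
  refine mul_le_mul_of_nonneg_right ?_ (by positivity)
  have e2 : Real.exp (-6) ≤ 1 / 54 := by
    have h2 : Real.exp (-6) = Real.exp (-2) ^ 3 := by rw [← Real.exp_nat_mul]; norm_num
    rw [h2]
    calc _ ≤ (1 / 6 : ℝ) ^ 3 := pow_le_pow_left₀ (Real.exp_pos _).le exp_neg_two_le 3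
      _ ≤ _ := by norm_num
  refine le_trans ?_ (mul_le_mul_of_nonneg_left e2 (by positivity))
  rw [hc, ← Real.exp_nat_mul, ← Real.exp_add, ← Real.exp_add, Real.exp_le_exp]
  push_cast
  have h2 : 1 ≤ Rm ^ 2 := one_le_pow₀ hR
  have h3 : (0 : ℝ) ≤ κ := by positivity
  nlinarith [mul_nonneg h3 (sq_nonneg Rm)]

end Pool.Agent.Lib.MP_b41181_pr
end

-- part Pool.Agent.Lib.MP_b41181_pr.Ham
section

/-!
The expected maximum functional and its quantitative convexity.
-/

open MeasureTheory ProbabilityTheory Finset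
open scoped ENNReal NNReal

namespace Pool.Agent.Lib.MP_b41181_pr

/-- Maximum over the first `n + 1` values. -/
def Mx (n : ℕ) (p : ℕ → ℝ) : ℝ := (range (n + 1)).sup' nonempty_range_add_one p

lemma le_Mx {n k : ℕ} (p : ℕ → ℝ) (hk : k ≤ n) : p k ≤ Mx n p :=
  le_sup' p (mem_range.2 (by omega))

lemma Mx_le {n : ℕ} {p : ℕ → ℝ} {c : ℝ} (h : ∀ k ≤ n, p k ≤ c) : Mx n p ≤ c :=
  sup'_le _ _ fun k hk => h k (by have := mem_range.1 hk; omega)

lemma exists_Mx (n : ℕ) (p : ℕ → ℝ) : ∃ k ≤ n, Mx n p = p k := by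
  obtain ⟨k, hk, h⟩ := exists_mem_eq_sup' (nonempty_range_add_one (n := n)) p
  exact ⟨k, by have := mem_range.1 hk; omega, h⟩

lemma measurable_Mx {α : Type*} [MeasurableSpace α] {n : ℕ} {f : ℕ → α → ℝ}
    (hf : ∀ k, Measurable (f k)) : Measurable fun x => Mx n fun k => f k x :=
  measurable_range_sup'' fun k _ => hf k

lemma integrable_Mx {α : Type*} [MeasurableSpace α] {μ : Measure α} {n : ℕ} {f : ℕ → α → ℝ}
    (hf : ∀ k, Measurable (f k)) (hi : ∀ k, Integrable (f k) μ) :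
    Integrable (fun x => Mx n fun k => f k x) μ := by
  refine Integrable.mono' (g := fun x => ∑ k ∈ range (n + 1), |f k x|)
    (integrable_finsetSum _ fun k _ => (hi k).abs) (measurable_Mx hf).aestronglyMeasurable
    (ae_of_all _ fun x => ?_)
  obtain ⟨k, hk, h⟩ := exists_Mx n fun k => f k x
  rw [h, Real.norm_eq_abs]
  exact single_le_sum (f := fun k => |f k x|) (fun _ _ => abs_nonneg _) (mem_range.2 (by omega))

/-- Expected maximum of the walk perturbed by `p`. -/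
noncomputable def F (n : ℕ) (p : ℕ → ℝ) : ℝ := ∫ z, Mx n (fun k => p k + S k z) ∂mu

lemma integrable_F (n : ℕ) (p : ℕ → ℝ) : Integrable (fun z => Mx n (fun k => p k + S k z)) mu :=
  integrable_Mx (f := fun k z => p k + S k z) (fun k => by fun_prop)
    (fun k => (integrable_const _).add (integrable_S k))

lemma measurable_F {α : Type*} [MeasurableSpace α] (n : ℕ) {f : ℕ → α → ℝ}
    (hf : ∀ k, Measurable (f k)) : Measurable fun x => F n fun k => f k x := by
  refine StronglyMeasurable.measurable ?_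
  refine StronglyMeasurable.integral_prod_right (ν := mu)
    (f := fun x z => Mx n (fun k => f k x + S k z)) (Measurable.stronglyMeasurable ?_)
  exact measurable_Mx (f := fun k (q : α × (ℕ → ℝ)) => f k q.1 + S k q.2) fun k =>
    ((hf k).comp measurable_fst).add ((measurable_S k).comp measurable_snd)

lemma F_le_add {n : ℕ} {p q : ℕ → ℝ} {c : ℝ} (h : ∀ k ≤ n, p k ≤ q k + c) :
    F n p ≤ F n q + c := by
  have : F n q + c = ∫ z, (Mx n (fun k => q k + S k z) + c) ∂mu := by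
    rw [integral_add (integrable_F n q) (integrable_const c)]
    simp [F]
  rw [this]
  refine integral_mono (integrable_F n p) ((integrable_F n q).add (integrable_const c)) fun z => ?_
  refine Mx_le fun k hk => ?_
  have h1 := le_Mx (fun k => q k + S k z) hk
  have h2 := h k hk
  linarith

lemma F_mono {n : ℕ} {p q : ℕ → ℝ} (h : ∀ k ≤ n, p k ≤ q k) : F n p ≤ F n q := by
  simpa using F_le_add (c := 0) (p := p) (q := q) (n := n) (by simpa using h)

lemma F_congr {n : ℕ} {p q : ℕ → ℝ} (h : ∀ k ≤ n, p k = q k) : F n p = F n q :=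
  le_antisymm (F_mono fun k hk => (h k hk).le) (F_mono fun k hk => (h k hk).ge)

/-- A gain on an event gives a gain in expectation. -/
lemma integral_gain {f g : (ℕ → ℝ) → ℝ} (hf : Integrable f mu) (hg : Integrable g mu)
    (h : ∀ z, f z ≤ g z) {E : Set (ℕ → ℝ)} {η : ℝ} (hη : 0 ≤ η) (hE : ∀ z ∈ E, f z + η ≤ g z) :
    ∫ z, f z ∂mu + η * mu.real E ≤ ∫ z, g z ∂mu := by
  have h1 := mul_meas_ge_le_integral_of_nonneg (μ := mu) (f := fun z => g z - f z)
    (ae_of_all _ fun z => sub_nonneg.2 (h z)) (hg.sub hf) η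
  rw [integral_sub hg hf] at h1
  have h2 : mu.real E ≤ mu.real {z | η ≤ g z - f z} :=
    measureReal_mono fun z hz => by have := hE z hz; simp only [Set.mem_ofPred_eq]; linarith
  nlinarith

lemma F_gap_aux {n : ℕ} {m p q : ℕ → ℝ} (h : ∀ k ≤ n, 2 * m k ≤ p k + q k) {E : Set (ℕ → ℝ)}
    {η : ℝ} (hη : 0 ≤ η) (hE : ∀ z ∈ E, 2 * Mx n (fun k => m k + S k z) + η ≤
      Mx n (fun k => p k + S k z) + Mx n (fun k => q k + S k z)) :
    2 * F n m + η * mu.real E ≤ F n p + F n q := by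
  have := integral_gain ((integrable_F n m).const_mul 2) ((integrable_F n p).add (integrable_F n q))
    (fun z => by
      obtain ⟨k, hk, e⟩ := exists_Mx n fun k => m k + S k z
      have h1 := le_Mx (fun k => p k + S k z) hk
      have h2 := le_Mx (fun k => q k + S k z) hk
      have h3 := h k hk
      simp only [Pi.add_apply] at h1 h2 ⊢
      linarith) hη hE
  rw [integral_const_mul] at this
  simp only [Pi.add_apply] at this
  rwa [integral_add (integrable_F n p) (integrable_F n q)] at this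

lemma F_mid {n : ℕ} {m p q : ℕ → ℝ} (h : ∀ k ≤ n, 2 * m k ≤ p k + q k) :
    2 * F n m ≤ F n p + F n q := by
  simpa using F_gap_aux h (E := ∅) (η := 0) le_rfl (by simp)

lemma F_gap {n a ha b hb : ℕ} {m g : ℕ → ℝ} {η : ℝ} (hη : 0 ≤ η)
    (hg : (∀ a' ≤ n, ∀ b' ≤ n, a' ≤ a + ha → a ≤ a' + ha → b' ≤ b + hb → b ≤ b' + hb →
      3 * η ≤ g a' - g b') ∨
      (∀ a' ≤ n, ∀ b' ≤ n, a' ≤ a + ha → a ≤ a' + ha → b' ≤ b + hb → b ≤ b' + hb →
      3 * η ≤ g b' - g a')) :
    2 * F n m + 2 * η * mu.real (TwoPeak n m a ha b hb η) ≤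
      F n (fun k => m k + g k) + F n (fun k => m k - g k) := by
  refine F_gap_aux (fun k _ => by linarith) (by linarith) ?_
  rintro z ⟨a', ha', b', hb', h1, h2, h3, h4, h5⟩
  obtain ⟨k, hk, e⟩ := exists_Mx n fun k => m k + S k z
  have h6 := h5 k hk
  rcases hg with hg | hg
  · have h7 := hg a' ha' b' hb' h1 h2 h3 h4
    have h8 := le_Mx (fun k => (m k + g k) + S k z) ha'
    have h9 := le_Mx (fun k => (m k - g k) + S k z) hb'
    linarith
  · have h7 := hg a' ha' b' hb' h1 h2 h3 h4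
    have h8 := le_Mx (fun k => (m k + g k) + S k z) hb'
    have h9 := le_Mx (fun k => (m k - g k) + S k z) ha'
    linarith

lemma F_zero_nonneg (n : ℕ) : 0 ≤ F n fun _ => 0 :=
  integral_nonneg fun z => by simpa using le_Mx (n := n) (k := 0) (fun k => 0 + S k z) (by omega)

lemma integral_abs_S_le {n : ℕ} (hn : 1 ≤ n) : ∫ z, |S n z| ∂mu ≤ √n := by
  have hn' : (0 : ℝ) < n := by exact_mod_cast hn
  have hs : 0 < √(n : ℝ) := Real.sqrt_pos.2 hn'
  have h1 : ∫ z, S n z ^ 2 ∂mu = n := by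
    have h2 := cov_S (le_refl n)
    rw [covariance_self (measurable_S n).aemeasurable,
      variance_of_integral_eq_zero (measurable_S n).aemeasurable (integral_S n)] at h2
    exact h2
  have hi : Integrable (fun z => S n z ^ 2) mu := (memLp_S n).integrable_sq
  calc ∫ z, |S n z| ∂mu ≤ ∫ z, (S n z ^ 2 / (2 * √n) + √n / 2) ∂mu := by
        refine integral_mono (integrable_S n).abs ((hi.div_const _).add (integrable_const _))
          fun z => ?_
        simp only
        rw [← sq_abs, div_add_div _ _ (by positivity) (by norm_num), le_div_iff₀ (by positivity)]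
        nlinarith [sq_nonneg (|S n z| - √n)]
    _ = √n := by
        rw [integral_add (hi.div_const _) (integrable_const _), integral_div, h1]
        simp only [integral_const, probReal_univ, smul_eq_mul, one_mul]
        field_simp
        rw [Real.sq_sqrt hn'.le]
        ring

lemma F_zero_le {n : ℕ} (hn : 1 ≤ n) : F n (fun _ => 0) ≤ 2 * √n := by
  have h0 : ∀ z, 0 ≤ Mx n (fun k => 0 + S k z) := fun z => by
    simpa using le_Mx (n := n) (k := 0) (fun k => 0 + S k z) (by omega)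
  have h1 := ofReal_integral_eq_lintegral_ofReal (integrable_F n fun _ => 0) (ae_of_all _ h0)
  have h2 := ofReal_integral_eq_lintegral_ofReal (integrable_S n).abs
    (ae_of_all _ fun z => abs_nonneg _)
  rw [lintegral_eq_lintegral_meas_lt _ (ae_of_all _ h0)
    (integrable_F n fun _ => 0).aemeasurable] at h1
  rw [lintegral_eq_lintegral_meas_lt _ (ae_of_all _ fun z => abs_nonneg _)
    (integrable_S n).abs.aemeasurable] at h2
  have h3 : ENNReal.ofReal (F n fun _ => 0) ≤ 2 * ENNReal.ofReal (∫ z, |S n z| ∂mu) := by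
    rw [F, h1, h2, ← lintegral_const_mul' _ _ (by norm_num)]
    refine lintegral_mono fun t => ?_
    calc _ ≤ mu {x | ∃ k ≤ n, t < S k x} := by
          refine measure_mono fun z hz => ?_
          obtain ⟨k, hk, e⟩ := exists_Mx n fun k => 0 + S k z
          have : t < Mx n fun k => 0 + S k z := hz
          exact ⟨k, hk, by rw [e] at this; simpa using this⟩
      _ ≤ 2 * mu {x | t < S n x} := levy_aux n t
      _ ≤ _ := by
          gcongr with x
          exact le_abs_self _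
  rw [← ENNReal.ofReal_ofNat, ← ENNReal.ofReal_mul (by norm_num), ENNReal.ofReal_le_ofReal_iff
    (by positivity)] at h3
  linarith [integral_abs_S_le hn]

end Pool.Agent.Lib.MP_b41181_pr
end

-- part Pool.Agent.Lib.MP_b41181_pr.LogConc
section

/-!
Gibbs measures with an even convex Hamiltonian: concentration through Prekopa-Leindler.
-/

open MeasureTheory ProbabilityTheory Finset
open scoped ENNReal NNReal

namespace Pool.Agent.Lib.MP_b41181_pr

/-- Even, midpoint convex, nonnegative Hamiltonians depending on the first `n` steps. -/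
structure IsHam (n : ℕ) (V : (ℕ → ℝ) → ℝ) : Prop where
  meas : Measurable V
  nonneg : ∀ x, 0 ≤ V x
  dep : ∀ x y, (∀ i < n, x i = y i) → V x = V y
  even : ∀ x, V (-x) = V x
  conv : ∀ x y, 2 * V ((1 / 2 : ℝ) • (x + y)) ≤ V x + V y

/-- Unnormalised weight. -/
noncomputable def Wt (V : (ℕ → ℝ) → ℝ) (A : Set (ℕ → ℝ)) : ℝ := ∫ x in A, Real.exp (-V x) ∂mu

/-- The Gibbs measure. -/
noncomputable def Gibbs (V : (ℕ → ℝ) → ℝ) : Measure (ℕ → ℝ) := mu.tilted fun x => -V x

lemma integrable_exp_neg {V : (ℕ → ℝ) → ℝ} (hm : Measurable V) (h0 : ∀ x, 0 ≤ V x) :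
    Integrable (fun x => Real.exp (-V x)) mu := by
  refine Integrable.mono' (integrable_const 1) (by fun_prop) (ae_of_all _ fun x => ?_)
  rw [Real.norm_eq_abs, abs_of_pos (Real.exp_pos _), Real.exp_le_one_iff]
  linarith [h0 x]

lemma Wt_nonneg (V : (ℕ → ℝ) → ℝ) (A : Set (ℕ → ℝ)) : 0 ≤ Wt V A :=
  integral_nonneg fun _ => (Real.exp_pos _).le

lemma Wt_univ_pos {V : (ℕ → ℝ) → ℝ} (hm : Measurable V) (h0 : ∀ x, 0 ≤ V x) :
    0 < Wt V Set.univ := by
  rw [Wt, Measure.restrict_univ]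
  exact integral_exp_pos (integrable_exp_neg hm h0)

lemma IsHam.isProb {n : ℕ} {V : (ℕ → ℝ) → ℝ} (hV : IsHam n V) :
    IsProbabilityMeasure (Gibbs V) :=
  isProbabilityMeasure_tilted (integrable_exp_neg hV.meas hV.nonneg)

lemma Gibbs_real (V : (ℕ → ℝ) → ℝ) {A : Set (ℕ → ℝ)} (hA : MeasurableSet A) :
    (Gibbs V).real A = Wt V A / Wt V Set.univ := by
  rw [Measure.real, Gibbs, tilted_apply_eq_ofReal_integral' _ hA, ENNReal.toReal_ofReal
    (integral_nonneg fun x => div_nonneg (Real.exp_pos _).le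
      (integral_nonneg fun _ => (Real.exp_pos _).le)), integral_div, Wt, Wt, Measure.restrict_univ]

lemma Wt_neg {n : ℕ} {V : (ℕ → ℝ) → ℝ} (hV : IsHam n V) {A : Set (ℕ → ℝ)}
    (hA : MeasurableSet A) : Wt V {x | -x ∈ A} = Wt V A := by
  have h1 := mp_neg.setIntegral_preimage_emb (MeasurableEquiv.neg (ℕ → ℝ)).measurableEmbedding
    (fun x => Real.exp (-V x)) A
  simp only [hV.even] at h1
  exact h1

lemma Gibbs_neg {n : ℕ} {V : (ℕ → ℝ) → ℝ} (hV : IsHam n V) {A : Set (ℕ → ℝ)}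
    (hA : MeasurableSet A) : (Gibbs V).real {x | -x ∈ A} = (Gibbs V).real A := by
  rw [Gibbs_real V hA, Gibbs_real V (A := {x | -x ∈ A}) (measurable_neg hA), Wt_neg hV hA]

lemma lintegral_Wt {V : (ℕ → ℝ) → ℝ} (hm : Measurable V) (h0 : ∀ x, 0 ≤ V x) {A : Set (ℕ → ℝ)}
    (hA : MeasurableSet A) :
    ∫⁻ x, A.indicator (fun x => ENNReal.ofReal (Real.exp (-V x))) x ∂mu =
      ENNReal.ofReal (Wt V A) := by
  rw [lintegral_indicator hA, Wt, ofReal_integral_eq_lintegral_ofReal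
    (integrable_exp_neg hm h0).integrableOn (ae_of_all _ fun x => (Real.exp_pos _).le)]

theorem plq {n : ℕ} {V : (ℕ → ℝ) → ℝ} (hV : IsHam n V) {A B C : Set (ℕ → ℝ)}
    (hA : MeasurableSet A) (hB : MeasurableSet B) (hC : MeasurableSet C)
    (dA : ∀ x y, (∀ i < n, x i = y i) → (x ∈ A ↔ y ∈ A))
    (dB : ∀ x y, (∀ i < n, x i = y i) → (x ∈ B ↔ y ∈ B)) {ε : ℝ} (hε : 0 ≤ ε)
    (H : ∀ x ∈ A, ∀ y ∈ B, (1 / 2 : ℝ) • (x + y) ∉ C →
      Real.exp (-(∑ i ∈ range n, (x i - y i) ^ 2) / 4 -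
        (V x + V y - 2 * V ((1 / 2 : ℝ) • (x + y)))) ≤ ε ^ 2) :
    (Gibbs V).real A * (Gibbs V).real B ≤ (ε + (Gibbs V).real C) ^ 2 := by
  classical
  have hm := hV.meas
  have hw : Measurable fun x => ENNReal.ofReal (Real.exp (-V x)) := by fun_prop
  have hw1 : ∀ x, ENNReal.ofReal (Real.exp (-V x)) ≤ 1 := fun x => by
    rw [ENNReal.ofReal_le_one, Real.exp_le_one_iff]
    linarith [hV.nonneg x]
  have hd : ∀ {A : Set (ℕ → ℝ)}, (∀ x y, (∀ i < n, x i = y i) → (x ∈ A ↔ y ∈ A)) →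
      ∀ x y, (∀ i < n, x i = y i) →
        A.indicator (fun x => ENNReal.ofReal (Real.exp (-V x))) x =
        A.indicator (fun x => ENNReal.ofReal (Real.exp (-V x))) y := by
    intro A dA x y hxy
    simp only [Set.indicator_apply, dA x y hxy, hV.dep x y hxy]
  have key := pl_mu n (f := A.indicator fun x => ENNReal.ofReal (Real.exp (-V x)))
    (g := B.indicator fun x => ENNReal.ofReal (Real.exp (-V x)))
    (h := fun x => ENNReal.ofReal ε * ENNReal.ofReal (Real.exp (-V x)) +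
      C.indicator (fun x => ENNReal.ofReal (Real.exp (-V x))) x)
    (hw.indicator hA) (hw.indicator hB) ((hw.const_mul _).add (hw.indicator hC))
    (fun x => (Set.indicator_le_self _ _ x).trans (hw1 x))
    (fun x => (Set.indicator_le_self _ _ x).trans (hw1 x)) (hd dA) (hd dB) (fun x y => by
      by_cases hx : x ∈ A
      swap
      · simp [hx]
      by_cases hy : y ∈ B
      swap
      · simp [hy]
      rw [Set.indicator_of_mem hx, Set.indicator_of_mem hy,
        ← ENNReal.ofReal_mul (Real.exp_pos _).le, ← ENNReal.ofReal_mul (by positivity),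
        ← Real.exp_add, ← Real.exp_add]
      set m := (1 / 2 : ℝ) • (x + y) with hm
      have hsq : Real.exp (-V m) ^ 2 = Real.exp (-(2 * V m)) := by
        rw [← Real.exp_nat_mul]; congr 1; push_cast; ring
      by_cases hc : m ∈ C
      · refine le_trans ?_ (pow_le_pow_left' le_add_self 2)
        rw [Set.indicator_of_mem hc, ← ENNReal.ofReal_pow (Real.exp_pos _).le, hsq]
        refine ENNReal.ofReal_le_ofReal (Real.exp_le_exp.2 ?_)
        have h1 := hV.conv x y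
        have h2 : 0 ≤ ∑ i ∈ range n, (x i - y i) ^ 2 := sum_nonneg fun _ _ => sq_nonneg _
        linarith
      · refine le_trans ?_ (pow_le_pow_left' le_self_add 2)
        rw [← ENNReal.ofReal_mul hε, ← ENNReal.ofReal_pow (by positivity), mul_pow, hsq]
        refine ENNReal.ofReal_le_ofReal ?_
        refine le_trans (le_of_eq ?_)
          (mul_le_mul_of_nonneg_right (H x hx y hy hc) (Real.exp_pos _).le)
        rw [← Real.exp_add]
        congr 1
        ring)
  rw [lintegral_add_left (hw.const_mul _), lintegral_const_mul _ hw, lintegral_Wt hm hV.nonneg hA,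
    lintegral_Wt hm hV.nonneg hB, lintegral_Wt hm hV.nonneg hC] at key
  have e := lintegral_Wt hm hV.nonneg MeasurableSet.univ
  rw [Set.indicator_univ] at e
  rw [e, ← ENNReal.ofReal_mul hε, ← ENNReal.ofReal_mul (Wt_nonneg _ _),
    ← ENNReal.ofReal_add (mul_nonneg hε (Wt_nonneg _ _)) (Wt_nonneg _ _),
    ← ENNReal.ofReal_pow (add_nonneg (mul_nonneg hε (Wt_nonneg _ _)) (Wt_nonneg _ _)),
    ENNReal.ofReal_le_ofReal_iff (sq_nonneg _)] at key
  have hZ := Wt_univ_pos hm hV.nonneg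
  rw [Gibbs_real V hA, Gibbs_real V hB, Gibbs_real V hC, div_mul_div_comm,
    div_le_iff₀ (by positivity)]
  refine key.trans (le_of_eq ?_)
  field_simp

lemma sq_S_sub_le (x : ℕ → ℝ) {a b n : ℕ} (hab : a ≤ b) (hb : b ≤ n) :
    (S b x - S a x) ^ 2 ≤ ((b - a : ℕ) : ℝ) * ∑ i ∈ range n, x i ^ 2 := by
  have h1 : S b x - S a x = ∑ i ∈ Ico a b, x i := (sum_Ico_eq_sub _ hab).symm
  rw [h1]
  refine sq_sum_le_card_mul_sum_sq.trans ?_
  rw [Nat.card_Ico]
  refine mul_le_mul_of_nonneg_left (sum_le_sum_of_subset_of_nonneg ?_ fun _ _ _ => sq_nonneg _)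
    (by positivity)
  intro i hi
  have := (mem_Ico.1 hi).2
  exact mem_range.2 (by omega)

lemma measurableSet_incr (a b : ℕ) (y : ℝ) : MeasurableSet {x | y ≤ S b x - S a x} :=
  measurableSet_le measurable_const ((measurable_S b).sub (measurable_S a))

lemma dep_incr {n a b : ℕ} (ha : a ≤ n) (hb : b ≤ n) (P : ℝ → Prop) (x y : ℕ → ℝ)
    (h : ∀ i < n, x i = y i) :
    x ∈ {x | P (S b x - S a x)} ↔ y ∈ {x | P (S b x - S a x)} := by
  simp only [Set.mem_ofPred_eq, S_congr h ha, S_congr h hb]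

lemma Gibbs_incr_symm {n : ℕ} {V : (ℕ → ℝ) → ℝ} (hV : IsHam n V) (a b : ℕ) (y : ℝ) :
    (Gibbs V).real {x | y ≤ S a x - S b x} = (Gibbs V).real {x | y ≤ S b x - S a x} := by
  rw [← Gibbs_neg hV (measurableSet_incr a b y)]
  congr 1
  ext x
  simp only [Set.mem_ofPred_eq, S_neg]
  constructor <;> intro h <;> linarith

/-- Sub-Gaussian increments. -/
lemma Gibbs_subg {n : ℕ} {V : (ℕ → ℝ) → ℝ} (hV : IsHam n V) {a b : ℕ} (hab : a ≤ b) (hb : b ≤ n)
    {y d : ℝ} (hy : 0 ≤ y) (hd : 0 < d) (hbd : ((b - a : ℕ) : ℝ) ≤ d) :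
    (Gibbs V).real {x | y ≤ S b x - S a x} ≤ Real.exp (-y ^ 2 / (2 * d)) := by
  have h1 := plq hV (measurableSet_incr a b y) (measurableSet_incr b a y) MeasurableSet.empty
    (dep_incr (by omega) hb (y ≤ ·)) (dep_incr hb (by omega) (y ≤ ·))
    (ε := Real.exp (-y ^ 2 / (2 * d))) (Real.exp_pos _).le (by
      intro x hx z hz _
      rw [← Real.exp_nat_mul, Real.exp_le_exp]
      have h2 := hV.conv x z
      have h3 := sq_S_sub_le (x - z) hab hb
      have hx' : y ≤ S b x - S a x := hx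
      have hz' : y ≤ S a z - S b z := hz
      rw [S_sub, S_sub] at h3
      have h4 : (2 * y) ^ 2 ≤ (S b x - S b z - (S a x - S a z)) ^ 2 :=
        pow_le_pow_left₀ (by linarith) (by linarith) 2
      have h5 : 0 ≤ ∑ i ∈ range n, (x i - z i) ^ 2 := sum_nonneg fun _ _ => sq_nonneg _
      simp only [Pi.sub_apply] at h3
      have h6 : 4 * y ^ 2 ≤ d * ∑ i ∈ range n, (x i - z i) ^ 2 := by nlinarith
      have h7 : y ^ 2 / d ≤ (∑ i ∈ range n, (x i - z i) ^ 2) / 4 := by
        rw [div_le_div_iff₀ hd (by norm_num)]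
        linarith
      have h8 : ((2 : ℕ) : ℝ) * (-y ^ 2 / (2 * d)) = -(y ^ 2 / d) := by
        push_cast
        field_simp
      rw [h8]
      linarith)
  rw [Gibbs_incr_symm hV a b, measureReal_empty, add_zero, ← sq] at h1
  exact (pow_le_pow_iff_left₀ measureReal_nonneg (Real.exp_pos _).le (by norm_num)).1 h1

lemma Gibbs_abs_le {n : ℕ} {V : (ℕ → ℝ) → ℝ} (hV : IsHam n V) (a b : ℕ) (y : ℝ) :
    (Gibbs V).real {x | y ≤ |S b x - S a x|} ≤ 2 * (Gibbs V).real {x | y ≤ S b x - S a x} := by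
  have := hV.isProb
  have h1 : (Gibbs V).real {x | y ≤ |S b x - S a x|} ≤
      (Gibbs V).real {x | y ≤ S b x - S a x} + (Gibbs V).real {x | y ≤ S a x - S b x} := by
    refine le_trans (measureReal_mono ?_) (measureReal_union_le _ _)
    intro x hx
    rcases le_abs.1 (show y ≤ |S b x - S a x| from hx) with h | h
    · exact Or.inl h
    · exact Or.inr (by simp only [Set.mem_ofPred_eq]; linarith)
  rw [Gibbs_incr_symm hV a b] at h1
  linarith

lemma Gibbs_subg_abs {n : ℕ} {V : (ℕ → ℝ) → ℝ} (hV : IsHam n V) {a b : ℕ} (ha : a ≤ n)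
    (hb : b ≤ n) {d : ℕ} (hd : 0 < d) (h1 : a ≤ b + d) (h2 : b ≤ a + d) {y : ℝ} (hy : 0 ≤ y) :
    (Gibbs V).real {x | y ≤ |S b x - S a x|} ≤ 2 * Real.exp (-y ^ 2 / (2 * d)) := by
  refine (Gibbs_abs_le hV a b y).trans (mul_le_mul_of_nonneg_left ?_ (by norm_num))
  rcases le_total a b with h | h
  · exact Gibbs_subg hV h hb hy (by exact_mod_cast hd) (by exact_mod_cast (by omega))
  · rw [← Gibbs_incr_symm hV a b]
    exact Gibbs_subg hV h ha hy (by exact_mod_cast hd) (by exact_mod_cast (by omega))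

/-- Log-concavity of the tail: doubling. -/
lemma Gibbs_double {n : ℕ} {V : (ℕ → ℝ) → ℝ} (hV : IsHam n V) {a b : ℕ} (ha : a ≤ n) (hb : b ≤ n)
    (y : ℝ) : (Gibbs V).real {x | 2 * y ≤ S b x - S a x} ≤
      2 * (Gibbs V).real {x | y ≤ S b x - S a x} ^ 2 := by
  have := hV.isProb
  have h1 := plq hV (measurableSet_incr a b (2 * y)) (measurableSet_incr a b 0)
    (measurableSet_incr a b y) (dep_incr ha hb (2 * y ≤ ·)) (dep_incr ha hb (0 ≤ ·))
    (ε := 0) le_rfl (by
      intro x hx z hz h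
      refine absurd ?_ h
      have hx' : 2 * y ≤ S b x - S a x := hx
      have hz' : 0 ≤ S b z - S a z := hz
      simp only [Set.mem_ofPred_eq, S_smul, S_add]
      linarith)
  have h2 := Gibbs_abs_le hV a b 0
  have h3 : {x | 0 ≤ |S b x - S a x|} = Set.univ := by ext x; simp
  rw [h3, probReal_univ] at h2
  rw [zero_add] at h1
  have h4 : 0 ≤ (Gibbs V).real {x | 2 * y ≤ S b x - S a x} := measureReal_nonneg
  nlinarith

lemma Gibbs_tail {n : ℕ} {V : (ℕ → ℝ) → ℝ} (hV : IsHam n V) {a b : ℕ} (ha : a ≤ n) (hb : b ≤ n)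
    {y : ℝ} (h : (Gibbs V).real {x | y ≤ S b x - S a x} ≤ 1 / 8) (j : ℕ) :
    2 * (Gibbs V).real {x | 2 ^ j * y ≤ S b x - S a x} ≤ (1 / 4) ^ (2 ^ j) := by
  induction j with
  | zero => simp only [pow_zero, one_mul, pow_one]; linarith
  | succ j ih =>
    have h1 := Gibbs_double hV ha hb (2 ^ j * y)
    rw [pow_succ 2 j, pow_succ 2 j, pow_mul, mul_comm ((2 : ℝ) ^ j) 2, mul_assoc]
    have h2 := pow_le_pow_left₀ (mul_nonneg (by norm_num) measureReal_nonneg) ih 2
    nlinarith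

/-- Chaining for processes with sub-Gaussian increments. -/
lemma chaining {Ω : Type*} [MeasurableSpace Ω] {Q : Measure Ω} [IsFiniteMeasure Q]
    {p : ℕ → Ω → ℝ}
    (h : ∀ a d : ℕ, 0 < d → ∀ y, 0 ≤ y →
      Q.real {x | y ≤ |p (a + d) x - p a x|} ≤ 2 * Real.exp (-y ^ 2 / (2 * d))) (j : ℕ) :
    ∀ (a : ℕ) (R : ℝ), 3 ≤ R →
      Q.real {x | ∃ k < 2 ^ j, 5 * R * √(2 ^ j) < |p (a + k) x - p a x|} ≤
        4 * Real.exp (-R ^ 2 / 2) := by
  induction j with
  | zero =>
    intro a R hR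
    have : {x | ∃ k < 2 ^ 0, 5 * R * √(2 ^ 0) < |p (a + k) x - p a x|} = ∅ := by
      ext x
      simp
      linarith
    rw [this, measureReal_empty]
    positivity
  | succ j ih =>
    intro a R hR
    set s := √((2 : ℝ) ^ j) with hs
    have hs0 : 0 < s := Real.sqrt_pos.2 (by positivity)
    have hs2 : s ^ 2 = 2 ^ j := Real.sq_sqrt (by positivity)
    have h1 := ih a (6 / 5 * R) (by linarith)
    have h2 := ih (a + 2 ^ j) (6 / 5 * R) (by linarith)
    have h3 := h a (2 ^ j) (by positivity) (R * s) (by positivity)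
    have e : -(R * s) ^ 2 / (2 * ((2 ^ j : ℕ) : ℝ)) = -R ^ 2 / 2 := by
      push_cast
      rw [mul_pow, hs2]
      field_simp
    rw [e] at h3
    have h4 : 7 / 5 * s ≤ √((2 : ℝ) ^ (j + 1)) := by
      refine Real.le_sqrt_of_sq_le ?_
      rw [mul_pow, hs2, pow_succ 2 j]
      have : (0 : ℝ) < 2 ^ j := by positivity
      linarith
    have h5 : Q.real {x | ∃ k < 2 ^ (j + 1), 5 * R * √(2 ^ (j + 1)) < |p (a + k) x - p a x|} ≤
        Q.real {x | ∃ k < 2 ^ j, 5 * (6 / 5 * R) * s < |p (a + k) x - p a x|} +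
        (Q.real {x | ∃ k < 2 ^ j, 5 * (6 / 5 * R) * s < |p (a + 2 ^ j + k) x - p (a + 2 ^ j) x|} +
        Q.real {x | R * s ≤ |p (a + 2 ^ j) x - p a x|}) := by
      refine le_trans (measureReal_mono ?_) ((measureReal_union_le _ _).trans
        (add_le_add le_rfl (measureReal_union_le _ _)))
      rintro x ⟨k, hk, hx⟩
      have hx' : 7 * (R * s) < |p (a + k) x - p a x| := by nlinarith
      have hRs : 0 < R * s := by positivity
      rcases lt_or_ge k (2 ^ j) with h6 | h6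
      · exact Or.inl ⟨k, h6, by linarith⟩
      · obtain ⟨i, rfl⟩ := Nat.exists_eq_add_of_le h6
        by_cases h7 : R * s ≤ |p (a + 2 ^ j) x - p a x|
        · exact Or.inr (Or.inr h7)
        · refine Or.inr (Or.inl ⟨i, by rw [pow_succ] at hk; omega, ?_⟩)
          have h8 := abs_sub_le (p (a + (2 ^ j + i)) x) (p (a + 2 ^ j) x) (p a x)
          rw [add_assoc]
          linarith
    have h6 : Real.exp (-(6 / 5 * R) ^ 2 / 2) ≤ 1 / 4 * Real.exp (-R ^ 2 / 2) := by
      have h7 : Real.exp (-(3 / 2)) ≤ 1 / 4 := by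
        have h8 : Real.exp (3 / 2) = Real.exp 1 * Real.exp (1 / 2) := by
          rw [← Real.exp_add]; norm_num
        have h9 := Real.add_one_le_exp (1 / 2 : ℝ)
        have h10 := Real.exp_one_gt_d9
        rw [Real.exp_neg, one_div]
        exact inv_anti₀ (by norm_num) (by nlinarith)
      refine le_trans ?_ (mul_le_mul_of_nonneg_right h7 (Real.exp_pos _).le)
      rw [← Real.exp_add, Real.exp_le_exp]
      nlinarith
    linarith

/-- Oscillation around a point, on a window of length `2 ^ j` on both sides. -/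
lemma Gibbs_window {n : ℕ} {V : (ℕ → ℝ) → ℝ} (hV : IsHam n V) {s : ℕ} (hs : s ≤ n) (j : ℕ)
    {R : ℝ} (hR : 3 ≤ R) :
    (Gibbs V).real {x | ∃ k ≤ n, k < s + 2 ^ j ∧ s < k + 2 ^ j ∧
      5 * R * √(2 ^ j) < |S k x - S s x|} ≤ 8 * Real.exp (-R ^ 2 / 2) := by
  have := hV.isProb
  have h1 := chaining (Q := Gibbs V) (p := fun k x => S (min (s + k) n) x) (fun a d hd y hy =>
    Gibbs_subg_abs hV (by omega) (by omega) hd (by omega) (by omega) hy) j 0 R hR
  have h2 := chaining (Q := Gibbs V) (p := fun k x => S (s - k) x) (fun a d hd y hy =>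
    Gibbs_subg_abs hV (by omega) (by omega) hd (by omega) (by omega) hy) j 0 R hR
  refine le_trans (le_trans (measureReal_mono ?_) (measureReal_union_le _ _))
    ((add_le_add h1 h2).trans (by linarith))
  rintro x ⟨k, hk, h3, h4, hx⟩
  rcases le_total s k with h5 | h5
  · refine Or.inl ⟨k - s, by omega, ?_⟩
    rwa [show min (s + (0 + (k - s))) n = k by omega, show min (s + 0) n = s by omega]
  · refine Or.inr ⟨s - k, by omega, ?_⟩
    rwa [show s - (0 + (s - k)) = k by omega, show s - 0 = s by omega]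

end Pool.Agent.Lib.MP_b41181_pr
end

-- part Pool.Agent.Lib.MP_b41181_pr.Chain
section

/-!
Deterministic multi-scale argument.
-/

open Finset

namespace Pool.Agent.Lib.MP_b41181_pr

lemma abs_S_sub_le (u : ℕ → ℝ) {lo hi a k d : ℕ} (h1 : lo ≤ a) (h2 : lo ≤ k) (h3 : a ≤ hi)
    (h4 : k ≤ hi) (h5 : k ≤ a + d) (h6 : a ≤ k + d) {e η : ℝ} (hη : 0 ≤ η)
    (he : ∑ i ∈ Ico lo hi, u i ^ 2 ≤ e) (h : d * e ≤ η ^ 2) : |S k u - S a u| ≤ η := by
  have key : ∀ a b : ℕ, lo ≤ a → a ≤ b → b ≤ hi → b ≤ a + d → (S b u - S a u) ^ 2 ≤ η ^ 2 := by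
    intro a b h1 h2 h3 h4
    have e1 : S b u - S a u = ∑ i ∈ Ico a b, u i := (sum_Ico_eq_sub _ h2).symm
    rw [e1]
    refine sq_sum_le_card_mul_sum_sq.trans (le_trans ?_ h)
    rw [Nat.card_Ico]
    refine mul_le_mul (by exact_mod_cast (by omega)) (le_trans ?_ he)
      (sum_nonneg fun _ _ => sq_nonneg _) (by positivity)
    exact sum_le_sum_of_subset_of_nonneg (Ico_subset_Ico h1 h3) fun _ _ _ => sq_nonneg _
  rcases le_total a k with h7 | h7
  · exact abs_le_of_sq_le_sq' (key a k h1 h7 h4 h5) hη |> abs_le.2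
  · rw [abs_sub_comm]
    exact abs_le_of_sq_le_sq' (key k a h2 h7 h3 h6) hη |> abs_le.2

/-- The values of the path on two windows are not separated by `3 η`. -/
def Close (n : ℕ) (u : ℕ → ℝ) (η : ℝ) (a ha b hb : ℕ) : Prop :=
  (∃ a' ≤ n, ∃ b' ≤ n, a' ≤ a + ha ∧ a ≤ a' + ha ∧ b' ≤ b + hb ∧ b ≤ b' + hb ∧
    S a' u - S b' u < 3 * η) ∧
  (∃ a' ≤ n, ∃ b' ≤ n, a' ≤ a + ha ∧ a ≤ a' + ha ∧ b' ≤ b + hb ∧ b ≤ b' + hb ∧
    S b' u - S a' u < 3 * η)

lemma Close.le {n : ℕ} {u : ℕ → ℝ} {η : ℝ} {a ha b hb : ℕ} (h : Close n u η a ha b hb)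
    {α β θa θb : ℝ} (h1 : ∀ k ≤ n, k ≤ a + ha → a ≤ k + ha → |S k u - α| ≤ θa)
    (h2 : ∀ k ≤ n, k ≤ b + hb → b ≤ k + hb → |S k u - β| ≤ θb) :
    |α - β| ≤ 3 * η + θa + θb := by
  obtain ⟨⟨a1, i1, b1, i2, i3, i4, i5, i6, i7⟩, ⟨a2, j1, b2, j2, j3, j4, j5, j6, j7⟩⟩ := h
  have e1 := abs_le.1 (h1 a1 i1 i3 i4)
  have e2 := abs_le.1 (h2 b1 i2 i5 i6)
  have e3 := abs_le.1 (h1 a2 j1 j3 j4)
  have e4 := abs_le.1 (h2 b2 j2 j5 j6)
  rw [abs_le]
  constructor <;> linarith

/-- Points around which the path has small oscillation. -/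
def GoodPt (n : ℕ) (u : ℕ → ℝ) (η : ℝ) (hs a : ℕ) : Prop :=
  ∀ k ≤ n, k ≤ a + 3 * hs → a ≤ k + 3 * hs → |S k u - S a u| ≤ η

lemma sum_blocks (f : ℕ → ℝ) (p L M : ℕ) :
    ∑ i ∈ range M, ∑ j ∈ Ico (p + i * L) (p + (i + 1) * L), f j = ∑ j ∈ Ico p (p + M * L), f j := by
  induction M with
  | zero => simp
  | succ M ih =>
    rw [sum_range_succ, ih, sum_Ico_consecutive _ (by omega) (by rw [add_mul]; omega)]

lemma exists_good_window {n : ℕ} {u : ℕ → ℝ} {η : ℝ} (hη : 0 ≤ η) {hs M : ℕ} (hM0 : 0 < M)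
    (hu : ∑ i ∈ range n, u i ^ 2 ≤ 16) (hM : 48 * (hs : ℝ) ≤ M * η ^ 2) {p L : ℕ}
    (hp : p + M * (3 * L) ≤ n) (hL : 3 * hs ≤ L) :
    ∃ q, p + L ≤ q ∧ q + 2 * L ≤ p + M * (3 * L) ∧ ∀ a, q ≤ a → a ≤ q + L → GoodPt n u η hs a := by
  have hM' : (0 : ℝ) < M := by exact_mod_cast hM0
  obtain ⟨i, hi, he⟩ := exists_le_of_sum_le (s := range M)
    (f := fun i => ∑ j ∈ Ico (p + i * (3 * L)) (p + (i + 1) * (3 * L)), u j ^ 2)
    (g := fun _ => 16 / (M : ℝ)) ⟨0, mem_range.2 hM0⟩ (by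
      rw [sum_blocks, sum_const, card_range, nsmul_eq_mul, mul_div_cancel₀ _ hM'.ne']
      refine le_trans (sum_le_sum_of_subset_of_nonneg ?_ fun _ _ _ => sq_nonneg _) hu
      intro j hj
      have := (mem_Ico.1 hj).2
      exact mem_range.2 (by omega))
  have hi' : (i + 1) * (3 * L) ≤ M * (3 * L) := Nat.mul_le_mul_right _ (mem_range.1 hi)
  rw [add_mul, one_mul] at hi' he
  refine ⟨p + i * (3 * L) + L, by omega, by omega, fun a h1 h2 k hk h3 h4 => ?_⟩
  refine abs_S_sub_le u (d := 3 * hs) (by omega) (by omega) (by omega) (by omega) h3 h4 hη he ?_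
  push_cast
  rw [← mul_div_assoc, div_le_iff₀ hM']
  linarith

theorem chain_bound {n : ℕ} {u : ℕ → ℝ} {η : ℝ} (hη : 0 ≤ η) {OK : ℕ → ℕ → Prop}
    {h0 hs M Λ J Γ s : ℕ} (hu : ∑ i ∈ range n, u i ^ 2 ≤ 16)
    (hP : ∀ a ha hb D, a + D ≤ n → 3 * ha ≤ D → 3 * hb ≤ D → D ≤ Γ * ha → D ≤ Γ * hb →
      OK a ha → OK (a + D) hb → Close n u η a ha (a + D) hb)
    (hOK : ∀ a ≤ n, ∀ h, hs ≤ h → OK a h) (hOK0 : OK 0 h0) (hOKs : OK s h0) (hsn : s ≤ n)
    (hh0 : 16 * (h0 : ℝ) ≤ η ^ 2) (hh : h0 ≤ hs) (hM0 : 0 < M)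
    (hM : 48 * (hs : ℝ) ≤ M * η ^ 2) (hΛ : 1 ≤ Λ) (hJ : n ≤ Λ ^ J * hs)
    (hΓ1 : 36 * M * Λ ≤ Γ) (hΓ2 : 24 * M * hs ≤ Γ * h0) :
    |S s u| ≤ 15 * 2 ^ J * η := by
  have hu' : ∑ i ∈ Ico 0 n, u i ^ 2 ≤ 16 := by rwa [← range_eq_Ico]
  have hΓ3 : 36 * M ≤ Γ := le_trans (Nat.le_mul_of_pos_right _ hΛ) hΓ1
  have hloc : ∀ a ≤ n, ∀ k ≤ n, k ≤ a + h0 → a ≤ k + h0 → |S k u - S a u| ≤ η :=
    fun a ha k hk h1 h2 => abs_S_sub_le u (Nat.zero_le _) (Nat.zero_le _) ha hk h1 h2 hη hu'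
      (by linarith)
  have hgood : ∀ a, GoodPt n u η hs a → ∀ k ≤ n, k ≤ a + hs → a ≤ k + hs → |S k u - S a u| ≤ η :=
    fun a ha k hk h1 h2 => ha k hk (by omega) (by omega)
  -- multi-scale bound for good points
  have main : ∀ j : ℕ, ∀ a D, a + D ≤ n → D ≤ 36 * M * (Λ ^ j * hs) → GoodPt n u η hs a →
      GoodPt n u η hs (a + D) → |S a u - S (a + D) u| ≤ (8 * 2 ^ j - 3) * η := by
    intro j
    induction j with
    | zero =>
      intro a D h1 h2 ha hb
      rcases le_total D (3 * hs) with h3 | h3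
      · have := ha (a + D) h1 (by omega) (by omega)
        rw [abs_sub_comm]
        norm_num
        linarith
      · have h4 : D ≤ Γ * hs := by
          simp only [pow_zero, one_mul] at h2
          exact h2.trans (Nat.mul_le_mul_right _ hΓ3)
        have := (hP a hs hs D h1 h3 h3 h4 h4 (hOK _ (by omega) _ le_rfl)
          (hOK _ h1 _ le_rfl)).le (hgood a ha) (hgood _ hb)
        norm_num
        linarith
    | succ j ih =>
      intro a D h1 h2 ha hb
      have hp : (1 : ℝ) ≤ 2 ^ j := one_le_pow₀ (by norm_num)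
      rcases le_total D (36 * M * (Λ ^ j * hs)) with h3 | h3
      · refine (ih a D h1 h3 ha hb).trans (mul_le_mul_of_nonneg_right ?_ hη)
        rw [pow_succ]
        linarith
      set h := Λ ^ j * hs with hh'
      have hhs : hs ≤ h := Nat.le_mul_of_pos_left _ (by positivity)
      have hMh : h ≤ M * h := Nat.le_mul_of_pos_left _ hM0
      have e1 : M * (3 * (4 * h)) = 12 * (M * h) := by ring
      have e2 : 36 * M * h = 36 * (M * h) := by ring
      rw [e2] at h3 ih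
      obtain ⟨q1, i1, i2, i3⟩ := exists_good_window hη hM0 hu hM (p := a) (L := 4 * h)
        (by omega) (by omega)
      obtain ⟨q2, j1, j2, j3⟩ := exists_good_window hη hM0 hu hM (p := a + D - 12 * (M * h))
        (L := 4 * h) (by omega) (by omega)
      rw [e1] at i2 j2
      have h4 : q2 - q1 ≤ Γ * (2 * h) := by
        calc q2 - q1 ≤ D := by omega
          _ ≤ 36 * M * (Λ ^ (j + 1) * hs) := h2
          _ = 36 * M * Λ * h := by rw [hh']; ring
          _ ≤ Γ * h := Nat.mul_le_mul_right _ hΓ1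
          _ ≤ Γ * (2 * h) := Nat.mul_le_mul_left _ (by omega)
      have := (hP (q1 + 2 * h) (2 * h) (2 * h) (q2 - q1) (by omega) (by omega) (by omega) h4 h4
        (hOK _ (by omega) _ (by omega)) (hOK _ (by omega) _ (by omega))).le
        (α := S a u) (β := S (a + D) u) (θa := (8 * 2 ^ j - 3) * η) (θb := (8 * 2 ^ j - 3) * η)
        (fun k hk k1 k2 => by
          have := ih a (k - a) (by omega) (by omega) ha
            (by rw [show a + (k - a) = k by omega]; exact i3 k (by omega) (by omega))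
          rwa [show a + (k - a) = k by omega, abs_sub_comm] at this)
        (fun k hk k1 k2 => by
          have := ih k (a + D - k) (by omega) (by omega) (j3 k (by omega) (by omega))
            (by rw [show k + (a + D - k) = a + D by omega]; exact hb)
          rwa [show k + (a + D - k) = a + D by omega] at this)
      refine this.trans (le_of_eq ?_)
      ring
  have hp : (1 : ℝ) ≤ 2 ^ J := one_le_pow₀ (by norm_num)
  have e1 : M * (3 * (4 * hs)) = 12 * (M * hs) := by ring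
  have e2 : 24 * M * hs = 24 * (M * hs) := by ring
  have hMh : hs ≤ M * hs := Nat.le_mul_of_pos_left _ hM0
  have e3 : 36 * (M * hs) ≤ Γ * hs := by
    rw [← mul_assoc]; exact Nat.mul_le_mul_right _ hΓ3
  rw [e2] at hΓ2
  rcases le_total n (24 * (M * hs)) with hn | hn
  · -- short time horizon
    rcases le_total s (3 * h0) with h1 | h1
    · have := abs_S_sub_le u (lo := 0) (hi := n) (a := 0) (k := s) (d := 3 * h0) (η := 2 * η)
        le_rfl (Nat.zero_le _) (Nat.zero_le _) hsn (by omega) (by omega) (by linarith) hu'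
        (by push_cast; nlinarith [sq_nonneg η])
      rw [S_zero, sub_zero] at this
      nlinarith
    · have := (hP 0 h0 h0 s (by omega) h1 h1 (by omega) (by omega) hOK0 (by simpa using hOKs)).le
        (hloc 0 (by omega)) (hloc (0 + s) (by omega))
      rw [S_zero, zero_add, zero_sub, abs_neg] at this
      nlinarith
  · have near : ∀ p ≤ n, OK p h0 → ∃ a ≤ n, GoodPt n u η hs a ∧ |S p u - S a u| ≤ 5 * η := by
      intro p hp hOKp
      rcases le_total (p + 12 * (M * hs)) n with h1 | h1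
      · obtain ⟨q, i1, i2, i3⟩ := exists_good_window hη hM0 hu hM (p := p) (L := 4 * hs)
          (by omega) (by omega)
        rw [e1] at i2
        have hq := i3 q le_rfl (by omega)
        refine ⟨q, by omega, hq, ?_⟩
        have := (hP p h0 hs (q - p) (by omega) (by omega) (by omega) (by omega) (by omega) hOKp
          (hOK _ (by omega) _ le_rfl))
        rw [show p + (q - p) = q by omega] at this
        have := this.le (hloc p hp) (hgood q hq)
        linarith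
      · obtain ⟨q, i1, i2, i3⟩ := exists_good_window hη hM0 hu hM (p := p - 12 * (M * hs))
          (L := 4 * hs) (by omega) (by omega)
        rw [e1] at i2
        have hq := i3 q le_rfl (by omega)
        refine ⟨q, by omega, hq, ?_⟩
        have := (hP q hs h0 (p - q) (by omega) (by omega) (by omega) (by omega) (by omega)
          (hOK _ (by omega) _ le_rfl) (by rwa [show q + (p - q) = p by omega]))
        rw [show q + (p - q) = p by omega] at this
        have := this.le (hgood q hq) (hloc p hp)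
        rw [abs_sub_comm]
        linarith
    obtain ⟨a, ha, ga, ha'⟩ := near 0 (Nat.zero_le _) hOK0
    obtain ⟨b, hb, gb, hb'⟩ := near s hsn hOKs
    have hnJ : n ≤ 36 * M * (Λ ^ J * hs) :=
      hJ.trans (Nat.le_mul_of_pos_left _ (by omega))
    have hab : |S a u - S b u| ≤ (8 * 2 ^ J - 3) * η := by
      rcases le_total a b with h | h
      · have := main J a (b - a) (by omega) (by omega) ga (by rwa [show a + (b - a) = b by omega])
        rwa [show a + (b - a) = b by omega] at this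
      · have := main J b (a - b) (by omega) (by omega) gb (by rwa [show b + (a - b) = a by omega])
        rwa [show b + (a - b) = a by omega, abs_sub_comm] at this
    rw [S_zero] at ha'
    have h1 := abs_le.1 ha'
    have h2 := abs_le.1 hb'
    have h3 := abs_le.1 hab
    have h4 : η ≤ 2 ^ J * η := le_mul_of_one_le_left hη hp
    rw [abs_le]
    constructor <;> nlinarith

end Pool.Agent.Lib.MP_b41181_pr
end
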