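import Mathlib

/-!
Definitions used in the statements: Poisson field of Brownian traps on the line.
-/

open MeasureTheory ProbabilityTheory Filter Topology
open scoped ENNReal NNReal

namespace Pool.Agent.Lib.MP_b41181_pr

/-- `x 0, x 1, ...` list the points of a Poisson point process on the real line with constant
intensity `lam`: bounded sets contain finitely many points, the number of points in a bounded
Borel set `B` is Poisson with mean `lam * |B|`, and the numbers of points in finitely many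
pairwise disjoint bounded Borel sets are independent. -/
structure IsPoissonPoints {Ω : Type*} [MeasurableSpace Ω] (x : ℕ → Ω → ℝ) (lam : ℝ)
    (P : Measure Ω) : Prop where
  meas : ∀ i, Measurable (x i)
  finite : ∀ B : Set ℝ, Bornology.IsBounded B → ∀ᵐ ω ∂P, {i | x i ω ∈ B}.Finite
  law : ∀ B : Set ℝ, MeasurableSet B → Bornology.IsBounded B →
    HasLaw (fun ω => {i | x i ω ∈ B}.ncard) (poissonMeasure (lam * volume.real B).toNNReal) P
  indep : ∀ (k : ℕ) (B : Fin k → Set ℝ), (∀ j, MeasurableSet (B j)) →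
    (∀ j, Bornology.IsBounded (B j)) → Pairwise (fun i j => Disjoint (B i) (B j)) →
    iIndepFun (fun j ω => {i | x i ω ∈ B j}.ncard) P

/-- The model: `X` is a Brownian motion, `x` a Poisson point process of intensity `lam`, the `Y i`
are Brownian motions, and `X`, `x`, `Y 0`, `Y 1`, ... are mutually independent. -/
structure IsTrapModel {Ω : Type*} [MeasurableSpace Ω] (lam : ℝ) (X : ℝ≥0 → Ω → ℝ)
    (x : ℕ → Ω → ℝ) (Y : ℕ → ℝ≥0 → Ω → ℝ) (P : Measure Ω) : Prop where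
  prob : IsProbabilityMeasure P
  measX : ∀ s, Measurable (X s)
  measY : ∀ i s, Measurable (Y i s)
  brownianX : IsBrownianReal X P
  brownianY : ∀ i, IsBrownianReal (Y i) P
  poisson : IsPoissonPoints x lam P
  indepY : iIndepFun (fun i ω (s : ℝ≥0) => Y i s ω) P
  indepxY : IndepFun (fun ω (i : ℕ) => x i ω) (fun ω (i : ℕ) (s : ℝ≥0) => Y i s ω) P
  indepX : IndepFun (fun ω (s : ℝ≥0) => X s ω)
    (fun ω => ((fun i : ℕ => x i ω), (fun (i : ℕ) (s : ℝ≥0) => Y i s ω))) P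

/-- The trap field at time `s`. -/
def trapField {Ω : Type*} (a : ℝ) (x : ℕ → Ω → ℝ) (Y : ℕ → ℝ≥0 → Ω → ℝ) (s : ℝ≥0) (ω : Ω) :
    Set ℝ :=
  ⋃ i, Metric.closedBall (x i ω + Y i s ω) a

/-- First time at which the particle is in the trap field. -/
noncomputable def hitTime {Ω : Type*} (a : ℝ) (X : ℝ≥0 → Ω → ℝ) (x : ℕ → Ω → ℝ)
    (Y : ℕ → ℝ≥0 → Ω → ℝ) (ω : Ω) : ℝ≥0∞ :=
  ⨅ s ∈ {s : ℝ≥0 | X s ω ∈ trapField a x Y s ω}, (s : ℝ≥0∞)

/-- First time at which the range of the particle meets the trap field. -/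
noncomputable def rangeHitTime {Ω : Type*} (a : ℝ) (X : ℝ≥0 → Ω → ℝ) (x : ℕ → Ω → ℝ)
    (Y : ℕ → ℝ≥0 → Ω → ℝ) (ω : Ω) : ℝ≥0∞ :=
  ⨅ s ∈ {s : ℝ≥0 | ((fun u => X u ω) '' Set.Iic s ∩ trapField a x Y s ω).Nonempty}, (s : ℝ≥0∞)

/-- Maximal displacement up to time `t`. -/
noncomputable def maxDisp {Ω : Type*} (X : ℝ≥0 → Ω → ℝ) (t : ℝ≥0) (ω : Ω) : ℝ :=
  max (⨆ s : Set.Iic t, X s ω) (-(⨅ s : Set.Iic t, X s ω))

/-- The critical exponent for the killing time `T`. -/
noncomputable def alphaStar {Ω : Type*} [MeasurableSpace Ω] (P : Measure Ω) (X : ℝ≥0 → Ω → ℝ)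
    (T : Ω → ℝ≥0∞) : ℝ :=
  sInf {α : ℝ | 0 < α ∧ ∃ c : ℝ, 0 < c ∧
    Tendsto (fun t : ℝ≥0 =>
      ProbabilityTheory.cond P {ω | (t : ℝ≥0∞) < T ω} {ω | maxDisp X t ω < c * (t : ℝ) ^ α})
      atTop (𝓝 1)}

end Pool.Agent.Lib.MP_b41181_pr
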