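import Mathlib

-- part Pool.Agent.Lib.MP_b41181_pr.Walk
section

/-!
Gaussian random walks on the canonical space of sequences: concatenation, reversal, negation.
-/

open MeasureTheory ProbabilityTheory Finset
open scoped ENNReal NNReal

namespace Pool.Agent.Lib.MP_b41181_pr

/-- Law of an i.i.d. sequence of standard Gaussians. -/
noncomputable def mu : Measure (ℕ → ℝ) := Measure.infinitePi (fun _ : ℕ => gaussianReal 0 1)

instance : IsProbabilityMeasure mu := by unfold mu; infer_instance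

/-- Partial sums. -/
def S (k : ℕ) (x : ℕ → ℝ) : ℝ := ∑ i ∈ range k, x i

/-- Concatenation. -/
def app (d : ℕ) (x y : ℕ → ℝ) : ℕ → ℝ := fun i => if i < d then x i else y (i - d)

/-- Time reversal of the first `d` steps. -/
def rev (d : ℕ) (x : ℕ → ℝ) : ℕ → ℝ := fun i => if i < d then - x (d - 1 - i) else x i

@[simp] lemma S_zero (x : ℕ → ℝ) : S 0 x = 0 := by simp [S]

lemma S_succ (k : ℕ) (x : ℕ → ℝ) : S (k + 1) x = S k x + x k := by simp [S, sum_range_succ]

@[fun_prop] lemma measurable_S (k : ℕ) : Measurable (S k) := by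
  unfold S; fun_prop

lemma S_neg (k : ℕ) (x : ℕ → ℝ) : S k (-x) = - S k x := by simp [S]

lemma S_add (k : ℕ) (x y : ℕ → ℝ) : S k (x + y) = S k x + S k y := by simp [S, sum_add_distrib]

lemma S_sub (k : ℕ) (x y : ℕ → ℝ) : S k (x - y) = S k x - S k y := by simp [S, sum_sub_distrib]

lemma S_smul (k : ℕ) (c : ℝ) (x : ℕ → ℝ) : S k (c • x) = c * S k x := by simp [S, mul_sum]

lemma S_congr {n k : ℕ} {x y : ℕ → ℝ} (h : ∀ i < n, x i = y i) (hk : k ≤ n) : S k x = S k y := by
  unfold S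
  exact sum_congr rfl fun i hi => h i (lt_of_lt_of_le (mem_range.1 hi) hk)

lemma S_app_le {d k : ℕ} (x y : ℕ → ℝ) (hk : k ≤ d) : S k (app d x y) = S k x := by
  unfold S
  refine sum_congr rfl fun i hi => ?_
  simp [app, lt_of_lt_of_le (mem_range.1 hi) hk]

lemma S_app_add (d k : ℕ) (x y : ℕ → ℝ) : S (d + k) (app d x y) = S d x + S k y := by
  induction k with
  | zero => simp [S_app_le]
  | succ k ih =>
    rw [← add_assoc, S_succ, ih, S_succ]
    simp [app, add_assoc]

lemma S_app_ge {d k : ℕ} (x y : ℕ → ℝ) (hk : d ≤ k) : S k (app d x y) = S d x + S (k - d) y := by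
  obtain ⟨j, rfl⟩ := Nat.exists_eq_add_of_le hk
  rw [S_app_add]; simp

lemma S_rev {d k : ℕ} (x : ℕ → ℝ) (hk : k ≤ d) : S k (rev d x) = S (d - k) x - S d x := by
  induction k with
  | zero => simp
  | succ k ih =>
    rw [S_succ, ih (by omega)]
    have h1 : d - k = (d - (k + 1)) + 1 := by omega
    have h2 : d - 1 - k = d - (k + 1) := by omega
    rw [h1, S_succ]
    simp only [rev, show k < d by omega, if_true, h2]
    ring

lemma measurable_app (d : ℕ) : Measurable (fun p : (ℕ → ℝ) × (ℕ → ℝ) => app d p.1 p.2) := by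
  refine measurable_pi_lambda _ fun i => ?_
  unfold app
  split_ifs <;> fun_prop

lemma measurable_rev (d : ℕ) : Measurable (rev d) := by
  refine measurable_pi_lambda _ fun i => ?_
  unfold rev
  split_ifs <;> fun_prop

lemma mp_eval (i : ℕ) : MeasurePreserving (fun x : ℕ → ℝ => x i) mu (gaussianReal 0 1) :=
  measurePreserving_eval_infinitePi (fun _ : ℕ => gaussianReal 0 1) i

lemma mp_app (d : ℕ) :
    MeasurePreserving (fun p : (ℕ → ℝ) × (ℕ → ℝ) => app d p.1 p.2) (mu.prod mu) mu := by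
  refine ⟨measurable_app d, ?_⟩
  unfold mu
  refine Measure.eq_infinitePi _ fun s t ht => ?_
  rw [Measure.map_apply (measurable_app d)
    (MeasurableSet.pi s.countable_toSet fun i _ => ht i)]
  have h : (fun p : (ℕ → ℝ) × (ℕ → ℝ) => app d p.1 p.2) ⁻¹' (Set.pi s t) =
      (Set.pi (s.filter (· < d)) t) ×ˢ
        (Set.pi ((s.filter (fun i => ¬ i < d)).image (· - d)) (fun j => t (j + d))) := by
    ext ⟨x, y⟩
    simp only [Set.mem_preimage, Set.mem_pi, mem_coe, Set.mem_prod, coe_image,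
      Set.mem_image, coe_filter, Set.mem_ofPred_eq]
    constructor
    · intro h
      refine ⟨fun i hi => ?_, ?_⟩
      · have := h i hi.1
        simpa [app, hi.2] using this
      · rintro j ⟨i, ⟨hi, hid⟩, rfl⟩
        have := h i hi
        simp only [app, hid, if_false] at this
        rwa [Nat.sub_add_cancel (by omega)]
    · rintro ⟨h1, h2⟩ i hi
      by_cases hid : i < d
      · simpa [app, hid] using h1 i ⟨hi, hid⟩
      · have := h2 (i - d) ⟨i, ⟨hi, hid⟩, rfl⟩
        rw [Nat.sub_add_cancel (by omega)] at this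
        simpa [app, hid] using this
  rw [h, Measure.prod_prod, Measure.infinitePi_pi _ (fun i _ => ht i),
    Measure.infinitePi_pi _ (fun i _ => ht _), prod_image, ← prod_filter_mul_prod_filter_not s (· < d)]
  · congr 1
    refine prod_congr rfl fun i hi => ?_
    rw [Nat.sub_add_cancel]
    have := (mem_filter.1 hi).2
    omega
  · intro i hi j hj hij
    have h1 := (mem_filter.1 hi).2
    have h2 := (mem_filter.1 hj).2
    simp only at hij
    omega

lemma mp_neg : MeasurePreserving (fun x : ℕ → ℝ => -x) mu mu := by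
  refine ⟨by fun_prop, ?_⟩
  unfold mu
  have := Measure.infinitePi_map_pi (fun _ : ℕ => gaussianReal 0 1)
    (f := fun _ (x : ℝ) => -x) (fun _ => by fun_prop)
  simp only [gaussianReal_map_neg, neg_zero] at this
  exact this

lemma mp_rev (d : ℕ) : MeasurePreserving (rev d) mu mu := by
  refine ⟨measurable_rev d, ?_⟩
  unfold mu
  let π : ℕ → ℕ := fun i => if i < d then d - 1 - i else i
  have hπ : Function.Injective π := by
    intro i j hij
    simp only [π] at hij
    split_ifs at hij <;> omega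
  let e : ℕ → ℝ → ℝ := fun i x => if i < d then -x else x
  have he : ∀ i, Measurable (e i) := by
    intro i; simp only [e]; split_ifs <;> fun_prop
  have h1 := Measure.map_infinitePi_infinitePi_of_inj (P := fun _ : ℕ => gaussianReal 0 1) hπ
  have h2 := Measure.infinitePi_map_pi (fun _ : ℕ => gaussianReal 0 1) (f := e) he
  have h3 : (fun i => (gaussianReal 0 1).map (e i)) = fun _ : ℕ => gaussianReal 0 1 := by
    funext i
    simp only [e]
    split_ifs
    · simp [gaussianReal_map_neg]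
    · simp
  rw [h3] at h2
  have h4 : rev d = (fun (x : ℕ → ℝ) i => e i (x i)) ∘ (fun (x : ℕ → ℝ) i => x (π i)) := by
    funext x i
    simp only [rev, Function.comp, e, π]
    split_ifs <;> rfl
  rw [h4, ← Measure.map_map (by fun_prop) (by fun_prop), h1, h2]

/-- Lower bound for the measure of an event through concatenation. -/
lemma mu_ge_of_app {d : ℕ} {A B E : Set (ℕ → ℝ)} (hE : MeasurableSet E)
    (h : ∀ x ∈ A, ∀ y ∈ B, app d x y ∈ E) : mu A * mu B ≤ mu E := by
  rw [← (mp_app d).measure_preimage hE.nullMeasurableSet, ← Measure.prod_prod]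
  refine measure_mono ?_
  rintro ⟨x, y⟩ ⟨hx, hy⟩
  exact h x hx y hy

/-- Upper bound for the measure of an event through concatenation. -/
lemma mu_le_of_app {d : ℕ} {A B E : Set (ℕ → ℝ)} (hE : MeasurableSet E)
    (h : ∀ x y, app d x y ∈ E → x ∈ A ∧ y ∈ B) : mu E ≤ mu A * mu B := by
  rw [← (mp_app d).measure_preimage hE.nullMeasurableSet, ← Measure.prod_prod]
  refine measure_mono ?_
  rintro ⟨x, y⟩ hxy
  exact h x y hxy

lemma mu_neg_preimage {E : Set (ℕ → ℝ)} (hE : MeasurableSet E) :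
    mu ((fun x => -x) ⁻¹' E) = mu E := mp_neg.measure_preimage hE.nullMeasurableSet

lemma mp_S (k : ℕ) : MeasurePreserving (S k) mu (gaussianReal 0 k) := by
  induction k with
  | zero =>
    refine ⟨measurable_S 0, ?_⟩
    have : S 0 = fun _ => (0 : ℝ) := by funext x; simp
    rw [this]
    simp
  | succ k ih =>
    refine ⟨measurable_S _, ?_⟩
    have h1 : MeasurePreserving (Prod.map (S k) (fun y : ℕ → ℝ => y 0)) (mu.prod mu)
        ((gaussianReal 0 k).prod (gaussianReal 0 1)) := ih.prod (mp_eval 0)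
    have h2 : (S (k + 1)) ∘ (fun p : (ℕ → ℝ) × (ℕ → ℝ) => app k p.1 p.2) =
        (fun q : ℝ × ℝ => q.1 + q.2) ∘ (Prod.map (S k) (fun y : ℕ → ℝ => y 0)) := by
      funext p
      simp only [Function.comp, Prod.map]
      rw [S_app_add]
      simp [S]
    rw [← (mp_app k).map_eq, Measure.map_map (measurable_S _) (measurable_app k), h2,
      ← Measure.map_map (by fun_prop) h1.measurable, h1.map_eq]
    have := @gaussianReal_conv_gaussianReal 0 0 k 1
    rw [Measure.conv] at this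
    rw [this]
    simp

end Pool.Agent.Lib.MP_b41181_pr
end

-- part Pool.Agent.Lib.MP_b41181_pr.PL
section

/-!
The midpoint Prekopa-Leindler inequality for the Gaussian sequence measure.
-/

open MeasureTheory ProbabilityTheory Finset
open scoped ENNReal NNReal

namespace Pool.Agent.Lib.MP_b41181_pr

lemma vol_half (K : Set ℝ) (c : ℝ) :
    2 * volume ((fun z : ℝ => 2 * z - c) ⁻¹' K) = volume K := by
  have h : (fun z : ℝ => 2 * z - c) ⁻¹' K = (fun z : ℝ => 2 * z) ⁻¹' ((fun z => z + (-c)) ⁻¹' K) := by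
    ext z; simp [sub_eq_add_neg]
  rw [h, Real.volume_preimage_mul_left (by norm_num), measure_preimage_add_right, ← mul_assoc]
  have : (2 : ℝ≥0∞) * ENNReal.ofReal |(2 : ℝ)⁻¹| = 1 := by
    rw [abs_of_pos (by norm_num), ENNReal.ofReal_inv_of_pos (by norm_num)]
    simp only [ENNReal.ofReal_ofNat]
    exact ENNReal.mul_inv_cancel (by norm_num) (by norm_num)
  rw [this, one_mul]

lemma bm1d_compact {K L C : Set ℝ} (hK : IsCompact K) (hL : IsCompact L) (hKn : K.Nonempty)
    (hLn : L.Nonempty) (hC : ∀ a ∈ K, ∀ b ∈ L, (a + b) / 2 ∈ C) :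
    volume K + volume L ≤ 2 * volume C := by
  obtain ⟨a0, ha0, ha⟩ := hK.exists_isGreatest hKn
  obtain ⟨b0, hb0, hb⟩ := hL.exists_isLeast hLn
  set K' := (fun z : ℝ => 2 * z - b0) ⁻¹' K with hK'
  set L' := (fun z : ℝ => 2 * z - a0) ⁻¹' L with hL'
  have hsub : K' ∪ L' ⊆ C := by
    rintro z (hz | hz)
    · have := hC _ hz _ hb0
      rwa [show (2 * z - b0 + b0) / 2 = z by ring] at this
    · have := hC _ ha0 _ hz
      rwa [show (a0 + (2 * z - a0)) / 2 = z by ring] at this
  have hL'm : MeasurableSet L' := hL.measurableSet.preimage (by fun_prop)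
  have hdisj : AEDisjoint volume K' L' := by
    refine measure_mono_null (t := {(a0 + b0) / 2}) ?_ (by simp)
    rintro z ⟨hz1, hz2⟩
    have h1 := ha hz1
    have h2 := hb hz2
    simp only [Set.mem_singleton_iff]
    linarith
  rw [← vol_half K b0, ← vol_half L a0, ← mul_add, ← measure_union₀ hL'm.nullMeasurableSet hdisj]
  gcongr

lemma bm1d {A B C : Set ℝ} (hA : MeasurableSet A) (hB : MeasurableSet B) (hAn : A.Nonempty)
    (hBn : B.Nonempty) (hC : ∀ a ∈ A, ∀ b ∈ B, (a + b) / 2 ∈ C) :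
    volume A + volume B ≤ 2 * volume C := by
  obtain ⟨a, ha⟩ := hAn
  obtain ⟨b, hb⟩ := hBn
  have key : ∀ K, K ⊆ A → IsCompact K → ∀ L, L ⊆ B → IsCompact L →
      volume K + volume L ≤ 2 * volume C := by
    intro K hKA hK L hLB hL
    have := bm1d_compact (K := insert a K) (L := insert b L) (C := C) (hK.insert a) (hL.insert b)
      (Set.insert_nonempty _ _) (Set.insert_nonempty _ _) (fun x hx y hy => hC x
        (Set.insert_subset ha hKA hx) y (Set.insert_subset hb hLB hy))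
    refine le_trans ?_ this
    gcongr <;> exact Set.subset_insert _ _
  rw [hA.measure_eq_iSup_isCompact volume, hB.measure_eq_iSup_isCompact volume]
  refine ENNReal.biSup_add_biSup_le' ⟨∅, by simp⟩ ⟨∅, by simp⟩ fun K hK L hL => ?_
  by_cases h1 : IsCompact K <;> by_cases h2 : IsCompact L
  · simpa [h1, h2] using key K hK h1 L hL h2
  · simpa [h1, h2] using key K hK h1 ∅ (by simp) isCompact_empty
  · simpa [h1, h2] using key ∅ (by simp) isCompact_empty L hL h2
  · simp [h1, h2]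

lemma pl1d_norm {f g h : ℝ → ℝ} (hf : Measurable f) (hg : Measurable g) (hh : Measurable h)
    (f0 : ∀ x, 0 ≤ f x) (g0 : ∀ x, 0 ≤ g x) (h0 : ∀ x, 0 ≤ h x)
    (f1 : ∀ x, f x ≤ 1) (g1 : ∀ x, g x ≤ 1)
    (fs : ∀ t < 1, ∃ x, t < f x) (gs : ∀ t < 1, ∃ x, t < g x)
    (H : ∀ x y, f x * g y ≤ h ((x + y) / 2) ^ 2) :
    (∫⁻ x, ENNReal.ofReal (f x)) + (∫⁻ x, ENNReal.ofReal (g x)) ≤
      2 * ∫⁻ x, ENNReal.ofReal (h x) := by
  rw [lintegral_eq_lintegral_meas_lt _ (ae_of_all _ f0) hf.aemeasurable,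
    lintegral_eq_lintegral_meas_lt _ (ae_of_all _ g0) hg.aemeasurable,
    lintegral_eq_lintegral_meas_lt _ (ae_of_all _ h0) hh.aemeasurable]
  have hm : Measurable fun t : ℝ => volume {a | t < f a} := by
    refine Antitone.measurable fun s t hst => measure_mono fun a ha => lt_of_le_of_lt hst ha
  rw [← lintegral_add_left hm, ← lintegral_const_mul' _ _ (by norm_num)]
  refine setLIntegral_mono' measurableSet_Ioi fun t ht => ?_
  by_cases ht1 : t < 1
  · refine bm1d (measurableSet_lt measurable_const hf) (measurableSet_lt measurable_const hg)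
      (fs t ht1) (gs t ht1) fun a ha b hb => ?_
    have ht0 : 0 < t := ht
    have ha' : t < f a := ha
    have hb' : t < g b := hb
    have h1 : t ^ 2 < h ((a + b) / 2) ^ 2 := by
      refine lt_of_lt_of_le ?_ (H a b)
      rw [sq]
      exact mul_lt_mul'' ha' hb' ht0.le ht0.le
    exact lt_of_pow_lt_pow_left₀ 2 (h0 _) h1
  · have e1 : {a | t < f a} = ∅ := by
      ext a; simp only [Set.mem_ofPred_eq, Set.mem_empty_iff_false, iff_false, not_lt]
      linarith [f1 a]
    have e2 : {a | t < g a} = ∅ := by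
      ext a; simp only [Set.mem_ofPred_eq, Set.mem_empty_iff_false, iff_false, not_lt]
      linarith [g1 a]
    simp [e1, e2]

lemma amgm_ennreal {a b c : ℝ≥0∞} (h : a + b ≤ 2 * c) : a * b ≤ c ^ 2 := by
  by_cases hc : c = ∞
  · simp [hc]
  have ha : a ≠ ∞ := ne_top_of_le_ne_top (ENNReal.mul_ne_top (by norm_num) hc) (le_trans le_self_add h)
  have hb : b ≠ ∞ := ne_top_of_le_ne_top (ENNReal.mul_ne_top (by norm_num) hc) (le_trans le_add_self h)
  lift a to ℝ≥0 using ha
  lift b to ℝ≥0 using hb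
  lift c to ℝ≥0 using hc
  have h' : (a : ℝ) + b ≤ 2 * c := by exact_mod_cast h
  have : (a : ℝ) * b ≤ c ^ 2 := by nlinarith [sq_nonneg ((a : ℝ) - b), a.2, b.2, c.2]
  exact_mod_cast this

lemma pl1d {f g h : ℝ → ℝ} (hf : Measurable f) (hg : Measurable g) (hh : Measurable h)
    (f0 : ∀ x, 0 ≤ f x) (g0 : ∀ x, 0 ≤ g x) (h0 : ∀ x, 0 ≤ h x)
    (f1 : ∀ x, f x ≤ 1) (g1 : ∀ x, g x ≤ 1)
    (H : ∀ x y, f x * g y ≤ h ((x + y) / 2) ^ 2) :
    (∫⁻ x, ENNReal.ofReal (f x)) * (∫⁻ x, ENNReal.ofReal (g x)) ≤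
      (∫⁻ x, ENNReal.ofReal (h x)) ^ 2 := by
  set α := ⨆ x, f x with hα
  set β := ⨆ x, g x with hβ
  have bf : BddAbove (Set.range f) := ⟨1, by rintro _ ⟨x, rfl⟩; exact f1 x⟩
  have bg : BddAbove (Set.range g) := ⟨1, by rintro _ ⟨x, rfl⟩; exact g1 x⟩
  have fα : ∀ x, f x ≤ α := fun x => le_ciSup bf x
  have gβ : ∀ x, g x ≤ β := fun x => le_ciSup bg x
  rcases eq_or_lt_of_le ((f0 0).trans (fα 0)) with hα0 | hα0
  · have : ∀ x, f x = 0 := fun x => le_antisymm (hα0 ▸ fα x) (f0 x)
    simp [this]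
  rcases eq_or_lt_of_le ((g0 0).trans (gβ 0)) with hβ0 | hβ0
  · have : ∀ x, g x = 0 := fun x => le_antisymm (hβ0 ▸ gβ x) (g0 x)
    simp [this]
  set γ := √(α * β) with hγ
  have hγ0 : 0 < γ := Real.sqrt_pos.2 (mul_pos hα0 hβ0)
  have hγ2 : γ ^ 2 = α * β := Real.sq_sqrt (mul_pos hα0 hβ0).le
  have key := pl1d_norm (f := fun x => f x / α) (g := fun x => g x / β) (h := fun x => h x / γ)
    (by fun_prop) (by fun_prop) (by fun_prop)
    (fun x => div_nonneg (f0 x) hα0.le) (fun x => div_nonneg (g0 x) hβ0.le)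
    (fun x => div_nonneg (h0 x) hγ0.le)
    (fun x => (div_le_one hα0).2 (fα x)) (fun x => (div_le_one hβ0).2 (gβ x))
    (fun t ht => by
      obtain ⟨x, hx⟩ := exists_lt_of_lt_ciSup (f := f) (b := t * α) (by nlinarith)
      exact ⟨x, (lt_div_iff₀ hα0).2 hx⟩)
    (fun t ht => by
      obtain ⟨x, hx⟩ := exists_lt_of_lt_ciSup (f := g) (b := t * β) (by nlinarith)
      exact ⟨x, (lt_div_iff₀ hβ0).2 hx⟩)
    (fun x y => by
      rw [div_mul_div_comm, div_pow, hγ2]
      exact div_le_div_of_nonneg_right (H x y) (mul_pos hα0 hβ0).le)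
  have e : ∀ (u : ℝ → ℝ) (c : ℝ), 0 < c →
      ∫⁻ x, ENNReal.ofReal (u x) = ENNReal.ofReal c * ∫⁻ x, ENNReal.ofReal (u x / c) := by
    intro u c hc
    rw [← lintegral_const_mul' _ _ ENNReal.ofReal_ne_top]
    refine lintegral_congr fun x => ?_
    rw [← ENNReal.ofReal_mul hc.le]
    congr 1
    field_simp
  rw [e f α hα0, e g β hβ0, e h γ hγ0, mul_pow, ← ENNReal.ofReal_pow hγ0.le, hγ2,
    ENNReal.ofReal_mul hα0.le, mul_mul_mul_comm]
  gcongr
  exact amgm_ennreal key

lemma pdf_mid (x y : ℝ) : gaussianPDFReal 0 1 x * gaussianPDFReal 0 1 y =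
    gaussianPDFReal 0 1 ((x + y) / 2) ^ 2 * Real.exp (-(x - y) ^ 2 / 4) := by
  simp only [gaussianPDFReal, NNReal.coe_one, mul_one, sub_zero, mul_pow, ← Real.exp_nat_mul]
  rw [mul_mul_mul_comm, mul_assoc (_ ^ 2), ← Real.exp_add, ← Real.exp_add, ← sq]
  congr 2
  push_cast
  ring

lemma pdf_le_one (x : ℝ) : gaussianPDFReal 0 1 x ≤ 1 := by
  simp only [gaussianPDFReal, NNReal.coe_one, mul_one, sub_zero]
  refine mul_le_one₀ ?_ (Real.exp_pos _).le ?_
  · refine inv_le_one_of_one_le₀ ?_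
    rw [Real.one_le_sqrt]
    linarith [Real.pi_gt_three]
  · rw [Real.exp_le_one_iff]
    have := sq_nonneg x
    linarith

lemma pl1d_gauss {f g h : ℝ → ℝ≥0∞} (hf : Measurable f) (hg : Measurable g) (hh : Measurable h)
    (f1 : ∀ x, f x ≤ 1) (g1 : ∀ x, g x ≤ 1)
    (H : ∀ x y, f x * g y * ENNReal.ofReal (Real.exp (-(x - y) ^ 2 / 4)) ≤ h ((x + y) / 2) ^ 2) :
    (∫⁻ x, f x ∂gaussianReal 0 1) * (∫⁻ x, g x ∂gaussianReal 0 1) ≤
      (∫⁻ x, h x ∂gaussianReal 0 1) ^ 2 := by
  have e : ∀ u : ℝ → ℝ≥0∞, Measurable u → (∀ x, u x ≤ 1) →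
      ∫⁻ x, u x ∂gaussianReal 0 1 =
        ∫⁻ x, ENNReal.ofReal ((u x).toReal * gaussianPDFReal 0 1 x) := by
    intro u hu u1
    rw [gaussianReal_of_var_ne_zero _ one_ne_zero,
      lintegral_withDensity_eq_lintegral_mul _ (measurable_gaussianPDF _ _) hu]
    refine lintegral_congr fun x => ?_
    rw [ENNReal.ofReal_mul ENNReal.toReal_nonneg,
      ENNReal.ofReal_toReal (ne_top_of_le_ne_top ENNReal.one_ne_top (u1 x)), Pi.mul_apply, mul_comm]
    rfl
  have hh' : Measurable fun x => min (h x) 1 := hh.min measurable_const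
  refine le_trans ?_ (pow_le_pow_left' (lintegral_mono (fun x => min_le_left (h x) 1)) 2)
  rw [e f hf f1, e g hg g1, e _ hh' (fun x => min_le_right _ _)]
  have t1 : ∀ {a : ℝ≥0∞}, a ≤ 1 → a.toReal ≤ 1 := fun ha => by
    simpa using ENNReal.toReal_mono ENNReal.one_ne_top ha
  refine pl1d (by fun_prop) (by fun_prop) (by fun_prop)
    (fun x => mul_nonneg ENNReal.toReal_nonneg (gaussianPDFReal_nonneg _ _ _))
    (fun x => mul_nonneg ENNReal.toReal_nonneg (gaussianPDFReal_nonneg _ _ _))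
    (fun x => mul_nonneg ENNReal.toReal_nonneg (gaussianPDFReal_nonneg _ _ _))
    (fun x => mul_le_one₀ (t1 (f1 x)) (gaussianPDFReal_nonneg _ _ _) (pdf_le_one x))
    (fun x => mul_le_one₀ (t1 (g1 x)) (gaussianPDFReal_nonneg _ _ _) (pdf_le_one x)) fun x y => ?_
  rw [mul_mul_mul_comm, pdf_mid, mul_pow, mul_comm (gaussianPDFReal 0 1 _ ^ 2), ← mul_assoc]
  refine mul_le_mul_of_nonneg_right ?_ (sq_nonneg _)
  have h1 : f x * g y * ENNReal.ofReal (Real.exp (-(x - y) ^ 2 / 4)) ≤ (min (h ((x + y) / 2)) 1) ^ 2 := by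
    rcases le_total (h ((x + y) / 2)) 1 with hle | hle
    · rw [min_eq_left hle]; exact H x y
    · rw [min_eq_right hle, one_pow]
      refine mul_le_one' (mul_le_one' (f1 x) (g1 y)) ?_
      rw [ENNReal.ofReal_le_one, Real.exp_le_one_iff]
      have := sq_nonneg (x - y)
      linarith
  have h2 := ENNReal.toReal_mono (ENNReal.pow_ne_top (ne_top_of_le_ne_top ENNReal.one_ne_top
    (min_le_right _ _))) h1
  rwa [ENNReal.toReal_mul, ENNReal.toReal_mul, ENNReal.toReal_ofReal (Real.exp_pos _).le,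
    ENNReal.toReal_pow] at h2

/-- Prepending one step. -/
def cons (a : ℝ) (x : ℕ → ℝ) : ℕ → ℝ := fun i => if i < 1 then a else x (i - 1)

lemma measurable_cons : Measurable (fun p : ℝ × (ℕ → ℝ) => cons p.1 p.2) := by
  refine measurable_pi_lambda _ fun i => ?_
  unfold cons
  split_ifs <;> fun_prop

lemma mp_cons :
    MeasurePreserving (fun p : ℝ × (ℕ → ℝ) => cons p.1 p.2) ((gaussianReal 0 1).prod mu) mu := by
  refine ⟨measurable_cons, ?_⟩
  have h1 : MeasurePreserving (Prod.map (fun y : ℕ → ℝ => y 0) id) (mu.prod mu)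
      ((gaussianReal 0 1).prod mu) := (mp_eval 0).prod (MeasurePreserving.id mu)
  rw [← h1.map_eq, Measure.map_map measurable_cons h1.measurable]
  convert (mp_app 1).map_eq using 2
  funext p i
  simp only [Function.comp, Prod.map, cons, app, id]
  split_ifs with h
  · obtain rfl : i = 0 := by omega
    rfl
  · rfl

lemma lintegral_cons {f : (ℕ → ℝ) → ℝ≥0∞} (hf : Measurable f) :
    ∫⁻ x, f x ∂mu = ∫⁻ a, ∫⁻ x, f (cons a x) ∂mu ∂gaussianReal 0 1 := by
  rw [← mp_cons.lintegral_comp hf]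
  exact lintegral_prod _ (hf.comp measurable_cons).aemeasurable

theorem pl_mu (n : ℕ) : ∀ {f g h : (ℕ → ℝ) → ℝ≥0∞}, Measurable f → Measurable g → Measurable h →
    (∀ x, f x ≤ 1) → (∀ x, g x ≤ 1) →
    (∀ x y, (∀ i < n, x i = y i) → f x = f y) → (∀ x y, (∀ i < n, x i = y i) → g x = g y) →
    (∀ x y, f x * g y * ENNReal.ofReal (Real.exp (-(∑ i ∈ range n, (x i - y i) ^ 2) / 4)) ≤
      h ((1 / 2 : ℝ) • (x + y)) ^ 2) →
    (∫⁻ x, f x ∂mu) * (∫⁻ x, g x ∂mu) ≤ (∫⁻ x, h x ∂mu) ^ 2 := by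
  induction n with
  | zero =>
    intro f g h hf hg hh f1 g1 df dg H
    have e1 : ∀ x, f x = f 0 := fun x => df _ _ (by simp)
    have e2 : ∀ x, g x = g 0 := fun x => dg _ _ (by simp)
    have e3 : ∀ x, (f 0 * g 0) ^ (1 / 2 : ℝ) ≤ h x := by
      intro x
      have := H x x
      rw [e1 x, e2 x] at this
      simp only [range_zero, sum_empty, neg_zero, zero_div, Real.exp_zero, ENNReal.ofReal_one,
        mul_one] at this
      have hx : (1 / 2 : ℝ) • (x + x) = x := by
        rw [← two_smul ℝ x, smul_smul]; norm_num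
      rw [hx] at this
      calc _ ≤ (h x ^ 2) ^ (1 / 2 : ℝ) := ENNReal.rpow_le_rpow this (by norm_num)
        _ = h x := by
          rw [← ENNReal.rpow_natCast, ← ENNReal.rpow_mul]; norm_num
    simp_rw [e1, e2]
    simp only [lintegral_const, measure_univ, mul_one]
    calc f 0 * g 0 = ((f 0 * g 0) ^ (1 / 2 : ℝ)) ^ 2 := by
          rw [← ENNReal.rpow_natCast, ← ENNReal.rpow_mul]; norm_num
      _ ≤ _ := by
          refine pow_le_pow_left' ?_ 2
          calc _ = ∫⁻ _, (f 0 * g 0) ^ (1 / 2 : ℝ) ∂mu := by simp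
            _ ≤ _ := lintegral_mono e3
  | succ n ih =>
    intro f g h hf hg hh f1 g1 df dg H
    rw [lintegral_cons hf, lintegral_cons hg, lintegral_cons hh]
    have mc : ∀ a : ℝ, Measurable (cons a) := fun a => measurable_cons.comp measurable_prodMk_left
    have dc : ∀ (a : ℝ) (x y : ℕ → ℝ), (∀ i < n, x i = y i) → ∀ i < n + 1, cons a x i = cons a y i := by
      intro a x y hxy i hi
      simp only [cons]
      split_ifs
      · rfl
      · exact hxy _ (by omega)
    have b1 : ∀ {u : (ℕ → ℝ) → ℝ≥0∞}, (∀ x, u x ≤ 1) → ∀ a, ∫⁻ x, u (cons a x) ∂mu ≤ 1 := by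
      intro u hu a
      calc _ ≤ ∫⁻ _, 1 ∂mu := lintegral_mono fun x => hu _
        _ = 1 := by simp
    refine pl1d_gauss (hf.comp measurable_cons).lintegral_prod_right'
      (hg.comp measurable_cons).lintegral_prod_right'
      (hh.comp measurable_cons).lintegral_prod_right' (b1 f1) (b1 g1) fun a b => ?_
    have hE : ENNReal.ofReal (Real.exp (-(a - b) ^ 2 / 4)) ≤ 1 := by
      rw [ENNReal.ofReal_le_one, Real.exp_le_one_iff]
      have := sq_nonneg (a - b)
      linarith
    rw [mul_assoc, ← lintegral_mul_const' _ _ ENNReal.ofReal_ne_top]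
    refine ih (f := fun x => f (cons a x))
      (g := fun x => g (cons b x) * ENNReal.ofReal (Real.exp (-(a - b) ^ 2 / 4)))
      (h := fun x => h (cons ((a + b) / 2) x)) (hf.comp (mc a)) ((hg.comp (mc b)).mul_const _)
      (hh.comp (mc _)) (fun x => f1 _) (fun x => mul_le_one' (g1 _) hE)
      (fun x y hxy => df _ _ (dc a x y hxy)) (fun x y hxy => by rw [dg _ _ (dc b x y hxy)])
      fun x y => ?_
    have := H (cons a x) (cons b y)
    have e1 : (1 / 2 : ℝ) • (cons a x + cons b y) = cons ((a + b) / 2) ((1 / 2 : ℝ) • (x + y)) := by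
      funext i
      simp only [cons, Pi.smul_apply, Pi.add_apply, smul_eq_mul]
      split_ifs
      · ring
      · rfl
    have e2 : ∑ i ∈ range (n + 1), (cons a x i - cons b y i) ^ 2 =
        (a - b) ^ 2 + ∑ i ∈ range n, (x i - y i) ^ 2 := by
      rw [sum_range_succ', add_comm]
      simp [cons]
    rw [e1, e2] at this
    refine le_trans (le_of_eq ?_) this
    rw [mul_assoc, mul_assoc, mul_assoc, ← ENNReal.ofReal_mul (Real.exp_pos _).le, ← Real.exp_add]
    congr 4
    ring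

end Pool.Agent.Lib.MP_b41181_pr
end

-- part Pool.Agent.Lib.MP_b41181_pr.Est
section

/-!
Elementary estimates for Gaussian random walks.
-/

open MeasureTheory ProbabilityTheory Finset
open scoped ENNReal NNReal

namespace Pool.Agent.Lib.MP_b41181_pr

lemma muS_real (k : ℕ) {A : Set ℝ} (hA : MeasurableSet A) :
    mu.real {x | S k x ∈ A} = (gaussianReal 0 k).real A := by
  unfold Measure.real
  rw [← (mp_S k).measure_preimage hA.nullMeasurableSet]
  rfl

lemma gauss_Icc_lower {v : ℝ≥0} (hv : v ≠ 0) {a η b : ℝ} (hη : 0 ≤ η) (h1 : -b ≤ a)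
    (h2 : a + η ≤ b) :
    η * ((√(2 * Real.pi * v))⁻¹ * Real.exp (-b ^ 2 / (2 * v))) ≤
      (gaussianReal 0 v).real (Set.Icc a (a + η)) := by
  have hv' : (0 : ℝ) < v := by positivity
  rw [Measure.real, gaussianReal_apply_eq_integral _ hv, ENNReal.toReal_ofReal
    (integral_nonneg fun x => gaussianPDFReal_nonneg _ _ _)]
  have := setIntegral_ge_of_const_le_real (μ := volume) (s := Set.Icc a (a + η))
    (f := gaussianPDFReal 0 v) (c := (√(2 * Real.pi * v))⁻¹ * Real.exp (-b ^ 2 / (2 * v)))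
    measurableSet_Icc (by simp) (fun x hx => ?_) (integrable_gaussianPDFReal _ _).integrableOn
  · rw [Real.volume_real_Icc_of_le (by linarith)] at this
    rw [mul_comm]
    simpa using this
  · simp only [gaussianPDFReal, sub_zero]
    have : x ^ 2 ≤ b ^ 2 := sq_le_sq' (by linarith [hx.1]) (by linarith [hx.2])
    refine mul_le_mul_of_nonneg_left (Real.exp_le_exp.2 ?_) (by positivity)
    exact div_le_div_of_nonneg_right (by linarith) (by positivity)

lemma gauss_Icc_upper {v : ℝ≥0} (hv : v ≠ 0) {a η : ℝ} (hη : 0 ≤ η) :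
    (gaussianReal 0 v).real (Set.Icc a (a + η)) ≤ η * (√(2 * Real.pi * v))⁻¹ := by
  have hv' : (0 : ℝ) < v := by positivity
  rw [Measure.real, gaussianReal_apply_eq_integral _ hv, ENNReal.toReal_ofReal
    (integral_nonneg fun x => gaussianPDFReal_nonneg _ _ _)]
  have := setIntegral_mono_on (μ := volume) (s := Set.Icc a (a + η))
    (f := gaussianPDFReal 0 v) (g := fun _ => (√(2 * Real.pi * v))⁻¹)
    (integrable_gaussianPDFReal _ _).integrableOn (integrableOn_const (by simp))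
    measurableSet_Icc (fun x _ => ?_)
  · rw [setIntegral_const, Real.volume_real_Icc_of_le (by linarith)] at this
    simpa using this
  · simp only [gaussianPDFReal, sub_zero]
    refine mul_le_of_le_one_right (by positivity) ?_
    rw [Real.exp_le_one_iff]
    have := sq_nonneg x
    exact div_nonpos_of_nonpos_of_nonneg (by linarith) (by positivity)

lemma mu_real_neg {E : Set (ℕ → ℝ)} (hE : MeasurableSet E) :
    mu.real {x | -x ∈ E} = mu.real E := by
  unfold Measure.real
  rw [← mu_neg_preimage hE]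
  rfl

lemma muS_symm_le (k : ℕ) (y : ℝ) : mu.real {x | S k x ≤ -y} = mu.real {x | y ≤ S k x} := by
  rw [← mu_real_neg (E := {x | y ≤ S k x}) (measurableSet_le measurable_const (measurable_S k))]
  congr 1
  ext x
  simp only [Set.mem_ofPred_eq, S_neg]
  constructor <;> intro h <;> linarith

lemma muS_symm_lt (k : ℕ) (y : ℝ) : mu.real {x | S k x < -y} = mu.real {x | y < S k x} := by
  rw [← mu_real_neg (E := {x | y < S k x}) (measurableSet_lt measurable_const (measurable_S k))]
  congr 1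
  ext x
  simp only [Set.mem_ofPred_eq, S_neg]
  constructor <;> intro h <;> linarith

lemma half_le_S_nonneg (k : ℕ) : 1 / 2 ≤ mu.real {x | 0 ≤ S k x} := by
  have h1 := muS_symm_le k 0
  rw [neg_zero] at h1
  have h2 : mu.real Set.univ ≤ mu.real {x | S k x ≤ 0} + mu.real {x | 0 ≤ S k x} := by
    refine le_trans (measureReal_mono ?_) (measureReal_union_le _ _)
    intro x _
    exact le_total (S k x) 0
  rw [probReal_univ] at h2
  linarith

lemma S_pos_le_half (k : ℕ) : mu.real {x | 0 < S k x} ≤ 1 / 2 := by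
  have h1 := muS_symm_le k 0
  rw [neg_zero] at h1
  have h2 := half_le_S_nonneg k
  have h3 := probReal_compl_eq_one_sub (μ := mu) (s := {x | S k x ≤ 0})
    (measurableSet_le (measurable_S k) measurable_const)
  have h4 : {x | S k x ≤ 0}ᶜ = {x | 0 < S k x} := by ext x; simp
  rw [h4] at h3
  linarith

lemma muS_tail (k : ℕ) {y : ℝ} (hy : 0 ≤ y) :
    mu.real {x | y ≤ S k x} ≤ Real.exp (-y ^ 2 / (2 * k)) := by
  rcases Nat.eq_zero_or_pos k with rfl | hk
  · simp
  have hk' : (0 : ℝ) < k := by exact_mod_cast hk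
  have h1 := muS_real k (A := Set.Ici y) measurableSet_Ici
  have h2 := measure_ge_le_exp_mul_mgf (μ := gaussianReal 0 k) (X := fun x : ℝ => x) (t := y / k) y
    (by positivity) (integrable_exp_mul_gaussianReal _)
  rw [mgf_fun_id_gaussianReal, ← Real.exp_add] at h2
  refine le_trans (le_of_eq h1) (le_trans h2 (le_of_eq ?_))
  congr 1
  simp only [NNReal.coe_natCast]
  field_simp
  ring

lemma muS_tail_lt (k : ℕ) {y : ℝ} (hy : 0 ≤ y) :
    mu.real {x | y < S k x} ≤ Real.exp (-y ^ 2 / (2 * k)) :=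
  le_trans (measureReal_mono (s₂ := {x | y ≤ S k x}) fun _ hx => le_of_lt (b := S k _) hx)
    (muS_tail k hy)

lemma mu_cons {E : Set (ℕ → ℝ)} (hE : MeasurableSet E) :
    mu E = ∫⁻ a, mu {x | cons a x ∈ E} ∂gaussianReal 0 1 := by
  rw [← mp_cons.measure_preimage hE.nullMeasurableSet,
    Measure.prod_apply (measurable_cons hE)]
  rfl

lemma S_cons (k : ℕ) (a : ℝ) (x : ℕ → ℝ) : S (k + 1) (cons a x) = a + S k x := by
  unfold S
  rw [sum_range_succ', add_comm]
  simp [cons]

lemma measurableSet_ex_lt (n : ℕ) (y : ℝ) : MeasurableSet {x | ∃ k ≤ n, y < S k x} := by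
  have : {x | ∃ k ≤ n, y < S k x} = ⋃ k, ⋃ (_ : k ≤ n), {x | y < S k x} := by ext; simp
  rw [this]
  exact MeasurableSet.iUnion fun k => MeasurableSet.iUnion fun _ =>
    measurableSet_lt measurable_const (measurable_S k)

lemma levy_aux (n : ℕ) : ∀ y : ℝ, mu {x | ∃ k ≤ n, y < S k x} ≤ 2 * mu {x | y < S n x} := by
  have neg : ∀ (n : ℕ) (y : ℝ), y < 0 → mu {x | ∃ k ≤ n, y < S k x} ≤ 2 * mu {x | y < S n x} := by
    intro n y hy
    refine le_trans prob_le_one ?_
    have h1 := half_le_S_nonneg n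
    have h2 : mu {x | 0 ≤ S n x} ≤ mu {x | y < S n x} :=
      measure_mono fun x hx => lt_of_lt_of_le hy hx
    have h3 : (1 : ℝ≥0∞) ≤ 2 * mu {x | 0 ≤ S n x} := by
      rw [← ENNReal.ofReal_toReal (measure_ne_top mu {x | 0 ≤ S n x}), ← ENNReal.ofReal_ofNat,
        ← ENNReal.ofReal_mul (by norm_num), ENNReal.one_le_ofReal]
      unfold Measure.real at h1
      linarith
    exact h3.trans (by gcongr)
  induction n with
  | zero =>
    intro y
    rcases lt_or_ge y 0 with hy | hy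
    · exact neg 0 y hy
    · have : {x | ∃ k ≤ 0, y < S k x} = ∅ := by
        ext x
        simp [hy]
      rw [this]
      simp
  | succ n ih =>
    intro y
    rcases lt_or_ge y 0 with hy | hy
    · exact neg _ y hy
    rw [mu_cons (measurableSet_ex_lt _ _),
      mu_cons (measurableSet_lt measurable_const (measurable_S _)),
      ← lintegral_const_mul' _ _ (by norm_num)]
    refine lintegral_mono fun a => ?_
    have e1 : {x | cons a x ∈ {x | y < S (n + 1) x}} = {x | y - a < S n x} := by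
      ext x
      simp only [Set.mem_ofPred_eq, S_cons]
      constructor <;> intro h <;> linarith
    rw [e1]
    refine le_trans (measure_mono ?_) (ih (y - a))
    rintro x ⟨k, hk, hx⟩
    rcases k with _ | k
    · simp at hx; linarith
    · rw [S_cons] at hx
      exact ⟨k, by omega, by linarith⟩

/-- Levy's maximal inequality. -/
lemma levy (n : ℕ) (y : ℝ) :
    mu.real {x | ∃ k ≤ n, y < S k x} ≤ 2 * mu.real {x | y < S n x} := by
  have := ENNReal.toReal_mono (ENNReal.mul_ne_top (by norm_num) (measure_ne_top _ _)) (levy_aux n y)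
  simpa [Measure.real] using this

lemma levy_tail (n : ℕ) {y : ℝ} (hy : 0 ≤ y) :
    mu.real {x | ∃ k ≤ n, y < S k x} ≤ 2 * Real.exp (-y ^ 2 / (2 * n)) :=
  (levy n y).trans (by gcongr; exact muS_tail_lt n hy)

lemma levy_tail_neg (n : ℕ) {y : ℝ} (hy : 0 ≤ y) :
    mu.real {x | ∃ k ≤ n, S k x < -y} ≤ 2 * Real.exp (-y ^ 2 / (2 * n)) := by
  refine le_trans (le_of_eq ?_) (levy_tail n hy)
  rw [← mu_real_neg (measurableSet_ex_lt n y)]
  congr 1
  ext x
  simp only [Set.mem_ofPred_eq, S_neg]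
  refine exists_congr fun k => and_congr_right fun _ => ?_
  constructor <;> intro h <;> linarith

lemma levy_tail_abs (n : ℕ) {y : ℝ} (hy : 0 ≤ y) :
    mu.real {x | ∃ k ≤ n, y < |S k x|} ≤ 4 * Real.exp (-y ^ 2 / (2 * n)) := by
  have h1 := levy_tail n hy
  have h2 := levy_tail_neg n hy
  have h3 : mu.real {x | ∃ k ≤ n, y < |S k x|} ≤
      mu.real {x | ∃ k ≤ n, y < S k x} + mu.real {x | ∃ k ≤ n, S k x < -y} := by
    refine le_trans (measureReal_mono ?_) (measureReal_union_le _ _)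
    rintro x ⟨k, hk, hx⟩
    rcases lt_abs.1 hx with h | h
    · exact Or.inl ⟨k, hk, h⟩
    · exact Or.inr ⟨k, hk, by linarith⟩
  linarith

lemma sqrt_two_pi_le (n : ℝ) : √(2 * Real.pi * n) ≤ 3 * √n := by
  rw [Real.sqrt_mul (by positivity)]
  gcongr
  rw [Real.sqrt_le_left (by norm_num)]
  linarith [Real.pi_lt_four]

lemma le_sqrt_two_pi (n : ℝ) : 2 * √n ≤ √(2 * Real.pi * n) := by
  rw [Real.sqrt_mul (by positivity)]
  gcongr
  rw [Real.le_sqrt (by norm_num) (by positivity)]
  linarith [Real.pi_gt_three]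

/-- Probability of staying below a level for a long time. -/
lemma stay_below {n : ℕ} (hn : 1 ≤ n) {y : ℝ} (hy : 0 ≤ y) (hyn : y ≤ √n) :
    y / (3 * √n) ≤ mu.real {x | ∀ k ≤ n, S k x ≤ y} := by
  have hn' : (0 : ℝ) < n := by exact_mod_cast hn
  have hs : 0 < √(n : ℝ) := Real.sqrt_pos.2 hn'
  have h1 := probReal_compl_eq_one_sub (μ := mu) (measurableSet_ex_lt n y)
  have e1 : {x | ∃ k ≤ n, y < S k x}ᶜ = {x | ∀ k ≤ n, S k x ≤ y} := by ext x; simp
  rw [e1] at h1
  have h2 := levy n y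
  have h3 := muS_symm_lt n y
  have h4 : mu.real {x | S n x ∈ Set.Icc (-y) (-y + 2 * y)} + mu.real {x | y < S n x} +
      mu.real {x | S n x < -y} ≤ 1 := by
    rw [← measureReal_union, ← measureReal_union]
    · exact measureReal_le_one
    · rw [Set.disjoint_left]
      rintro x (hx | hx) (hx' : S n x < -y)
      · linarith [hx.1]
      · have : y < S n x := hx
        linarith
    · exact measurableSet_lt (measurable_S n) measurable_const
    · rw [Set.disjoint_left]
      rintro x hx (hx' : y < S n x)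
      linarith [hx.2]
    · exact measurableSet_lt measurable_const (measurable_S n)
  rw [muS_real n measurableSet_Icc] at h4
  have h5 := gauss_Icc_lower (v := n) (by exact_mod_cast (by omega : n ≠ 0)) (a := -y)
    (η := 2 * y) (b := √n) (by linarith) (by linarith) (by linarith)
  simp only [NNReal.coe_natCast, Real.sq_sqrt hn'.le] at h5
  have h6 : (1 / 2 : ℝ) ≤ Real.exp (-n / (2 * n)) := by
    rw [show -(n : ℝ) / (2 * n) = -(1 / 2) by field_simp]
    linarith [Real.add_one_le_exp (-(1 / 2 : ℝ))]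
  have h7 : (3 * √(n : ℝ))⁻¹ ≤ (√(2 * Real.pi * n))⁻¹ :=
    inv_anti₀ (Real.sqrt_pos.2 (by positivity)) (sqrt_two_pi_le n)
  have h8 : y / (3 * √n) ≤ 2 * y * ((√(2 * Real.pi * n))⁻¹ * Real.exp (-n / (2 * n))) := by
    calc y / (3 * √n) = 2 * y * ((3 * √(n : ℝ))⁻¹ * (1 / 2)) := by field_simp
      _ ≤ _ := by gcongr
  linarith

end Pool.Agent.Lib.MP_b41181_pr
end

-- part Pool.Agent.Lib.MP_b41181_pr.Tube
section

/-!
Bridge decomposition, tube estimate, small ball estimates.
-/

open MeasureTheory ProbabilityTheory Finset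
open scoped ENNReal NNReal

namespace Pool.Agent.Lib.MP_b41181_pr

lemma iIndep_eval : iIndepFun (fun (i : ℕ) (x : ℕ → ℝ) => x i) mu :=
  iIndepFun_infinitePi (P := fun _ : ℕ => gaussianReal 0 1) (X := fun _ x => x)
    (fun _ => measurable_id)

lemma hasLaw_eval (i : ℕ) : HasLaw (fun x : ℕ → ℝ => x i) (gaussianReal 0 1) mu :=
  (mp_eval i).hasLaw

lemma memLp_eval (i : ℕ) : MemLp (fun x : ℕ → ℝ => x i) 2 mu :=
  (hasLaw_eval i).hasGaussianLaw.memLp_two

lemma memLp_S (k : ℕ) : MemLp (S k) 2 mu := (mp_S k).hasLaw.hasGaussianLaw.memLp_two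

lemma integrable_S (k : ℕ) : Integrable (S k) mu := (memLp_S k).integrable (by norm_num)

lemma integral_S (k : ℕ) : ∫ x, S k x ∂mu = 0 := by
  rw [(mp_S k).hasLaw.integral_eq, integral_id_gaussianReal]

lemma cov_eval (i j : ℕ) :
    cov[fun x : ℕ → ℝ => x i, fun x : ℕ → ℝ => x j; mu] = if i = j then 1 else 0 := by
  split_ifs with h
  · subst h
    rw [covariance_self (hasLaw_eval i).aemeasurable, (hasLaw_eval i).variance_eq,
      variance_id_gaussianReal]
    simp
  · exact (iIndep_eval.indepFun h).covariance_eq_zero (memLp_eval i) (memLp_eval j)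

lemma cov_S {k l : ℕ} (h : k ≤ l) : cov[S l, S k; mu] = k := by
  have := covariance_fun_sum_fun_sum' (μ := mu) (s := range l) (t := range k)
    (X := fun i (x : ℕ → ℝ) => x i) (Y := fun i (x : ℕ → ℝ) => x i)
    (fun i _ => memLp_eval i) (fun i _ => memLp_eval i)
  refine this.trans ?_
  simp_rw [cov_eval]
  rw [sum_comm]
  rw [sum_congr rfl (g := fun _ => (1 : ℝ))]
  · simp
  · intro j hj
    rw [sum_ite_eq']
    simp only [mem_range] at hj ⊢
    rw [if_pos (by omega)]

lemma sum_fin_lt {l k : ℕ} (h : k ≤ l) (x : ℕ → ℝ) :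
    ∑ i : Fin l, (if (i : ℕ) < k then x i else 0) = S k x := by
  rw [Fin.sum_univ_eq_sum_range (fun i => if i < k then x i else 0) l, ← sum_filter]
  unfold S
  congr 1
  ext i
  simp only [mem_filter, mem_range]
  omega

lemma bridge_indep {l : ℕ} (hl : 1 ≤ l) :
    IndepFun (fun (x : ℕ → ℝ) (_ : Unit) => S l x)
      (fun (x : ℕ → ℝ) (k : Fin (l + 1)) => S k x - (k : ℝ) / l * S l x) mu := by
  have hl' : (l : ℝ) ≠ 0 := by exact_mod_cast (by omega : l ≠ 0)
  refine HasGaussianLaw.indepFun_of_covariance_eval (X := fun _ x => S l x)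
    (Y := fun (k : Fin (l + 1)) x => S k x - (k : ℝ) / l * S l x) ?_ fun _ k => ?_
  · have h1 : HasGaussianLaw (fun (x : ℕ → ℝ) (i : Fin l) => x i) mu :=
      iIndepFun.hasGaussianLaw (X := fun (i : Fin l) (x : ℕ → ℝ) => x i)
        (fun i => (hasLaw_eval i).hasGaussianLaw) (iIndep_eval.precomp Fin.val_injective)
    let L : (Fin l → ℝ) →ₗ[ℝ] (Unit → ℝ) × (Fin (l + 1) → ℝ) :=
      { toFun := fun v => (fun _ => ∑ i : Fin l, (if (i : ℕ) < l then v i else 0),
          fun k => ∑ i : Fin l, (if (i : ℕ) < k then v i else 0) -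
            (k : ℝ) / l * ∑ i : Fin l, (if (i : ℕ) < l then v i else 0))
        map_add' := by
          intro v w
          have e : ∀ k : ℕ, ∑ i : Fin l, (if (i : ℕ) < k then (v + w) i else 0) =
              ∑ i : Fin l, (if (i : ℕ) < k then v i else 0) +
              ∑ i : Fin l, (if (i : ℕ) < k then w i else 0) := by
            intro k
            rw [← sum_add_distrib]
            refine sum_congr rfl fun i _ => ?_
            split_ifs <;> simp
          simp only [e]
          ext k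
          · simp only [Prod.fst_add, Pi.add_apply]
          · simp only [Prod.snd_add, Pi.add_apply]
            ring
        map_smul' := by
          intro c v
          have e : ∀ k : ℕ, ∑ i : Fin l, (if (i : ℕ) < k then (c • v) i else 0) =
              c * ∑ i : Fin l, (if (i : ℕ) < k then v i else 0) := by
            intro k
            rw [mul_sum]
            refine sum_congr rfl fun i _ => ?_
            split_ifs <;> simp
          simp only [e]
          ext k
          · simp only [RingHom.id_apply, Prod.smul_fst, Pi.smul_apply, smul_eq_mul]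
          · simp only [RingHom.id_apply, Prod.smul_snd, Pi.smul_apply, smul_eq_mul]
            ring }
    have h2 := h1.map (LinearMap.toContinuousLinearMap L)
    refine h2.congr (ae_of_all _ fun x => ?_)
    simp only [Function.comp, LinearMap.coe_toContinuousLinearMap', L, LinearMap.coe_mk,
      AddHom.coe_mk, sum_fin_lt le_rfl]
    congr 1
    funext k
    rw [sum_fin_lt (by omega)]
  · rw [covariance_fun_sub_right (memLp_S l) (memLp_S k) ((memLp_S l).const_mul _),
      covariance_const_mul_right, cov_S (by omega), cov_S le_rfl]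
    field_simp
    ring

lemma exp_neg_two_le : Real.exp (-2) ≤ 1 / 6 := by
  have h1 : (2.7 : ℝ) ≤ Real.exp 1 := by linarith [Real.exp_one_gt_d9]
  have h2 : Real.exp 2 = Real.exp 1 * Real.exp 1 := by rw [← Real.exp_add]; norm_num
  rw [Real.exp_neg, one_div]
  exact inv_anti₀ (by norm_num) (by nlinarith)

lemma bridge_half {l : ℕ} (hl : 1 ≤ l) :
    1 / 2 ≤ mu.real {x | ∀ k : Fin (l + 1), S k x - (k : ℝ) / l * S l x ≤ 4 * √l} := by
  have hl' : (0 : ℝ) < l := by exact_mod_cast hl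
  have hs : 0 ≤ √(l : ℝ) := Real.sqrt_nonneg _
  have e : -(2 * √(l : ℝ)) ^ 2 / (2 * l) = -2 := by
    rw [mul_pow, Real.sq_sqrt hl'.le]; field_simp
  have h1 := levy_tail l (y := 2 * √l) (by positivity)
  have h2 := muS_tail_lt l (y := 2 * √l) (by positivity)
  rw [← muS_symm_lt] at h2
  rw [e] at h1 h2
  have h3 : mu.real Set.univ ≤
      mu.real {x | ∀ k : Fin (l + 1), S k x - (k : ℝ) / l * S l x ≤ 4 * √l} +
      (mu.real {x | ∃ k ≤ l, 2 * √l < S k x} + mu.real {x | S l x < -(2 * √l)}) := by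
    refine le_trans (measureReal_mono ?_) ((measureReal_union_le _ _).trans
      (add_le_add le_rfl (measureReal_union_le _ _)))
    intro x _
    by_contra hx
    simp only [Set.mem_union, Set.mem_ofPred_eq, not_or, not_forall, not_le, not_exists, not_and,
      not_lt] at hx
    obtain ⟨⟨k, hk⟩, h4, h5⟩ := hx
    have h6 := h4 k (by omega)
    have h7 : (k : ℝ) / l ≤ 1 := by
      rw [div_le_one hl']
      exact_mod_cast (by omega : (k : ℕ) ≤ l)
    have h8 : (0 : ℝ) ≤ (k : ℝ) / l := by positivity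
    nlinarith
  rw [probReal_univ] at h3
  linarith [exp_neg_two_le]

/-- The tube estimate. -/
lemma tube {l : ℕ} (hl : 1 ≤ l) {v η b : ℝ} (hη : 0 ≤ η) (h1 : -b ≤ v) (h2 : v + η ≤ b) :
    η / (6 * √l) * Real.exp (-b ^ 2 / (2 * l)) ≤
      mu.real {x | S l x ∈ Set.Icc v (v + η) ∧ ∀ k ≤ l, S k x ≤ max 0 (S l x) + 4 * √l} := by
  have hl' : (0 : ℝ) < l := by exact_mod_cast hl
  have hs : 0 < √(l : ℝ) := Real.sqrt_pos.2 hl'
  have hA : MeasurableSet {u : Unit → ℝ | u () ∈ Set.Icc v (v + η)} :=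
    measurable_pi_apply () measurableSet_Icc
  have hB : MeasurableSet {u : Fin (l + 1) → ℝ | ∀ k, u k ≤ 4 * √l} := by
    rw [Set.ofPred_forall]
    exact MeasurableSet.iInter fun k => measurableSet_le (measurable_pi_apply k) measurable_const
  have h3 := (bridge_indep hl).measure_inter_preimage_eq_mul _ _ hA hB
  have h4 : mu.real {x | S l x ∈ Set.Icc v (v + η)} *
      mu.real {x | ∀ k : Fin (l + 1), S k x - (k : ℝ) / l * S l x ≤ 4 * √l} ≤
      mu.real {x | S l x ∈ Set.Icc v (v + η) ∧ ∀ k ≤ l, S k x ≤ max 0 (S l x) + 4 * √l} := by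
    have := congrArg ENNReal.toReal h3
    rw [ENNReal.toReal_mul] at this
    refine le_trans (le_of_eq this.symm) (measureReal_mono ?_)
    rintro x ⟨hx1, hx2⟩
    refine ⟨hx1, fun k hk => ?_⟩
    have h5 : S k x - (k : ℝ) / l * S l x ≤ 4 * √l := hx2 ⟨k, by omega⟩
    have h7 : (k : ℝ) / l ≤ 1 := by
      rw [div_le_one hl']
      exact_mod_cast hk
    have h8 : (0 : ℝ) ≤ (k : ℝ) / l := by positivity
    have h9 := le_max_left 0 (S l x)
    have h10 := le_max_right 0 (S l x)
    nlinarith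
  refine le_trans ?_ h4
  rw [muS_real l measurableSet_Icc]
  have h5 := gauss_Icc_lower (v := l) (by exact_mod_cast (by omega : l ≠ 0)) hη h1 h2
  simp only [NNReal.coe_natCast] at h5
  have h7 : (3 * √(l : ℝ))⁻¹ ≤ (√(2 * Real.pi * l))⁻¹ :=
    inv_anti₀ (Real.sqrt_pos.2 (by positivity)) (sqrt_two_pi_le l)
  calc _ = η * ((3 * √(l : ℝ))⁻¹ * Real.exp (-b ^ 2 / (2 * l))) * (1 / 2) := by
        field_simp; ring
    _ ≤ η * ((√(2 * Real.pi * l))⁻¹ * Real.exp (-b ^ 2 / (2 * l))) * (1 / 2) := by gcongr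
    _ ≤ _ := mul_le_mul h5 (bridge_half hl) (by norm_num) measureReal_nonneg

lemma mu_real_ge_of_app {d : ℕ} {A B E : Set (ℕ → ℝ)} (hE : MeasurableSet E)
    (h : ∀ x ∈ A, ∀ y ∈ B, app d x y ∈ E) : mu.real A * mu.real B ≤ mu.real E := by
  have := ENNReal.toReal_mono (measure_ne_top _ _) (mu_ge_of_app hE h)
  rwa [ENNReal.toReal_mul] at this

lemma mu_real_le_of_app {d : ℕ} {A B E : Set (ℕ → ℝ)} (hE : MeasurableSet E)
    (h : ∀ x y, app d x y ∈ E → x ∈ A ∧ y ∈ B) : mu.real E ≤ mu.real A * mu.real B := by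
  have := ENNReal.toReal_mono (ENNReal.mul_ne_top (measure_ne_top _ _) (measure_ne_top _ _))
    (mu_le_of_app hE h)
  rwa [ENNReal.toReal_mul] at this

lemma measurableSet_all {P : ℕ → (ℕ → ℝ) → Prop} (h : ∀ k, MeasurableSet {x | P k x})
    (Q : ℕ → Prop) : MeasurableSet {x | ∀ k, Q k → P k x} := by
  have : {x | ∀ k, Q k → P k x} = ⋂ k, ⋂ (_ : Q k), {x | P k x} := by ext; simp
  rw [this]
  exact MeasurableSet.iInter fun k => MeasurableSet.iInter fun _ => h k

lemma measurableSet_ex {P : ℕ → (ℕ → ℝ) → Prop} (h : ∀ k, MeasurableSet {x | P k x})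
    (Q : ℕ → Prop) : MeasurableSet {x | ∃ k, Q k ∧ P k x} := by
  have : {x | ∃ k, Q k ∧ P k x} = ⋃ k, ⋃ (_ : Q k), {x | P k x} := by ext; simp
  rw [this]
  exact MeasurableSet.iUnion fun k => MeasurableSet.iUnion fun _ => h k

lemma block_quarter {l : ℕ} {w : ℝ} (hw : 3 * √l ≤ w) :
    1 / 4 ≤ mu.real {x | (∀ k ≤ l, |S k x| ≤ w) ∧ 0 ≤ S l x} := by
  have hs : 0 ≤ √(l : ℝ) := Real.sqrt_nonneg _
  rcases Nat.eq_zero_or_pos l with rfl | hl
  · have : {x | (∀ k ≤ 0, |S k x| ≤ w) ∧ 0 ≤ S 0 x} = Set.univ := by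
      ext x
      simp at hw
      simp [hw]
    rw [this, probReal_univ]; norm_num
  have hl' : (0 : ℝ) < l := by exact_mod_cast hl
  have h1 := levy_tail_abs l (y := w) (by linarith)
  have h2 := half_le_S_nonneg l
  have h3 : mu.real {x | 0 ≤ S l x} ≤
      mu.real {x | (∀ k ≤ l, |S k x| ≤ w) ∧ 0 ≤ S l x} + mu.real {x | ∃ k ≤ l, w < |S k x|} := by
    refine le_trans (measureReal_mono ?_) (measureReal_union_le _ _)
    intro x hx
    by_cases h : ∀ k ≤ l, |S k x| ≤ w
    · exact Or.inl ⟨h, hx⟩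
    · push Not at h
      exact Or.inr h
  have h4 : Real.exp (-w ^ 2 / (2 * l)) ≤ Real.exp (-2) * Real.exp (-2) := by
    rw [← Real.exp_add, Real.exp_le_exp, div_le_iff₀ (by positivity)]
    have : (3 * √(l : ℝ)) ^ 2 ≤ w ^ 2 := pow_le_pow_left₀ (by positivity) hw 2
    rw [mul_pow, Real.sq_sqrt hl'.le] at this
    linarith
  have h5 := exp_neg_two_le
  have h6 := Real.exp_pos (-2)
  nlinarith

/-- Small ball lower bound. -/
lemma small_ball_lower {l : ℕ} {w : ℝ} (hw : 3 * √l ≤ w) (j : ℕ) :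
    (1 / 4) ^ j ≤ mu.real {x | (∀ k ≤ j * l, |S k x| ≤ 2 * w) ∧ |S (j * l) x| ≤ w} := by
  have hw0 : 0 ≤ w := le_trans (by positivity) hw
  have hm : ∀ j : ℕ, MeasurableSet {x | (∀ k ≤ j * l, |S k x| ≤ 2 * w) ∧ |S (j * l) x| ≤ w} :=
    fun j => (measurableSet_all (fun k => measurableSet_le (measurable_S k).abs measurable_const)
      _).inter (measurableSet_le (measurable_S _).abs measurable_const)
  induction j with
  | zero =>
    have : {x | (∀ k ≤ 0 * l, |S k x| ≤ 2 * w) ∧ |S (0 * l) x| ≤ w} = Set.univ := by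
      ext x
      simp [hw0]
    rw [this, probReal_univ]; norm_num
  | succ j ih =>
    set E := {x | (∀ k ≤ j * l, |S k x| ≤ 2 * w) ∧ |S (j * l) x| ≤ w} with hE
    set E' := {x | (∀ k ≤ (j + 1) * l, |S k x| ≤ 2 * w) ∧ |S ((j + 1) * l) x| ≤ w} with hE'
    set N := {x | S (j * l) x ≤ 0} with hN
    have hNm : MeasurableSet N := measurableSet_le (measurable_S _) measurable_const
    have key : ∀ x ∈ E, ∀ y, (∀ k ≤ l, |S k y| ≤ w) → |S (j * l) x + S l y| ≤ w →
        app (j * l) x y ∈ E' := by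
      intro x hx y hy h
      refine ⟨fun k hk => ?_, ?_⟩
      · rcases le_total k (j * l) with h1 | h1
        · rw [S_app_le _ _ h1]; exact hx.1 k h1
        · rw [S_app_ge _ _ h1]
          have h2 := hy (k - j * l) (by rw [add_mul, one_mul] at hk; omega)
          have h3 := hx.2
          linarith [abs_add_le (S (j * l) x) (S (k - j * l) y)]
      · rw [add_mul, one_mul, S_app_add]; exact h
    have h1 := mu_real_ge_of_app (d := j * l) (A := E ∩ N)
      (B := {x | (∀ k ≤ l, |S k x| ≤ w) ∧ 0 ≤ S l x}) ((hm (j + 1)).inter hNm) (by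
        rintro x ⟨hx, hxN⟩ y ⟨hy1, hy2⟩
        refine ⟨key x hx y hy1 ?_, ?_⟩
        · have h2 := abs_le.1 hx.2
          have h3 := abs_le.1 (hy1 l le_rfl)
          have h4 : S (j * l) x ≤ 0 := hxN
          rw [abs_le]; constructor <;> linarith
        · show S (j * l) (app (j * l) x y) ≤ 0
          rw [S_app_le _ _ le_rfl]; exact hxN)
    have h2 := mu_real_ge_of_app (d := j * l) (A := E \ N)
      (B := {x | -x ∈ {x | (∀ k ≤ l, |S k x| ≤ w) ∧ 0 ≤ S l x}}) ((hm (j + 1)).diff hNm) (by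
        rintro x ⟨hx, hxN⟩ y ⟨hy1, hy2⟩
        simp only [S_neg, abs_neg] at hy1 hy2
        have h4 : ¬ S (j * l) x ≤ 0 := hxN
        refine ⟨key x hx y hy1 ?_, ?_⟩
        · have h2 := abs_le.1 hx.2
          have h3 := abs_le.1 (hy1 l le_rfl)
          rw [abs_le]; constructor <;> linarith
        · show ¬ S (j * l) (app (j * l) x y) ≤ 0
          rw [S_app_le _ _ le_rfl]; exact h4)
    rw [mu_real_neg (E := {x | (∀ k ≤ l, |S k x| ≤ w) ∧ 0 ≤ S l x})
      ((measurableSet_all (fun k => measurableSet_le (measurable_S k).abs measurable_const)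
      _).inter (measurableSet_le measurable_const (measurable_S _)))] at h2
    have h3 := block_quarter hw
    have h4 := measureReal_inter_add_sdiff (μ := mu) (s := E) hNm
    have h5 := measureReal_inter_add_sdiff (μ := mu) (s := E') hNm
    have h6 : 0 ≤ mu.real (E ∩ N) := measureReal_nonneg
    have h7 : 0 ≤ mu.real (E \ N) := measureReal_nonneg
    rw [pow_succ]
    nlinarith

/-- Small ball upper bound. -/
lemma small_ball_upper {l : ℕ} (hl : 1 ≤ l) {r : ℝ} (hr0 : 0 ≤ r) (hr : 4 * r ≤ √l) (j : ℕ) :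
    mu.real {x | ∀ k ≤ j * l, |S k x| ≤ r} ≤ (1 / 2) ^ j := by
  have hl' : (0 : ℝ) < l := by exact_mod_cast hl
  have hs : 0 < √(l : ℝ) := Real.sqrt_pos.2 hl'
  have hb : mu.real {x | S l x ∈ Set.Icc (-(2 * r)) (-(2 * r) + 4 * r)} ≤ 1 / 2 := by
    rw [muS_real l measurableSet_Icc]
    refine (gauss_Icc_upper (by exact_mod_cast (by omega : l ≠ 0)) (by linarith)).trans ?_
    simp only [NNReal.coe_natCast]
    have h7 : (√(2 * Real.pi * l))⁻¹ ≤ (2 * √(l : ℝ))⁻¹ :=
      inv_anti₀ (by positivity) (le_sqrt_two_pi l)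
    calc _ ≤ √l * (2 * √(l : ℝ))⁻¹ := by gcongr
      _ = 1 / 2 := by field_simp
  induction j with
  | zero => simp
  | succ j ih =>
    have h1 := mu_real_le_of_app (d := j * l) (A := {x | ∀ k ≤ j * l, |S k x| ≤ r})
      (B := {x | S l x ∈ Set.Icc (-(2 * r)) (-(2 * r) + 4 * r)})
      (E := {x | ∀ k ≤ (j + 1) * l, |S k x| ≤ r})
      (measurableSet_all (fun k => measurableSet_le (measurable_S k).abs measurable_const) _) (by
        intro x y h
        refine ⟨fun k hk => ?_, ?_⟩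
        · have := h k (by rw [add_mul]; omega)
          rwa [S_app_le _ _ hk] at this
        · have h2 := abs_le.1 (h (j * l) (by rw [add_mul]; omega))
          have h3 := abs_le.1 (h (j * l + l) (by rw [add_mul]; omega))
          rw [S_app_le _ _ le_rfl] at h2
          rw [S_app_add] at h3
          constructor <;> linarith)
    rw [pow_succ]
    exact h1.trans (mul_le_mul ih hb measureReal_nonneg (by positivity))

end Pool.Agent.Lib.MP_b41181_pr
end

-- part Pool.Agent.Lib.MP_b41181_pr.Descent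
section

/-!
Descent events: the walk falls like `-R √d` on all scales.
-/

open MeasureTheory ProbabilityTheory Finset
open scoped ENNReal NNReal

namespace Pool.Agent.Lib.MP_b41181_pr

lemma mp_real_le {α β : Type*} [MeasurableSpace α] [MeasurableSpace β] {μ : Measure α}
    {ν : Measure β} [IsFiniteMeasure ν] {f : α → β} (hf : MeasurePreserving f μ ν) {A : Set α}
    {E : Set β} (h : ∀ x ∈ A, f x ∈ E) : μ.real A ≤ ν.real E := by
  refine ENNReal.toReal_mono (measure_ne_top _ _) ?_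
  calc μ A ≤ μ (f ⁻¹' E) := measure_mono h
    _ ≤ μ.map f E := Measure.le_map_apply hf.measurable.aemeasurable E
    _ = ν E := by rw [hf.map_eq]

lemma app_ge {d : ℕ} {A B E : Set (ℕ → ℝ)}
    (h : ∀ x ∈ A, ∀ y ∈ B, app d x y ∈ E) : mu.real A * mu.real B ≤ mu.real E := by
  rw [← measureReal_prod_prod]
  exact mp_real_le (mp_app d) fun p hp => h p.1 hp.1 p.2 hp.2

lemma fiber_ge {α β : Type*} [MeasurableSpace α] [MeasurableSpace β] {μ : Measure α}
    {ν : Measure β} [SFinite ν] {T : Set (α × β)} (hT : MeasurableSet T) {A : Set α} {p : ℝ≥0∞}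
    (h : ∀ u ∈ A, p ≤ ν (Prod.mk u ⁻¹' T)) : p * μ A ≤ μ.prod ν T := by
  rw [Measure.prod_apply hT]
  refine le_trans ?_ (mul_meas_ge_le_lintegral (measurable_measure_prodMk_left hT) p)
  gcongr
  exact h

lemma three_ge {c l : ℕ} {A C E : Set (ℕ → ℝ)} {p : ℝ} (hp : 0 ≤ p)
    (h : ∀ u ∈ A, ∀ z ∈ C, p ≤ mu.real {y | app c u (app l y z) ∈ E}) :
    p * mu.real C * mu.real A ≤ mu.real E := by
  set E' := toMeasurable mu E with hE'
  have hm : MeasurableSet E' := measurableSet_toMeasurable _ _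
  have h1 : ENNReal.ofReal p * mu C * mu A ≤ mu E := by
    rw [← measure_toMeasurable E, ← hE', ← (mp_app c).measure_preimage hm.nullMeasurableSet]
    refine fiber_ge (measurable_app c hm) fun u hu => ?_
    have hm2 : MeasurableSet (Prod.mk u ⁻¹' ((fun p : (ℕ → ℝ) × (ℕ → ℝ) => app c p.1 p.2) ⁻¹' E')) :=
      measurable_prodMk_left (measurable_app c hm)
    rw [← (mp_app l).measure_preimage hm2.nullMeasurableSet, ← Measure.prod_swap,
      Measure.map_apply measurable_swap (measurable_app l hm2)]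
    refine fiber_ge (measurable_swap (measurable_app l hm2)) fun z hz => ?_
    refine le_trans (ENNReal.ofReal_le_of_le_toReal (h u hu z hz)) (measure_mono fun y hy => ?_)
    exact subset_toMeasurable mu E hy
  have := ENNReal.toReal_mono (measure_ne_top _ _) h1
  rwa [ENNReal.toReal_mul, ENNReal.toReal_mul, ENNReal.toReal_ofReal hp] at this

lemma step_prob {l : ℕ} {q R : ℝ} (hq : 0 < q) (hR : 8 ≤ R) (h1 : q ≤ √l) (h2 : 4 * √l ≤ 7 * q) :
    Real.exp (-(9 * R ^ 2)) ≤
      mu.real {x | S l x ∈ Set.Icc (-(4 * R * q)) (-(3 * R * q)) ∧ ∀ k ≤ l, S k x ≤ R * q} := by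
  have hs : 0 < √(l : ℝ) := lt_of_lt_of_le hq h1
  have hl' : (0 : ℝ) < l := Real.sqrt_pos.1 hs
  have hl : 1 ≤ l := by exact_mod_cast hl'
  have hRq : 0 < R * q := by positivity
  have h3 := tube hl (v := -(4 * R * q)) (η := R * q) (b := 4 * R * q) hRq.le le_rfl (by linarith)
  refine le_trans ?_ (h3.trans (measureReal_mono ?_))
  · have h4 : q ^ 2 ≤ l := by
      have := pow_le_pow_left₀ hq.le h1 2
      rwa [Real.sq_sqrt hl'.le] at this
    have h5 : Real.exp (-(8 * R ^ 2)) ≤ Real.exp (-(4 * R * q) ^ 2 / (2 * l)) := by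
      rw [Real.exp_le_exp, le_div_iff₀ (by positivity)]
      nlinarith [sq_nonneg R]
    have h6 : Real.exp (-R ^ 2) ≤ R * q / (6 * √l) := by
      have h7 : Real.exp (-R ^ 2) ≤ Real.exp (-2) := Real.exp_le_exp.2 (by nlinarith)
      refine h7.trans (exp_neg_two_le.trans ?_)
      rw [le_div_iff₀ (by positivity)]
      nlinarith
    calc _ = Real.exp (-R ^ 2) * Real.exp (-(8 * R ^ 2)) := by
          rw [← Real.exp_add]; congr 1; ring
      _ ≤ _ := by gcongr
  · rintro x ⟨hx1, hx2⟩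
    refine ⟨⟨hx1.1, by linarith [hx1.2]⟩, fun k hk => ?_⟩
    have := hx2 k hk
    rw [max_eq_left (by linarith [hx1.2])] at this
    nlinarith

/-- Descent event. -/
def Desc (h k : ℕ) (R : ℝ) : Set (ℕ → ℝ) :=
  {x | (∀ d ≤ h, S d x ≤ R * √h) ∧ (∀ d, h ≤ d → d ≤ 4 ^ k * h → S d x ≤ -(R * √d)) ∧
    S (4 ^ k * h) x ∈ Set.Icc (-(4 * R * (2 ^ k * √h))) (-(3 * R * (2 ^ k * √h)))}

lemma sqrt_four_pow (k h : ℕ) : √((4 ^ k * h : ℕ) : ℝ) = 2 ^ k * √h := by
  push_cast
  rw [Real.sqrt_mul (by positivity), show (4 : ℝ) ^ k = (2 ^ k) ^ 2 by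
    rw [← pow_mul, mul_comm, pow_mul]; norm_num, Real.sqrt_sq (by positivity)]

lemma desc_prob {h : ℕ} (hh : 1 ≤ h) {R : ℝ} (hR : 8 ≤ R) (k : ℕ) :
    Real.exp (-(9 * R ^ 2)) ^ (k + 1) ≤ mu.real (Desc h k R) := by
  have hh' : (0 : ℝ) < h := by exact_mod_cast hh
  have hs : 0 < √(h : ℝ) := Real.sqrt_pos.2 hh'
  induction k with
  | zero =>
    rw [zero_add, pow_one]
    refine (step_prob hs hR le_rfl (by linarith)).trans (measureReal_mono ?_)
    rintro x ⟨hx1, hx2⟩
    refine ⟨hx2, fun d h1 h2 => ?_, by simpa using hx1⟩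
    obtain rfl : d = h := by omega
    have := hx1.2
    nlinarith
  | succ k ih =>
    set q := 2 ^ k * √(h : ℝ) with hq
    have hq0 : 0 < q := by positivity
    have hq2 : q ^ 2 = ((4 ^ k * h : ℕ) : ℝ) := by
      rw [hq, ← sqrt_four_pow, Real.sq_sqrt (by positivity)]
    have h1 := step_prob (l := 3 * (4 ^ k * h)) hq0 hR (by
      rw [Real.le_sqrt hq0.le (by positivity), Nat.cast_mul 3, ← hq2]
      have := sq_nonneg q
      push_cast
      linarith) (by
      have : √((3 * (4 ^ k * h) : ℕ) : ℝ) ≤ 7 / 4 * q := by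
        rw [Real.sqrt_le_left (by positivity), Nat.cast_mul 3, ← hq2]
        have := sq_nonneg q
        push_cast
        linarith
      linarith)
    rw [pow_succ]
    refine (mul_le_mul ih h1 (Real.exp_pos _).le measureReal_nonneg).trans
      (app_ge (d := 4 ^ k * h) ?_)
    rintro x ⟨hx1, hx2, hx3⟩ y ⟨hy1, hy2⟩
    have e : 4 ^ (k + 1) * h = 4 ^ k * h + 3 * (4 ^ k * h) := by ring
    have hle : h ≤ 4 ^ k * h := Nat.le_mul_of_pos_left _ (by positivity)
    have e2 : (2 : ℝ) ^ (k + 1) * √h = 2 * q := by rw [hq]; ring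
    refine ⟨fun d hd => ?_, fun d hd1 hd2 => ?_, ?_⟩
    · rw [S_app_le _ _ (hd.trans hle)]
      exact hx1 d hd
    · rcases le_total d (4 ^ k * h) with h2 | h2
      · rw [S_app_le _ _ h2]
        exact hx2 d hd1 h2
      · rw [S_app_ge _ _ h2]
        have h3 := hy2 (d - 4 ^ k * h) (by omega)
        have h4 : √(d : ℝ) ≤ 2 * q := by
          rw [← e2, ← sqrt_four_pow]
          exact Real.sqrt_le_sqrt (by exact_mod_cast hd2)
        have h5 := hx3.2
        nlinarith
    · rw [e, S_app_add, e2]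
      constructor <;> linarith [hx3.1, hx3.2, hy1.1, hy1.2]

/-- Descent followed by a long stay below a level. -/
def Stay (h k n : ℕ) (R y : ℝ) : Set (ℕ → ℝ) :=
  {x | (∀ d ≤ h, S d x ≤ R * √h) ∧ (∀ d, h ≤ d → d ≤ 4 ^ k * h → S d x ≤ -(R * √d)) ∧
    ∀ d, 4 ^ k * h ≤ d → d ≤ n → S d x ≤ -(3 * R * (2 ^ k * √h)) + y}

lemma stay_prob {h n : ℕ} (hh : 1 ≤ h) (hn : 1 ≤ n) {R y : ℝ} (hR : 8 ≤ R) (hy : 0 ≤ y)
    (hyn : y ≤ √n) (k : ℕ) :
    Real.exp (-(9 * R ^ 2)) ^ (k + 1) * (y / (3 * √n)) ≤ mu.real (Stay h k n R y) := by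
  refine (mul_le_mul (desc_prob hh hR k) (stay_below hn hy hyn) (by positivity)
    measureReal_nonneg).trans (app_ge (d := 4 ^ k * h) ?_)
  rintro x ⟨hx1, hx2, hx3⟩ z hz
  have hle : h ≤ 4 ^ k * h := Nat.le_mul_of_pos_left _ (by positivity)
  refine ⟨fun d hd => ?_, fun d hd1 hd2 => ?_, fun d hd1 hd2 => ?_⟩
  · rw [S_app_le _ _ (hd.trans hle)]
    exact hx1 d hd
  · rw [S_app_le _ _ hd2]
    exact hx2 d hd1 hd2
  · rw [S_app_ge _ _ hd1]
    have := hz (d - 4 ^ k * h) (by omega)
    linarith [hx3.2]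

/-- Two-sided walks seen from the point `a`. -/
def Pk (a : ℕ) (A B : Set (ℕ → ℝ)) : Set (ℕ → ℝ) :=
  {u | ∃ x ∈ A, ∃ y ∈ B, (∀ k ≤ a, S k u - S a u = S (a - k) x) ∧
    ∀ k, a ≤ k → S k u - S a u = S (k - a) y}

lemma pk_prob (a : ℕ) (A B : Set (ℕ → ℝ)) : mu.real A * mu.real B ≤ mu.real (Pk a A B) := by
  have h1 : mu.real A ≤ mu.real (rev a '' A) :=
    mp_real_le (mp_rev a) fun x hx => Set.mem_image_of_mem _ hx
  refine (mul_le_mul_of_nonneg_right h1 measureReal_nonneg).trans (app_ge (d := a) ?_)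
  rintro _ ⟨x, hx, rfl⟩ y hy
  refine ⟨x, hx, y, hy, fun k hk => ?_, fun k hk => ?_⟩
  · rw [S_app_le _ _ hk, S_app_le _ _ le_rfl, S_rev _ hk, S_rev _ le_rfl]
    simp
  · rw [S_app_ge _ _ hk, S_app_le _ _ le_rfl]
    ring

end Pool.Agent.Lib.MP_b41181_pr
end
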