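import Pool.Agent.Lib.MP_b41181_pr.Range

/-!
The surviving particle leaves every window of order the cube root of the time.
-/

open MeasureTheory ProbabilityTheory Finset Filter Topology
open scoped ENNReal NNReal

namespace Pool.Agent.Lib.MP_b41181_pr

lemma esc_shift1 {φ : ℝ → ℝ≥0∞} (hφ : Measurable φ) (h : ℝ) :
    ∫⁻ a, φ a ∂gaussianReal 0 1 =
      ∫⁻ a, φ (a + h) * ENNReal.ofReal (Real.exp (-(h * a) - h ^ 2 / 2)) ∂gaussianReal 0 1 := by
  rw [gaussianReal_of_var_ne_zero _ one_ne_zero,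
    lintegral_withDensity_eq_lintegral_mul _ (measurable_gaussianPDF _ _) hφ,
    lintegral_withDensity_eq_lintegral_mul _ (measurable_gaussianPDF _ _) (by fun_prop),
    ← lintegral_add_right_eq_self _ h]
  refine lintegral_congr fun a => ?_
  simp only [Pi.mul_apply, gaussianPDF]
  rw [mul_comm (φ _), ← mul_assoc, ← ENNReal.ofReal_mul (gaussianPDFReal_nonneg _ _ _)]
  congr 2
  simp only [gaussianPDFReal, NNReal.coe_one, mul_one, sub_zero]
  rw [mul_assoc, ← Real.exp_add]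
  congr 2
  ring

/-- The shift formula for the Gaussian sequence measure. -/
lemma esc_shift (n : ℕ) : ∀ (h : ℕ → ℝ) {f : (ℕ → ℝ) → ℝ≥0∞}, (∀ i, n ≤ i → h i = 0) →
    Measurable f → ∫⁻ x, f x ∂mu = ∫⁻ x, f (x + h) * ENNReal.ofReal
      (Real.exp (-(∑ i ∈ range n, h i * x i) - (∑ i ∈ range n, h i ^ 2) / 2)) ∂mu := by
  induction n with
  | zero =>
    intro h f h0 _
    obtain rfl : h = 0 := funext fun i => h0 i (Nat.zero_le i)
    simp
  | succ n ih =>
    intro h f h0 hf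
    have hm : Measurable fun a => ∫⁻ x, f (cons a x) ∂mu :=
      Measurable.lintegral_prod_right' (f := fun p : ℝ × (ℕ → ℝ) => f (cons p.1 p.2))
        (hf.comp measurable_cons)
    rw [lintegral_cons hf, lintegral_cons (by fun_prop), esc_shift1 hm (h 0)]
    refine lintegral_congr fun a => ?_
    have hf' : Measurable fun x => f (cons (a + h 0) x) :=
      hf.comp (measurable_cons.comp (measurable_const.prodMk measurable_id))
    rw [ih (fun i => h (i + 1)) (fun i hi => h0 _ (by omega)) hf',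
      ← lintegral_mul_const' _ _ ENNReal.ofReal_ne_top]
    refine lintegral_congr fun x => ?_
    have e : cons (a + h 0) (x + fun i => h (i + 1)) = cons a x + h := by
      funext i
      rcases i with _ | i <;> simp [cons]
    rw [e, mul_assoc, ← ENNReal.ofReal_mul (Real.exp_pos _).le, ← Real.exp_add,
      sum_range_succ' _ n, sum_range_succ' _ n]
    congr 3
    simp only [cons, Nat.lt_one_iff, Nat.add_eq_zero_iff, one_ne_zero, and_false, if_false,
      add_tsub_cancel_right, if_true]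
    ring

lemma esc_Wt {n : ℕ} {V : (ℕ → ℝ) → ℝ} (hV : IsHam n V) {A B : Set (ℕ → ℝ)}
    (hA : MeasurableSet A) (hB : MeasurableSet B) (hs : ∀ x ∈ A, -x ∈ A) {h : ℕ → ℝ} {N : ℕ}
    (h0 : ∀ i, N ≤ i → h i = 0) {c : ℝ}
    (H : ∀ x ∈ A, x + h ∈ B ∧ V (x + h) + (∑ i ∈ range N, h i ^ 2) / 2 ≤ V x + c) :
    Wt V A ≤ 2 * Real.exp c * Wt V B := by
  have mV : Measurable fun x => ENNReal.ofReal (Real.exp (-V x)) := by
    have := hV.meas
    fun_prop
  have hA' : MeasurableSet (A ∩ {x | ∑ i ∈ range N, h i * x i ≤ 0}) :=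
    hA.inter (measurableSet_le (by fun_prop) measurable_const)
  have e1 : ENNReal.ofReal (Real.exp (-c) * Wt V (A ∩ {x | ∑ i ∈ range N, h i * x i ≤ 0})) ≤
      ENNReal.ofReal (Wt V B) := by
    rw [← lintegral_Wt hV.meas hV.nonneg hB, esc_shift N h h0 (mV.indicator hB),
      ENNReal.ofReal_mul (Real.exp_pos _).le, ← lintegral_Wt hV.meas hV.nonneg hA',
      ← lintegral_const_mul _ (mV.indicator hA')]
    refine lintegral_mono fun x => ?_
    by_cases hx : x ∈ A ∩ {x | ∑ i ∈ range N, h i * x i ≤ 0}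
    · obtain ⟨h1, h2⟩ := H x hx.1
      have h3 : ∑ i ∈ range N, h i * x i ≤ 0 := hx.2
      simp only [Set.indicator_of_mem hx, Set.indicator_of_mem h1]
      rw [← ENNReal.ofReal_mul (Real.exp_pos _).le, ← ENNReal.ofReal_mul (Real.exp_pos _).le,
        ← Real.exp_add, ← Real.exp_add]
      exact ENNReal.ofReal_le_ofReal (Real.exp_le_exp.2 (by linarith))
    · simp only [Set.indicator_of_notMem hx, mul_zero]
      exact zero_le
  rw [ENNReal.ofReal_le_ofReal_iff (Wt_nonneg _ _)] at e1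
  have e2 : Wt V A ≤ 2 * Wt V (A ∩ {x | ∑ i ∈ range N, h i * x i ≤ 0}) := by
    have hi := integrable_exp_neg hV.meas hV.nonneg
    have h1 := integral_inter_add_sdiff (μ := mu) (s := A) (f := fun x => Real.exp (-V x))
      (measurableSet_le (f := fun x : ℕ → ℝ => ∑ i ∈ range N, h i * x i) (g := fun _ => 0)
        (by fun_prop) measurable_const) hi.integrableOn
    have h2 : Wt V (A \ {x | ∑ i ∈ range N, h i * x i ≤ 0}) ≤
        Wt V {x | -x ∈ A ∩ {x | ∑ i ∈ range N, h i * x i ≤ 0}} := by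
      refine setIntegral_mono_set hi.integrableOn (ae_of_all _ fun x => (Real.exp_pos _).le)
        (LE.le.eventuallyLE fun x hx => ⟨hs x hx.1, ?_⟩)
      have h3 : ¬ ∑ i ∈ range N, h i * x i ≤ 0 := hx.2
      change ∑ i ∈ range N, h i * (-x i) ≤ 0
      simp only [mul_neg, sum_neg_distrib]
      linarith
    rw [Wt_neg hV hA'] at h2
    unfold Wt at h2 ⊢
    linarith
  have e3 : Real.exp c * Real.exp (-c) = 1 := by rw [← Real.exp_add]; simp
  calc Wt V A ≤ 2 * (Real.exp c * (Real.exp (-c) *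
        Wt V (A ∩ {x | ∑ i ∈ range N, h i * x i ≤ 0}))) := by
        rwa [← mul_assoc (Real.exp c), e3, one_mul]
    _ ≤ 2 * (Real.exp c * Wt V B) := by gcongr
    _ = _ := by ring

/-- The maximum is almost attained in the window. -/
def Peak (m a L : ℕ) (y : ℝ) : Set (ℕ → ℝ) :=
  {z | ∃ k, a ≤ k ∧ k ≤ a + L ∧ ∀ i ≤ m, S i z < S k z + y}

lemma esc_F {n m a L : ℕ} (hm : m ≤ n) (hL : a + L ≤ m) {p τ : ℕ → ℝ} {r v : ℝ} (hv : 0 ≤ v)
    (hp : ∀ k ≤ m, |p k| ≤ r) (h1 : ∀ k, τ k ≤ v) (h2 : ∀ k, k < a ∨ a + L < k → τ k = 0) :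
    F n (fun k => p k + τ k) ≤ F n p + v * mu.real (Peak m a L (2 * r + v)) := by
  have hi : Integrable (fun z => Mx n (fun k => p k + S k z) + v) mu :=
    (integrable_F n p).add (integrable_const v)
  have h5 := integral_gain (integrable_F n fun k => p k + τ k) hi (fun z => Mx_le fun k hk => by
    linarith [le_Mx (fun k => p k + S k z) hk, h1 k]) (E := (Peak m a L (2 * r + v))ᶜ) hv
    fun z hz => by
      simp only [Peak, Set.mem_compl_iff, Set.mem_ofPred_eq, not_exists, not_and, not_forall,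
        not_lt] at hz
      rw [add_le_add_iff_right]
      refine Mx_le fun k hk => ?_
      by_cases h : k < a ∨ a + L < k
      · linarith [le_Mx (fun k => p k + S k z) hk, h2 k h]
      · obtain ⟨i, hi, h6⟩ := hz k (by omega) (by omega)
        linarith [le_Mx (fun k => p k + S k z) (hi.trans hm), abs_le.1 (hp i hi),
          abs_le.1 (hp k (by omega)), h1 k]
  rw [integral_add (integrable_F n p) (integrable_const v)] at h5
  simp only [integral_const, probReal_univ, smul_eq_mul, one_mul] at h5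
  have h6 := measureReal_union_le (μ := mu) (Peak m a L (2 * r + v)) (Peak m a L (2 * r + v))ᶜ
  rw [Set.union_compl_self, probReal_univ] at h6
  unfold F
  nlinarith

lemma esc_num (j : ℕ) :
    4 * Real.exp (-(j : ℝ) ^ 2 / 2) * (4 * j + 11) ^ 2 ≤ 484 * Real.exp 5 * (1 / 2) ^ j := by
  have h1 : (4 * j + 11 : ℝ) ≤ 11 * 2 ^ j := by
    have : (j : ℝ) + 1 ≤ 2 ^ j := by exact_mod_cast Nat.lt_two_pow_self
    have : (0 : ℝ) ≤ j := j.cast_nonneg
    linarith
  have h2 : (8 : ℝ) ^ j ≤ Real.exp (3 * j) := by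
    rw [mul_comm, Real.exp_nat_mul]
    refine pow_le_pow_left₀ (by norm_num) ?_ j
    have h3 : Real.exp 3 = Real.exp 1 ^ 3 := by rw [← Real.exp_nat_mul]; norm_num
    have h4 := Real.exp_one_gt_d9
    rw [h3]
    calc (8 : ℝ) = 2 ^ 3 := by norm_num
      _ ≤ _ := pow_le_pow_left₀ (by norm_num) (by linarith) 3
  have h3 : Real.exp (-(j : ℝ) ^ 2 / 2) * 8 ^ j ≤ Real.exp 5 := by
    refine (mul_le_mul_of_nonneg_left h2 (Real.exp_pos _).le).trans ?_
    rw [← Real.exp_add]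
    exact Real.exp_le_exp.2 (by nlinarith [sq_nonneg ((j : ℝ) - 3)])
  have h4 : ((2 : ℝ) ^ j) ^ 2 = 8 ^ j * (1 / 2) ^ j := by
    rw [← pow_mul, mul_comm j, pow_mul, ← mul_pow]
    norm_num
  calc _ ≤ 4 * Real.exp (-(j : ℝ) ^ 2 / 2) * (11 * 2 ^ j) ^ 2 := by gcongr
    _ = 484 * (Real.exp (-(j : ℝ) ^ 2 / 2) * 8 ^ j) * (1 / 2) ^ j := by rw [mul_pow, h4]; ring
    _ ≤ _ := by gcongr

lemma esc_peak {m a L w : ℕ} {r : ℝ} (hr : 0 < r) (hw : 1 ≤ w) (ha : w ≤ a) (hm : a + L + w ≤ m)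
    (hL : 1 ≤ L) (hL' : √L ≤ 2 * r) (hs : 2 * w * Real.exp (-r ^ 2 / 2) ≤ r / √w) :
    mu.real (Peak m a L (5 * r)) ≤ 968 * Real.exp 5 * (r ^ 2 / w) := by
  have hw' : (0 : ℝ) < w := by exact_mod_cast hw
  have hL0 : (0 : ℝ) < L := by exact_mod_cast hL
  have hsL : 0 < √(L : ℝ) := Real.sqrt_pos.2 hL0
  have hsw : 0 < √(w : ℝ) := Real.sqrt_pos.2 hw'
  let E : ℕ → Set (ℕ → ℝ) := fun j => {z | (∀ i ≤ a, S i z - S a z ≤ (4 * j + 9) * r) ∧
    (j = 0 ∨ ∃ k ≤ L, j * √L < |S (a + k) z - S a z|) ∧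
    ∀ i ≤ w, S (a + (L + i)) z - S (a + L) z ≤ (4 * j + 9) * r}
  have stay : ∀ j : ℕ, mu.real {x | ∀ k ≤ w, S k x ≤ (4 * j + 9) * r} ≤ (4 * j + 11) * (r / √w) :=
    fun j => (stay_upper hw (by positivity) hr.le).trans (by
      have : ((4 * j + 9) * r + r) / √w = (4 * j + 10) * (r / √w) := by ring
      linarith)
  have hE : ∀ j, mu.real (E j) ≤ 484 * Real.exp 5 * (r ^ 2 / w) * (1 / 2) ^ j := by
    intro j
    have m1 : MeasurableSet {z : ℕ → ℝ | (j = 0 ∨ ∃ k ≤ L, j * √L < |S k z|) ∧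
        ∀ i ≤ w, S (L + i) z - S L z ≤ (4 * j + 9) * r} :=
      ((MeasurableSet.const _).union (measurableSet_big _ _)).inter
        (measurableSet_all (fun i => measurableSet_le (by fun_prop) measurable_const) _)
    have m2 : MeasurableSet (E j) :=
      (measurableSet_all (fun i => measurableSet_le (by fun_prop) measurable_const) _).inter
        (((MeasurableSet.const _).union (measurableSet_ex
          (fun k => measurableSet_lt measurable_const (by fun_prop)) _)).inter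
        (measurableSet_all (fun i => measurableSet_le (by fun_prop) measurable_const) _))
    have b1 : mu.real {z | ∀ i ≤ a, S i z - S a z ≤ (4 * j + 9) * r} ≤ (4 * j + 11) * (r / √w) := by
      refine le_trans (mp_real_le (mp_rev a) (E := {x | ∀ k ≤ w, S k x ≤ (4 * j + 9) * r})
        fun x hx k hk => ?_) (stay j)
      rw [S_rev _ (hk.trans ha)]
      exact hx _ (by omega)
    have b2 : mu.real {z : ℕ → ℝ | j = 0 ∨ ∃ k ≤ L, j * √L < |S k z|} ≤
        4 * Real.exp (-(j : ℝ) ^ 2 / 2) := by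
      rcases eq_or_ne j 0 with rfl | hj
      · refine measureReal_le_one.trans ?_
        simp
      · simp only [hj, false_or]
        refine (levy_tail_abs L (by positivity)).trans (le_of_eq ?_)
        rw [mul_pow, Real.sq_sqrt hL0.le]
        congr 2
        field_simp
    have b3 := mu_real_le_of_app (d := L) (A := {z | j = 0 ∨ ∃ k ≤ L, j * √L < |S k z|})
      (B := {x | ∀ k ≤ w, S k x ≤ (4 * j + 9) * r}) m1 (by
        rintro x y ⟨h1, h2⟩
        refine ⟨h1.imp_right fun ⟨k, hk, h⟩ => ⟨k, hk, by rwa [S_app_le _ _ hk] at h⟩,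
          fun k hk => ?_⟩
        have := h2 k hk
        rw [S_app_add, S_app_le _ _ le_rfl] at this
        linarith)
    have b4 := mu_real_le_of_app (d := a) (A := {z | ∀ i ≤ a, S i z - S a z ≤ (4 * j + 9) * r})
      (B := {z : ℕ → ℝ | (j = 0 ∨ ∃ k ≤ L, j * √L < |S k z|) ∧
        ∀ i ≤ w, S (L + i) z - S L z ≤ (4 * j + 9) * r}) m2 (by
        rintro x y ⟨h1, h2, h3⟩
        refine ⟨fun i hi => ?_, h2.imp_right fun ⟨k, hk, h⟩ => ⟨k, hk, by
          rwa [S_app_add, S_app_le _ _ le_rfl, add_sub_cancel_left] at h⟩, fun i hi => ?_⟩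
        · have := h1 i hi
          rwa [S_app_le _ _ hi, S_app_le _ _ le_rfl] at this
        · have := h3 i hi
          rwa [S_app_add, S_app_add, add_sub_add_left_eq_sub] at this)
    have b5 : (r / √w) ^ 2 = r ^ 2 / w := by rw [div_pow, Real.sq_sqrt hw'.le]
    calc mu.real (E j) ≤ (4 * j + 11) * (r / √w) *
          (4 * Real.exp (-(j : ℝ) ^ 2 / 2) * ((4 * j + 11) * (r / √w))) :=
          b4.trans (mul_le_mul b1 (b3.trans (mul_le_mul b2 (stay j) measureReal_nonneg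
            (by positivity))) measureReal_nonneg (by positivity))
      _ = 4 * Real.exp (-(j : ℝ) ^ 2 / 2) * (4 * j + 11) ^ 2 * (r / √w) ^ 2 := by ring
      _ ≤ 484 * Real.exp 5 * (1 / 2) ^ j * (r / √w) ^ 2 :=
          mul_le_mul_of_nonneg_right (esc_num j) (sq_nonneg _)
      _ = _ := by rw [b5]; ring
  have hsub : Peak m a L (5 * r) ⊆ ⋃ j, E j := by
    rintro z ⟨k, k1, k2, hz⟩
    have ex : ∃ j : ℕ, ∀ k ≤ L, |S (a + k) z - S a z| ≤ (j + 1) * √L := by
      obtain ⟨j, hj⟩ := exists_nat_ge (Mx L (fun k => |S (a + k) z - S a z|) / √L)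
      rw [div_le_iff₀ hsL] at hj
      exact ⟨j, fun k hk => by
        linarith [le_Mx (fun k => |S (a + k) z - S a z|) hk]⟩
    classical
    have h1 := Nat.find_spec ex
    have h2 : Nat.find ex = 0 ∨ ∃ k ≤ L, (Nat.find ex : ℕ) * √L < |S (a + k) z - S a z| := by
      rcases Nat.eq_zero_or_pos (Nat.find ex) with h | h
      · exact Or.inl h
      · have h3 := Nat.find_min ex (Nat.sub_one_lt h.ne')
        push Not at h3
        obtain ⟨k, hk, h3⟩ := h3
        rw [Nat.cast_pred h, sub_add_cancel] at h3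
        exact Or.inr ⟨k, hk, h3⟩
    generalize Nat.find ex = j at h1 h2
    have h3 := abs_le.1 (h1 (k - a) (by omega))
    have h4 := abs_le.1 (h1 L le_rfl)
    rw [show a + (k - a) = k by omega] at h3
    have h5 : ((j : ℝ) + 1) * √L ≤ (j + 1) * (2 * r) := by gcongr
    have h6 : (0 : ℝ) ≤ j * r := by positivity
    refine Set.mem_iUnion.2 ⟨j, fun i hi => ?_, h2, fun i hi => ?_⟩
    · linarith [hz i (by omega)]
    · linarith [hz (a + (L + i)) (by omega)]
  refine ENNReal.toReal_le_of_le_ofReal (by positivity) ((measure_mono hsub).trans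
    ((measure_iUnion_le _).trans ?_))
  have hsum : Summable fun j : ℕ => 484 * Real.exp 5 * (r ^ 2 / w) * (1 / 2) ^ j :=
    summable_geometric_two.mul_left _
  calc _ ≤ ∑' j : ℕ, ENNReal.ofReal (484 * Real.exp 5 * (r ^ 2 / w) * (1 / 2) ^ j) :=
        ENNReal.tsum_le_tsum fun j => by
          rw [← ofReal_measureReal (measure_ne_top _ _)]
          exact ENNReal.ofReal_le_ofReal (hE j)
    _ = _ := by
        rw [← ENNReal.ofReal_tsum_of_nonneg (fun j => by positivity) hsum, tsum_mul_left,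
          tsum_geometric_two]
        congr 1
        ring

/-- The indicator of an initial segment. -/
def Ini (b : ℕ) : ℕ → ℝ := fun i => if i < b then 1 else 0

lemma S_Ini (b k : ℕ) : S k (Ini b) = (min k b : ℕ) := by
  induction k with
  | zero => simp
  | succ k ih =>
    rw [S_succ, ih, Ini]
    split_ifs with h
    · rw [min_eq_left h.le, min_eq_left (Nat.succ_le_of_lt h)]
      push_cast
      rfl
    · rw [min_eq_right (not_lt.1 h), min_eq_right (by omega), add_zero]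

lemma exists_tent (a : ℕ) {l : ℕ} (hl : 1 ≤ l) {v : ℝ} (hv : 0 ≤ v) : ∃ h : ℕ → ℝ,
    (∀ i, a + 2 * l ≤ i → h i = 0) ∧ ∑ i ∈ range (a + 2 * l), h i ^ 2 ≤ 2 * (v ^ 2 / l) ∧
      (∀ k, 0 ≤ S k h ∧ S k h ≤ v) ∧ (∀ k, k ≤ a ∨ a + 2 * l ≤ k → S k h = 0) ∧
      S (a + l) h = v := by
  have hl' : (0 : ℝ) < l := by exact_mod_cast hl
  have e : ∀ k, S k ((v / l) • ((2 : ℝ) • Ini (a + l) - Ini a - Ini (a + 2 * l))) =
      v / l * ((2 * (min k (a + l) : ℕ) - (min k a : ℕ) - (min k (a + 2 * l) : ℕ) : ℤ) : ℝ) := by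
    intro k
    rw [S_smul, S_sub, S_sub, S_smul, S_Ini, S_Ini, S_Ini]
    push_cast
    rfl
  refine ⟨(v / l) • ((2 : ℝ) • Ini (a + l) - Ini a - Ini (a + 2 * l)), fun i hi => ?_, ?_,
    fun k => ?_, fun k hk => ?_, ?_⟩
  · simp [Ini, show ¬ i < a + l by omega, show ¬ i < a by omega, show ¬ i < a + 2 * l by omega]
  · calc _ ≤ S (a + 2 * l) ((v / l) ^ 2 • (Ini (a + 2 * l) - Ini a)) := by
          refine sum_le_sum fun i _ => le_of_eq ?_
          simp only [Pi.smul_apply, Pi.sub_apply, smul_eq_mul, Ini]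
          split_ifs <;> first | omega | ring
      _ = _ := by
          rw [S_smul, S_sub, S_Ini, S_Ini, min_self, min_eq_right (by omega)]
          push_cast
          field_simp
          ring
  · rw [e]
    have h1 : (0 : ℤ) ≤ 2 * (min k (a + l) : ℕ) - (min k a : ℕ) - (min k (a + 2 * l) : ℕ) := by
      omega
    have h2 : 2 * (min k (a + l) : ℕ) - (min k a : ℕ) - (min k (a + 2 * l) : ℕ) ≤ (l : ℤ) := by
      omega
    refine ⟨mul_nonneg (by positivity) (by exact_mod_cast h1), ?_⟩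
    calc _ ≤ v / l * ((l : ℤ) : ℝ) := by gcongr
      _ = v := by push_cast; field_simp
  · rw [e, show (2 * (min k (a + l) : ℕ) - (min k a : ℕ) - (min k (a + 2 * l) : ℕ) : ℤ) = 0 by
      omega]
    simp
  · rw [e, show (2 * (min (a + l) (a + l) : ℕ) - (min (a + l) a : ℕ) -
      (min (a + l) (a + 2 * l) : ℕ) : ℤ) = l by omega]
    push_cast
    field_simp

theorem discrete_escape {n m w l N : ℕ} {β r : ℝ} (hβ : 0 ≤ β) (hr : 0 < r) (hw : 1 ≤ w)
    (hl : r ^ 2 ≤ l) (hl' : (l : ℝ) ≤ 2 * r ^ 2) (hm : 2 * w + 2 * l * N ≤ m) (hmn : m ≤ n)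
    (hs : 2 * w * Real.exp (-r ^ 2 / 2) ≤ r / √w) :
    N * (Gibbs (Vd n β)).real {x | ∀ k ≤ m, |S k x| ≤ r} ≤
      2 * Real.exp (9 + β * (3 * r * (968 * Real.exp 5 * (r ^ 2 / w)))) := by
  have hV := isHam_Vd n hβ
  have := hV.isProb
  have hl0 : (0 : ℝ) < l := lt_of_lt_of_le (by positivity) hl
  have hl1 : 1 ≤ l := by exact_mod_cast hl0
  let B : ℕ → Set (ℕ → ℝ) := fun j =>
    {x | r < S (w + 2 * l * j + l) x ∧ ∀ i < j, S (w + 2 * l * i + l) x ≤ r}
  have hB : ∀ j, MeasurableSet (B j) := fun j =>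
    (measurableSet_lt measurable_const (measurable_S _)).inter
      (measurableSet_all (fun i => measurableSet_le (measurable_S _) measurable_const) _)
  have key : ∀ j ∈ range N, (Gibbs (Vd n β)).real {x | ∀ k ≤ m, |S k x| ≤ r} ≤
      2 * Real.exp (9 + β * (3 * r * (968 * Real.exp 5 * (r ^ 2 / w)))) *
        (Gibbs (Vd n β)).real (B j) := by
    intro j hj
    have hj' : 2 * l * (j + 1) ≤ 2 * l * N := Nat.mul_le_mul_left _ (mem_range.1 hj)
    rw [mul_add, mul_one] at hj'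
    obtain ⟨h, t1, t2, t3, t4, t5⟩ := exists_tent (w + 2 * l * j) hl1 (v := 3 * r) (by positivity)
    rw [Gibbs_real _ (measurableSet_small _ _), Gibbs_real _ (hB j), ← mul_div_assoc]
    refine div_le_div_of_nonneg_right (esc_Wt hV (measurableSet_small _ _) (hB j)
      (fun x hx k hk => by rw [S_neg, abs_neg]; exact hx k hk) t1 fun x hx => ⟨⟨?_, ?_⟩, ?_⟩)
      (Wt_nonneg _ _)
    · rw [S_add, t5]
      linarith [abs_le.1 (hx (w + 2 * l * j + l) (by omega))]
    · intro i hi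
      have hi' : 2 * l * (i + 1) ≤ 2 * l * j := Nat.mul_le_mul_left _ hi
      rw [mul_add, mul_one] at hi'
      rw [S_add, t4 _ (Or.inl (by omega)), add_zero]
      exact (abs_le.1 (hx _ (by omega))).2
    · have f1 := esc_F (n := n) (a := w + 2 * l * j) (L := 2 * l) hmn (by omega)
        (τ := fun k => S k h) (v := 3 * r) (by positivity) hx (fun k => (t3 k).2)
        (fun k hk => t4 k (by omega))
      have f2 := esc_peak (m := m) (a := w + 2 * l * j) (L := 2 * l) hr hw (by omega) (by omega)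
        (by omega) (Real.sqrt_le_iff.2 ⟨by positivity, by push_cast; linarith⟩) hs
      have f3 : F n (fun k => -S k (x + h)) ≤ F n fun k => -S k x :=
        F_mono fun k _ => by rw [S_add]; linarith [(t3 k).1]
      have f4 : (3 * r) ^ 2 / l ≤ 9 := by
        rw [div_le_iff₀ hl0]
        linarith
      rw [show 2 * r + 3 * r = 5 * r by ring] at f1
      have f5 : F n (fun k => S k (x + h)) ≤ F n (fun k => S k x) +
          3 * r * (968 * Real.exp 5 * (r ^ 2 / w)) := by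
        simp only [S_add]
        exact f1.trans (by gcongr)
      have f6 := mul_le_mul_of_nonneg_left (add_le_add f5 f3) hβ
      unfold Vd
      linarith
  have hsum : ∑ j ∈ range N, (Gibbs (Vd n β)).real (B j) ≤ 1 := by
    rw [← measureReal_biUnion_finset _ fun j _ => hB j]
    · exact measureReal_le_one
    · have : ∀ i j, i < j → Disjoint (B i) (B j) := fun i j hij =>
        Set.disjoint_left.2 fun x h1 h2 => (h2.2 i hij).not_gt h1.1
      intro i _ j _ hij
      exact (lt_or_gt_of_ne hij).elim (this i j) fun h => (this j i h).symm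
  have h1 := sum_le_sum key
  rw [sum_const, card_range, nsmul_eq_mul, ← mul_sum] at h1
  exact h1.trans (mul_le_of_le_one_right (by positivity) hsum)

lemma escape_limit {lam ρ κ : ℝ} (hlam : 0 ≤ lam) (hρ : 0 < ρ) {t : ℝ≥0} {N : ℕ}
    (hN : 16 * ρ ^ 2 * N ≤ t) (hκ : ρ ^ 3 ≤ κ * t) (ht : t ≠ 0) :
    ∀ᶠ n : ℕ in atTop, N * (Gibbs (Vb false n (lam * √(t / n : ℝ≥0)))).real
      {p | ∀ k ≤ n / 2, |S k p| ≤ ρ / √(t / n : ℝ≥0)} ≤
        2 * Real.exp (9 + 46464 * Real.exp 5 * lam * κ) := by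
  have ht' : (0 : ℝ) < t := by positivity
  obtain ⟨s, hs⟩ : ∃ s : ℝ, s = ρ ^ 2 / t := ⟨_, rfl⟩
  have hs0 : 0 < s := by rw [hs]; positivity
  have h0 : Tendsto (fun n : ℕ => (s * n / 2) ^ 1 * Real.exp (-(s * n / 2))) atTop (𝓝 0) :=
    (Real.tendsto_pow_mul_exp_neg_atTop_nhds_zero 1).comp
      ((tendsto_natCast_atTop_atTop.const_mul_atTop hs0).atTop_div_const two_pos)
  filter_upwards [h0.eventually (ge_mem_nhds (show 0 < s * √s / 4 by positivity)),
    tendsto_natCast_atTop_atTop (R := ℝ).eventually (eventually_ge_atTop (1 / s)),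
    eventually_ge_atTop 32] with n h1 h2 hn
  have hn' : (32 : ℝ) ≤ n := by exact_mod_cast hn
  obtain ⟨δ, hδ⟩ : ∃ δ : ℝ, δ = (t / n : ℝ≥0) := ⟨_, rfl⟩
  rw [← hδ]
  have e : δ * n = t := by
    rw [hδ]
    push_cast
    field_simp
  have hδ0 : 0 < δ := by
    rw [hδ]
    positivity
  have hσ : 0 < √δ := Real.sqrt_pos.2 hδ0
  have hσ2 : √δ ^ 2 = δ := Real.sq_sqrt hδ0.le
  have hr2 : (ρ / √δ) ^ 2 = s * n := by
    rw [div_pow, hσ2, hs, ← e]
    field_simp
  rw [div_le_iff₀ hs0] at h2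
  have hw1 : ((n / 8 : ℕ) : ℝ) ≤ n / 8 := Nat.cast_div_le
  have hw2 : (n : ℝ) / 16 ≤ (n / 8 : ℕ) := by
    have : n ≤ 16 * (n / 8) := by omega
    have : (n : ℝ) ≤ 16 * (n / 8 : ℕ) := by exact_mod_cast this
    linarith
  have hw3 : (0 : ℝ) < (n / 8 : ℕ) := by linarith
  have hl := Nat.ceil_lt_add_one (a := s * n) (by positivity)
  have := discrete_escape (n := n) (m := n / 2) (w := n / 8) (l := ⌈s * n⌉₊) (N := N)
    (β := lam * √δ) (r := ρ / √δ) (by positivity) (by positivity) (by omega)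
    (hr2 ▸ Nat.le_ceil _) (by rw [hr2]; linarith) ?_ (Nat.div_le_self _ _) ?_
  · refine this.trans (mul_le_mul_of_nonneg_left (Real.exp_le_exp.2 ?_) zero_le_two)
    have h3 : (ρ / √δ) ^ 2 / (n / 8 : ℕ) ≤ 16 * s := by
      rw [hr2, div_le_iff₀ hw3]
      nlinarith
    have h4 : ρ * s ≤ κ := by
      rw [hs, ← mul_div_assoc, div_le_iff₀ ht']
      linarith
    calc _ ≤ 9 + lam * √δ * (3 * (ρ / √δ) * (968 * Real.exp 5 * (16 * s))) := by gcongr
      _ = 9 + 46464 * Real.exp 5 * lam * (ρ * s) := by field_simp; ring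
      _ ≤ _ := by gcongr
  · have h3 : 16 * s * N ≤ 1 := by
      rw [hs, show 16 * (ρ ^ 2 / t) * N = 16 * ρ ^ 2 * N / t by ring, div_le_one ht']
      exact hN
    have h4 : (8 * (⌈s * n⌉₊ * N) : ℝ) ≤ n := by
      calc (8 * (⌈s * n⌉₊ * N) : ℝ) ≤ 8 * ((2 * (s * n)) * N) := by gcongr; linarith
        _ = 16 * s * N * n := by ring
        _ ≤ 1 * n := by gcongr
        _ = n := one_mul _
    have h5 : 8 * (⌈s * n⌉₊ * N) ≤ n := by exact_mod_cast h4
    rw [mul_assoc]
    omega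
  · rw [neg_div, hr2]
    have h3 : √s ≤ ρ / √δ / √(n / 8 : ℕ) := by
      rw [le_div_iff₀ (Real.sqrt_pos.2 hw3), ← Real.sqrt_mul hs0.le]
      refine Real.sqrt_le_iff.2 ⟨by positivity, ?_⟩
      rw [hr2]
      exact mul_le_mul_of_nonneg_left (by linarith) hs0.le
    refine le_trans ?_ h3
    have h4 := Real.exp_pos (-(s * n / 2))
    refine le_of_mul_le_mul_left ?_ hs0
    rw [pow_one] at h1
    have h5 : 0 < s * √s := by positivity
    calc s * (2 * (n / 8 : ℕ) * Real.exp (-(s * n / 2)))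
        ≤ s * (2 * n * Real.exp (-(s * n / 2))) := by gcongr; exact Nat.div_le_self _ _
      _ = 4 * (s * n / 2 * Real.exp (-(s * n / 2))) := by ring
      _ ≤ _ := by linarith

variable {Ω : Type*} [MeasurableSpace Ω] {P : Measure Ω} {lam : ℝ} {X : ℝ≥0 → Ω → ℝ}
  {x : ℕ → Ω → ℝ} {Y : ℕ → ℝ≥0 → Ω → ℝ}

theorem IsTrapModel.escape_le (h : IsTrapModel lam X x Y P) (hlam : 0 < lam) {a : ℝ} (ha : 0 ≤ a)
    {ρ κ : ℝ} (hρ : 0 < ρ) (hκ0 : 0 ≤ κ) {t : ℝ≥0} (h1 : 1 ≤ t) {N : ℕ} (hN0 : (0 : ℝ) < N)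
    (hN : 16 * ρ ^ 2 * N ≤ t) (hκ : ρ ^ 3 ≤ κ * t) :
    ProbabilityTheory.cond P {ω | (t : ℝ≥0∞) < hitTime a X x Y ω} {ω | maxDisp X t ω < ρ} ≤
      ENNReal.ofReal
        (2 * Real.exp (9 + 46464 * Real.exp 5 * lam * κ) / N * Real.exp (2 * lam)) := by
  have := h.prob
  have ht1 : (1 : ℝ) ≤ t := h1
  rw [← Tb_false]
  refine cond_le (h.Tb_pos hlam.le false ha t)
    (G' := ⋂ m : ℕ, ⋂ n : ℕ, ⋂ k : ℕ, {ω | k ≤ n / 2 → |X (k * (tm t m / n)) ω| ≤ ρ})
    (MeasurableSet.iInter fun m => MeasurableSet.iInter fun n => MeasurableSet.iInter fun k => ?_)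
    (h.ae_reg.mono fun ω hω hG => ?_) (inter_Tb_le (by positivity) fun m => ?_)
  · by_cases hk : k ≤ n / 2
    · simp only [hk, forall_const]
      exact measurableSet_le (h.measX _).abs measurable_const
    · simp [hk]
  · simp only [Set.mem_iInter, Set.mem_ofPred_eq]
    intro m n k hk
    refine (abs_le_maxDisp hω.1.1 ?_).trans (le_of_lt hG)
    have h3 : ((2 * k : ℕ) : ℝ≥0) * (tm t m / n) ≤ tm t m := grid_le (by omega)
    have h4 := tm_le t m
    rw [← NNReal.coe_le_coe] at h3 h4 ⊢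
    push_cast at h3 h4 ⊢
    linarith
  have h6 : tm t m ≠ 0 := (zero_le.trans_lt (lt_tm t m)).ne'
  have h3 : (t : ℝ) ≤ tm t m := (lt_tm t m).le
  have h5 := escape_limit hlam.le hρ (κ := κ) (t := tm t m) (N := N) (hN.trans h3)
    (hκ.trans (by gcongr)) h6
  refine h.surv_inter_le hlam.le (b := false) ha h6
    (A := fun n => {p | ∀ k ≤ n / 2, |S k p| ≤ ρ / √(tm t m / n : ℝ≥0)})
    (fun n => measurableSet_small _ _) (fun ω hω hE => ?_) (h5.mono fun n hn => ?_)
  · filter_upwards [eventually_ne_atTop 0] with n hn0 k hk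
    have hδ : tm t m / n ≠ 0 := div_ne_zero h6 (by exact_mod_cast hn0)
    have h10 := S_incr hδ (fun s => X s ω) k
    have h11 : 0 < √(tm t m / n : ℝ≥0) := Real.sqrt_pos.2 (by positivity)
    rw [le_div_iff₀ h11, mul_comm, ← abs_of_pos h11, ← abs_mul, h10, hω.1.2, sub_zero]
    simp only [Set.mem_iInter, Set.mem_ofPred_eq] at hE
    exact hE m n k hk
  · rw [le_div_iff₀ hN0, mul_comm]
    exact hn

/-- The constant of the logarithmic lower bound. -/
noncomputable def escC (lam : ℝ) : ℝ := (6 * (46464 * Real.exp 5 * lam))⁻¹ ^ (1 / 3 : ℝ)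

lemma escC_pos (hlam : 0 < lam) : 0 < escC lam := by
  unfold escC
  positivity

theorem IsTrapModel.escape (h : IsTrapModel lam X x Y P) (hlam : 0 < lam) {a : ℝ} (ha : 0 ≤ a) :
    Tendsto (fun t : ℝ≥0 => ProbabilityTheory.cond P {ω | (t : ℝ≥0∞) < hitTime a X x Y ω}
      {ω | maxDisp X t ω < escC lam * ((t : ℝ) * Real.log t) ^ (1 / 3 : ℝ)}) atTop (𝓝 0) := by
  rw [ENNReal.tendsto_nhds_zero]
  intro ε hε
  obtain ⟨η, hη, hη'⟩ : ∃ η : ℝ, 0 < η ∧ ENNReal.ofReal η ≤ ε := by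
    obtain ⟨d, hd1, hd2⟩ := ENNReal.lt_iff_exists_nnreal_btwn.1 hε
    exact ⟨d, by exact_mod_cast hd1, by rw [ENNReal.ofReal_coe_nnreal]; exact hd2.le⟩
  have hc := escC_pos hlam
  have cube : ∀ y : ℝ, 0 ≤ y → (y ^ (1 / 3 : ℝ)) ^ 3 = y := fun y hy => by
    rw [← Real.rpow_natCast, ← Real.rpow_mul hy]
    norm_num
  have hc3 : 46464 * Real.exp 5 * lam * escC lam ^ 3 = 1 / 6 := by
    rw [escC, cube _ (by positivity)]
    field_simp
  filter_upwards [eventually_ge_atTop 2,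
    ev_rpow (show (17 / 16 * (1 / 3) * 2 + 1 / 4 : ℝ) < 1 by norm_num)
      (32 * escC lam ^ 2 * (16 ^ (1 / 3 : ℝ)) ^ 2),
    ev_rpow (show (1 / 6 : ℝ) < 1 / 4 by norm_num)
      (2 * Real.exp 9 * Real.exp (2 * lam) / η)] with t h1 h2 h3
  have ht2 : (2 : ℝ) ≤ t := h1
  have ht0 : (0 : ℝ) < t := by linarith
  have hlog : 0 < Real.log t := Real.log_pos (by linarith)
  have hq : (1 : ℝ) ≤ (t : ℝ) ^ (1 / 4 : ℝ) := Real.one_le_rpow (by linarith) (by norm_num)
  have hN1 := Nat.le_ceil ((t : ℝ) ^ (1 / 4 : ℝ))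
  have hN2 := Nat.ceil_lt_add_one (a := (t : ℝ) ^ (1 / 4 : ℝ)) (by positivity)
  refine le_trans (h.escape_le hlam ha (κ := escC lam ^ 3 * Real.log t) (by positivity)
    (by positivity) (one_le_two.trans h1) (N := ⌈(t : ℝ) ^ (1 / 4 : ℝ)⌉₊) (by linarith) ?_ ?_)
    (le_trans (ENNReal.ofReal_le_ofReal ?_) hη')
  · have h4 : (t : ℝ) * Real.log t ≤ 16 * (t : ℝ) ^ (17 / 16 : ℝ) := by
      have := Real.log_le_rpow_div ht0.le (show (0 : ℝ) < 1 / 16 by norm_num)
      rw [show (17 / 16 : ℝ) = 1 + 1 / 16 by norm_num, Real.rpow_add ht0, Real.rpow_one]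
      nlinarith
    have h5 : ((t : ℝ) * Real.log t) ^ (1 / 3 : ℝ) ≤
        16 ^ (1 / 3 : ℝ) * (t : ℝ) ^ (17 / 16 * (1 / 3) : ℝ) := by
      rw [Real.rpow_mul ht0.le, ← Real.mul_rpow (by norm_num) (by positivity)]
      exact Real.rpow_le_rpow (by positivity) h4 (by norm_num)
    rw [Real.rpow_add ht0, Real.rpow_mul ht0.le _ 2, Real.rpow_two, Real.rpow_one] at h2
    calc _ ≤ 16 * (escC lam * (16 ^ (1 / 3 : ℝ) * (t : ℝ) ^ (17 / 16 * (1 / 3) : ℝ))) ^ 2 *
          (2 * (t : ℝ) ^ (1 / 4 : ℝ)) := by gcongr; linarith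
      _ = _ := by ring
      _ ≤ _ := h2
  · rw [mul_pow, cube _ (by positivity)]
    exact le_of_eq (by ring)
  · rw [← mul_assoc, hc3, Real.exp_add, mul_comm (1 / 6 : ℝ), ← Real.rpow_def_of_pos ht0,
      div_mul_eq_mul_div, div_le_iff₀ (by linarith)]
    rw [div_mul_eq_mul_div, div_le_iff₀ hη] at h3
    nlinarith

theorem IsTrapModel.escape_one (h : IsTrapModel lam X x Y P) (hlam : 0 < lam) {a : ℝ}
    (ha : 0 ≤ a) :
    Tendsto (fun t : ℝ≥0 => ProbabilityTheory.cond P {ω | (t : ℝ≥0∞) < hitTime a X x Y ω}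
      {ω | escC lam * ((t : ℝ) * Real.log t) ^ (1 / 3 : ℝ) ≤ maxDisp X t ω}) atTop (𝓝 1) := by
  have := h.prob
  have h1 := ENNReal.Tendsto.sub (tendsto_const_nhds (x := (1 : ℝ≥0∞))) (h.escape hlam ha)
    (Or.inl ENNReal.one_ne_top)
  rw [tsub_zero] at h1
  have h0 : ∀ t : ℝ≥0, P {ω | (t : ℝ≥0∞) < hitTime a X x Y ω} ≠ 0 := fun t =>
    Tb_false a X x Y ▸ h.Tb_pos hlam.le false ha t
  refine tendsto_of_tendsto_of_tendsto_of_le_of_le h1 tendsto_const_nhds (fun t => ?_)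
    fun t => cond_le_one (h0 t)
  have := cond_isProbabilityMeasure (h0 t)
  refine tsub_le_iff_right.2 (le_trans ?_ (measure_union_le _ _))
  refine (measure_univ.symm.le).trans (measure_mono fun ω _ => ?_)
  exact le_or_gt (escC lam * ((t : ℝ) * Real.log t) ^ (1 / 3 : ℝ)) (maxDisp X t ω)

end Pool.Agent.Lib.MP_b41181_pr
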