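import Mathlib

/-!
Existence of Brownian motion: the Levy-Ciesielski series for the Brownian bridge, followed by a
time change.
-/

open MeasureTheory ProbabilityTheory Filter Topology Finset
open scoped ENNReal NNReal

namespace Pool.Agent.Lib.MP_b41181_pr.ExBM

/-- The function equal to `0` below `0`, to `1` above `1`, and linear in between. -/
noncomputable def ramp (u : ℝ) : ℝ := max 0 (min u 1)

/-- The tent function of height one half on the unit interval. -/
noncomputable def tent (u : ℝ) : ℝ := (ramp (2 * u) - ramp (2 * u - 1)) / 2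

lemma ramp_cases (u : ℝ) :
    (u ≤ 0 ∧ ramp u = 0) ∨ (0 ≤ u ∧ u ≤ 1 ∧ ramp u = u) ∨ (1 ≤ u ∧ ramp u = 1) := by
  unfold ramp
  rcases le_total u 0 with h | h
  · exact Or.inl ⟨h, max_eq_left ((min_le_left _ _).trans h)⟩
  rcases le_total u 1 with h1 | h1
  · exact Or.inr (Or.inl ⟨h, h1, by rw [min_eq_left h1, max_eq_right h]⟩)
  · exact Or.inr (Or.inr ⟨h1, by rw [min_eq_right h1, max_eq_right zero_le_one]⟩)

lemma ramp_nonneg (u : ℝ) : 0 ≤ ramp u := le_max_left _ _

lemma ramp_le_one (u : ℝ) : ramp u ≤ 1 := max_le zero_le_one (min_le_right _ _)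

lemma ramp_mono {u v : ℝ} (h : u ≤ v) : ramp u ≤ ramp v :=
  max_le_max le_rfl (min_le_min h le_rfl)

lemma ramp_half (u : ℝ) : ramp u = (ramp (2 * u) + ramp (2 * u - 1)) / 2 := by
  rcases ramp_cases u with h | h | h <;> rcases ramp_cases (2 * u) with h1 | h1 | h1 <;>
    rcases ramp_cases (2 * u - 1) with h2 | h2 | h2 <;> linarith [h.1, h.2, h1.1, h1.2, h2.1, h2.2]

lemma tent_nonneg (u : ℝ) : 0 ≤ tent u := by
  have := ramp_mono (show 2 * u - 1 ≤ 2 * u by linarith)
  unfold tent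
  linarith

lemma tent_le (u : ℝ) : tent u ≤ ramp (u + 1) - ramp u := by
  unfold tent
  rcases ramp_cases u with h | h | h <;> rcases ramp_cases (2 * u) with h1 | h1 | h1 <;>
    rcases ramp_cases (2 * u - 1) with h2 | h2 | h2 <;>
    rcases ramp_cases (u + 1) with h3 | h3 | h3 <;>
    linarith [h.1, h.2, h1.1, h1.2, h2.1, h2.2, h3.1, h3.2]

lemma ramp_mul_le {x y : ℝ} (h : x ≤ y) : ramp x * (1 - ramp y) ≤ ramp (x + 1) - ramp x := by
  have h1 := ramp_mono h
  have h2 := ramp_nonneg x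
  have h3 := ramp_le_one x
  have h4 := ramp_le_one y
  have h5 := ramp_mono (show x ≤ x + 1 by linarith)
  rcases ramp_cases x with h6 | h6 | h6
  · rw [h6.2] at *
    linarith
  · have h7 : ramp (x + 1) = 1 := by
      rcases ramp_cases (x + 1) with h7 | h7 | h7 <;> linarith [h7.1, h7.2, h6.1]
    nlinarith
  · nlinarith

lemma sum_tele (x : ℝ) (m : ℕ) : ∑ k ∈ range m, (ramp (x - k + 1) - ramp (x - k)) ≤ 1 := by
  have h : ∑ k ∈ range m, (ramp (x - k + 1) - ramp (x - k)) = ramp (x + 1) - ramp (x - m + 1) := by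
    induction m with
    | zero => simp
    | succ m ih =>
      rw [sum_range_succ, ih]
      have : x - ((m + 1 : ℕ) : ℝ) + 1 = x - m := by push_cast; ring
      rw [this]
      ring
  linarith [ramp_le_one (x + 1), ramp_nonneg (x - m + 1)]

lemma sum_ramp {x : ℝ} (hx : 0 ≤ x) (m : ℕ) : ∑ k ∈ range m, ramp (x - k) = min x m := by
  induction m with
  | zero => simp [hx]
  | succ m ih =>
    rw [sum_range_succ, ih]
    push_cast
    rcases ramp_cases (x - m) with h | h | h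
    · rw [min_eq_left (by linarith [h.1]), min_eq_left (by linarith [h.1]), h.2, add_zero]
    · rw [min_eq_right (by linarith [h.1]), min_eq_left (by linarith [h.2.1]), h.2.2]
      ring
    · rw [min_eq_right (by linarith [h.1]), min_eq_right (by linarith [h.1]), h.2]

lemma continuous_tent : Continuous tent := by
  unfold tent ramp
  fun_prop

/-- Schauder functions. -/
noncomputable def c (n k : ℕ) (u : ℝ) : ℝ := (√2)⁻¹ ^ n * tent (2 ^ n * u - k)

/-- Covariance of the piecewise linear interpolation at level `n`. -/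
noncomputable def R (n : ℕ) (u v : ℝ) : ℝ :=
  (2⁻¹ : ℝ) ^ n * ∑ j ∈ range (2 ^ n), ramp (2 ^ n * u - j) * ramp (2 ^ n * v - j)

lemma sum_range_two_mul (f : ℕ → ℝ) (m : ℕ) :
    ∑ j ∈ range (2 * m), f j = ∑ k ∈ range m, (f (2 * k) + f (2 * k + 1)) := by
  induction m with
  | zero => simp
  | succ m ih => rw [mul_add, mul_one, sum_range_succ, sum_range_succ, ih, sum_range_succ, add_assoc]

lemma sq_pow (n : ℕ) : (√2)⁻¹ ^ n * (√2)⁻¹ ^ n = (2⁻¹ : ℝ) ^ n := by
  rw [← mul_pow, ← mul_inv, Real.mul_self_sqrt zero_le_two]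

lemma R_succ (n : ℕ) (u v : ℝ) :
    R (n + 1) u v = R n u v + ∑ k ∈ range (2 ^ n), c n k u * c n k v := by
  unfold R
  rw [pow_succ' 2 n, sum_range_two_mul, mul_sum, mul_sum, ← sum_add_distrib]
  refine sum_congr rfl fun k _ => ?_
  have e1 : ∀ w : ℝ, (2 : ℝ) ^ (n + 1) * w - ((2 * k : ℕ) : ℝ) = 2 * (2 ^ n * w - k) := fun w => by
    push_cast; ring
  have e2 : ∀ w : ℝ, (2 : ℝ) ^ (n + 1) * w - ((2 * k + 1 : ℕ) : ℝ) = 2 * (2 ^ n * w - k) - 1 :=
    fun w => by push_cast; ring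
  rw [e1, e1, e2, e2, ramp_half (2 ^ n * u - k), ramp_half (2 ^ n * v - k)]
  unfold c tent
  rw [mul_mul_mul_comm, sq_pow]
  ring

lemma R_eq {u v : ℝ} (hu : 0 ≤ u) (hu1 : u ≤ 1) (hv : 0 ≤ v) (hv1 : v ≤ 1) (N : ℕ) :
    ∑ n ∈ range N, ∑ k ∈ range (2 ^ n), c n k u * c n k v = R N u v - u * v := by
  induction N with
  | zero =>
    have h : ∀ w : ℝ, 0 ≤ w → w ≤ 1 → ramp w = w := fun w h0 h1 => by
      rcases ramp_cases w with h | h | h <;> linarith [h.1, h.2]
    simp [R, h u hu hu1, h v hv hv1]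
  | succ N ih => rw [sum_range_succ, ih, R_succ]; ring

lemma R_symm (n : ℕ) (u v : ℝ) : R n u v = R n v u := by
  unfold R
  simp_rw [mul_comm (ramp (2 ^ n * u - _))]

lemma R_tendsto_of_le {u v : ℝ} (hu : 0 ≤ u) (huv : u ≤ v) (hv1 : v ≤ 1) :
    Tendsto (fun n => R n u v) atTop (𝓝 u) := by
  have key : ∀ n, u - R n u v =
      (2⁻¹ : ℝ) ^ n * ∑ j ∈ range (2 ^ n), ramp (2 ^ n * u - j) * (1 - ramp (2 ^ n * v - j)) := by
    intro n
    have hp : (0 : ℝ) < 2 ^ n := by positivity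
    have h1 := sum_ramp (x := 2 ^ n * u) (by positivity) (2 ^ n)
    rw [min_eq_left (by push_cast; nlinarith)] at h1
    simp_rw [mul_sub, mul_one]
    rw [sum_sub_distrib, h1, mul_sub, R, ← mul_assoc, ← mul_pow]
    norm_num
  have h0 : Tendsto (fun n : ℕ => u - R n u v) atTop (𝓝 0) := by
    refine squeeze_zero (fun n => ?_) (fun n => ?_)
      (tendsto_pow_atTop_nhds_zero_of_lt_one (r := (2⁻¹ : ℝ)) (by norm_num) (by norm_num))
    · rw [key]
      exact mul_nonneg (by positivity) (sum_nonneg fun j _ =>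
        mul_nonneg (ramp_nonneg _) (sub_nonneg.2 (ramp_le_one _)))
    · rw [key]
      refine mul_le_of_le_one_right (by positivity) (le_trans (sum_le_sum fun j _ => ?_)
        (sum_tele (2 ^ n * u) (2 ^ n)))
      have hp : (0 : ℝ) < 2 ^ n := by positivity
      exact ramp_mul_le (by nlinarith)
  simpa using (tendsto_const_nhds (x := u)).sub h0

lemma cov_tendsto {u v : ℝ} (hu : 0 ≤ u) (hu1 : u ≤ 1) (hv : 0 ≤ v) (hv1 : v ≤ 1) :
    Tendsto (fun N => ∑ n ∈ range N, ∑ k ∈ range (2 ^ n), c n k u * c n k v) atTop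
      (𝓝 (min u v - u * v)) := by
  simp_rw [R_eq hu hu1 hv hv1]
  refine Tendsto.sub_const ?_ _
  rcases le_total u v with h | h
  · rw [min_eq_left h]
    exact R_tendsto_of_le hu h hv1
  · rw [min_eq_right h]
    simp_rw [R_symm _ u v]
    exact R_tendsto_of_le hv h hu1

lemma sum_c_le (n : ℕ) (u : ℝ) : ∑ k ∈ range (2 ^ n), c n k u ≤ (√2)⁻¹ ^ n := by
  unfold c
  rw [← mul_sum]
  exact mul_le_of_le_one_right (by positivity)
    (le_trans (sum_le_sum fun k _ => tent_le _) (sum_tele (2 ^ n * u) (2 ^ n)))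

lemma c_nonneg (n k : ℕ) (u : ℝ) : 0 ≤ c n k u := mul_nonneg (by positivity) (tent_nonneg _)

lemma integral_prod_infinitePi {ι E : Type*} [MeasurableSpace E] (μ : ι → Measure E)
    [∀ i, IsProbabilityMeasure (μ i)] (s : Finset ι) (f : ι → E → ℂ) (hf : ∀ i, Measurable (f i)) :
    ∫ ω, ∏ i ∈ s, f i (ω i) ∂(Measure.infinitePi μ) = ∏ i ∈ s, ∫ x, f i x ∂(μ i) := by
  have h := ((iIndepFun_infinitePi (P := μ) (X := f) hf).precomp
    (g := fun i : s => (i : ι)) Subtype.val_injective).integral_fun_prod_eq_prod_integral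
    (fun i => ((hf i).comp (measurable_pi_apply _)).aestronglyMeasurable)
  simp_rw [← Finset.prod_coe_sort s]
  rw [h]
  refine prod_congr rfl fun i _ => ?_
  rw [← Measure.infinitePi_map_eval μ i, integral_map (measurable_pi_apply _).aemeasurable
    (hf i).aestronglyMeasurable]

/-- The sample space. -/
abbrev Om : Type := (Σ _ : ℕ, ℕ) → ℝ

/-- Independent standard Gaussian variables. -/
noncomputable def P0 : Measure Om := Measure.infinitePi fun _ => gaussianReal 0 1

instance : IsProbabilityMeasure P0 := by unfold P0; infer_instance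

lemma integral_exp_sum (s : Finset (Σ _ : ℕ, ℕ)) (d : (Σ _ : ℕ, ℕ) → ℝ) :
    ∫ ω, Complex.exp ((∑ p ∈ s, d p * ω p : ℝ) * Complex.I) ∂P0 =
      Complex.exp (-((∑ p ∈ s, d p ^ 2 : ℝ) / 2)) := by
  have h := integral_prod_infinitePi (fun _ : (Σ _ : ℕ, ℕ) => gaussianReal 0 1) s
    (fun p x => Complex.exp (d p * x * Complex.I)) (fun p => by fun_prop)
  simp_rw [← charFun_apply_real, charFun_gaussianReal, ← Complex.exp_sum] at h
  push_cast
  simp_rw [sum_mul]
  rw [P0, h, sum_div, ← sum_neg_distrib]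
  simp

/-- Level `n` of the series. -/
noncomputable def F (n : ℕ) (u : ℝ) (ω : Om) : ℝ := ∑ k ∈ range (2 ^ n), c n k u * ω ⟨n, k⟩

/-- The Brownian bridge. -/
noncomputable def bridge (u : ℝ) (ω : Om) : ℝ :=
  limUnder atTop (fun N => ∑ n ∈ range N, F n u ω)

lemma measurable_F (n : ℕ) (u : ℝ) : Measurable (F n u) := by
  unfold F
  fun_prop

lemma measurable_bridge (u : ℝ) : Measurable (bridge u) :=
  (StronglyMeasurable.limUnder (l := atTop) (f := fun N ω => ∑ n ∈ range N, F n u ω) fun _ =>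
    (Finset.measurable_sum _ fun n _ => measurable_F n u).stronglyMeasurable).measurable

lemma ae_growth : ∀ᵐ ω ∂P0, ∃ C : ℝ, ∀ n, ∀ k ∈ range (2 ^ n), |ω ⟨n, k⟩| ≤ C * (4 / 3) ^ n := by
  set M := ∫⁻ x, ENNReal.ofReal (‖x‖ ^ 4) ∂(gaussianReal 0 1) with hM
  have hMt : M < ∞ := (MemLp.integrable_norm_pow' (p := 4)
    (memLp_id_gaussianReal' _ (by simp))).lintegral_lt_top
  have hm : ∀ p : (Σ _ : ℕ, ℕ), Measurable fun ω : Om => ENNReal.ofReal (‖ω p‖ ^ 4) :=
    fun p => by fun_prop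
  have h1 : ∀ p : (Σ _ : ℕ, ℕ), ∫⁻ ω, ENNReal.ofReal (‖ω p‖ ^ 4) ∂P0 = M := fun p =>
    (measurePreserving_eval_infinitePi (fun _ : (Σ _ : ℕ, ℕ) => gaussianReal 0 1) p).lintegral_comp
      (f := fun x : ℝ => ENNReal.ofReal (‖x‖ ^ 4)) (by fun_prop)
  set a : ℝ≥0∞ := ENNReal.ofReal ((3 / 4) ^ 4) with ha
  have hmn : ∀ n, Measurable fun ω : Om =>
      ∑ k ∈ range (2 ^ n), a ^ n * ENNReal.ofReal (‖ω ⟨n, k⟩‖ ^ 4) :=
    fun n => Finset.measurable_sum _ fun k _ => (hm _).const_mul _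
  have h2 : ∫⁻ ω, ∑' n, ∑ k ∈ range (2 ^ n), a ^ n * ENNReal.ofReal (‖ω ⟨n, k⟩‖ ^ 4) ∂P0 ≠ ∞ := by
    rw [lintegral_tsum fun n => (hmn n).aemeasurable]
    have : ∀ n, ∫⁻ ω, ∑ k ∈ range (2 ^ n), a ^ n * ENNReal.ofReal (‖ω ⟨n, k⟩‖ ^ 4) ∂P0 =
        (2 * a) ^ n * M := fun n => by
      rw [lintegral_finsetSum _ fun k _ => (hm _).const_mul _]
      simp_rw [lintegral_const_mul _ (hm _), h1]
      simp [mul_pow, mul_assoc]
    simp_rw [this]
    rw [ENNReal.tsum_mul_right, ENNReal.tsum_geometric]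
    refine ENNReal.mul_ne_top (ENNReal.inv_ne_top.2 (tsub_pos_of_lt ?_).ne') hMt.ne
    rw [ha, ← ENNReal.ofReal_ofNat 2, ← ENNReal.ofReal_mul zero_le_two, ENNReal.ofReal_lt_one]
    norm_num
  filter_upwards [ae_lt_top (Measurable.tsum hmn) h2] with ω hω
  set T := ∑' n, ∑ k ∈ range (2 ^ n), a ^ n * ENNReal.ofReal (‖ω ⟨n, k⟩‖ ^ 4) with hT
  refine ⟨1 + T.toReal, fun n k hk => ?_⟩
  have h3 : a ^ n * ENNReal.ofReal (‖ω ⟨n, k⟩‖ ^ 4) ≤ T :=
    le_trans (single_le_sum (f := fun k => a ^ n * ENNReal.ofReal (‖ω ⟨n, k⟩‖ ^ 4))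
      (fun _ _ => zero_le) hk) (ENNReal.le_tsum n)
  rw [ha, ← ENNReal.ofReal_pow (by positivity), ← ENNReal.ofReal_mul (by positivity),
    ENNReal.ofReal_le_iff_le_toReal hω.ne, ← pow_mul, mul_comm 4 n, pow_mul, ← mul_pow,
    Real.norm_eq_abs] at h3
  have h4 : (3 / 4 : ℝ) ^ n * |ω ⟨n, k⟩| ≤ 1 + T.toReal := by
    set y := (3 / 4 : ℝ) ^ n * |ω ⟨n, k⟩|
    rcases le_total y 1 with h | h
    · linarith [ENNReal.toReal_nonneg (a := T)]
    · linarith [le_self_pow₀ h (show 4 ≠ 0 by norm_num)]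
  calc |ω ⟨n, k⟩| = (3 / 4 : ℝ) ^ n * |ω ⟨n, k⟩| * (4 / 3) ^ n := by
        rw [mul_right_comm, ← mul_pow]; norm_num
    _ ≤ _ := mul_le_mul_of_nonneg_right h4 (by positivity)

lemma ae_bridge : ∀ᵐ ω ∂P0, (Continuous fun u => bridge u ω) ∧
    ∀ u, Tendsto (fun N => ∑ n ∈ range N, F n u ω) atTop (𝓝 (bridge u ω)) := by
  filter_upwards [ae_growth] with ω ⟨C, hC⟩
  have hC0 : 0 ≤ C := by simpa using (abs_nonneg _).trans (hC 0 0 (by simp))
  have hb : ∀ n u, ‖F n u ω‖ ≤ C * ((√2)⁻¹ * (4 / 3)) ^ n := fun n u => by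
    calc ‖F n u ω‖ ≤ ∑ k ∈ range (2 ^ n), c n k u * (C * (4 / 3) ^ n) := by
          refine (norm_sum_le _ _).trans (sum_le_sum fun k hk => ?_)
          rw [norm_mul, Real.norm_of_nonneg (c_nonneg _ _ _), Real.norm_eq_abs]
          exact mul_le_mul_of_nonneg_left (hC n k hk) (c_nonneg _ _ _)
      _ ≤ (√2)⁻¹ ^ n * (C * (4 / 3) ^ n) := by
          rw [← sum_mul]
          exact mul_le_mul_of_nonneg_right (sum_c_le n u) (by positivity)
      _ = _ := by rw [mul_pow]; ring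
  have hs : Summable fun n : ℕ => C * ((√2)⁻¹ * (4 / 3) : ℝ) ^ n := by
    refine (summable_geometric_of_lt_one (by positivity) ?_).mul_left C
    rw [inv_mul_lt_iff₀ (by positivity), mul_one]
    exact Real.lt_sqrt_of_sq_lt (by norm_num)
  have ht : ∀ u, Tendsto (fun N => ∑ n ∈ range N, F n u ω) atTop (𝓝 (∑' n, F n u ω)) :=
    fun u => (Summable.of_norm_bounded hs fun n => hb n u).hasSum.tendsto_sum_nat
  have he : ∀ u, bridge u ω = ∑' n, F n u ω := fun u => (ht u).limUnder_eq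
  simp_rw [he]
  refine ⟨continuous_tsum (fun n => ?_) hs hb, ht⟩
  have := continuous_tent
  unfold F c
  fun_prop

lemma integral_exp_bridge {ι : Type*} [Fintype ι] (a u : ι → ℝ) (h0 : ∀ i, 0 ≤ u i)
    (h1 : ∀ i, u i ≤ 1) :
    ∫ ω, Complex.exp ((∑ i, a i * bridge (u i) ω : ℝ) * Complex.I) ∂P0 =
      Complex.exp (-((∑ i, ∑ j, a i * a j * (min (u i) (u j) - u i * u j) : ℝ) / 2)) := by
  have hA : Tendsto (fun N => ∫ ω, Complex.exp ((∑ i, a i * ∑ n ∈ range N, F n (u i) ω : ℝ) *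
      Complex.I) ∂P0) atTop
      (𝓝 (∫ ω, Complex.exp ((∑ i, a i * bridge (u i) ω : ℝ) * Complex.I) ∂P0)) := by
    refine tendsto_integral_of_dominated_convergence (fun _ => 1) (fun N => ?_)
      (integrable_const _) (fun N => ae_of_all _ fun ω => (Complex.norm_exp_ofReal_mul_I _).le) ?_
    · have := measurable_F
      exact Measurable.aestronglyMeasurable (by fun_prop)
    · filter_upwards [ae_bridge] with ω hω
      have hc : Continuous fun y : ℝ => Complex.exp (y * Complex.I) := by fun_prop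
      exact (hc.tendsto _).comp (tendsto_finsetSum _ fun i _ => (hω.2 (u i)).const_mul _)
  have hB : ∀ N, ∫ ω, Complex.exp ((∑ i, a i * ∑ n ∈ range N, F n (u i) ω : ℝ) * Complex.I) ∂P0 =
      Complex.exp (-((∑ i, ∑ j, a i * a j *
        ∑ n ∈ range N, ∑ k ∈ range (2 ^ n), c n k (u i) * c n k (u j) : ℝ) / 2)) := fun N => by
    have h := integral_exp_sum ((range N).sigma fun n => range (2 ^ n))
      (fun p => ∑ i, a i * c p.1 p.2 (u i))
    have e1 : ∀ ω : Om, ∑ i, a i * ∑ n ∈ range N, F n (u i) ω =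
        ∑ p ∈ (range N).sigma fun n => range (2 ^ n), (∑ i, a i * c p.1 p.2 (u i)) * ω p :=
      fun ω => by
        simp_rw [F, sum_sigma', mul_sum, sum_mul, mul_assoc]
        exact sum_comm
    have e2 : ∑ i, ∑ j, a i * a j *
        ∑ n ∈ range N, ∑ k ∈ range (2 ^ n), c n k (u i) * c n k (u j) =
        ∑ p ∈ (range N).sigma fun n => range (2 ^ n), (∑ i, a i * c p.1 p.2 (u i)) ^ 2 := by
      simp_rw [sum_sigma' (range N), sq, sum_mul_sum, mul_sum]
      rw [sum_comm (s := (range N).sigma _)]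
      refine sum_congr rfl fun i _ => ?_
      rw [sum_comm (s := (range N).sigma _)]
      exact sum_congr rfl fun j _ => sum_congr rfl fun p _ => by ring
    simp_rw [e1]
    rw [e2, h]
  simp_rw [hB] at hA
  have hc : Continuous fun y : ℝ => Complex.exp (-(y / 2)) := by fun_prop
  exact tendsto_nhds_unique hA ((hc.tendsto _).comp (tendsto_finsetSum _ fun i _ =>
    tendsto_finsetSum _ fun j _ => (cov_tendsto (h0 i) (h1 i) (h0 j) (h1 j)).const_mul _))

/-- Brownian motion. -/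
noncomputable def B (t : ℝ≥0) (ω : Om) : ℝ := (1 + t) * bridge (t / (1 + t)) ω

lemma measurable_B (t : ℝ≥0) : Measurable (B t) := (measurable_bridge _).const_mul _

lemma time_change (s t : ℝ≥0) : (1 + s : ℝ) * (1 + t) *
    (min (s / (1 + s) : ℝ) (t / (1 + t)) - s / (1 + s) * (t / (1 + t))) = (min s t : ℝ≥0) := by
  wlog h : s ≤ t generalizing s t
  · rw [mul_comm (1 + s : ℝ), min_comm, mul_comm (s / (1 + s) : ℝ), min_comm s t]
    exact this t s (le_of_not_ge h)
  have hs := s.2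
  have ht := t.2
  have h' : (s : ℝ) ≤ t := h
  rw [min_eq_left h, min_eq_left (by
    rw [div_le_div_iff₀ (by positivity) (by positivity)]; nlinarith)]
  field_simp
  ring

theorem isBrownianReal_B : IsBrownianReal B P0 where
  hasLaw I := by
    have hm : Measurable fun ω => WithLp.toLp 2 (fun i : I => B i ω) :=
      (WithLp.measurable_toLp 2 _).comp (measurable_pi_lambda _ fun i => measurable_B i)
    have h : HasLaw (fun ω => WithLp.toLp 2 (fun i : I => B i ω))
        (multivariateGaussian 0 (BrownianReal.covMatrix I)) P0 := by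
      refine ⟨hm.aemeasurable, Measure.ext_of_charFun (funext fun x => ?_)⟩
      rw [charFun_multivariateGaussian (BrownianReal.posSemidef_covMatrix I), charFun_apply,
        integral_map hm.aemeasurable (by fun_prop)]
      have h := integral_exp_bridge (fun i : I => x i * (1 + (i : ℝ≥0)))
        (fun i : I => (i : ℝ≥0) / (1 + (i : ℝ≥0))) (fun i => by positivity)
        (fun i => div_le_one_of_le₀ (by linarith) (by positivity))
      have e1 : ∀ ω, inner ℝ (WithLp.toLp 2 (fun i : I => B i ω)) x =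
          ∑ i : I, x i * (1 + (i : ℝ≥0)) * bridge ((i : ℝ≥0) / (1 + (i : ℝ≥0))) ω := fun ω => by
        simp [PiLp.inner_apply, B, mul_assoc]
      simp_rw [e1]
      rw [h, inner_zero_right]
      congr 1
      simp only [Complex.ofReal_zero, zero_mul, zero_sub, neg_inj]
      congr 2
      simp only [dotProduct, Matrix.mulVec, mul_sum, BrownianReal.covMatrix_apply]
      refine sum_congr rfl fun i _ => sum_congr rfl fun j _ => ?_
      rw [← time_change]
      ring
    exact (BrownianReal.measurePreserving_ofLp_multivariateGaussian I).hasLaw.comp h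
  cont := by
    filter_upwards [ae_bridge] with ω hω
    have h : Continuous fun t : ℝ≥0 => (t : ℝ) / (1 + t) :=
      Continuous.div (by fun_prop) (by fun_prop) fun t => by positivity
    exact (show Continuous fun t : ℝ≥0 => (1 + t : ℝ) by fun_prop).mul (hω.1.comp h)

end Pool.Agent.Lib.MP_b41181_pr.ExBM
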