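import Pool.Agent.Lib.MP_b41181_pr.Defs
import Pool.Agent.Lib.MP_b41181_pr.ExBM

/-!
Existence of a Poisson point process on the line, as a sequence of measurable points: each unit
cell receives a Poisson number of independent uniform points, and the points are enumerated.
-/

open MeasureTheory ProbabilityTheory Filter Topology Finset
open scoped ENNReal NNReal

namespace Pool.Agent.Lib.MP_b41181_pr.ExPoi

open ExBM

lemma measurable_sInf {α : Type*} [MeasurableSpace α] {p : α → ℕ → Prop}
    (hp : ∀ m, Measurable fun a => p a m) : Measurable fun a => sInf {m | p a m} := by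
  refine measurable_to_countable' fun m => ?_
  have : (fun a => sInf {m | p a m}) ⁻¹' {m} =
      {a | (p a m ∧ ∀ k, k < m → ¬p a k) ∨ (m = 0 ∧ ∀ k, ¬p a k)} := by
    ext a
    simp only [Set.mem_preimage, Set.mem_singleton_iff, Set.mem_ofPred_eq]
    constructor
    · rintro rfl
      rcases Set.eq_empty_or_nonempty {m | p a m} with h | h
      · exact Or.inr ⟨by rw [h, Nat.sInf_empty], fun k hk => h.subset hk⟩
      · exact Or.inl ⟨Nat.sInf_mem h, fun k hk => Nat.notMem_of_lt_sInf hk⟩
    · rintro (⟨h1, h2⟩ | ⟨rfl, h2⟩)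
      · exact le_antisymm (Nat.sInf_le h1) (not_lt.1 fun h => h2 _ h (Nat.sInf_mem ⟨m, h1⟩))
      · exact Nat.sInf_eq_zero.2 (Or.inr (Set.eq_empty_of_forall_notMem h2))
  rw [this]
  exact (((hp m).and (Measurable.forall fun k => measurable_const.imp (hp k).not)).or
    (measurable_const.and (Measurable.forall fun k => (hp k).not))).setOf

lemma measurable_nth {α : Type*} [MeasurableSpace α] {p : α → ℕ → Prop}
    (hp : ∀ m, Measurable fun a => p a m) (i : ℕ) : Measurable fun a => Nat.nth (p a) i := by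
  induction i using Nat.strong_induction_on with
  | _ i ih =>
    simp_rw [Nat.nth_eq_sInf _ i]
    refine measurable_sInf fun m => (hp m).and (Measurable.forall fun k => ?_)
    by_cases hk : k < i
    · exact measurable_const.imp ((Measurable.of_discrete (f := fun n : ℕ => n < m)).comp (ih k hk))
    · simp [hk]

lemma integral_pow_poisson (r : ℝ≥0) (z : ℂ) :
    ∫ n, z ^ n ∂(poissonMeasure r) = Complex.exp (r * (z - 1)) := by
  rw [integral_poissonMeasure]
  calc ∑' a : ℕ, (Real.exp (-r) * r ^ a / a.factorial : ℝ) • z ^ a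
      = ∑' a : ℕ, (Real.exp (-r) : ℂ) * ((r * z) ^ a / a.factorial) := by
        congr with a
        rw [Complex.real_smul, mul_pow]
        push_cast
        ring
    _ = _ := by
      rw [tsum_mul_left, (NormedSpace.expSeries_div_hasSum_exp (r * z)).tsum_eq,
        ← Complex.exp_eq_exp_ℂ, Complex.ofReal_exp, ← Complex.exp_add]
      push_cast
      ring_nf

/-- The uniform distribution on a unit cell. -/
noncomputable def U (j : ℤ) : Measure ℝ := volume.restrict (Int.floor ⁻¹' {j})

instance (j : ℤ) : IsProbabilityMeasure (U j) :=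
  ⟨by simp [U, Int.preimage_floor_singleton]⟩

/-- Number of points and candidate positions in one cell. -/
abbrev Cell : Type := ℕ × (ℕ → ℝ)

/-- Law of a cell. -/
noncomputable def cellLaw (r : ℝ≥0) (j : ℤ) : Measure Cell :=
  (poissonMeasure r).prod (Measure.infinitePi fun _ => U j)

instance (r : ℝ≥0) (j : ℤ) : IsProbabilityMeasure (cellLaw r j) := by
  unfold cellLaw; infer_instance

/-- Law of the family of cells. -/
noncomputable def P1 (r : ℝ≥0) : Measure (ℤ → Cell) := Measure.infinitePi (cellLaw r)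

instance (r : ℝ≥0) : IsProbabilityMeasure (P1 r) := by unfold P1; infer_instance

lemma campbell (r : ℝ≥0) (s : Finset ℤ) {φ : ℝ → ℂ} (hφ : Measurable φ) (h1 : ∀ y, ‖φ y‖ ≤ 1) :
    ∫ ω, ∏ j ∈ s, ∏ i ∈ range (ω j).1, φ ((ω j).2 i) ∂(P1 r) =
      Complex.exp (r * ∑ j ∈ s, (∫ y, φ y ∂(U j) - 1)) := by
  have hm : Measurable fun c : Cell => ∏ i ∈ range c.1, φ (c.2 i) :=
    measurable_from_prod_countable_right fun n =>
      Finset.measurable_prod (range n) fun i _ => hφ.comp (measurable_pi_apply i)
  rw [P1, integral_prod_infinitePi (cellLaw r) s (fun _ c => ∏ i ∈ range c.1, φ (c.2 i))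
    fun _ => hm, mul_sum, Complex.exp_sum]
  refine prod_congr rfl fun j _ => ?_
  rw [cellLaw, integral_prod _ (Integrable.of_bound hm.aestronglyMeasurable 1
    (ae_of_all _ fun c => (Finset.norm_prod_le _ _).trans
      (prod_le_one (fun _ _ => norm_nonneg _) fun _ _ => h1 _))), ← integral_pow_poisson]
  congr with n
  rw [integral_prod_infinitePi (fun _ : ℕ => U j) (range n) (fun _ => φ) fun _ => hφ]
  simp

/-- Enumeration of all candidate points. -/
noncomputable def e : ℕ ≃ (Σ _ : ℤ, ℕ) := (Denumerable.eqv _).symm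

/-- The index of the point number `i`. -/
noncomputable def idx (i : ℕ) (ω : ℤ → Cell) : ℕ := Nat.nth (fun m => (e m).2 < (ω (e m).1).1) i

/-- The point number `i`. -/
noncomputable def pt (i : ℕ) (ω : ℤ → Cell) : ℝ := (ω (e (idx i ω)).1).2 (e (idx i ω)).2

lemma measurable_pt (i : ℕ) : Measurable (pt i) := by
  have h1 : Measurable (idx i) := measurable_nth (fun m =>
    (Measurable.of_discrete (f := fun n : ℕ => (e m).2 < n)).comp (by fun_prop)) i
  have h2 : Measurable fun q : (ℤ → Cell) × ℕ => (q.1 (e q.2).1).2 (e q.2).2 :=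
    measurable_from_prod_countable_left fun m => by
      simp only
      fun_prop
  exact h2.comp (measurable_id.prodMk h1)

/-- The almost sure event on which the enumeration lists exactly the points. -/
def Good (ω : ℤ → Cell) : Prop := (∀ j i, ⌊(ω j).2 i⌋ = j) ∧ ∀ J, ∃ j, J ≤ j ∧ (ω j).1 ≠ 0

lemma ae_good {r : ℝ≥0} (hr : 0 < r) : ∀ᵐ ω ∂(P1 r), Good ω := by
  refine Eventually.and (ae_all_iff.2 fun j => ae_all_iff.2 fun i => ?_) (ae_all_iff.2 fun J => ?_)
  · have h : MeasurePreserving (fun ω : ℤ → Cell => (ω j).2 i) (P1 r) (U j) :=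
      (measurePreserving_eval_infinitePi (fun _ : ℕ => U j) i).comp
        (measurePreserving_snd.comp (measurePreserving_eval_infinitePi (cellLaw r) j))
    exact h.quasiMeasurePreserving.ae (p := fun y => ⌊y⌋ = j)
      (ae_restrict_mem (Int.measurable_floor (measurableSet_singleton j)))
  · have hq : poissonMeasure r {0} < 1 := by
      rw [poissonMeasure_singleton, ENNReal.ofReal_lt_one]
      simpa using hr
    refine le_antisymm (ge_of_tendsto' (ENNReal.tendsto_pow_atTop_nhds_zero_of_lt_one hq)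
      fun n => ?_) zero_le
    have h := Measure.infinitePi_pi (cellLaw r) (s := Finset.Ico J (J + n))
      (t := fun _ => Prod.fst ⁻¹' {0}) fun _ _ => measurable_fst (measurableSet_singleton 0)
    have h2 : ∀ j, cellLaw r j (Prod.fst ⁻¹' {0}) = poissonMeasure r {0} := fun j =>
      measurePreserving_fst.measure_preimage (measurableSet_singleton 0).nullMeasurableSet
    simp only [h2, prod_const, Int.card_Ico, add_sub_cancel_left, Int.toNat_natCast] at h
    rw [← h]
    refine measure_mono fun ω hω j hj => ?_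
    by_contra hne
    exact hω ⟨j, (Finset.mem_Ico.1 hj).1, hne⟩

open Classical in
lemma Good.count {ω : ℤ → Cell} (h : Good ω) {B : Set ℝ} {s : Finset ℤ}
    (hs : ∀ y ∈ B, ⌊y⌋ ∈ s) : {i | pt i ω ∈ B}.Finite ∧
      ({i | pt i ω ∈ B}.ncard : ℝ) = ∑ j ∈ s, ∑ i ∈ range (ω j).1, B.indicator 1 ((ω j).2 i) := by
  have hinf : {q : Σ _ : ℤ, ℕ | q.2 < (ω q.1).1}.Infinite := by
    refine Set.Infinite.of_image (fun q => q.1) (Set.infinite_of_not_bddAbove ?_)
    rintro ⟨J, hJ⟩
    obtain ⟨j, hj, hj0⟩ := h.2 (J + 1)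
    have : j ≤ J := hJ ⟨⟨j, 0⟩, Nat.pos_of_ne_zero hj0, rfl⟩
    omega
  have hinf' : {m | (e m).2 < (ω (e m).1).1}.Infinite :=
    hinf.preimage (f := e) (by simp)
  have hinj : Function.Injective fun i => e (idx i ω) := e.injective.comp (Nat.nth_injective hinf')
  have hr : Set.range (fun i => e (idx i ω)) = {q : Σ _ : ℤ, ℕ | q.2 < (ω q.1).1} := by
    rw [show (fun i => e (idx i ω)) = e ∘ Nat.nth (fun m => (e m).2 < (ω (e m).1).1) from rfl,
      Set.range_comp, Nat.range_nth_of_infinite hinf']
    exact e.surjective.image_preimage {q : Σ _ : ℤ, ℕ | q.2 < (ω q.1).1}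
  set T := s.sigma fun j => (range (ω j).1).filter fun i => (ω j).2 i ∈ B with hT
  have he : {i | pt i ω ∈ B} = (fun i => e (idx i ω)) ⁻¹' T := by
    ext i
    have h1 : (e (idx i ω)).2 < (ω (e (idx i ω)).1).1 := hr.subset ⟨i, rfl⟩
    simp only [Set.mem_ofPred_eq, Set.mem_preimage, mem_coe, hT, mem_sigma, mem_filter, mem_range]
    exact ⟨fun hB => ⟨by simpa [pt, h.1] using hs _ hB, h1, hB⟩, fun hB => hB.2.2⟩
  rw [he]
  refine ⟨T.finite_toSet.preimage hinj.injOn, ?_⟩
  rw [Set.ncard_preimage_of_injective_subset_range hinj (fun q hq => hr.symm.subset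
    (mem_range.1 (mem_filter.1 (mem_sigma.1 hq).2).1)), Set.ncard_coe_finset, card_sigma]
  simp [Set.indicator_apply]

lemma exists_cells {B : Set ℝ} (hB : Bornology.IsBounded B) :
    ∃ s : Finset ℤ, ∀ y ∈ B, ⌊y⌋ ∈ s := by
  obtain ⟨a, ha⟩ := hB.bddBelow
  obtain ⟨b, hb⟩ := hB.bddAbove
  exact ⟨Finset.Icc ⌊a⌋ ⌊b⌋, fun y hy =>
    Finset.mem_Icc.2 ⟨Int.floor_mono (ha hy), Int.floor_mono (hb hy)⟩⟩

lemma integral_exp_count {r : ℝ≥0} (hr : 0 < r) {ι : Type*} [Fintype ι] {B : ι → Set ℝ}
    (hm : ∀ l, MeasurableSet (B l)) (hb : ∀ l, Bornology.IsBounded (B l))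
    (hd : Pairwise fun i j => Disjoint (B i) (B j)) (t : ι → ℝ) :
    ∫ ω, Complex.exp ((∑ l, t l * {i | pt i ω ∈ B l}.ncard : ℝ) * Complex.I) ∂(P1 r) =
      ∏ l, Complex.exp (r * volume.real (B l) * (Complex.exp (t l * Complex.I) - 1)) := by
  obtain ⟨s, hs⟩ := exists_cells (Bornology.isBounded_iUnion.2 hb)
  have hs' : ∀ l, ∀ y ∈ B l, ⌊y⌋ ∈ s := fun l y hy => hs y (Set.mem_iUnion.2 ⟨l, hy⟩)
  set φ : ℝ → ℂ := fun y => Complex.exp ((∑ l, t l * (B l).indicator 1 y : ℝ) * Complex.I) with hφ
  have hφm : Measurable φ := by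
    have : ∀ l, Measurable ((B l).indicator (1 : ℝ → ℝ)) := fun l => measurable_one.indicator (hm l)
    fun_prop
  have hφ1 : ∀ y, φ y = 1 + ∑ l, ((B l).indicator (1 : ℝ → ℝ) y : ℝ) *
      (Complex.exp (t l * Complex.I) - 1) := fun y => by
    by_cases hy : ∃ l, y ∈ B l
    · obtain ⟨l, hl⟩ := hy
      have hz : ∀ l', l' ≠ l → (B l').indicator (1 : ℝ → ℝ) y = 0 := fun l' hl' =>
        Set.indicator_of_notMem (Set.disjoint_right.1 (hd hl') hl) _
      simp only [hφ]
      rw [sum_eq_single l (fun l' _ hl' => by rw [hz l' hl', mul_zero]) (by simp),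
        sum_eq_single l (fun l' _ hl' => by simp [hz l' hl']) (by simp)]
      simp [hl]
    · push Not at hy
      simp [hφ, hy]
  have hU : ∀ j, ∫ y, φ y ∂(U j) - 1 =
      ∑ l, ((U j).real (B l) : ℝ) * (Complex.exp (t l * Complex.I) - 1) := fun j => by
    have hi : ∀ l, Integrable (fun y => (((B l).indicator (1 : ℝ → ℝ) y : ℝ) : ℂ) *
        (Complex.exp (t l * Complex.I) - 1)) (U j) := fun l =>
      (((integrable_const (1 : ℝ)).indicator (hm l)).ofReal (𝕜 := ℂ)).mul_const _
    simp_rw [hφ1]
    rw [integral_add (integrable_const _) (integrable_finsetSum _ fun l _ => hi l),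
      integral_finsetSum _ fun l _ => hi l]
    simp_rw [integral_mul_const, integral_complex_ofReal, integral_indicator_one (hm _)]
    simp
  have hV : ∀ l, ∑ j ∈ s, (U j).real (B l) = volume.real (B l) := fun l => by
    have h1 : ∀ j, (U j).real (B l) = (volume.restrict (B l)).real (Int.floor ⁻¹' {j}) := fun j => by
      rw [U, measureReal_restrict_apply (hm l), Set.inter_comm,
        measureReal_restrict_apply (Int.measurable_floor (measurableSet_singleton j))]
    have : IsFiniteMeasure (volume.restrict (B l)) := ⟨by simpa using (hb l).measure_lt_top⟩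
    simp_rw [h1]
    rw [sum_measureReal_preimage_singleton s fun j _ =>
      Int.measurable_floor (measurableSet_singleton j), measureReal_restrict_apply' (hm l),
      Set.inter_eq_right.2 (show B l ⊆ Int.floor ⁻¹' s from fun y hy => hs' l y hy)]
  have h := campbell r s hφm fun y => (Complex.norm_exp_ofReal_mul_I _).le
  simp_rw [hU] at h
  rw [sum_comm, mul_sum, Complex.exp_sum] at h
  simp_rw [← sum_mul, ← Complex.ofReal_sum, hV, ← mul_assoc] at h
  rw [← h]
  refine integral_congr_ae ?_
  filter_upwards [ae_good hr] with ω hω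
  simp_rw [fun l => (hω.count (hs' l)).2, hφ, ← Complex.exp_sum, ← sum_mul, ← Complex.ofReal_sum,
    mul_sum]
  congr 3
  rw [sum_comm]
  exact sum_congr rfl fun j _ => sum_comm

lemma measurable_count {B : Set ℝ} (hB : MeasurableSet B) :
    Measurable fun ω => {i | pt i ω ∈ B}.ncard :=
  measurable_ncard.comp (measurable_set_iff.2 fun i => hB.mem.comp (measurable_pt i))

lemma charFun_count {r : ℝ≥0} (hr : 0 < r) {B : Set ℝ} (hm : MeasurableSet B)
    (hb : Bornology.IsBounded B) (t : ℝ) :
    charFun ((P1 r).map fun ω => ({i | pt i ω ∈ B}.ncard : ℝ)) t =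
      Complex.exp (r * volume.real B * (Complex.exp (t * Complex.I) - 1)) := by
  have h := integral_exp_count hr (ι := Unit) (B := fun _ => B) (fun _ => hm) (fun _ => hb)
    Subsingleton.pairwise fun _ => t
  have hc : Measurable fun ω => ({i | pt i ω ∈ B}.ncard : ℝ) :=
    measurable_from_top.comp (measurable_count hm)
  rw [charFun_apply_real, integral_map hc.aemeasurable (by fun_prop)]
  simpa using h

theorem isPoissonPoints_pt {lam : ℝ} (hlam : 0 < lam) :
    IsPoissonPoints pt lam (P1 lam.toNNReal) := by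
  have hr : 0 < lam.toNNReal := Real.toNNReal_pos.2 hlam
  have hc : ∀ {B : Set ℝ}, MeasurableSet B → Measurable fun ω => ({i | pt i ω ∈ B}.ncard : ℝ) :=
    fun hm => measurable_from_top.comp (measurable_count hm)
  refine ⟨measurable_pt, fun B hb => ?_, fun B hm hb => ⟨(measurable_count hm).aemeasurable, ?_⟩,
    fun k B hm hb hd => ?_⟩
  · obtain ⟨s, hs⟩ := exists_cells hb
    filter_upwards [ae_good hr] with ω hω using (hω.count hs).1
  · apply (MeasurableEmbedding.natCast (α := ℝ)).map_injective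
    rw [Measure.map_map measurable_from_top (measurable_count hm)]
    refine Measure.ext_of_charFun (funext fun t => ?_)
    rw [charFun_map_cast_poissonMeasure, Real.coe_toNNReal _ (by positivity)]
    refine (charFun_count hr hm hb t).trans ?_
    rw [Real.coe_toNNReal _ hlam.le]
    push_cast
    rfl
  · have h : iIndepFun (fun j ω => ({i | pt i ω ∈ B j}.ncard : ℝ)) (P1 lam.toNNReal) := by
      rw [iIndepFun_iff_charFun_pi fun j => (hc (hm j)).aemeasurable]
      intro t
      have hv : Measurable fun ω => WithLp.toLp 2 fun j => ({i | pt i ω ∈ B j}.ncard : ℝ) :=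
        (WithLp.measurable_toLp 2 _).comp (measurable_pi_lambda _ fun j => hc (hm j))
      rw [charFun_apply, integral_map hv.aemeasurable (by fun_prop)]
      simp_rw [fun j => charFun_count hr (hm j) (hb j) (t j)]
      rw [← integral_exp_count hr hm hb hd]
      simp [PiLp.inner_apply]
    simpa [Function.comp_def] using h.comp (fun _ => Nat.floor) fun _ => Nat.measurable_floor

end Pool.Agent.Lib.MP_b41181_pr.ExPoi
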