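import Pool.Agent.Lib.MP_b41181_pr.ExPoi

/-!
The trap model has a realisation: a product of independent copies of the spaces carrying a
Brownian motion and of the space carrying a Poisson point process.
-/

open MeasureTheory ProbabilityTheory Filter Topology
open scoped ENNReal NNReal

namespace Pool.Agent.Lib.MP_b41181_pr

section Transfer

variable {Ω Ω' : Type*} [MeasurableSpace Ω] [MeasurableSpace Ω'] {P : Measure Ω} {P' : Measure Ω'}
  {g : Ω → Ω'}

lemma brownian_comp (hg : MeasurePreserving g P P') {B : ℝ≥0 → Ω' → ℝ}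
    (h : IsBrownianReal B P') : IsBrownianReal (fun s ω => B s (g ω)) P where
  hasLaw I := (h.hasLaw I).fun_comp hg.hasLaw
  cont := hg.quasiMeasurePreserving.ae h.cont

lemma iIndepFun_comp [IsProbabilityMeasure P] [IsProbabilityMeasure P']
    (hg : MeasurePreserving g P P') {ι E : Type*} [MeasurableSpace E] {f : ι → Ω' → E}
    (hf : ∀ i, Measurable (f i)) (h : iIndepFun f P') : iIndepFun (fun i ω => f i (g ω)) P := by
  have h1 : ∀ i, HasLaw (f i) (P'.map (f i)) P' := fun i => ⟨(hf i).aemeasurable, rfl⟩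
  have hm := measurable_pi_lambda (fun ω i => f i ω) hf
  exact (iIndepFun_iff_hasLaw_Pi_infinitePi (fun i => (h1 i).fun_comp hg.hasLaw)
    (hm.comp hg.measurable).aemeasurable).2
    ((h.hasLaw_infinitePi h1 hm.aemeasurable).fun_comp hg.hasLaw)

lemma indepFun_comp [IsProbabilityMeasure P] [IsProbabilityMeasure P']
    (hg : MeasurePreserving g P P') {E F : Type*} [MeasurableSpace E] [MeasurableSpace F]
    {f : Ω' → E} {f' : Ω' → F} (hf : Measurable f) (hf' : Measurable f') (h : IndepFun f f' P') :
    IndepFun (fun ω => f (g ω)) (fun ω => f' (g ω)) P := by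
  have h1 : HasLaw f (P'.map f) P' := ⟨hf.aemeasurable, rfl⟩
  have h2 : HasLaw f' (P'.map f') P' := ⟨hf'.aemeasurable, rfl⟩
  exact (indepFun_iff_hasLaw_prodMk_prod (h1.fun_comp hg.hasLaw) (h2.fun_comp hg.hasLaw)).2
    (((indepFun_iff_hasLaw_prodMk_prod h1 h2).1 h).fun_comp hg.hasLaw)

lemma poisson_comp [IsProbabilityMeasure P] [IsProbabilityMeasure P']
    (hg : MeasurePreserving g P P') {x : ℕ → Ω' → ℝ} {lam : ℝ} (h : IsPoissonPoints x lam P') :
    IsPoissonPoints (fun i ω => x i (g ω)) lam P where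
  meas i := (h.meas i).comp hg.measurable
  finite B hb := hg.quasiMeasurePreserving.ae (h.finite B hb)
  law B hm hb := (h.law B hm hb).fun_comp hg.hasLaw
  indep k B hm hb hd := iIndepFun_comp hg (f := fun j ω => {i | x i ω ∈ B j}.ncard)
    (fun j => measurable_ncard.comp (measurable_set_iff.2 fun i => (hm j).mem.comp (h.meas i)))
    (h.indep k B hm hb hd)

end Transfer

open ExBM ExPoi in
/-- The trap model has a realisation. -/
theorem exists_isTrapModel {lam : ℝ} (hlam : 0 < lam) :
    ∃ (Ω : Type) (_ : MeasurableSpace Ω) (P : Measure Ω) (X : ℝ≥0 → Ω → ℝ) (x : ℕ → Ω → ℝ)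
      (Y : ℕ → ℝ≥0 → Ω → ℝ), IsTrapModel lam X x Y P := by
  set Q : Measure (ℕ → Om) := Measure.infinitePi fun _ => P0 with hQ
  have hB : Measurable fun (ω : Om) (s : ℝ≥0) => B s ω := measurable_pi_lambda _ measurable_B
  have hx : Measurable fun (ω : ℤ → Cell) (i : ℕ) => pt i ω := measurable_pi_lambda _ measurable_pt
  have hYi : ∀ i, Measurable fun (ω : ℕ → Om) (s : ℝ≥0) => B s (ω i) :=
    fun i => hB.comp (measurable_pi_apply i)
  have hY : Measurable fun (ω : ℕ → Om) (i : ℕ) (s : ℝ≥0) => B s (ω i) :=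
    measurable_pi_lambda _ hYi
  have g2 : MeasurePreserving Prod.snd (P0.prod ((P1 lam.toNNReal).prod Q))
      ((P1 lam.toNNReal).prod Q) := measurePreserving_snd
  have g22 := (measurePreserving_snd (μ := P1 lam.toNNReal) (ν := Q)).comp g2
  refine ⟨Om × (ℤ → Cell) × (ℕ → Om), inferInstance, P0.prod ((P1 lam.toNNReal).prod Q),
    fun s ω => B s ω.1, fun i ω => pt i ω.2.1, fun i s ω => B s (ω.2.2 i), inferInstance,
    fun s => (measurable_B s).comp measurable_fst,
    fun i s => (measurable_B s).comp ((measurable_pi_apply i).comp measurable_snd.snd),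
    brownian_comp measurePreserving_fst isBrownianReal_B,
    fun i => brownian_comp ((measurePreserving_eval_infinitePi (fun _ : ℕ => P0) i).comp g22)
      isBrownianReal_B,
    poisson_comp (measurePreserving_fst.comp g2) (isPoissonPoints_pt hlam),
    iIndepFun_comp g22 hYi (iIndepFun_infinitePi fun _ => hB),
    indepFun_comp g2 (hx.comp measurable_fst) (hY.comp measurable_snd) (indepFun_prod hx hY),
    indepFun_prod hB ((hx.comp measurable_fst).prodMk (hY.comp measurable_snd))⟩

end Pool.Agent.Lib.MP_b41181_pr
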