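import Pool.Agent.Lib.MP_b41181_pr.Reduce

/-!
From the discrete estimates to the value of the exponent.
-/

open MeasureTheory ProbabilityTheory Filter Topology Finset
open scoped ENNReal NNReal

namespace Pool.Agent.Lib.MP_b41181_pr

/-- Killing time of the model `b`. -/
noncomputable def Tb {Ω : Type*} (b : Bool) (a : ℝ) (X : ℝ≥0 → Ω → ℝ) (x : ℕ → Ω → ℝ)
    (Y : ℕ → ℝ≥0 → Ω → ℝ) (ω : Ω) : ℝ≥0∞ :=
  ⨅ s ∈ {s : ℝ≥0 | ∃ u, Rl b u s ∧ X u ω ∈ trapField a x Y s ω}, (s : ℝ≥0∞)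

lemma Tb_false {Ω : Type*} (a : ℝ) (X : ℝ≥0 → Ω → ℝ) (x : ℕ → Ω → ℝ) (Y : ℕ → ℝ≥0 → Ω → ℝ) :
    Tb false a X x Y = hitTime a X x Y := by
  funext ω
  unfold Tb hitTime
  have : {s : ℝ≥0 | ∃ u, Rl false u s ∧ X u ω ∈ trapField a x Y s ω} =
      {s : ℝ≥0 | X s ω ∈ trapField a x Y s ω} := by
    ext s
    constructor
    · rintro ⟨u, h1, h2⟩
      have e : u = s := h1
      rwa [e] at h2
    · exact fun h => ⟨s, rfl, h⟩
  rw [this]

lemma Tb_true {Ω : Type*} (a : ℝ) (X : ℝ≥0 → Ω → ℝ) (x : ℕ → Ω → ℝ) (Y : ℕ → ℝ≥0 → Ω → ℝ) :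
    Tb true a X x Y = rangeHitTime a X x Y := by
  funext ω
  unfold Tb rangeHitTime
  have : {s : ℝ≥0 | ∃ u, Rl true u s ∧ X u ω ∈ trapField a x Y s ω} =
      {s : ℝ≥0 | ((fun u => X u ω) '' Set.Iic s ∩ trapField a x Y s ω).Nonempty} := by
    ext s
    constructor
    · rintro ⟨u, h1, h2⟩
      exact ⟨_, ⟨u, h1, rfl⟩, h2⟩
    · rintro ⟨_, ⟨u, h1, rfl⟩, h2⟩
      exact ⟨u, h1, h2⟩
  rw [this]

lemma lt_Tb_iff {Ω : Type*} {b : Bool} {a : ℝ} {X : ℝ≥0 → Ω → ℝ} {x : ℕ → Ω → ℝ}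
    {Y : ℕ → ℝ≥0 → Ω → ℝ} {ω : Ω} {t : ℝ≥0} :
    (t : ℝ≥0∞) < Tb b a X x Y ω ↔ ∃ t', t < t' ∧ ω ∈ Surv b a X x Y t' := by
  constructor
  · intro h
    obtain ⟨t', h1, h2⟩ := ENNReal.lt_iff_exists_nnreal_btwn.1 h
    refine ⟨t', by exact_mod_cast h1, fun i u s r hs => ?_⟩
    by_contra hc
    have h3 : Tb b a X x Y ω ≤ s := biInf_le _ (show s ∈ {s : ℝ≥0 | ∃ u, Rl b u s ∧
      X u ω ∈ trapField a x Y s ω} from ⟨u, r, Set.mem_iUnion.2 ⟨i, by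
        rw [Metric.mem_closedBall, Real.dist_eq]; exact not_lt.1 hc⟩⟩)
    exact absurd (h2.trans_le (h3.trans (by exact_mod_cast hs))) (lt_irrefl _)
  · rintro ⟨t', h1, h2⟩
    refine lt_of_lt_of_le (b := (t' : ℝ≥0∞)) (by exact_mod_cast h1) (le_iInf₂ fun s hs => ?_)
    obtain ⟨u, r, hu⟩ := hs
    obtain ⟨i, hi⟩ := Set.mem_iUnion.1 hu
    rw [Metric.mem_closedBall, Real.dist_eq] at hi
    by_contra hc
    have h3 : s ≤ t' := by
      have := (not_le.1 hc).le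
      exact_mod_cast this
    exact absurd (h2 i u s r h3) (not_lt.2 hi)

/-- Times decreasing to `t`. -/
noncomputable def tm (t : ℝ≥0) (m : ℕ) : ℝ≥0 := t + 1 / ((m : ℝ≥0) + 1)

lemma lt_tm (t : ℝ≥0) (m : ℕ) : t < tm t m := lt_add_of_pos_right _ (by positivity)

lemma tm_le (t : ℝ≥0) (m : ℕ) : tm t m ≤ t + 1 := by
  unfold tm
  gcongr
  rw [div_le_one (by positivity)]
  exact le_add_self

lemma tm_anti (t : ℝ≥0) : Antitone (tm t) := fun i j hij => by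
  unfold tm
  gcongr

lemma exists_tm_le {t t' : ℝ≥0} (h : t < t') : ∃ m, tm t m ≤ t' := by
  obtain ⟨m, hm⟩ := exists_nat_one_div_lt (K := ℝ) (sub_pos.2 (show (t : ℝ) < t' from h))
  refine ⟨m, ?_⟩
  rw [← NNReal.coe_le_coe]
  unfold tm
  push_cast
  linarith

lemma Surv_anti {Ω : Type*} (b : Bool) (a : ℝ) (X : ℝ≥0 → Ω → ℝ) (x : ℕ → Ω → ℝ)
    (Y : ℕ → ℝ≥0 → Ω → ℝ) : Antitone (Surv b a X x Y) :=
  fun _ _ h _ hω i u s r hs => hω i u s r (hs.trans h)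

lemma lt_Tb_eq {Ω : Type*} (b : Bool) (a : ℝ) (X : ℝ≥0 → Ω → ℝ) (x : ℕ → Ω → ℝ)
    (Y : ℕ → ℝ≥0 → Ω → ℝ) (t : ℝ≥0) :
    {ω | (t : ℝ≥0∞) < Tb b a X x Y ω} = ⋃ m, Surv b a X x Y (tm t m) := by
  ext ω
  rw [Set.mem_ofPred_eq, lt_Tb_iff, Set.mem_iUnion]
  constructor
  · rintro ⟨t', h1, h2⟩
    obtain ⟨m, hm⟩ := exists_tm_le h1
    exact ⟨m, Surv_anti b a X x Y hm h2⟩
  · rintro ⟨m, hm⟩
    exact ⟨_, lt_tm t m, hm⟩

variable {Ω : Type*} [MeasurableSpace Ω] {P : Measure Ω} {lam : ℝ} {X : ℝ≥0 → Ω → ℝ}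
  {x : ℕ → Ω → ℝ} {Y : ℕ → ℝ≥0 → Ω → ℝ}

lemma inter_Tb_le [IsFiniteMeasure P] {b : Bool} {a η : ℝ} (hη : 0 ≤ η) {t : ℝ≥0} {E : Set Ω}
    (h : ∀ m, P.real (E ∩ Surv b a X x Y (tm t m)) ≤ η * P.real (Surv b a X x Y (tm t m))) :
    P (E ∩ {ω | (t : ℝ≥0∞) < Tb b a X x Y ω}) ≤
      ENNReal.ofReal η * P {ω | (t : ℝ≥0∞) < Tb b a X x Y ω} := by
  rw [lt_Tb_eq, Set.inter_iUnion, Monotone.measure_iUnion fun i j hij =>
    Set.inter_subset_inter_right _ (Surv_anti b a X x Y (tm_anti t hij))]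
  refine iSup_le fun m => ?_
  calc _ = ENNReal.ofReal (P.real (E ∩ Surv b a X x Y (tm t m))) :=
        (ofReal_measureReal (measure_ne_top _ _)).symm
    _ ≤ ENNReal.ofReal (η * P.real (Surv b a X x Y (tm t m))) := ENNReal.ofReal_le_ofReal (h m)
    _ = ENNReal.ofReal η * P (Surv b a X x Y (tm t m)) := by
        rw [ENNReal.ofReal_mul hη, ofReal_measureReal (measure_ne_top _ _)]
    _ ≤ _ := by
        gcongr
        exact Set.subset_iUnion (fun m => Surv b a X x Y (tm t m)) m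

lemma IsTrapModel.Tb_pos (h : IsTrapModel lam X x Y P) (hlam : 0 ≤ lam) (b : Bool)
    {a : ℝ} (ha : 0 ≤ a) (t : ℝ≥0) : P {ω | (t : ℝ≥0∞) < Tb b a X x Y ω} ≠ 0 := by
  intro h0
  have h1 := h.surv_pos hlam b ha (t := tm t 0) ((zero_le.trans_lt (lt_tm t 0)).ne')
  have h2 : P (Surv b a X x Y (tm t 0)) = 0 := by
    rw [lt_Tb_eq] at h0
    exact measure_mono_null (Set.subset_iUnion (fun m => Surv b a X x Y (tm t m)) 0) h0
  rw [Measure.real, h2] at h1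
  simp at h1

lemma cond_ge [IsFiniteMeasure P] {s G : Set Ω} (hs : P s ≠ 0) {η : ℝ≥0∞}
    (h : P (Gᶜ ∩ s) ≤ η * P s) : 1 - η ≤ ProbabilityTheory.cond P s G := by
  rw [ProbabilityTheory.cond, Measure.smul_apply, smul_eq_mul, tsub_le_iff_right]
  have h1 : P s ≤ P.restrict s G + η * P s := by
    calc P s ≤ P (G ∩ s ∪ Gᶜ ∩ s) := measure_mono fun ω hω => by
          by_cases hG : ω ∈ G
          · exact Or.inl ⟨hG, hω⟩
          · exact Or.inr ⟨hG, hω⟩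
      _ ≤ P (G ∩ s) + P (Gᶜ ∩ s) := measure_union_le _ _
      _ ≤ _ := add_le_add (Measure.le_restrict_apply s G) h
  calc (1 : ℝ≥0∞) = (P s)⁻¹ * P s := (ENNReal.inv_mul_cancel hs (measure_ne_top _ _)).symm
    _ ≤ (P s)⁻¹ * (P.restrict s G + η * P s) := by gcongr
    _ = (P s)⁻¹ * P.restrict s G + η * ((P s)⁻¹ * P s) := by ring
    _ = _ := by rw [ENNReal.inv_mul_cancel hs (measure_ne_top _ _), mul_one]

lemma cond_le_one [IsFiniteMeasure P] {s G : Set Ω} (hs : P s ≠ 0) :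
    ProbabilityTheory.cond P s G ≤ 1 := by
  rw [ProbabilityTheory.cond, Measure.smul_apply, smul_eq_mul]
  calc _ ≤ (P s)⁻¹ * P.restrict s Set.univ := by
        gcongr
        exact Set.subset_univ _
    _ = 1 := by rw [Measure.restrict_apply_univ, ENNReal.inv_mul_cancel hs (measure_ne_top _ _)]

lemma cond_le [IsFiniteMeasure P] {s G G' : Set Ω} (hs : P s ≠ 0) (hG' : MeasurableSet G')
    (hG : ∀ᵐ ω ∂P, ω ∈ G → ω ∈ G') {η : ℝ≥0∞} (h : P (G' ∩ s) ≤ η * P s) :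
    ProbabilityTheory.cond P s G ≤ η := by
  rw [ProbabilityTheory.cond, Measure.smul_apply, smul_eq_mul]
  have h1 : P.restrict s G ≤ P.restrict s G' := measure_mono_ae (ae_restrict_of_ae hG)
  rw [Measure.restrict_apply hG'] at h1
  calc _ ≤ (P s)⁻¹ * (η * P s) := by
        gcongr
        exact h1.trans h
    _ = η * ((P s)⁻¹ * P s) := by ring
    _ = _ := by rw [ENNReal.inv_mul_cancel hs (measure_ne_top _ _), mul_one]

lemma ev_rpow {a b : ℝ} (hab : a < b) (K : ℝ) :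
    ∀ᶠ t : ℝ≥0 in atTop, K * (t : ℝ) ^ a ≤ (t : ℝ) ^ b := by
  have h1 := ((tendsto_rpow_atTop (sub_pos.2 hab)).comp
    (NNReal.tendsto_coe_atTop.2 tendsto_id)).eventually (eventually_ge_atTop K)
  filter_upwards [h1, eventually_gt_atTop 0] with t h2 h3
  have h4 : (0 : ℝ) < t := h3
  calc K * (t : ℝ) ^ a ≤ (t : ℝ) ^ (b - a) * (t : ℝ) ^ a := by
        gcongr
        exact h2
    _ = _ := by rw [← Real.rpow_add h4, sub_add_cancel]

/-- The upper estimate in the scaling limit. -/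
def DU (b : Bool) : Prop :=
  ∀ lam α ε : ℝ, 0 < lam → 1 / 3 < α → 0 < ε → ∀ᶠ t : ℝ≥0 in atTop, ∀ᶠ n : ℕ in atTop,
    (Gibbs (Vb b n (lam * √(t / n : ℝ≥0)))).real
      {p | ∃ k ≤ n, (t : ℝ) ^ α / √(t / n : ℝ≥0) < |S k p|} ≤ ε

lemma exists_of_le_maxDisp {Ω : Type*} {X : ℝ≥0 → Ω → ℝ} {t : ℝ≥0} {ω : Ω} {r : ℝ}
    (h : r < maxDisp X t ω) : ∃ s ≤ t, r < |X s ω| := by
  by_contra hc
  push Not at hc
  have : Nonempty (Set.Iic t) := ⟨⟨t, Set.mem_Iic.2 le_rfl⟩⟩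
  refine absurd h (not_lt.2 (max_le (ciSup_le fun s => (abs_le.1 (hc s s.2)).2) ?_))
  rw [neg_le]
  exact le_ciInf fun s => (abs_le.1 (hc s s.2)).1

lemma abs_le_maxDisp {Ω : Type*} {X : ℝ≥0 → Ω → ℝ} {t s : ℝ≥0} {ω : Ω}
    (hc : Continuous fun s => X s ω) (hs : s ≤ t) : |X s ω| ≤ maxDisp X t ω := by
  have hK : IsCompact (Set.Iic t) := by
    rw [← Set.Icc_bot]
    exact isCompact_Icc
  have h1 := hK.image hc
  rw [Set.image_eq_range] at h1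
  refine abs_le.2 ⟨?_, (le_ciSup h1.bddAbove (⟨s, hs⟩ : Set.Iic t)).trans (le_max_left _ _)⟩
  rw [neg_le]
  exact le_trans (neg_le_neg (ciInf_le h1.bddBelow (⟨s, hs⟩ : Set.Iic t))) (le_max_right _ _)

theorem IsTrapModel.upper (h : IsTrapModel lam X x Y P) (hlam : 0 < lam) {b : Bool} (hb : DU b)
    {a : ℝ} (ha : 0 ≤ a) {α : ℝ} (hα : 1 / 3 < α) :
    Tendsto (fun t : ℝ≥0 => ProbabilityTheory.cond P {ω | (t : ℝ≥0∞) < Tb b a X x Y ω}
      {ω | maxDisp X t ω < 1 * (t : ℝ) ^ α}) atTop (𝓝 1) := by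
  have := h.prob
  rw [tendsto_order]
  refine ⟨fun c hc => ?_, fun c hc => Eventually.of_forall fun t =>
    (cond_le_one (h.Tb_pos hlam.le b ha t)).trans_lt hc⟩
  obtain ⟨η, hη, hη'⟩ : ∃ η : ℝ, 0 < η ∧ c < 1 - ENNReal.ofReal η := by
    obtain ⟨d, hd1, hd2⟩ := ENNReal.lt_iff_exists_nnreal_btwn.1 hc
    have hd : (d : ℝ) < 1 := by exact_mod_cast hd2
    refine ⟨1 - d, by linarith, hd1.trans_le (le_of_eq ?_)⟩
    rw [ENNReal.ofReal_sub 1 (NNReal.coe_nonneg d), ENNReal.ofReal_one, ENNReal.ofReal_coe_nnreal,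
      ENNReal.sub_sub_cancel ENNReal.one_ne_top hd2.le]
  obtain ⟨α', h1, h2⟩ := exists_between hα
  obtain ⟨t0, ht0⟩ := eventually_atTop.1
    (hb lam α' (η / Real.exp (2 * lam)) hlam h1 (by positivity))
  filter_upwards [eventually_ge_atTop t0, eventually_ge_atTop 1, ev_rpow h2 (2 * 2 ^ α')]
    with t h3 h4 h5
  refine hη'.trans_le (cond_ge (h.Tb_pos hlam.le b ha t) (inter_Tb_le hη.le fun m => ?_))
  have h6 : tm t m ≠ 0 := (zero_le.trans_lt (lt_tm t m)).ne'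
  have h7 := h.surv_inter_le hlam.le (b := b) ha h6
    (E := {ω | maxDisp X t ω < 1 * (t : ℝ) ^ α}ᶜ)
    (A := fun n => {p | ∃ k ≤ n, (tm t m : ℝ) ^ α' / √(tm t m / n : ℝ≥0) < |S k p|})
    (fun n => measurableSet_big _ _) (fun ω hω hE => ?_) (ht0 _ (h3.trans (lt_tm t m).le))
  · rwa [div_mul_cancel₀ _ (Real.exp_pos _).ne'] at h7
  have ht1 : (1 : ℝ) ≤ t := h4
  have h8 : (tm t m : ℝ) ^ α' < maxDisp X t ω := by
    have h9 : (tm t m : ℝ) ≤ 2 * t := by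
      have : (tm t m : ℝ) ≤ t + 1 := by exact_mod_cast tm_le t m
      linarith
    have h10 : (tm t m : ℝ) ^ α' ≤ 2 ^ α' * (t : ℝ) ^ α' := by
      rw [← Real.mul_rpow (by norm_num) (by positivity)]
      exact Real.rpow_le_rpow (by positivity) h9 (by linarith)
    have h11 : 0 < 2 ^ α' * (t : ℝ) ^ α' := by positivity
    have h12 : 1 * (t : ℝ) ^ α ≤ maxDisp X t ω := not_lt.1 hE
    linarith
  obtain ⟨s, hs, hs'⟩ := exists_of_le_maxDisp h8
  have h9 := ((hω.1.1.tendsto s).comp (tendsto_grid h6 s)).abs.eventually (lt_mem_nhds hs')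
  filter_upwards [h9, eventually_ne_atTop 0] with n hn hn0
  have hδ : tm t m / n ≠ 0 := div_ne_zero h6 (by exact_mod_cast hn0)
  refine ⟨_, floor_grid_le h6 (hs.trans (lt_tm t m).le) n, ?_⟩
  have h10 := S_incr hδ (fun s => X s ω) ⌊(s : ℝ) / tm t m * n⌋₊
  have h11 : 0 < √(tm t m / n : ℝ≥0) := Real.sqrt_pos.2 (by positivity)
  rw [div_lt_iff₀ h11, mul_comm, ← abs_of_pos h11, ← abs_mul, h10, hω.1.2, sub_zero]
  exact hn

lemma lower_limit (b : Bool) {lam r R : ℝ} (hlam : 0 ≤ lam) (hr : 0 < r) (hR : 0 < R) {t : ℝ≥0}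
    (ht : t ≠ 0) {j j' : ℕ} (hj : 64 * r ^ 2 * j ≤ t) (hj' : 72 * (t : ℝ) ≤ j' * R ^ 2) :
    ∀ᶠ n : ℕ in atTop, (Gibbs (Vb b n (lam * √(t / n : ℝ≥0)))).real
      {p | ∀ k ≤ n / 2, |S k p| ≤ r / √(t / n : ℝ≥0)} ≤
        (1 / 2) ^ j * 4 ^ j' * Real.exp (2 * lam * R) := by
  have ht' : (0 : ℝ) < t := by positivity
  filter_upwards [tendsto_natCast_atTop_atTop (R := ℝ).eventually
      (eventually_ge_atTop (t / (16 * r ^ 2))),
    tendsto_natCast_atTop_atTop (R := ℝ).eventually (eventually_ge_atTop (72 * t / R ^ 2)),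
    eventually_gt_atTop 0] with n h1 h2 hn
  have hn' : (0 : ℝ) < n := by exact_mod_cast hn
  obtain ⟨δ, hδ⟩ : ∃ δ : ℝ, δ = (t / n : ℝ≥0) := ⟨_, rfl⟩
  rw [← hδ]
  have e : δ * n = t := by
    rw [hδ]
    push_cast
    field_simp
  have hδ0 : 0 < δ := by
    rw [hδ]
    positivity
  have hσ : 0 < √δ := Real.sqrt_pos.2 hδ0
  have hσ2 : √δ ^ 2 = δ := Real.sq_sqrt hδ0.le
  rw [div_le_iff₀ (by positivity)] at h1 h2
  have h3 : 1 ≤ 16 * r ^ 2 / δ := by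
    rw [le_div_iff₀ hδ0]
    nlinarith
  have h4 : 2 ≤ R ^ 2 / (36 * δ) := by
    rw [le_div_iff₀ (by positivity)]
    nlinarith
  have := discrete_lower b (n := n) (m := n / 2) (l := ⌈16 * r ^ 2 / δ⌉₊) (j := j)
    (l' := ⌊R ^ 2 / (36 * δ)⌋₊) (j' := j') (β := lam * √δ) (ρ := R / √δ) (r := r / √δ)
    (by positivity) ?_ ?_ (Nat.one_le_ceil_iff.2 (by positivity)) (by positivity) ?_ ?_
  · refine this.trans (le_of_eq ?_)
    congr 2
    field_simp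
  · have h5 := Nat.floor_le (a := R ^ 2 / (36 * δ)) (by positivity)
    have h6 : √(⌊R ^ 2 / (36 * δ)⌋₊ : ℝ) ≤ R / √δ / 6 := by
      refine Real.sqrt_le_iff.2 ⟨by positivity, h5.trans (le_of_eq ?_)⟩
      rw [div_pow, div_pow, hσ2]
      field_simp
      norm_num
    linarith
  · have h5 := Nat.lt_floor_add_one (R ^ 2 / (36 * δ))
    have h6 : R ^ 2 / (72 * δ) ≤ ⌊R ^ 2 / (36 * δ)⌋₊ := by
      have : R ^ 2 / (72 * δ) = R ^ 2 / (36 * δ) / 2 := by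
        field_simp
        norm_num
      linarith
    have h7 : (n : ℝ) ≤ j' * (R ^ 2 / (72 * δ)) := by
      rw [← mul_div_assoc, le_div_iff₀ (by positivity)]
      nlinarith
    have h8 : (n : ℝ) ≤ j' * ⌊R ^ 2 / (36 * δ)⌋₊ := h7.trans (by gcongr)
    exact_mod_cast h8
  · refine Real.le_sqrt_of_sq_le (le_trans (le_of_eq ?_) (Nat.le_ceil _))
    rw [mul_pow, div_pow, hσ2]
    ring
  · rw [Nat.le_div_iff_mul_le (by norm_num)]
    have h5 := Nat.ceil_lt_add_one (a := 16 * r ^ 2 / δ) (by positivity)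
    have h6 : (⌈16 * r ^ 2 / δ⌉₊ : ℝ) ≤ 2 * (16 * r ^ 2 / δ) := by linarith
    have h7 : (j : ℝ) * (2 * (16 * r ^ 2 / δ)) * 2 ≤ n := by
      rw [show (j : ℝ) * (2 * (16 * r ^ 2 / δ)) * 2 = 64 * r ^ 2 * j / δ by ring, div_le_iff₀ hδ0]
      linarith
    have h8 : (j : ℝ) * ⌈16 * r ^ 2 / δ⌉₊ * 2 ≤ n := le_trans (by gcongr) h7
    exact_mod_cast h8

lemma exp_le_two_pow {y : ℝ} {N : ℕ} (h : 3 * y ≤ N) : Real.exp (2 * y) ≤ 2 ^ N := by
  have h1 := Real.log_two_gt_d9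
  have h2 : (0 : ℝ) ≤ N := N.cast_nonneg
  calc Real.exp (2 * y) ≤ Real.exp (N * Real.log 2) := Real.exp_le_exp.2 (by nlinarith)
    _ = 2 ^ N := by rw [Real.exp_nat_mul, Real.exp_log (by norm_num)]

theorem IsTrapModel.lower (h : IsTrapModel lam X x Y P) (hlam : 0 < lam) (b : Bool)
    {a : ℝ} (ha : 0 ≤ a) {α c : ℝ} (hα : α < 1 / 3) (hc : 0 < c) :
    ∀ᶠ t : ℝ≥0 in atTop, ProbabilityTheory.cond P {ω | (t : ℝ≥0∞) < Tb b a X x Y ω}
      {ω | maxDisp X t ω < c * (t : ℝ) ^ α} ≤ ENNReal.ofReal (1 / 2) := by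
  have := h.prob
  filter_upwards [eventually_ge_atTop 1, ev_rpow (show 2 * α + 1 / 3 < 1 by linarith)
    (64 * c ^ 2 * (292 + 6 * lam))] with t h1 h2
  have ht1 : (1 : ℝ) ≤ t := h1
  have hr : 0 < c * (t : ℝ) ^ α := by positivity
  refine cond_le (h.Tb_pos hlam.le b ha t)
    (G' := ⋂ m : ℕ, ⋂ n : ℕ, ⋂ k : ℕ, {ω | k ≤ n / 2 → |X (k * (tm t m / n)) ω| ≤ c * (t : ℝ) ^ α})
    (MeasurableSet.iInter fun m => MeasurableSet.iInter fun n => MeasurableSet.iInter fun k => ?_)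
    (h.ae_reg.mono fun ω hω hG => ?_) (inter_Tb_le (by norm_num) fun m => ?_)
  · by_cases hk : k ≤ n / 2
    · simp only [hk, forall_const]
      exact measurableSet_le (h.measX _).abs measurable_const
    · simp [hk]
  · simp only [Set.mem_iInter, Set.mem_ofPred_eq]
    intro m n k hk
    refine (abs_le_maxDisp hω.1.1 ?_).trans (le_of_lt hG)
    have h3 : ((2 * k : ℕ) : ℝ≥0) * (tm t m / n) ≤ tm t m := grid_le (by omega)
    have h4 := tm_le t m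
    rw [← NNReal.coe_le_coe] at h3 h4 ⊢
    push_cast at h3 h4 ⊢
    linarith
  have h6 : tm t m ≠ 0 := (zero_le.trans_lt (lt_tm t m)).ne'
  obtain ⟨u, hu⟩ : ∃ u : ℝ, u = (t : ℝ) ^ (1 / 3 : ℝ) := ⟨_, rfl⟩
  have hu1 : 1 ≤ u := hu ▸ Real.one_le_rpow ht1 (by norm_num)
  have hu3 : u ^ 3 = t := by
    rw [hu, ← Real.rpow_natCast, ← Real.rpow_mul (by positivity)]
    norm_num
  have h3 : (t : ℝ) ≤ tm t m := (lt_tm t m).le
  have h4 : (tm t m : ℝ) ≤ t + 1 := by exact_mod_cast tm_le t m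
  have h5 := lower_limit b hlam.le hr (R := u) (by linarith) h6
    (j := 2 * ⌈144 * u⌉₊ + ⌈3 * (lam * (u + 1))⌉₊ + 1) (j' := ⌈144 * u⌉₊) ?_ ?_
  · refine (h.surv_inter_le hlam.le (b := b) ha h6 (fun n => measurableSet_small _ _)
      (fun ω hω hE => ?_) h5).trans (mul_le_mul_of_nonneg_right ?_ measureReal_nonneg)
    · filter_upwards [eventually_ne_atTop 0] with n hn0 k hk
      have hδ : tm t m / n ≠ 0 := div_ne_zero h6 (by exact_mod_cast hn0)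
      have h10 := S_incr hδ (fun s => X s ω) k
      have h11 : 0 < √(tm t m / n : ℝ≥0) := Real.sqrt_pos.2 (by positivity)
      rw [le_div_iff₀ h11, mul_comm, ← abs_of_pos h11, ← abs_mul, h10, hω.1.2, sub_zero]
      simp only [Set.mem_iInter, Set.mem_ofPred_eq] at hE
      exact hE m n k hk
    · have h7 := exp_le_two_pow (Nat.le_ceil (3 * (lam * (u + 1))))
      rw [mul_assoc, ← Real.exp_add, show 2 * lam * u + 2 * lam = 2 * (lam * (u + 1)) by ring]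
      refine (mul_le_mul_of_nonneg_left h7 (by positivity)).trans (le_of_eq ?_)
      rw [pow_succ, pow_add, pow_mul, show (4 : ℝ) = 2 ^ 2 by norm_num]
      simp only [one_div, inv_pow]
      field_simp
  · have h7 := Nat.ceil_lt_add_one (a := 144 * u) (by positivity)
    have h8 := Nat.ceil_lt_add_one (a := 3 * (lam * (u + 1))) (by positivity)
    have h9 : ((2 * ⌈144 * u⌉₊ + ⌈3 * (lam * (u + 1))⌉₊ + 1 : ℕ) : ℝ) ≤ (292 + 6 * lam) * u := by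
      push_cast
      nlinarith
    rw [Real.rpow_add (by positivity), ← hu, Real.rpow_one, mul_comm 2 α,
      Real.rpow_mul (by positivity), Real.rpow_two] at h2
    refine le_trans (mul_le_mul_of_nonneg_left h9 (by positivity)) (le_trans ?_ (h2.trans h3))
    exact le_of_eq (by ring)
  · have h7 := Nat.le_ceil (144 * u)
    nlinarith [sq_nonneg u]

theorem IsTrapModel.alphaStar_eq (h : IsTrapModel lam X x Y P) (hlam : 0 < lam) {b : Bool}
    (hb : DU b) {a : ℝ} (ha : 0 ≤ a) : alphaStar P X (Tb b a X x Y) = 1 / 3 := by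
  refine csInf_eq_of_forall_ge_of_forall_gt_exists_lt
    ⟨1, one_pos, 1, one_pos, h.upper hlam hb ha (by norm_num)⟩ ?_ fun w hw => ?_
  · rintro α ⟨-, c, hc, hT⟩
    by_contra hα
    have h1 := le_of_tendsto hT (h.lower hlam b ha (not_le.1 hα) hc)
    rw [ENNReal.one_le_ofReal] at h1
    norm_num at h1
  · obtain ⟨α, h1, h2⟩ := exists_between hw
    exact ⟨α, ⟨by linarith, 1, one_pos, h.upper hlam hb ha h1⟩, h2⟩

theorem DU_of_discrete {b : Bool} (C : ℝ) (G e : ℕ → ℝ) (he : Tendsto e atTop (𝓝 0))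
    (H : ∀ᶠ w : ℕ in atTop, ∀ (n : ℕ) (β ρ : ℝ), 0 ≤ β → (n : ℝ) ≤ 2 ^ (w ^ 4) * ρ ^ 2 →
      n * Real.exp (C * w ^ 3) ≤ β * ρ ^ 3 → G w ≤ ρ →
      (Gibbs (Vb b n β)).real {p | ∃ k ≤ n, ρ < |S k p|} ≤ e w) : DU b := by
  intro lam α ε hlam hα hε
  have hl2 := Real.log_two_gt_d9
  have hη : 0 < 3 * α - 1 := by linarith
  obtain ⟨w0, hw0⟩ := eventually_atTop.1 (H.and ((he.eventually (gt_mem_nhds hε)).and
    ((tendsto_natCast_atTop_atTop (R := ℝ).eventually (eventually_ge_atTop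
      ((8 * |C| + |Real.log lam|) / ((3 * α - 1) * Real.log 2) + 1))).and (eventually_ge_atTop 2))))
  filter_upwards [eventually_gt_atTop (2 ^ (w0 ^ 4)), eventually_ge_atTop 1] with t h1 h2
  have ht1 : (1 : ℝ) ≤ t := h2
  have h1' : (2 : ℝ) ^ (w0 ^ 4) < t := by exact_mod_cast h1
  have hex : ∃ w : ℕ, (t : ℝ) ≤ 2 ^ (w ^ 4) := by
    obtain ⟨w, hw⟩ := pow_unbounded_of_one_lt (t : ℝ) (one_lt_two (α := ℝ))
    exact ⟨w, hw.le.trans (pow_le_pow_right₀ one_le_two (Nat.le_self_pow (by norm_num) w))⟩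
  classical
  have h3 := Nat.find_spec hex
  have h4 : w0 < Nat.find hex := by
    by_contra hc
    have : (2 : ℝ) ^ (Nat.find hex ^ 4) ≤ 2 ^ (w0 ^ 4) :=
      pow_le_pow_right₀ one_le_two (Nat.pow_le_pow_left (not_lt.1 hc) 4)
    linarith
  obtain ⟨v, hv⟩ : ∃ v, Nat.find hex = v + 1 := ⟨Nat.find hex - 1, by omega⟩
  have h5 := not_le.1 (Nat.find_min hex (m := v) (by omega))
  rw [hv] at h3 h4
  obtain ⟨k1, k2, k3, k4⟩ := hw0 (v + 1) h4.le
  have hv1 : (1 : ℝ) ≤ v := by exact_mod_cast (show 1 ≤ v by omega)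
  have h6 : Real.exp (C * ((v + 1 : ℕ) : ℝ) ^ 3) ≤ lam * (t : ℝ) ^ (3 * α - 1) := by
    push_cast at k3 ⊢
    rw [add_le_add_iff_right, div_le_iff₀ (by positivity)] at k3
    have a1 : C * ((v : ℝ) + 1) ^ 3 ≤ 8 * |C| * v ^ 3 := by
      calc _ ≤ |C| * ((v : ℝ) + 1) ^ 3 := by gcongr; exact le_abs_self C
        _ ≤ |C| * (2 * (v : ℝ)) ^ 3 := by gcongr; linarith
        _ = _ := by ring
    have a2 : -Real.log lam ≤ |Real.log lam| * v ^ 3 :=
      (neg_le_abs _).trans (le_mul_of_one_le_right (abs_nonneg _) (one_le_pow₀ hv1))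
    have a3 : (v : ℝ) ^ 4 * Real.log 2 ≤ Real.log t := by
      have := Real.log_le_log (by positivity) h5.le
      rw [Real.log_pow] at this
      exact_mod_cast this
    have a4 := mul_le_mul_of_nonneg_right k3 (show 0 ≤ (v : ℝ) ^ 3 by positivity)
    have a5 := mul_le_mul_of_nonneg_left a3 hη.le
    rw [Real.rpow_def_of_pos (by linarith), ← Real.exp_log hlam, ← Real.exp_add]
    exact Real.exp_le_exp.2 (by nlinarith)
  have h7 : Tendsto (fun n : ℕ => G (v + 1) * √(t / n : ℝ≥0)) atTop (𝓝 0) := by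
    have := ((tendsto_const_div_atTop_nhds_zero_nat (t : ℝ)).sqrt).const_mul (G (v + 1))
    simpa using this
  have hta : 1 ≤ (t : ℝ) ^ α := Real.one_le_rpow ht1 (by linarith)
  filter_upwards [h7.eventually (gt_mem_nhds one_pos), eventually_gt_atTop 0] with n h8 hn
  have hn' : (0 : ℝ) < n := by exact_mod_cast hn
  obtain ⟨δ, hδ⟩ : ∃ δ : ℝ, δ = (t / n : ℝ≥0) := ⟨_, rfl⟩
  rw [← hδ] at h8 ⊢
  have e1 : δ * n = t := by
    rw [hδ]
    push_cast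
    field_simp
  have hδ0 : 0 < δ := by
    rw [hδ]
    positivity
  have hσ : 0 < √δ := Real.sqrt_pos.2 hδ0
  have hσ2 : √δ ^ 2 = δ := Real.sq_sqrt hδ0.le
  refine (k1 n _ _ (by positivity) ?_ ?_ ?_).trans k2.le
  · rw [div_pow, hσ2, ← mul_div_assoc, le_div_iff₀ hδ0]
    calc (n : ℝ) * δ = t * 1 := by linarith
      _ ≤ _ := by gcongr; exact one_le_pow₀ hta
  · have e2 : lam * √δ * ((t : ℝ) ^ α / √δ) ^ 3 = n * (lam * (t : ℝ) ^ (3 * α - 1)) := by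
      rw [Real.rpow_sub (by linarith), Real.rpow_one, mul_comm 3 α, Real.rpow_mul (by positivity),
        show (3 : ℝ) = (3 : ℕ) by norm_num, Real.rpow_natCast]
      nth_rewrite 3 [← e1]
      nth_rewrite 3 [← hσ2]
      field_simp
    rw [e2]
    gcongr
  · rw [le_div_iff₀ hσ]
    linarith

theorem DU_false : DU false :=
  DU_of_discrete 2000000 (fun w => 2 ^ (2 * w ^ 2)) (fun w => (1 / 2) ^ w)
    (tendsto_pow_atTop_nhds_zero_of_lt_one (by norm_num) (by norm_num))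
    ((eventually_ge_atTop 1000).mono fun _ hw _ _ _ h0 h1 h2 h3 => discrete_upper hw h0 h1 h2 h3)

end Pool.Agent.Lib.MP_b41181_pr
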