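import Pool.Agent.Lib.MP_b41181_pr.Defs

/-!
Void probability of a marked Poisson point process.
-/

open MeasureTheory ProbabilityTheory Filter Topology Finset
open scoped ENNReal NNReal

namespace Pool.Agent.Lib.MP_b41181_pr

variable {Ω : Type*} [MeasurableSpace Ω] {P : Measure Ω} {x : ℕ → Ω → ℝ} {lam : ℝ}

lemma integral_pow_poisson (r : ℝ≥0) (c : ℝ) :
    ∫ n, c ^ n ∂poissonMeasure r = Real.exp (-(r * (1 - c))) := by
  rw [integral_poissonMeasure]
  have h := (NormedSpace.expSeries_div_hasSum_exp (r * c : ℝ)).mul_left (Real.exp (-r))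
  rw [← Real.exp_eq_exp_ℝ, ← Real.exp_add] at h
  rw [show -(r * (1 - c)) = -r + r * c by ring, ← h.tsum_eq]
  refine tsum_congr fun n => ?_
  rw [smul_eq_mul, mul_pow]
  ring

lemma integrable_prod_range [IsProbabilityMeasure P] (hx : ∀ i, Measurable (x i)) {g : ℝ → ℝ}
    (hg : Measurable g) (h0 : ∀ z, 0 ≤ g z) (h1 : ∀ z, g z ≤ 1) (N : ℕ) :
    Integrable (fun ω => ∏ i ∈ range N, g (x i ω)) P := by
  refine Integrable.mono' (integrable_const 1)
    (Finset.measurable_fun_prod _ fun i _ => hg.comp (hx i)).aestronglyMeasurable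
    (ae_of_all _ fun ω => ?_)
  rw [Real.norm_eq_abs, abs_of_nonneg (prod_nonneg fun i _ => h0 _)]
  exact prod_le_one (fun i _ => h0 _) fun i _ => h1 _

lemma antitone_prod_range {g : ℕ → ℝ} (h0 : ∀ z, 0 ≤ g z) (h1 : ∀ z, g z ≤ 1) :
    Antitone fun N => ∏ i ∈ range N, g i := by
  refine antitone_nat_of_succ_le fun N => ?_
  rw [prod_range_succ]
  exact mul_le_of_le_one_right (prod_nonneg fun i _ => h0 _) (h1 _)

lemma laplace_step [IsProbabilityMeasure P] (hlam : 0 ≤ lam) (hx : IsPoissonPoints x lam P)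
    {k : ℕ} {B : Fin k → Set ℝ} {c : Fin k → ℝ} (hB : ∀ j, MeasurableSet (B j))
    (hb : ∀ j, Bornology.IsBounded (B j)) (hd : Pairwise (fun i j => Disjoint (B i) (B j)))
    {g : ℝ → ℝ} (hg : Measurable g) (h0 : ∀ z, 0 ≤ g z) (h1 : ∀ z, g z ≤ 1)
    (hg1 : ∀ z j, z ∈ B j → g z = c j) (hg2 : ∀ z, (∀ j, z ∉ B j) → g z = 1) :
    Tendsto (fun N => ∫ ω, ∏ i ∈ range N, g (x i ω) ∂P) atTop
      (𝓝 (Real.exp (-(lam * ∫ z, (1 - g z))))) := by
  classical
  have e1 : ∀ z, g z = ∏ j, if z ∈ B j then c j else 1 := by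
    intro z
    by_cases h : ∃ j, z ∈ B j
    · obtain ⟨j, hj⟩ := h
      rw [prod_eq_single j, if_pos hj, hg1 z j hj]
      · intro i _ hi
        rw [if_neg (Set.disjoint_left.1 (hd hi.symm) hj)]
      · simp
    · push Not at h
      simp [h, hg2 z h]
  have e2 : ∀ z, 1 - g z = ∑ j, (B j).indicator (fun _ => 1 - c j) z := by
    intro z
    by_cases h : ∃ j, z ∈ B j
    · obtain ⟨j, hj⟩ := h
      rw [sum_eq_single j, Set.indicator_of_mem hj, hg1 z j hj]
      · intro i _ hi
        rw [Set.indicator_of_notMem (Set.disjoint_left.1 (hd hi.symm) hj)]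
      · simp
    · push Not at h
      simp [h, hg2 z h]
  have e3 : ∫ z, (1 - g z) = ∑ j, volume.real (B j) * (1 - c j) := by
    simp_rw [e2]
    rw [integral_finsetSum]
    · refine sum_congr rfl fun j _ => ?_
      rw [integral_indicator_const _ (hB j), smul_eq_mul]
    · intro j _
      exact (integrableOn_const (hb j).measure_lt_top.ne).integrable_indicator (hB j)
  have e4 : ∫ ω, ∏ j, c j ^ {i | x i ω ∈ B j}.ncard ∂P = Real.exp (-(lam * ∫ z, (1 - g z))) := by
    rw [(hx.indep k B hB hb hd).integral_fun_prod_comp (f := fun j n => c j ^ n)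
      (fun j => (hx.law _ (hB j) (hb j)).aemeasurable)
      (fun j => Measurable.of_discrete.aestronglyMeasurable), e3, mul_sum, ← sum_neg_distrib,
      Real.exp_sum]
    refine prod_congr rfl fun j _ => ?_
    have := (hx.law _ (hB j) (hb j)).integral_comp (f := fun n => c j ^ n)
      Measurable.of_discrete.aestronglyMeasurable
    rw [integral_pow_poisson, Real.coe_toNNReal _ (mul_nonneg hlam measureReal_nonneg),
      mul_assoc] at this
    exact this
  rw [← e4]
  refine tendsto_integral_of_dominated_convergence (fun _ => 1)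
    (fun N => (integrable_prod_range hx.meas hg h0 h1 N).aestronglyMeasurable) (integrable_const 1)
    (fun N => ae_of_all _ fun ω => ?_) ?_
  · rw [Real.norm_eq_abs, abs_of_nonneg (prod_nonneg fun i _ => h0 _)]
    exact prod_le_one (fun i _ => h0 _) fun i _ => h1 _
  · filter_upwards [ae_all_iff.2 fun j => hx.finite _ (hb j)] with ω hω
    simp_rw [e1]
    simp_rw [prod_comm (s := range _)]
    refine tendsto_finsetProd _ fun j _ => ?_
    obtain ⟨M, hM⟩ := (hω j).bddAbove
    refine tendsto_const_nhds.congr' ?_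
    filter_upwards [eventually_gt_atTop M] with N hN
    rw [prod_ite, prod_const_one, mul_one, prod_const, Set.ncard_eq_toFinset_card _ (hω j)]
    congr 2
    ext i
    simp only [Set.Finite.mem_toFinset, Set.mem_ofPred_eq, mem_filter, mem_range]
    exact ⟨fun h => ⟨lt_of_le_of_lt (hM h) hN, h⟩, fun h => h.2⟩

theorem laplace [IsProbabilityMeasure P] (hlam : 0 ≤ lam) (hx : IsPoissonPoints x lam P)
    {f : ℝ → ℝ} (hf : Measurable f) (h0 : ∀ z, 0 ≤ f z) (h1 : ∀ z, f z ≤ 1)
    (hi : Integrable fun z => 1 - f z) :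
    Tendsto (fun N => ∫ ω, ∏ i ∈ range N, f (x i ω) ∂P) atTop
      (𝓝 (Real.exp (-(lam * ∫ z, (1 - f z))))) := by
  classical
  let g : ℕ → ℝ → ℝ := fun m z =>
    if z ∈ Set.Icc (-(m : ℝ)) m then 1 - (⌊((m : ℝ) + 1) * (1 - f z)⌋₊ : ℝ) / (m + 1) else 1
  have hfl : ∀ m : ℕ, Measurable fun z => ⌊((m : ℝ) + 1) * (1 - f z)⌋₊ := fun m =>
    Nat.measurable_floor.comp (by fun_prop)
  have gm : ∀ m, Measurable (g m) := fun m =>
    Measurable.ite measurableSet_Icc
      (((Measurable.of_discrete.comp (hfl m)).div_const _).const_sub 1) measurable_const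
  have gf : ∀ m z, f z ≤ g m z := by
    intro m z
    simp only [g]
    split_ifs
    · have := Nat.floor_le (a := ((m : ℝ) + 1) * (1 - f z))
        (mul_nonneg (by positivity) (by linarith [h1 z]))
      have h2 : (⌊((m : ℝ) + 1) * (1 - f z)⌋₊ : ℝ) / (m + 1) ≤ 1 - f z := by
        rw [div_le_iff₀ (by positivity)]; linarith
      linarith
    · exact h1 z
  have g0 : ∀ m z, 0 ≤ g m z := fun m z => (h0 z).trans (gf m z)
  have g1 : ∀ m z, g m z ≤ 1 := by
    intro m z
    simp only [g]
    split_ifs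
    · have : 0 ≤ (⌊((m : ℝ) + 1) * (1 - f z)⌋₊ : ℝ) / (m + 1) := by positivity
      linarith
    · exact le_rfl
  have glim : ∀ z, Tendsto (fun m => g m z) atTop (𝓝 (f z)) := by
    intro z
    have h2 : Tendsto (fun m : ℕ => (m : ℝ) + 1) atTop atTop :=
      tendsto_atTop_add_const_right _ _ tendsto_natCast_atTop_atTop
    have h3 := ((tendsto_nat_floor_mul_div_atTop (a := 1 - f z) (by linarith [h1 z])).comp
      h2).const_sub 1
    rw [sub_sub_cancel] at h3
    refine h3.congr' ?_
    filter_upwards [tendsto_natCast_atTop_atTop.eventually_ge_atTop |z|] with m hm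
    simp only [g, Function.comp]
    rw [if_pos (by rw [Set.mem_Icc, ← abs_le]; exact hm), mul_comm]
  have gstep : ∀ m, Tendsto (fun N => ∫ ω, ∏ i ∈ range N, g m (x i ω) ∂P) atTop
      (𝓝 (Real.exp (-(lam * ∫ z, (1 - g m z))))) := by
    intro m
    refine laplace_step hlam hx (k := m + 2)
      (B := fun j => Set.Icc (-(m : ℝ)) m ∩ {z | ⌊((m : ℝ) + 1) * (1 - f z)⌋₊ = j})
      (c := fun j => 1 - (j : ℝ) / (m + 1))
      (fun j => measurableSet_Icc.inter (hfl m (measurableSet_singleton _)))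
      (fun j => (Metric.isBounded_Icc _ _).subset Set.inter_subset_left) ?_ (gm m) (g0 m) (g1 m)
      ?_ ?_
    · intro i j hij
      rw [Set.disjoint_left]
      rintro z ⟨_, h2⟩ ⟨_, h3⟩
      exact hij (Fin.ext (h2.symm.trans h3))
    · rintro z j ⟨h2, h3⟩
      simp only [g]
      rw [if_pos h2, h3]
    · intro z hz
      simp only [g]
      rw [if_neg]
      intro h2
      have h3 : ⌊((m : ℝ) + 1) * (1 - f z)⌋₊ < m + 2 := by
        rw [Nat.floor_lt (mul_nonneg (by positivity) (by linarith [h1 z]))]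
        push_cast
        have : (0 : ℝ) ≤ m := by positivity
        nlinarith [h0 z]
      exact hz ⟨_, h3⟩ ⟨h2, rfl⟩
  have gint : Tendsto (fun m => Real.exp (-(lam * ∫ z, (1 - g m z)))) atTop
      (𝓝 (Real.exp (-(lam * ∫ z, (1 - f z))))) := by
    refine (Real.continuous_exp.tendsto _).comp (Tendsto.neg (Tendsto.const_mul _ ?_))
    refine tendsto_integral_of_dominated_convergence (fun z => 1 - f z)
      (fun m => ((gm m).const_sub 1).aestronglyMeasurable) hi (fun m => ae_of_all _ fun z => ?_)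
      (ae_of_all _ fun z => (glim z).const_sub 1)
    rw [Real.norm_eq_abs, abs_of_nonneg (by linarith [g1 m z])]
    linarith [gf m z]
  have anti : ∀ {u : ℝ → ℝ}, Measurable u → (∀ z, 0 ≤ u z) → (∀ z, u z ≤ 1) →
      Antitone fun N => ∫ ω, ∏ i ∈ range N, u (x i ω) ∂P := by
    intro u hu u0 u1 N M hNM
    exact integral_mono (integrable_prod_range hx.meas hu u0 u1 M)
      (integrable_prod_range hx.meas hu u0 u1 N) fun ω =>
        antitone_prod_range (g := fun i => u (x i ω)) (fun _ => u0 _) (fun _ => u1 _) hNM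
  have low : ∀ N, Real.exp (-(lam * ∫ z, (1 - f z))) ≤ ∫ ω, ∏ i ∈ range N, f (x i ω) ∂P := by
    intro N
    have h2 : Tendsto (fun m => ∫ ω, ∏ i ∈ range N, g m (x i ω) ∂P) atTop
        (𝓝 (∫ ω, ∏ i ∈ range N, f (x i ω) ∂P)) := by
      refine tendsto_integral_of_dominated_convergence (fun _ => 1)
        (fun m => (integrable_prod_range hx.meas (gm m) (g0 m) (g1 m) N).aestronglyMeasurable)
        (integrable_const 1) (fun m => ae_of_all _ fun ω => ?_)
        (ae_of_all _ fun ω => tendsto_finsetProd _ fun i _ => glim _)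
      rw [Real.norm_eq_abs, abs_of_nonneg (prod_nonneg fun i _ => g0 _ _)]
      exact prod_le_one (fun i _ => g0 _ _) fun i _ => g1 _ _
    exact le_of_tendsto_of_tendsto' gint h2 fun m =>
      (anti (gm m) (g0 m) (g1 m)).le_of_tendsto (gstep m) N
  rw [tendsto_order]
  refine ⟨fun b hb => Eventually.of_forall fun N => hb.trans_le (low N), fun b hb => ?_⟩
  obtain ⟨m, hm⟩ := (gint.eventually_lt_const hb).exists
  filter_upwards [(gstep m).eventually_lt_const hm] with N hN
  refine lt_of_le_of_lt (integral_mono (integrable_prod_range hx.meas hf h0 h1 N)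
    (integrable_prod_range hx.meas (gm m) (g0 m) (g1 m) N) fun ω => ?_) hN
  exact prod_le_prod (fun i _ => h0 _) fun i _ => gf m _

theorem poisson_void [IsProbabilityMeasure P] (hlam : 0 ≤ lam) (hx : IsPoissonPoints x lam P)
    {E : Type*} [MeasurableSpace E] {ν : Measure E} [IsProbabilityMeasure ν] {ζ : ℕ → Ω → E}
    (hζm : ∀ i, Measurable (ζ i)) (hζ : ∀ i, P.map (ζ i) = ν) (hind : iIndepFun ζ P)
    (hxζ : IndepFun (fun ω i => x i ω) (fun ω i => ζ i ω) P) {L U : E → ℝ} (hL : Measurable L)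
    (hU : Measurable U) (hLU : ∀ e, L e ≤ U e) (hi : Integrable (fun e => U e - L e) ν) :
    P.real {ω | ∀ i, x i ω ∉ Set.Icc (L (ζ i ω)) (U (ζ i ω))} =
      Real.exp (-(lam * ∫ e, (U e - L e) ∂ν)) := by
  have hT : MeasurableSet {q : ℝ × E | q.1 ∈ Set.Icc (L q.2) (U q.2)} :=
    (measurableSet_le (hL.comp measurable_snd) measurable_fst).inter
      (measurableSet_le measurable_fst (hU.comp measurable_snd))
  let f : ℝ → ℝ := fun z => ν.real {e | z ∉ Set.Icc (L e) (U e)}
  have hf : Measurable f := (measurable_measure_prodMk_left hT.compl).ennreal_toReal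
  have hf' : ∀ z, 1 - f z = ν.real {e | z ∈ Set.Icc (L e) (U e)} := by
    intro z
    have := probReal_compl_eq_one_sub (μ := ν) (s := {e | z ∈ Set.Icc (L e) (U e)})
      (measurable_prodMk_left hT)
    have e : f z = ν.real {e | z ∈ Set.Icc (L e) (U e)}ᶜ := rfl
    linarith
  have hvol : ∫⁻ z, ν {e | z ∈ Set.Icc (L e) (U e)} = ENNReal.ofReal (∫ e, (U e - L e) ∂ν) := by
    have h1 := Measure.prod_apply (μ := volume) (ν := ν) hT
    have h2 := Measure.prod_apply_symm (μ := volume) (ν := ν) hT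
    rw [ofReal_integral_eq_lintegral_ofReal hi (ae_of_all _ fun e => sub_nonneg.2 (hLU e))]
    refine h1.symm.trans (h2.trans (lintegral_congr fun e => ?_))
    exact Real.volume_Icc (a := L e) (b := U e)
  have hm : Measurable fun z => ν {e | z ∈ Set.Icc (L e) (U e)} := measurable_measure_prodMk_left hT
  have hint : Integrable fun z => 1 - f z := by
    simp_rw [hf']
    exact integrable_toReal_of_lintegral_ne_top hm.aemeasurable (by rw [hvol]; simp)
  have hval : ∫ z, (1 - f z) = ∫ e, (U e - L e) ∂ν := by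
    simp_rw [hf', Measure.real]
    rw [integral_toReal hm.aemeasurable (ae_of_all _ fun z => measure_lt_top _ _), hvol,
      ENNReal.toReal_ofReal (integral_nonneg fun e => sub_nonneg.2 (hLU e))]
  have h1 := laplace hlam hx hf (fun z => measureReal_nonneg) (fun z => measureReal_le_one) hint
  rw [hval] at h1
  have mx : Measurable fun ω i => x i ω := measurable_pi_lambda _ hx.meas
  have mζ : Measurable fun ω i => ζ i ω := measurable_pi_lambda _ hζm
  have hTN : ∀ N, MeasurableSet {q : (ℕ → ℝ) × (ℕ → E) |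
      ∀ i ∈ range N, q.1 i ∉ Set.Icc (L (q.2 i)) (U (q.2 i))} := by
    intro N
    have : {q : (ℕ → ℝ) × (ℕ → E) | ∀ i ∈ range N, q.1 i ∉ Set.Icc (L (q.2 i)) (U (q.2 i))} =
        ⋂ i ∈ range N, (fun q : (ℕ → ℝ) × (ℕ → E) => (q.1 i, q.2 i)) ⁻¹'
          {q : ℝ × E | q.1 ∈ Set.Icc (L q.2) (U q.2)}ᶜ := by
      ext q; simp
    rw [this]
    exact measurableSet_biInter _ fun i _ => hT.compl.preimage (by fun_prop)
  have h2 : ∀ N, P.real {ω | ∀ i ∈ range N, x i ω ∉ Set.Icc (L (ζ i ω)) (U (ζ i ω))} =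
      ∫ ω, ∏ i ∈ range N, f (x i ω) ∂P := by
    intro N
    have e1 := Measure.map_apply (μ := P) (mx.prodMk mζ) (hTN N)
    rw [hxζ.map_prod_eq_prod_map_map mx.aemeasurable mζ.aemeasurable,
      Measure.prod_apply (hTN N), lintegral_map (measurable_measure_prodMk_left (hTN N)) mx] at e1
    have e2 : ∀ z : ℕ → ℝ, (P.map fun ω i => ζ i ω) (Prod.mk z ⁻¹' {q : (ℕ → ℝ) × (ℕ → E) |
        ∀ i ∈ range N, q.1 i ∉ Set.Icc (L (q.2 i)) (U (q.2 i))}) =
        ENNReal.ofReal (∏ i ∈ range N, f (z i)) := by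
      intro z
      rw [Measure.map_apply mζ (measurable_prodMk_left (hTN N))]
      have e3 := hind.measure_inter_preimage_eq_mul (range N)
        (sets := fun i => {e | z i ∉ Set.Icc (L e) (U e)})
        (fun i _ => measurable_prodMk_left hT.compl)
      rw [ENNReal.ofReal_prod_of_nonneg (fun i _ => measureReal_nonneg)]
      refine Eq.trans ?_ (e3.trans (prod_congr rfl fun i _ => ?_))
      · congr 1
        ext ω
        simp
      · rw [← Measure.map_apply (hζm i) (s := {e | z i ∉ Set.Icc (L e) (U e)})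
          (measurable_prodMk_left hT.compl), hζ i]
        exact (ofReal_measureReal (measure_ne_top _ _)).symm
    simp_rw [e2] at e1
    rw [← ofReal_integral_eq_lintegral_ofReal (integrable_prod_range hx.meas hf
      (fun z => measureReal_nonneg) (fun z => measureReal_le_one) N)
      (ae_of_all _ fun ω => prod_nonneg fun i _ => measureReal_nonneg)] at e1
    rw [Measure.real]
    refine Eq.trans (congrArg ENNReal.toReal e1.symm) (ENNReal.toReal_ofReal ?_)
    exact integral_nonneg fun ω => prod_nonneg fun i _ => measureReal_nonneg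
  have h3 := tendsto_measure_iInter_atTop (μ := P)
    (s := fun N => {ω | ∀ i ∈ range N, x i ω ∉ Set.Icc (L (ζ i ω)) (U (ζ i ω))})
    (fun N => ((mx.prodMk mζ) (hTN N)).nullMeasurableSet)
    (fun N M hNM ω hω i hi => hω i (range_subset_range.2 hNM hi)) ⟨0, measure_ne_top _ _⟩
  have h4 := (ENNReal.tendsto_toReal (measure_ne_top _ _)).comp h3
  have h5 : (⋂ N, {ω | ∀ i ∈ range N, x i ω ∉ Set.Icc (L (ζ i ω)) (U (ζ i ω))}) =
      {ω | ∀ i, x i ω ∉ Set.Icc (L (ζ i ω)) (U (ζ i ω))} := by
    ext ω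
    simp only [Set.mem_iInter, Set.mem_ofPred_eq, mem_range]
    exact ⟨fun h i => h (i + 1) i (by omega), fun h N i _ => h i⟩
  rw [h5] at h4
  refine tendsto_nhds_unique h4 (h1.congr fun N => ?_)
  rw [← h2 N]
  rfl

end Pool.Agent.Lib.MP_b41181_pr
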