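import Pool.Agent.Lib.MP_b41181_pr.Reduce
import Pool.Agent.Lib.MP_b41181_pr.Final

-- part Pool.Agent.Lib.MP_b41181_pr.RangeEst
section

/-!
Random walk estimates for the range model.
-/

open MeasureTheory ProbabilityTheory Finset
open scoped ENNReal NNReal

namespace Pool.Agent.Lib.MP_b41181_pr

lemma rlevy_aux {o : ℝ} (ho : 0 ≤ o) (n : ℕ) : ∀ y : ℝ, -o ≤ y →
    2 * mu {x | y + o < S n x} ≤ mu {x | ∃ k ≤ n, y < S k x} +
      2 * n * gaussianReal 0 1 (Set.Ioi o) := by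
  have neg : ∀ (n : ℕ) (y : ℝ), -o ≤ y → y < 0 → 2 * mu {x | y + o < S n x} ≤
      mu {x | ∃ k ≤ n, y < S k x} + 2 * n * gaussianReal 0 1 (Set.Ioi o) := by
    intro n y h1 hy
    have e : {x | ∃ k ≤ n, y < S k x} = Set.univ :=
      Set.eq_univ_of_forall fun x => ⟨0, Nat.zero_le _, by simpa using hy⟩
    rw [e, measure_univ]
    refine le_trans ?_ le_self_add
    have h2 : mu {x | y + o < S n x} ≤ mu {x | 0 < S n x} :=
      measure_mono fun x (hx : y + o < S n x) => show 0 < S n x by linarith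
    have h3 : 2 * mu {x | 0 < S n x} ≤ 1 := by
      have := S_pos_le_half n
      rw [← ENNReal.ofReal_toReal (measure_ne_top mu {x | 0 < S n x}), ← ENNReal.ofReal_ofNat,
        ← ENNReal.ofReal_mul (by norm_num), ENNReal.ofReal_le_one]
      unfold Measure.real at this
      linarith
    exact le_trans (by gcongr) h3
  induction n with
  | zero =>
    intro y h1
    have : {x | y + o < S 0 x} = ∅ := by
      ext x
      simp only [S_zero, Set.mem_ofPred_eq, Set.mem_empty_iff_false, iff_false, not_lt]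
      linarith
    rw [this]
    simp
  | succ n ih =>
    intro y h1
    rcases lt_or_ge y 0 with hy | hy
    · exact neg _ y h1 hy
    rw [mu_cons (measurableSet_ex_lt _ _),
      mu_cons (measurableSet_lt measurable_const (measurable_S _)),
      ← lintegral_const_mul' _ _ (by norm_num)]
    calc _ ≤ ∫⁻ a, (mu {x | cons a x ∈ {x | ∃ k ≤ n + 1, y < S k x}} +
          (2 * n * gaussianReal 0 1 (Set.Ioi o) + (Set.Ioi o).indicator (fun _ => 2) a))
            ∂gaussianReal 0 1 := by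
          refine lintegral_mono fun a => ?_
          have e1 : {x | cons a x ∈ {x | y + o < S (n + 1) x}} = {x | y - a + o < S n x} := by
            ext x
            simp only [Set.mem_ofPred_eq, S_cons]
            constructor <;> intro h <;> linarith
          rw [e1]
          rcases le_or_gt (-o) (y - a) with ha | ha
          · refine (ih (y - a) ha).trans (add_le_add (measure_mono ?_) le_self_add)
            rintro x ⟨k, hk, hx⟩
            exact ⟨k + 1, by omega, by rw [S_cons]; linarith⟩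
          · rw [Set.indicator_of_mem (show a ∈ Set.Ioi o by simp only [Set.mem_Ioi]; linarith)]
            calc 2 * mu {x | y - a + o < S n x} ≤ 2 * 1 := by gcongr; exact prob_le_one
              _ ≤ _ := by rw [mul_one, ← add_assoc]; exact le_add_self
      _ = _ := by
          have hm : Measurable fun a : ℝ => 2 * n * gaussianReal 0 1 (Set.Ioi o) +
              (Set.Ioi o).indicator (fun _ => (2 : ℝ≥0∞)) a :=
            measurable_const.add (measurable_const.indicator measurableSet_Ioi)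
          rw [lintegral_add_right _ hm, lintegral_add_left measurable_const,
            lintegral_indicator_const measurableSet_Ioi, lintegral_const, measure_univ]
          push_cast
          ring

/-- Upper bound for the probability of staying below a level. -/
lemma stay_upper {m : ℕ} (hm : 1 ≤ m) {y o : ℝ} (hy : 0 ≤ y) (ho : 0 ≤ o) :
    mu.real {x | ∀ k ≤ m, S k x ≤ y} ≤ (y + o) / √m + 2 * m * Real.exp (-o ^ 2 / 2) := by
  have hm' : (0 : ℝ) < m := by exact_mod_cast hm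
  have hs : 0 < √(m : ℝ) := Real.sqrt_pos.2 hm'
  have h1 := probReal_compl_eq_one_sub (μ := mu) (measurableSet_ex_lt m y)
  have e1 : {x | ∃ k ≤ m, y < S k x}ᶜ = {x | ∀ k ≤ m, S k x ≤ y} := by ext x; simp
  rw [e1] at h1
  have h2 : 2 * mu.real {x | y + o < S m x} ≤ mu.real {x | ∃ k ≤ m, y < S k x} +
      2 * m * (gaussianReal 0 1).real (Set.Ioi o) := by
    have := ENNReal.toReal_mono (ENNReal.add_ne_top.2 ⟨measure_ne_top _ _, ENNReal.mul_ne_top
      (ENNReal.mul_ne_top (by norm_num) (ENNReal.natCast_ne_top m)) (measure_ne_top _ _)⟩)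
      (rlevy_aux ho m y (by linarith))
    rw [ENNReal.toReal_add (measure_ne_top _ _) (ENNReal.mul_ne_top
      (ENNReal.mul_ne_top (by norm_num) (ENNReal.natCast_ne_top m)) (measure_ne_top _ _))] at this
    simpa [Measure.real] using this
  have h3 : (gaussianReal 0 1).real (Set.Ioi o) ≤ Real.exp (-o ^ 2 / 2) := by
    have h4 := muS_real 1 (A := Set.Ioi o) measurableSet_Ioi
    have h5 := muS_tail_lt 1 ho
    simp only [Nat.cast_one, mul_one] at h4 h5
    exact h4.symm.le.trans h5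
  have h4 := muS_symm_lt m (y + o)
  have h5 : mu.real Set.univ ≤ mu.real {x | S m x ∈ Set.Icc (-(y + o)) (-(y + o) + 2 * (y + o))} +
      (mu.real {x | y + o < S m x} + mu.real {x | S m x < -(y + o)}) := by
    refine le_trans (measureReal_mono fun x _ => ?_) ((measureReal_union_le _ _).trans
      (add_le_add le_rfl (measureReal_union_le _ _)))
    rcases lt_or_ge (y + o) (S m x) with h | h
    · exact Or.inr (Or.inl h)
    rcases lt_or_ge (S m x) (-(y + o)) with h' | h'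
    · exact Or.inr (Or.inr h')
    · exact Or.inl ⟨h', by linarith⟩
  rw [probReal_univ, muS_real m measurableSet_Icc] at h5
  have h6 := gauss_Icc_upper (v := m) (by exact_mod_cast (by omega : m ≠ 0)) (a := -(y + o))
    (η := 2 * (y + o)) (by linarith)
  simp only [NNReal.coe_natCast] at h6
  have h7 : (√(2 * Real.pi * m))⁻¹ ≤ (2 * √(m : ℝ))⁻¹ :=
    inv_anti₀ (by positivity) (le_sqrt_two_pi m)
  have h8 : 2 * (y + o) * (√(2 * Real.pi * m))⁻¹ ≤ (y + o) / √m := by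
    calc _ ≤ 2 * (y + o) * (2 * √(m : ℝ))⁻¹ := by gcongr
      _ = _ := by field_simp
  have h9 : 2 * m * (gaussianReal 0 1).real (Set.Ioi o) ≤ 2 * m * Real.exp (-o ^ 2 / 2) := by
    gcongr
  linarith

/-- The maximum is attained in the last `d` steps. -/
def Late (n d : ℕ) : Set (ℕ → ℝ) := {z | ∀ k, k + d ≤ n → S k z ≤ S n z}

lemma late_prob {n d : ℕ} (h1 : 1 ≤ d) (h2 : d ≤ n) : √d / (72 * √n) ≤ mu.real (Late n d) := by
  have hd : (0 : ℝ) < d := by exact_mod_cast h1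
  have hs : 0 < √(d : ℝ) := Real.sqrt_pos.2 hd
  have h3 := stay_below (n := n) (by omega) hs.le (Real.sqrt_le_sqrt (by exact_mod_cast h2))
  have h4 := gauss_Icc_lower (v := d) (by exact_mod_cast (by omega : d ≠ 0)) (a := -(2 * √d))
    (η := √d) (b := 2 * √d) hs.le le_rfl (by linarith)
  rw [← muS_real d measurableSet_Icc] at h4
  simp only [NNReal.coe_natCast] at h4
  have h5 : (1 / 8 : ℝ) ≤ Real.exp (-(2 * √d) ^ 2 / (2 * d)) := by
    rw [mul_pow, Real.sq_sqrt hd.le, show -(2 ^ 2 * (d : ℝ)) / (2 * d) = -2 by field_simp,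
      Real.exp_neg, one_div]
    refine inv_anti₀ (Real.exp_pos _) ?_
    have h2 : Real.exp 2 = Real.exp 1 * Real.exp 1 := by rw [← Real.exp_add]; norm_num
    have := Real.exp_one_lt_d9
    have := Real.exp_pos 1
    nlinarith
  have h6 : (3 * √(d : ℝ))⁻¹ ≤ (√(2 * Real.pi * d))⁻¹ :=
    inv_anti₀ (Real.sqrt_pos.2 (by positivity)) (sqrt_two_pi_le d)
  have h7 : (1 / 24 : ℝ) ≤ √d * ((√(2 * Real.pi * d))⁻¹ * Real.exp (-(2 * √d) ^ 2 / (2 * d))) := by
    calc (1 / 24 : ℝ) = √d * ((3 * √(d : ℝ))⁻¹ * (1 / 8)) := by field_simp; norm_num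
      _ ≤ _ := by gcongr
  calc √d / (72 * √n) = 1 / 24 * (√d / (3 * √n)) := by ring
    _ ≤ _ := mul_le_mul (h7.trans h4) h3 (by positivity) measureReal_nonneg
    _ ≤ mu.real {x | ∀ k, d ≤ k → k ≤ n → S k x ≤ 0} := by
        refine app_ge (d := d) fun x hx y hy k k1 k2 => ?_
        rw [S_app_ge _ _ k1]
        linarith [hx.2, hy (k - d) (by omega)]
    _ ≤ _ := by
        refine mp_real_le (mp_rev n) fun x hx k hk => ?_
        rw [S_rev _ (by omega), S_rev _ le_rfl]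
        have := hx (n - k) (by omega) (by omega)
        simp only [Nat.sub_self, S_zero]
        linarith

/-- The walk comes close to its earlier maximum after time `m`. -/
def Near (n m : ℕ) (y : ℝ) : Set (ℕ → ℝ) := {z | ∃ k ≤ n, m < k ∧ ∀ i ≤ m, S i z < S k z + y}

lemma near_prob {m d : ℕ} (hm : 1 ≤ m) (hd : 1 ≤ d) {y o R : ℝ} (hy : 0 ≤ y) (ho : 0 ≤ o)
    (hR : 0 ≤ R) : mu.real (Near (m + d) m y) ≤
      2 * Real.exp (-R ^ 2 / 2) + ((y + R * √d + o) / √m + 2 * m * Real.exp (-o ^ 2 / 2)) := by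
  have hd' : (0 : ℝ) < d := by exact_mod_cast hd
  have h1 : mu.real {z | ∃ k ≤ d, R * √d < S (m + k) z - S m z} ≤ 2 * Real.exp (-R ^ 2 / 2) := by
    have h2 := mu_real_le_of_app (d := m) (A := Set.univ) (B := {z | ∃ k ≤ d, R * √d < S k z})
      (E := {z | ∃ k ≤ d, R * √d < S (m + k) z - S m z})
      (measurableSet_ex (fun k => measurableSet_lt measurable_const
        ((measurable_S _).sub (measurable_S _))) _) (by
        rintro x y ⟨k, hk, h⟩
        rw [S_app_add, S_app_le _ _ le_rfl] at h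
        exact ⟨trivial, k, hk, by linarith⟩)
    rw [probReal_univ, one_mul] at h2
    refine h2.trans ((levy_tail d (by positivity)).trans (le_of_eq ?_))
    rw [mul_pow, Real.sq_sqrt hd'.le]
    congr 2
    field_simp
  have h2 : mu.real {z | ∀ i ≤ m, S i z - S m z ≤ y + R * √d} ≤
      (y + R * √d + o) / √m + 2 * m * Real.exp (-o ^ 2 / 2) := by
    refine le_trans (mp_real_le (mp_rev m) (E := {x | ∀ k ≤ m, S k x ≤ y + R * √d})
      fun x hx k hk => ?_) (stay_upper hm (by positivity) ho)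
    rw [S_rev _ hk]
    exact hx _ (by omega)
  refine le_trans (measureReal_mono ?_) ((measureReal_union_le _ _).trans (add_le_add h1 h2))
  rintro z ⟨k, k1, k2, hz⟩
  rcases lt_or_ge (R * √d) (S k z - S m z) with h | h
  · refine Or.inl ⟨k - m, by omega, ?_⟩
    rwa [show m + (k - m) = k by omega]
  · exact Or.inr fun i hi => by linarith [hz i hi]

lemma F_gain {n d : ℕ} {p q : ℕ → ℝ} {a r : ℝ} (hr : 0 ≤ r) (h1 : ∀ k ≤ n, q k ≤ p k)
    (h2 : ∀ k ≤ n, q k ≤ a) (h3 : ∀ k ≤ n, n ≤ k + d → a + r ≤ p k) :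
    F n q + r * mu.real (Late n d) ≤ F n p := by
  refine integral_gain (integrable_F n q) (integrable_F n p) (fun z => Mx_le fun k hk => ?_) hr
    fun z hz => ?_
  · linarith [le_Mx (fun k => p k + S k z) hk, h1 k hk]
  · obtain ⟨k, hk, e⟩ := exists_Mx n fun k => q k + S k z
    rw [e]
    rcases le_total (k + d) n with h | h
    · linarith [le_Mx (fun k => p k + S k z) (le_refl n), h2 k hk, h3 n le_rfl (by omega), hz k h]
    · linarith [le_Mx (fun k => p k + S k z) hk, h2 k hk, h3 k hk h]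

lemma F_loss {n m : ℕ} (hm : m ≤ n) {p q : ℕ → ℝ} {y v : ℝ} (hv : 0 ≤ v) (h1 : ∀ k ≤ m, p k ≤ q k)
    (h2 : ∀ k ≤ n, p k ≤ q k + v) (h3 : ∀ k ≤ n, 0 ≤ q k) (h4 : ∀ k ≤ n, p k ≤ y) :
    F n p ≤ F n q + v * mu.real (Near n m y) := by
  have hi : Integrable (fun z => Mx n (fun k => q k + S k z) + v) mu :=
    (integrable_F n q).add (integrable_const v)
  have h5 := integral_gain (integrable_F n p) hi (fun z => Mx_le fun k hk => by
    linarith [le_Mx (fun k => q k + S k z) hk, h2 k hk]) (E := (Near n m y)ᶜ) hv fun z hz => by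
      simp only [Near, Set.mem_compl_iff, Set.mem_ofPred_eq, not_exists, not_and, not_forall,
        not_lt] at hz
      rw [add_le_add_iff_right]
      refine Mx_le fun k hk => ?_
      rcases le_or_gt k m with h | h
      · linarith [le_Mx (fun k => q k + S k z) hk, h1 k h]
      · obtain ⟨i, hi, h6⟩ := hz k hk h
        linarith [le_Mx (fun k => q k + S k z) (hi.trans hm), h3 i (hi.trans hm), h4 k hk]
  rw [integral_add (integrable_F n q) (integrable_const v)] at h5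
  simp only [integral_const, probReal_univ, smul_eq_mul, one_mul] at h5
  have h6 := measureReal_union_le (μ := mu) (Near n m y) (Near n m y)ᶜ
  rw [Set.union_compl_self, probReal_univ] at h6
  unfold F
  nlinarith

lemma Wt_cmp {V W : (ℕ → ℝ) → ℝ} (hV : Measurable V) (hV0 : ∀ x, 0 ≤ V x) (hW : Measurable W)
    (hW0 : ∀ x, 0 ≤ W x) {E G B : Set (ℕ → ℝ)} (hE : MeasurableSet E) (hG : MeasurableSet G)
    (hB : MeasurableSet B) {m : ℕ} {c1 c2 : ℝ}
    (h1 : ∀ x y, app m x y ∈ E → x ∈ G ∧ W x + c1 ≤ V (app m x y))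
    (h2 : ∀ x ∈ G, ∀ y ∈ B, V (app m x y) ≤ W x + c2) :
    Wt V E * mu.real B ≤ Real.exp (c2 - c1) * Wt V Set.univ := by
  have mV : Measurable fun x => ENNReal.ofReal (Real.exp (-V x)) := by fun_prop
  have mW : Measurable (G.indicator fun x => ENNReal.ofReal (Real.exp (-W x))) :=
    Measurable.indicator (by fun_prop) hG
  have e1 : ENNReal.ofReal (Wt V E) ≤ ENNReal.ofReal (Real.exp (-c1) * Wt W G) := by
    rw [← lintegral_Wt hV hV0 hE, ← (mp_app m).lintegral_comp (mV.indicator hE),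
      ENNReal.ofReal_mul (Real.exp_pos _).le, ← lintegral_Wt hW hW0 hG,
      ← lintegral_const_mul _ mW, ← (measurePreserving_fst (μ := mu) (ν := mu)).lintegral_comp
        (mW.const_mul _)]
    refine lintegral_mono fun p => ?_
    by_cases hp : app m p.1 p.2 ∈ E
    · obtain ⟨h3, h4⟩ := h1 _ _ hp
      simp only [Set.indicator_of_mem hp, Set.indicator_of_mem h3]
      rw [← ENNReal.ofReal_mul (Real.exp_pos _).le, ← Real.exp_add]
      exact ENNReal.ofReal_le_ofReal (Real.exp_le_exp.2 (by linarith))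
    · simp only [Set.indicator_of_notMem hp]
      exact zero_le
  have e2 : ENNReal.ofReal (Real.exp (-c2) * Wt W G * mu.real B) ≤
      ENNReal.ofReal (Wt V Set.univ) := by
    rw [← lintegral_Wt hV hV0 MeasurableSet.univ,
      ← (mp_app m).lintegral_comp (mV.indicator MeasurableSet.univ),
      ENNReal.ofReal_mul (mul_nonneg (Real.exp_pos _).le (Wt_nonneg _ _)),
      ENNReal.ofReal_mul (Real.exp_pos _).le, ← lintegral_Wt hW hW0 hG,
      ← lintegral_const_mul _ mW, ofReal_measureReal (measure_ne_top _ _),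
      ← lintegral_indicator_one hB, ← lintegral_prod_mul (mW.const_mul _).aemeasurable
        (measurable_one.indicator hB).aemeasurable]
    refine lintegral_mono fun p => ?_
    by_cases hp : p.1 ∈ G
    swap
    · simp [Set.indicator_of_notMem hp]
    by_cases hq : p.2 ∈ B
    swap
    · simp [Set.indicator_of_notMem hq]
    simp only [Set.indicator_of_mem hp, Set.indicator_of_mem hq, Set.indicator_univ, Pi.one_apply,
      mul_one]
    rw [← ENNReal.ofReal_mul (Real.exp_pos _).le, ← Real.exp_add]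
    exact ENNReal.ofReal_le_ofReal (Real.exp_le_exp.2 (by linarith [h2 _ hp _ hq]))
  rw [ENNReal.ofReal_le_ofReal_iff (mul_nonneg (Real.exp_pos _).le (Wt_nonneg _ _))] at e1
  rw [ENNReal.ofReal_le_ofReal_iff (Wt_nonneg _ _)] at e2
  calc Wt V E * mu.real B ≤ Real.exp (-c1) * Wt W G * mu.real B := by gcongr
    _ = Real.exp (c2 - c1) * (Real.exp (-c2) * Wt W G * mu.real B) := by
        rw [show -c1 = c2 - c1 + -c2 by ring, Real.exp_add]
        ring
    _ ≤ _ := by gcongr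

end Pool.Agent.Lib.MP_b41181_pr
end

-- part Pool.Agent.Lib.MP_b41181_pr.Range
section

/-!
Upper estimate for the range model.
-/

open MeasureTheory ProbabilityTheory Finset Filter Topology
open scoped ENNReal NNReal

namespace Pool.Agent.Lib.MP_b41181_pr

lemma stop_le {n m : ℕ} (s : ℕ → ℝ) :
    F n (Ph true fun j => s (min j m)) ≤ F n (Ph true s) :=
  F_mono fun _ _ => Mx_le fun _ hj => le_Mx s ((min_le_left _ _).trans hj)

lemma stop_gain {n m d k0 : ℕ} {s : ℕ → ℝ} {a r : ℝ} (hr : 0 ≤ r) (h1 : ∀ k ≤ m, s k ≤ a)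
    (h2 : k0 + d ≤ n) (h3 : a + r ≤ s k0) :
    F n (Ph true fun j => s (min j m)) + r * mu.real (Late n d) ≤ F n (Ph true s) :=
  F_gain hr (fun k _ => Mx_le fun j hj => le_Mx s ((min_le_left _ _).trans hj))
    (fun k _ => Mx_le fun j _ => h1 _ (min_le_right _ _))
    (fun k _ h => h3.trans (le_Mx s (by omega)))

lemma stop_loss {n m : ℕ} (hm : m ≤ n) {s : ℕ → ℝ} {a v : ℝ} (hv : 0 ≤ v) (h0 : s 0 = 0)
    (h1 : ∀ k ≤ m, s k ≤ a) (h2 : ∀ k ≤ n, m ≤ k → s k ≤ s m + v) :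
    F n (Ph true s) ≤ F n (Ph true fun j => s (min j m)) + v * mu.real (Near n m (a + v)) := by
  refine F_loss hm hv (fun k hk => Mx_le fun j hj => ?_) (fun k hk => Mx_le fun j hj => ?_)
    (fun k hk => ?_) (fun k hk => Mx_le fun j hj => ?_)
  · have := le_Mx (fun j => s (min j m)) hj
    rwa [min_eq_left (hj.trans hk)] at this
  · have h3 := le_Mx (fun j => s (min j m)) hj
    rcases le_total j m with h | h
    · rw [min_eq_left h] at h3
      exact h3.trans (le_add_of_nonneg_right hv)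
    · rw [min_eq_right h] at h3
      exact (h2 j (hj.trans hk) h).trans (add_le_add h3 le_rfl)
  · have := le_Mx (fun j => s (min j m)) (Nat.zero_le k)
    rwa [Nat.zero_min, h0] at this
  · rcases le_total j m with h | h
    · linarith [h1 j h]
    · linarith [h1 m le_rfl, h2 j (hj.trans hk) h]

lemma measurableSet_step (m m' : ℕ) (a c : ℝ) :
    MeasurableSet {x | (∀ k ≤ m, |S k x| ≤ a) ∧ ∃ k ≤ m', c < |S k x|} :=
  (measurableSet_small m a).inter (measurableSet_big m' c)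

lemma range_step {m δ δ' l j : ℕ} {β a r v : ℝ} (hβ : 0 ≤ β) (hr : 0 ≤ r) (hd : δ' ≤ δ)
    (hv : 6 * √l ≤ v) (hj : δ ≤ j * l) :
    (Gibbs (Vb true (m + δ) β)).real
      {x | (∀ k ≤ m, |S k x| ≤ a) ∧ ∃ k ≤ m + δ - δ', a + r < |S k x|} ≤
      4 ^ j * Real.exp (β * (2 * (v * mu.real (Near (m + δ) m (a + v)))) -
        β * (r * mu.real (Late (m + δ) δ'))) := by
  have hV := isHam_Vb true (m + δ) hβ
  have hv0 : 0 ≤ v := le_trans (by positivity) hv
  have key := Wt_cmp hV.meas hV.nonneg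
    (W := fun x => β * (F (m + δ) (Ph true fun j => S (min j m) x) +
      F (m + δ) (Ph true fun j => -S (min j m) x)))
    (((measurable_F _ (measurable_Ph true fun j => measurable_S _)).add
      (measurable_F _ (measurable_Ph true fun j => (measurable_S _).neg))).const_mul β)
    (fun x => mul_nonneg hβ (le_trans (by linarith [F_zero_nonneg (m + δ)])
      (F_mid (m := fun _ => 0) fun k _ => by
        linarith [le_Ph (fun j => S (min j m) x) (Rl.refl true k),
          le_Ph (fun j => -S (min j m) x) (Rl.refl true k)])))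
    (measurableSet_step m (m + δ - δ') a (a + r)) (measurableSet_small m a)
    (measurableSet_small δ v) (m := m) (c1 := β * (r * mu.real (Late (m + δ) δ')))
    (c2 := β * (2 * (v * mu.real (Near (m + δ) m (a + v))))) (fun x y hxy => ?_)
    (fun x hx y hy => ?_)
  · rw [Gibbs_real _ (measurableSet_step _ _ _ _), div_le_iff₀ (Wt_univ_pos hV.meas hV.nonneg)]
    have h1 := small_ball_lower' hv hj
    have h2 := (mul_le_mul_of_nonneg_left h1 (Wt_nonneg _ _)).trans key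
    rw [one_div, inv_pow, ← div_eq_mul_inv, div_le_iff₀ (by positivity)] at h2
    exact h2.trans (le_of_eq (by ring))
  · obtain ⟨h1, k0, hk0, h2⟩ := hxy
    have e : ∀ j, S (min j m) x = S (min j m) (app m x y) := fun j =>
      (S_app_le _ _ (min_le_right _ _)).symm
    refine ⟨fun k hk => by rw [← S_app_le x y hk]; exact h1 k hk, ?_⟩
    simp only [e]
    unfold Vb
    rw [← mul_add]
    refine mul_le_mul_of_nonneg_left ?_ hβ
    rcases lt_abs.1 h2 with h | h
    · linarith [stop_gain (n := m + δ) (d := δ') (s := fun k => S k (app m x y)) hr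
        (fun k hk => (abs_le.1 (h1 k hk)).2) (by omega) h.le,
        stop_le (n := m + δ) (m := m) fun k => -S k (app m x y)]
    · linarith [stop_gain (n := m + δ) (d := δ') (s := fun k => -S k (app m x y)) hr
        (fun k hk => neg_le.1 (abs_le.1 (h1 k hk)).1) (by omega) h.le,
        stop_le (n := m + δ) (m := m) fun k => S k (app m x y)]
  · have e : ∀ j, S (min j m) x = S (min j m) (app m x y) := fun j =>
      (S_app_le _ _ (min_le_right _ _)).symm
    have h1 : ∀ k ≤ m, |S k (app m x y)| ≤ a := fun k hk => by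
      rw [S_app_le x y hk]; exact hx k hk
    have h2 : ∀ k ≤ m + δ, m ≤ k → |S k (app m x y) - S m (app m x y)| ≤ v := fun k k1 k2 => by
      rw [S_app_ge x y k2, S_app_le x y le_rfl, add_sub_cancel_left]
      exact hy _ (by omega)
    simp only [e]
    unfold Vb
    rw [← mul_add]
    refine mul_le_mul_of_nonneg_left ?_ hβ
    linarith [stop_loss (n := m + δ) (m := m) (by omega) (s := fun k => S k (app m x y)) hv0
        (S_zero _) (fun k hk => (abs_le.1 (h1 k hk)).2)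
        (fun k k1 k2 => by linarith [(abs_le.1 (h2 k k1 k2)).2]),
      stop_loss (n := m + δ) (m := m) (by omega) (s := fun k => -S k (app m x y)) hv0
        (by simp) (fun k hk => neg_le.1 (abs_le.1 (h1 k hk)).1)
        (fun k k1 k2 => by linarith [(abs_le.1 (h2 k k1 k2)).1])]

lemma near_num {m δ δ' : ℕ} {ρ y u T : ℝ} (hu : 1 ≤ u) (hT : 1 ≤ T)
    (h1 : ((m + δ : ℕ) : ℝ) ≤ T * ρ ^ 2) (h3 : 2 ^ 22 * u ^ 2 * T ≤ ρ)
    (h4 : Real.exp (-u ^ 2 / 2) ≤ 1 / (128 * u * T)) (hd : δ' ≤ δ) (hd' : δ ≤ 3 * δ')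
    (h5 : ρ ^ 2 ≤ 400 * u ^ 2 * δ') (hm : m = 0 ∨ δ ≤ m) (hy0 : 0 ≤ y) (hy : y ≤ 2 * ρ) :
    mu.real (Near (m + δ) m y) ≤ 125 * u * (√δ' / √(m + δ : ℕ)) := by
  have huT : 1 ≤ u ^ 2 * T := one_le_mul_of_one_le_of_one_le (one_le_pow₀ hu) hT
  have hρ : 1 ≤ ρ := by nlinarith
  have hδ' : (0 : ℝ) < δ' := by
    by_contra hc
    have : (δ' : ℝ) = 0 := le_antisymm (not_lt.1 hc) (by positivity)
    rw [this] at h5
    nlinarith
  have hδ1 : 1 ≤ δ' := by exact_mod_cast hδ'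
  have hn : (0 : ℝ) < (m + δ : ℕ) := by exact_mod_cast (by omega : 0 < m + δ)
  have s1 : 0 < √(δ' : ℝ) := Real.sqrt_pos.2 hδ'
  have s2 : 0 < √((m + δ : ℕ) : ℝ) := Real.sqrt_pos.2 hn
  rcases hm with rfl | hm
  · refine measureReal_le_one.trans ?_
    have : √((0 + δ : ℕ) : ℝ) ≤ 2 * √δ' := by
      refine Real.sqrt_le_iff.2 ⟨by positivity, ?_⟩
      rw [mul_pow, Real.sq_sqrt hδ'.le]
      exact_mod_cast (by omega : 0 + δ ≤ 2 ^ 2 * δ')
    rw [← mul_div_assoc, le_div_iff₀ s2]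
    nlinarith
  refine (near_prob (m := m) (d := δ) (by omega) (by omega) hy0 (o := ρ) (by linarith) (R := u)
    (by linarith)).trans ?_
  have hm' : (0 : ℝ) < m := by exact_mod_cast (by omega : 0 < m)
  have s3 : 0 < √(m : ℝ) := Real.sqrt_pos.2 hm'
  have a1 : √((m + δ : ℕ) : ℝ) ≤ 2 * √m := by
    refine Real.sqrt_le_iff.2 ⟨by positivity, ?_⟩
    rw [mul_pow, Real.sq_sqrt hm'.le]
    exact_mod_cast (by omega : m + δ ≤ 2 ^ 2 * m)
  have a2 : √(δ : ℝ) ≤ 2 * √δ' := by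
    refine Real.sqrt_le_iff.2 ⟨by positivity, ?_⟩
    rw [mul_pow, Real.sq_sqrt hδ'.le]
    exact_mod_cast (by omega : δ ≤ 2 ^ 2 * δ')
  have a3 : ρ ≤ 20 * u * √δ' := by
    refine le_of_sq_le_sq ?_ (by positivity)
    rw [mul_pow, Real.sq_sqrt hδ'.le]
    nlinarith
  have a4 : √((m + δ : ℕ) : ℝ) ≤ T * ρ := by
    refine Real.sqrt_le_iff.2 ⟨by positivity, h1.trans ?_⟩
    rw [mul_pow]
    gcongr
    nlinarith
  have b1 : (y + u * √δ + ρ) / √m ≤ 124 * u * (√δ' / √(m + δ : ℕ)) := by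
    rw [← mul_div_assoc, div_le_div_iff₀ s3 s2]
    have : y + u * √δ + ρ ≤ 62 * u * √δ' := by nlinarith
    calc _ ≤ 62 * u * √δ' * (2 * √m) := by gcongr
      _ = _ := by ring
  have b2 : 1 / (20 * u * T) ≤ √δ' / √(m + δ : ℕ) := by
    rw [div_le_div_iff₀ (by positivity) s2]
    calc 1 * √((m + δ : ℕ) : ℝ) ≤ T * ρ := by linarith
      _ ≤ T * (20 * u * √δ') := by gcongr
      _ = _ := by ring
  have b3 : 2 * m * Real.exp (-ρ ^ 2 / 2) ≤ 1 / (40 * u * T) := by
    have c1 := Real.pow_div_factorial_le_exp (ρ ^ 2 / 2) (by positivity) 2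
    have c2 : Real.exp (-ρ ^ 2 / 2) ≤ 8 / ρ ^ 4 := by
      rw [neg_div, Real.exp_neg, inv_le_comm₀ (Real.exp_pos _) (by positivity), inv_div]
      refine le_trans (le_of_eq ?_) c1
      norm_num [Nat.factorial]
      ring
    have c3 : (m : ℝ) ≤ T * ρ ^ 2 := le_trans (by exact_mod_cast (by omega : m ≤ m + δ)) h1
    calc _ ≤ 2 * (T * ρ ^ 2) * (8 / ρ ^ 4) := by gcongr
      _ = 16 * T / ρ ^ 2 := by field_simp; ring
      _ ≤ _ := by
        rw [div_le_div_iff₀ (by positivity) (by positivity)]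
        have c4 : (2 ^ 22 * u ^ 2 * T) ^ 2 ≤ ρ ^ 2 := by gcongr
        have c5 : u ≤ u ^ 4 := le_self_pow₀ hu (by norm_num)
        have c6 : u * T ^ 2 ≤ u ^ 4 * T ^ 2 := by gcongr
        have c7 : 0 ≤ u * T ^ 2 := by positivity
        nlinarith
  have b4 : 2 * Real.exp (-u ^ 2 / 2) ≤ 1 / (40 * u * T) := by
    refine (mul_le_mul_of_nonneg_left h4 (by norm_num)).trans ?_
    rw [← mul_div_assoc, div_le_div_iff₀ (by positivity) (by positivity)]
    have : 0 ≤ u * T := by positivity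
    nlinarith
  have b5 : 1 / (20 * u * T) = 2 * (1 / (40 * u * T)) := by field_simp; norm_num
  have b6 : √δ' / √(m + δ : ℕ) ≤ u * (√δ' / √(m + δ : ℕ)) :=
    le_mul_of_one_le_left (by positivity) hu
  linarith

lemma range_step' {m δ δ' : ℕ} {β ρ a u T : ℝ} (hβ : 0 ≤ β) (hu : 1 ≤ u) (hT : 1 ≤ T)
    (h1 : ((m + δ : ℕ) : ℝ) ≤ T * ρ ^ 2) (h2 : ((m + δ : ℕ) : ℝ) * (2 ^ 54 * u ^ 5) ≤ β * ρ ^ 3)
    (h3 : 2 ^ 22 * u ^ 2 * T ≤ ρ) (h4 : Real.exp (-u ^ 2 / 2) ≤ 1 / (128 * u * T))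
    (hd : δ' ≤ δ) (hd' : δ ≤ 3 * δ') (h5 : ρ ^ 2 ≤ 400 * u ^ 2 * δ') (hm : m = 0 ∨ δ ≤ m)
    (ha0 : 0 ≤ a) (ha : a ≤ ρ) :
    (Gibbs (Vb true (m + δ) β)).real
      {x | (∀ k ≤ m, |S k x| ≤ a) ∧ ∃ k ≤ m + δ - δ', a + ρ / (2 * u) < |S k x|} ≤
      Real.exp (-(2 * u)) := by
  have hu2 : 1 ≤ u ^ 2 := one_le_pow₀ hu
  have huT : u ^ 2 ≤ u ^ 2 * T := le_mul_of_one_le_right (by positivity) hT
  have hρ : 1 ≤ ρ := by nlinarith
  have hδ' : (0 : ℝ) < δ' := by
    by_contra hc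
    have : (δ' : ℝ) = 0 := le_antisymm (not_lt.1 hc) (by positivity)
    rw [this] at h5
    nlinarith
  have hδ1 : 1 ≤ δ' := by exact_mod_cast hδ'
  have hn : (0 : ℝ) < (m + δ : ℕ) := by exact_mod_cast (by omega : 0 < m + δ)
  have s1 : 0 < √(δ' : ℝ) := Real.sqrt_pos.2 hδ'
  have s2 : 0 < √((m + δ : ℕ) : ℝ) := Real.sqrt_pos.2 hn
  obtain ⟨v, hv⟩ : ∃ v : ℝ, v = ρ / (2 ^ 18 * u ^ 2) := ⟨_, rfl⟩
  have hv1 : 16 ≤ v := by
    rw [hv, le_div_iff₀ (by positivity)]
    nlinarith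
  have hv2 : v ≤ ρ := by
    rw [hv]
    exact div_le_self (by linarith) (by nlinarith)
  have l1 := Nat.floor_le (a := v ^ 2 / 36) (by positivity)
  have l2 := Nat.lt_floor_add_one (v ^ 2 / 36)
  have l3 : v ^ 2 / 72 ≤ ⌊v ^ 2 / 36⌋₊ := by nlinarith
  have j1 := Nat.le_ceil (72 * δ / v ^ 2)
  have j2 := Nat.ceil_lt_add_one (a := 72 * δ / v ^ 2) (by positivity)
  refine (range_step (l := ⌊v ^ 2 / 36⌋₊) (j := ⌈72 * δ / v ^ 2⌉₊) (v := v) hβ (by positivity) hd
    ?_ ?_).trans ?_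
  · have : √(⌊v ^ 2 / 36⌋₊ : ℝ) ≤ v / 6 :=
      Real.sqrt_le_iff.2 ⟨by positivity, l1.trans (le_of_eq (by ring))⟩
    linarith
  · have : (δ : ℝ) ≤ ⌈72 * δ / v ^ 2⌉₊ * ⌊v ^ 2 / 36⌋₊ := by
      calc (δ : ℝ) = 72 * δ / v ^ 2 * (v ^ 2 / 72) := by field_simp
        _ ≤ _ := by gcongr
    exact_mod_cast this
  have q1 := near_num hu hT h1 h3 h4 hd hd' h5 hm (y := a + v) (by linarith) (by linarith)
  have q2 := late_prob (n := m + δ) hδ1 (by omega)
  obtain ⟨θ, hθ⟩ : ∃ θ : ℝ, θ = √δ' / √(m + δ : ℕ) := ⟨_, rfl⟩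
  have hθ0 : 0 < θ := by rw [hθ]; positivity
  rw [← hθ] at q1
  rw [show √δ' / (72 * √(m + δ : ℕ)) = θ / 72 by rw [hθ]; ring] at q2
  have g1 : 2 * (v * mu.real (Near (m + δ) m (a + v))) ≤ ρ / u * θ / 576 := by
    calc _ ≤ 2 * (v * (125 * u * θ)) := by gcongr
      _ = ρ / u * θ * (250 / 2 ^ 18) := by rw [hv]; field_simp; norm_num
      _ ≤ _ := by
        have : 0 ≤ ρ / u * θ := by positivity
        nlinarith
  have g2 : ρ / u * θ / 144 ≤ ρ / (2 * u) * mu.real (Late (m + δ) δ') := by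
    calc _ = ρ / (2 * u) * (θ / 72) := by field_simp; norm_num
      _ ≤ _ := by gcongr
  have g3 : (2 : ℝ) ^ 46 * u ^ 4 * (δ' / ρ ^ 2) ≤ β * (ρ / u * θ / 192) := by
    have e1 : (δ' : ℝ) ≤ θ * (m + δ : ℕ) := by
      rw [hθ, div_mul_eq_mul_div, le_div_iff₀ s2]
      have e2 : √(δ' : ℝ) ≤ √(m + δ : ℕ) :=
        Real.sqrt_le_sqrt (by exact_mod_cast (by omega : δ' ≤ m + δ))
      calc (δ' : ℝ) * √(m + δ : ℕ) = √δ' * (√δ' * √(m + δ : ℕ)) := by
            rw [← mul_assoc, Real.mul_self_sqrt hδ'.le]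
        _ ≤ √δ' * (√(m + δ : ℕ) * √(m + δ : ℕ)) := by gcongr
        _ = _ := by rw [Real.mul_self_sqrt hn.le]
    calc _ ≤ (2 : ℝ) ^ 46 * u ^ 4 * (θ * (m + δ : ℕ) / ρ ^ 2) := by gcongr
      _ = (m + δ : ℕ) * (2 ^ 54 * u ^ 5) * (θ / (256 * u * ρ ^ 2)) := by field_simp; norm_num
      _ ≤ β * ρ ^ 3 * (θ / (256 * u * ρ ^ 2)) := by gcongr
      _ = β * (ρ / u * θ / 256) := by field_simp
      _ ≤ _ := by gcongr; norm_num
  have g4 : 2 * (⌈72 * δ / v ^ 2⌉₊ : ℝ) + 2 * u ≤ (2 : ℝ) ^ 46 * u ^ 4 * (δ' / ρ ^ 2) := by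
    have e1 : 72 * δ / v ^ 2 ≤ 216 * 2 ^ 36 * u ^ 4 * (δ' / ρ ^ 2) := by
      have : (δ : ℝ) ≤ 3 * δ' := by exact_mod_cast hd'
      calc 72 * δ / v ^ 2 ≤ 72 * (3 * δ') / v ^ 2 := by gcongr
        _ = _ := by rw [hv]; field_simp; norm_num
    have e2 : 1 ≤ 400 * u ^ 2 * (δ' / ρ ^ 2) := by
      rw [← mul_div_assoc, le_div_iff₀ (by positivity)]
      linarith
    have e3 : 4 * u ≤ 1600 * u ^ 4 * (δ' / ρ ^ 2) := by
      calc 4 * u ≤ 4 * u ^ 2 * 1 := by nlinarith
        _ ≤ 4 * u ^ 2 * (400 * u ^ 2 * (δ' / ρ ^ 2)) := by gcongr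
        _ = _ := by ring
    have e4 : 0 ≤ u ^ 4 * (δ' / ρ ^ 2) := by positivity
    nlinarith
  have g5 : (4 : ℝ) ^ ⌈72 * δ / v ^ 2⌉₊ ≤ Real.exp (⌈72 * δ / v ^ 2⌉₊ * 2) := by
    rw [Real.exp_nat_mul]
    gcongr
    have h2 : Real.exp 2 = Real.exp 1 * Real.exp 1 := by rw [← Real.exp_add]; norm_num
    have := Real.exp_one_gt_d9
    nlinarith
  refine (mul_le_mul_of_nonneg_right g5 (Real.exp_pos _).le).trans ?_
  rw [← Real.exp_add, Real.exp_le_exp]
  have g6 := mul_le_mul_of_nonneg_left g1 hβ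
  have g7 := mul_le_mul_of_nonneg_left g2 hβ
  linarith

theorem range_upper {n w : ℕ} {β ρ : ℝ} (hw : 1000 ≤ w) (hβ : 0 ≤ β)
    (h1 : (n : ℝ) ≤ 2 ^ (w ^ 4) * ρ ^ 2) (h2 : n * Real.exp (1 * w ^ 3) ≤ β * ρ ^ 3)
    (h3 : 2 ^ 22 * (2 ^ w) ^ 2 * 2 ^ (w ^ 4) ≤ ρ) :
    (Gibbs (Vb true n β)).real {x | ∃ k ≤ n, ρ < |S k x|} ≤ 9 * (1 / 2) ^ w := by
  have hV := isHam_Vb true n hβ
  have := hV.isProb
  have hpoly := poly_le_two_pow hw
  have hexp := exp_window_le (w := w) (by omega)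
  have h2' : (n : ℝ) * (2 ^ 54 * (2 ^ w) ^ 5) ≤ β * ρ ^ 3 := by
    refine le_trans (mul_le_mul_of_nonneg_left ?_ (by positivity)) h2
    have e2 : (2 : ℝ) ≤ Real.exp 1 := by linarith [Real.add_one_le_exp (1 : ℝ)]
    have e3 : 54 + w * 5 ≤ w ^ 3 := by nlinarith [Nat.le_self_pow (n := 2) (by norm_num) w]
    calc (2 : ℝ) ^ 54 * (2 ^ w) ^ 5 = 2 ^ (54 + w * 5) := by rw [pow_add, pow_mul]
      _ ≤ 2 ^ (w ^ 3) := pow_le_pow_right₀ (by norm_num) e3
      _ ≤ Real.exp 1 ^ (w ^ 3) := pow_le_pow_left₀ (by norm_num) e2 _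
      _ = _ := by rw [← Real.exp_nat_mul]; push_cast; ring_nf
  have h4 : Real.exp (-((2 : ℝ) ^ w) ^ 2 / 2) ≤ 1 / (128 * 2 ^ w * 2 ^ (w ^ 4)) := by
    refine hexp.trans ((pow_le_pow_of_le_one (by norm_num) (by norm_num)
      (show 7 + w + w ^ 4 ≤ 2 ^ w by omega)).trans (le_of_eq ?_))
    rw [one_div_pow, pow_add, pow_add]
    norm_num
  have hwu : (w : ℝ) ≤ 2 ^ w := by exact_mod_cast (by omega : w ≤ 2 ^ w)
  have hw' : (1000 : ℝ) ≤ w := by exact_mod_cast hw
  have hJu : ((w ^ 4 + 2 * w + 8 : ℕ) : ℝ) ≤ 2 ^ w := by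
    exact_mod_cast (by omega : w ^ 4 + 2 * w + 8 ≤ 2 ^ w)
  have hTu : (2 : ℝ) ^ (w ^ 4 + 2 * w + 8) = 256 * (2 ^ w) ^ 2 * 2 ^ (w ^ 4) := by
    rw [pow_add, pow_add, mul_comm 2 w, pow_mul 2 w 2]
    ring
  have hfin : (1 / 2 : ℝ) ^ (2 ^ w) ≤ (1 / 2) ^ w :=
    pow_le_pow_of_le_one (by norm_num) (by norm_num) (by omega)
  have hfin2 := exp_neg_le_half_pow hwu
  obtain ⟨u, hu⟩ : ∃ u : ℝ, u = 2 ^ w := ⟨_, rfl⟩
  obtain ⟨T, hT⟩ : ∃ T : ℝ, T = 2 ^ (w ^ 4) := ⟨_, rfl⟩
  have hT1 : 1 ≤ T := hT ▸ one_le_pow₀ (by norm_num)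
  rw [← hu] at h2' h3 h4 hwu hJu hTu hexp hfin2
  rw [← hT] at h1 h3 h4 hTu
  have hu1 : 1000 ≤ u := by linarith
  have huT : u ^ 2 ≤ u ^ 2 * T := le_mul_of_one_le_right (by positivity) hT1
  have huρ : 20 * u ≤ ρ := by nlinarith
  have hρ0 : 0 < ρ := by linarith
  obtain ⟨N, hN⟩ : ∃ N : ℕ, N = ⌊ρ ^ 2 / (100 * u ^ 2)⌋₊ := ⟨_, rfl⟩
  have N1 : (N : ℝ) ≤ ρ ^ 2 / (100 * u ^ 2) := hN ▸ Nat.floor_le (by positivity)
  have N2 : ρ ^ 2 / (100 * u ^ 2) < N + 1 := hN ▸ Nat.lt_floor_add_one _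
  have N3 : 4 ≤ N := by
    rw [hN]
    refine Nat.le_floor ?_
    rw [le_div_iff₀ (by positivity)]
    push_cast
    nlinarith
  obtain ⟨i, hi⟩ : ∃ i, Nat.log 2 N = i + 1 :=
    ⟨Nat.log 2 N - 1, by have := Nat.log_pos (b := 2) (by norm_num) (show 2 ≤ N by omega); omega⟩
  have i1 := Nat.lt_pow_succ_log_self (b := 2) (by norm_num) N
  have i2 := Nat.pow_log_le_self 2 (x := N) (by omega)
  rw [hi] at i1 i2
  have i3 : ρ ^ 2 ≤ 400 * u ^ 2 * 2 ^ i := by
    rw [div_lt_iff₀ (by positivity)] at N2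
    have : (N : ℝ) + 1 ≤ 2 ^ (i + 1 + 1) := by exact_mod_cast i1
    calc ρ ^ 2 ≤ (N + 1) * (100 * u ^ 2) := N2.le
      _ ≤ 2 ^ (i + 1 + 1) * (100 * u ^ 2) := by gcongr
      _ = _ := by ring
  have i4 : 5 * u * √(2 ^ (i + 1)) ≤ ρ / 2 := by
    have : √((2 : ℝ) ^ (i + 1)) ≤ ρ / (10 * u) := by
      refine Real.sqrt_le_iff.2 ⟨by positivity, le_trans (by exact_mod_cast i2) (N1.trans ?_)⟩
      exact le_of_eq (by ring)
    calc _ ≤ 5 * u * (ρ / (10 * u)) := by gcongr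
      _ = _ := by field_simp; norm_num
  have ind : ∀ j : ℕ, (j : ℝ) ≤ u → (∀ j' < j, 2 ^ (i + 1) ≤ n / 2 ^ j') →
      (Gibbs (Vb true n β)).real {x | ∃ k ≤ n - n / 2 ^ j, j * (ρ / (2 * u)) < |S k x|} ≤
        j * Real.exp (-(2 * u)) := by
    intro j
    induction j with
    | zero =>
      intro _ _
      have : {x | ∃ k ≤ n - n / 2 ^ 0, ((0 : ℕ) : ℝ) * (ρ / (2 * u)) < |S k x|} = ∅ := by
        ext x
        simp
      rw [this]
      simp
    | succ j ih =>
      intro hj hj'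
      push_cast at hj ⊢
      have k1 := ih (by linarith) fun j' h => hj' j' (by omega)
      have k2 := hj' j (by omega)
      have k3 : n / 2 ^ (j + 1) = n / 2 ^ j / 2 := by rw [pow_succ, Nat.div_div_eq_div_mul]
      have k4 : n / 2 ^ j ≤ n := Nat.div_le_self _ _
      have k5 : n - n / 2 ^ j + n / 2 ^ j = n := by omega
      have k6 : 1 ≤ 2 ^ i := Nat.one_le_two_pow
      rw [pow_succ] at k2
      have k7 := range_step' (m := n - n / 2 ^ j) (δ := n / 2 ^ j) (δ' := n / 2 ^ (j + 1))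
        (a := j * (ρ / (2 * u))) hβ (by linarith) hT1 (by rwa [k5]) (by rwa [k5]) h3 h4 (by omega)
        (by omega) (i3.trans (by
          gcongr
          exact_mod_cast (by omega : 2 ^ i ≤ n / 2 ^ (j + 1)))) (by
          rcases j with _ | j
          · left; simp
          · right
            have : n / 2 ^ (j + 1) ≤ n / 2 := Nat.div_le_div_left
              (Nat.le_self_pow (by omega) 2) (by norm_num)
            omega) (by positivity) (by
          calc (j : ℝ) * (ρ / (2 * u)) ≤ u * (ρ / (2 * u)) := by gcongr; linarith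
            _ = ρ / 2 := by field_simp
            _ ≤ ρ := by linarith)
      rw [k5] at k7
      refine le_trans (measureReal_mono ?_) ((measureReal_union_le _ _).trans
        ((add_le_add k1 k7).trans (le_of_eq (by ring))))
      rintro x ⟨k, hk, hx⟩
      by_cases hE : ∃ k ≤ n - n / 2 ^ j, j * (ρ / (2 * u)) < |S k x|
      · exact Or.inl hE
      · push Not at hE
        exact Or.inr ⟨hE, k, hk, by linarith⟩
  have hJ : n / 2 ^ (w ^ 4 + 2 * w + 8) < 2 ^ (i + 1) := by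
    rw [Nat.div_lt_iff_lt_mul (by positivity)]
    have : (n : ℝ) < 2 ^ (i + 1) * 2 ^ (w ^ 4 + 2 * w + 8) := by
      rw [hTu]
      have : 0 < T * u ^ 2 * 2 ^ i := by positivity
      calc (n : ℝ) ≤ T * (400 * u ^ 2 * 2 ^ i) := h1.trans (by gcongr)
        _ < _ := by rw [pow_succ 2 i]; nlinarith
    exact_mod_cast this
  have hex : ∃ j, n / 2 ^ j < 2 ^ (i + 1) := ⟨_, hJ⟩
  classical
  have f1 := Nat.find_spec hex
  have f2 : (Nat.find hex : ℝ) ≤ u := le_trans (by exact_mod_cast Nat.find_min' hex hJ) hJu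
  have f3 := ind _ f2 fun j' h => not_lt.1 (Nat.find_min hex h)
  have f4 := Gibbs_window hV (s := n - n / 2 ^ Nat.find hex) (Nat.sub_le _ _) (i + 1) (R := u)
    (by linarith)
  refine le_trans (measureReal_mono ?_) ((measureReal_union_le _ _).trans
    ((add_le_add f3 f4).trans ?_))
  · rintro x ⟨k, hk, hx⟩
    by_cases hE : ∃ k ≤ n - n / 2 ^ Nat.find hex, Nat.find hex * (ρ / (2 * u)) < |S k x|
    · exact Or.inl hE
    push Not at hE
    have f5 : (Nat.find hex : ℝ) * (ρ / (2 * u)) ≤ ρ / 2 := by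
      calc _ ≤ u * (ρ / (2 * u)) := by gcongr
        _ = ρ / 2 := by field_simp
    rcases le_or_gt k (n - n / 2 ^ Nat.find hex) with h | h
    · linarith [hE k h]
    refine Or.inr ⟨k, hk, by omega, by omega, ?_⟩
    have f6 := abs_add_le (S k x - S (n - n / 2 ^ Nat.find hex) x) (S (n - n / 2 ^ Nat.find hex) x)
    rw [sub_add_cancel] at f6
    linarith [hE _ le_rfl]
  · have f5 : (Nat.find hex : ℝ) * Real.exp (-(2 * u)) ≤ Real.exp (-u) := by
      calc _ ≤ Real.exp u * Real.exp (-(2 * u)) := by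
            gcongr
            linarith [Real.add_one_le_exp u]
        _ = _ := by rw [← Real.exp_add]; ring_nf
    linarith

theorem DU_true : DU true :=
  DU_of_discrete 1 (fun w => 2 ^ 22 * (2 ^ w) ^ 2 * 2 ^ (w ^ 4)) (fun w => 9 * (1 / 2) ^ w)
    (by simpa using (tendsto_pow_atTop_nhds_zero_of_lt_one (r := (1 / 2 : ℝ)) (by norm_num)
      (by norm_num)).const_mul 9)
    ((eventually_ge_atTop 1000).mono fun _ hw _ _ _ h0 h1 h2 h3 => range_upper hw h0 h1 h2 h3)

end Pool.Agent.Lib.MP_b41181_pr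
end
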