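import Pool.Agent.Lib.MP_b41181_pr.Chain
import Pool.Agent.Lib.MP_b41181_pr.Poisson

-- part Pool.Agent.Lib.MP_b41181_pr.Boot
section

/-!
The bootstrap for the discrete model.
-/

open MeasureTheory ProbabilityTheory Finset
open scoped ENNReal NNReal

namespace Pool.Agent.Lib.MP_b41181_pr

/-- Discrete Hamiltonian: expected range of the sum of the path and an independent walk. -/
noncomputable def Vd (n : ℕ) (β : ℝ) (x : ℕ → ℝ) : ℝ :=
  β * (F n (fun k => S k x) + F n (fun k => -S k x))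

lemma Vd_ge {n : ℕ} {β : ℝ} (hβ : 0 ≤ β) (x : ℕ → ℝ) : β * (2 * F n fun _ => 0) ≤ Vd n β x :=
  mul_le_mul_of_nonneg_left (F_mid fun k _ => by simp) hβ

lemma isHam_Vd (n : ℕ) {β : ℝ} (hβ : 0 ≤ β) : IsHam n (Vd n β) where
  meas := ((measurable_F n fun k => measurable_S k).add
    (measurable_F n fun k => (measurable_S k).neg)).const_mul β
  nonneg x := le_trans (mul_nonneg hβ (by linarith [F_zero_nonneg n])) (Vd_ge hβ x)
  dep x y h := by
    unfold Vd
    rw [F_congr (p := fun k => S k x) (q := fun k => S k y) fun k hk => S_congr h hk,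
      F_congr (p := fun k => -S k x) (q := fun k => -S k y) fun k hk => by rw [S_congr h hk]]
  even x := by
    unfold Vd
    simp only [S_neg, neg_neg]
    rw [add_comm]
  conv x y := by
    unfold Vd
    have h1 := F_mid (n := n) (m := fun k => S k ((1 / 2 : ℝ) • (x + y))) (p := fun k => S k x)
      (q := fun k => S k y) fun k _ => by rw [S_smul, S_add]; linarith
    have h2 := F_mid (n := n) (m := fun k => -S k ((1 / 2 : ℝ) • (x + y))) (p := fun k => -S k x)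
      (q := fun k => -S k y) fun k _ => by rw [S_smul, S_add]; linarith
    nlinarith

/-- Irregular behaviour near the point `p` on one of the scales. -/
def BadLoc (n p j0 κ : ℕ) (R : ℝ) : Set (ℕ → ℝ) :=
  ⋃ i ∈ range (2 * κ + 1), {x | ∃ k ≤ n, k < p + 2 ^ (j0 + i) ∧ p < k + 2 ^ (j0 + i) ∧
      5 * R * √(2 ^ (j0 + i)) < |S k x - S p x|}

lemma measurableSet_window (n p j : ℕ) (c : ℝ) :
    MeasurableSet {x | ∃ k ≤ n, k < p + 2 ^ j ∧ p < k + 2 ^ j ∧ c < |S k x - S p x|} :=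
  measurableSet_ex (fun k => (MeasurableSet.const _).inter ((MeasurableSet.const _).inter
    (measurableSet_lt measurable_const ((measurable_S k).sub (measurable_S p)).abs))) _

lemma measurableSet_BadLoc (n p j0 κ : ℕ) (R : ℝ) : MeasurableSet (BadLoc n p j0 κ R) :=
  measurableSet_biUnion _ fun _ _ => measurableSet_window _ _ _ _

lemma BadLoc_prob {n : ℕ} {V : (ℕ → ℝ) → ℝ} (hV : IsHam n V) {p : ℕ} (hp : p ≤ n) (j0 κ : ℕ)
    {R : ℝ} (hR : 3 ≤ R) :
    (Gibbs V).real (BadLoc n p j0 κ R) ≤ (2 * κ + 1) * (8 * Real.exp (-R ^ 2 / 2)) := by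
  refine (measureReal_biUnion_finset_le _ _).trans ?_
  refine (sum_le_sum fun i _ => Gibbs_window hV hp (j0 + i) hR).trans (le_of_eq ?_)
  simp

lemma loc_of_big {n p h : ℕ} {m : ℕ → ℝ} {ρ Rm : ℝ} (hR : 1 ≤ Rm) (hp : p ≤ n)
    (hm : ∀ k ≤ n, |m k| ≤ ρ) (hh : 16 * ρ ^ 2 ≤ h) : Loc n m Rm p h := by
  intro k hk d h1 _ _
  have h2 := abs_le.1 (hm k hk)
  have h3 := abs_le.1 (hm p hp)
  have h4 : 4 * ρ ≤ √d := Real.le_sqrt_of_sq_le (by
    have : (h : ℝ) ≤ d := by exact_mod_cast h1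
    linarith)
  have h5 : √(d : ℝ) ≤ Rm * √d := le_mul_of_one_le_left (Real.sqrt_nonneg _) hR
  rw [abs_le]
  constructor <;> linarith

lemma loc_of_not_bad {n p h0 hs κ : ℕ} {x : ℕ → ℝ} {ρ R : ℝ} (hR : 3 ≤ R) (hp : p ≤ n)
    (hm : ∀ k ≤ n, |S k x| ≤ ρ) (hh : 16 * ρ ^ 2 ≤ hs) (h01 : 1 ≤ h0) (hκ : hs ≤ 4 ^ κ * h0)
    (hx : x ∉ BadLoc n p (Nat.log 2 h0 + 1) κ R) : Loc n (fun k => S k x) (8 * R) p h0 := by
  intro k hk d h1 h2 h3
  rcases le_or_gt hs d with h4 | h4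
  · exact loc_of_big (m := fun k => S k x) (by linarith) hp hm hh k hk d h4 h2 h3
  simp only [BadLoc, Set.mem_iUnion, Set.mem_ofPred_eq, not_exists, not_and, not_lt,
    mem_range] at hx
  have e1 : Nat.log 2 h0 ≤ Nat.log 2 d := Nat.log_mono_right h1
  have e2 : Nat.log 2 d < 2 * κ + (Nat.log 2 h0 + 1) := by
    refine Nat.log_lt_of_lt_pow (by omega) ?_
    have := Nat.lt_pow_succ_log_self (b := 2) (by norm_num) h0
    calc d < 4 ^ κ * h0 := lt_of_lt_of_le h4 hκ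
      _ ≤ 4 ^ κ * 2 ^ (Nat.log 2 h0 + 1) := Nat.mul_le_mul_left _ this.le
      _ = _ := by rw [pow_add 2 (2 * κ), pow_mul]; norm_num
  have e3 : Nat.log 2 h0 + 1 + (Nat.log 2 d - Nat.log 2 h0) = Nat.log 2 d + 1 := by omega
  have e4 := Nat.lt_pow_succ_log_self (b := 2) (by norm_num) d
  have e5 := Nat.pow_log_le_self 2 (x := d) (by omega)
  have := hx (Nat.log 2 d - Nat.log 2 h0) (by omega) k hk
  rw [e3] at this
  refine (this (by omega) (by omega)).trans ?_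
  have e6 : √((2 : ℝ) ^ (Nat.log 2 d + 1)) ≤ 8 / 5 * √d := by
    rw [Real.sqrt_le_left (by positivity), mul_pow, Real.sq_sqrt (by positivity), pow_succ]
    have : (2 : ℝ) ^ Nat.log 2 d ≤ d := by exact_mod_cast e5
    have h6 : (0 : ℝ) ≤ d := by positivity
    linarith
  nlinarith

lemma measurableSet_big (n : ℕ) (ρ : ℝ) : MeasurableSet {x | ∃ k ≤ n, ρ < |S k x|} :=
  measurableSet_ex (fun k => measurableSet_lt measurable_const (measurable_S k).abs) _

lemma point_bound {n h0 hs M Λ J κ s : ℕ} {β ρ η R δ : ℝ} (hβ : 0 ≤ β) (hη : 0 < η)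
    (h01 : 1 ≤ h0) (hh0 : 16 * (h0 : ℝ) ≤ η ^ 2) (hh0' : η ^ 2 ≤ 32 * h0) (hh : h0 ≤ hs)
    (hρ : 16 * ρ ^ 2 ≤ hs) (hM0 : 0 < M) (hM : 48 * (hs : ℝ) ≤ M * η ^ 2) (hΛ : 1 ≤ Λ)
    (hJ : n ≤ Λ ^ J * hs) (hΓ1 : 36 * M * Λ ≤ 4 ^ κ) (hΓ2 : 24 * M * hs ≤ 4 ^ κ * h0)
    (hR : 3 ≤ R) (hgain : 32 * n ≤ β * η ^ 3 * Real.exp (-(7000 * (8 * R) ^ 2 * (κ + 1))))
    (hsn : s ≤ n) (hδ : (Gibbs (Vd n β)).real {x | ∃ k ≤ n, ρ < |S k x|} ≤ δ) :
    (Gibbs (Vd n β)).real {x | 16 * 2 ^ J * η ≤ S s x - S 0 x} ≤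
      Real.exp (-8) + (δ + 2 * ((2 * κ + 1) * (8 * Real.exp (-R ^ 2 / 2)))) := by
  have hV := isHam_Vd n hβ
  have := hV.isProb
  have hκ : hs ≤ 4 ^ κ * h0 := le_trans (Nat.le_mul_of_pos_left _ (by omega)) hΓ2
  set C := {x | ∃ k ≤ n, ρ < |S k x|} ∪
    (BadLoc n 0 (Nat.log 2 h0 + 1) κ R ∪ BadLoc n s (Nat.log 2 h0 + 1) κ R) with hC
  have hCm : MeasurableSet C := (measurableSet_big n ρ).union
    ((measurableSet_BadLoc _ _ _ _ _).union (measurableSet_BadLoc _ _ _ _ _))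
  have hCp : (Gibbs (Vd n β)).real C ≤ δ + 2 * ((2 * κ + 1) * (8 * Real.exp (-R ^ 2 / 2))) := by
    refine (measureReal_union_le _ _).trans (add_le_add hδ ((measureReal_union_le _ _).trans ?_))
    linarith [BadLoc_prob hV (Nat.zero_le n) (Nat.log 2 h0 + 1) κ hR,
      BadLoc_prob hV hsn (Nat.log 2 h0 + 1) κ hR]
  have h1 := plq hV (measurableSet_incr 0 s (16 * 2 ^ J * η)) (measurableSet_incr s 0 (16 * 2 ^ J * η))
    hCm (dep_incr (Nat.zero_le _) hsn (16 * 2 ^ J * η ≤ ·))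
    (dep_incr hsn (Nat.zero_le _) (16 * 2 ^ J * η ≤ ·)) (ε := Real.exp (-8)) (Real.exp_pos _).le (by
      intro x hx y hy hm
      rw [← Real.exp_nat_mul, Real.exp_le_exp]
      set m := (1 / 2 : ℝ) • (x + y) with hmdef
      set u := (1 / 2 : ℝ) • (x - y) with hudef
      have hconv := hV.conv x y
      have hE : ∑ i ∈ range n, (x i - y i) ^ 2 = 4 * ∑ i ∈ range n, u i ^ 2 := by
        rw [mul_sum]
        refine sum_congr rfl fun i _ => ?_
        simp only [hudef, Pi.smul_apply, Pi.sub_apply, smul_eq_mul]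
        ring
      have hE0 : 0 ≤ ∑ i ∈ range n, u i ^ 2 := sum_nonneg fun _ _ => sq_nonneg _
      rw [hE]
      by_contra hcon
      push_cast at hcon
      rw [← hmdef] at hconv
      have hu : ∑ i ∈ range n, u i ^ 2 ≤ 16 := by linarith
      have hgap : Vd n β x + Vd n β y - 2 * Vd n β m < 16 := by linarith
      simp only [hC, Set.mem_union, not_or, Set.mem_ofPred_eq, not_exists, not_and, not_lt] at hm
      obtain ⟨hm1, hm2, hm3⟩ := hm
      have hb := chain_bound (n := n) (u := u) hη.le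
        (OK := fun a h => Loc n (fun k => S k m) (8 * R) a h ∧ h0 ≤ h) (Γ := 4 ^ κ) (s := s) hu
        (fun a ha hb D i1 i2 i3 i4 i5 i6 i7 => by
          by_contra hcl
          have hD : η ≤ 4 * √D := by
            have : η / 4 ≤ √D := Real.le_sqrt_of_sq_le (by
              have : (3 * h0 : ℝ) ≤ D := by exact_mod_cast (by omega : 3 * h0 ≤ D)
              nlinarith)
            linarith
          have hρ' : ∀ h, h0 ≤ h → 16 * ρ ^ 2 ≤ ((4 ^ κ * h : ℕ) : ℝ) := fun h hh => by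
            refine hρ.trans ?_
            exact_mod_cast hκ.trans (Nat.mul_le_mul_left _ hh)
          have hs0 : 0 ≤ √(D : ℝ) := Real.sqrt_nonneg _
          have tp := two_peak (m := fun k => S k m) (Rm := 8 * R) (η := η) i1 (by omega) (by omega)
            i2 i3 i4 i5 (hρ' _ i6.2) (hρ' _ i7.2) (by linarith) hη.le (by nlinarith) hm1 i6.1 i7.1
          have gp := F_gap (n := n) (a := a) (ha := ha) (b := a + D) (hb := hb)
            (m := fun k => S k m) (g := fun k => S k u) hη.le (by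
              unfold Close at hcl
              rw [not_and_or] at hcl
              push Not at hcl
              exact hcl)
          have e1 : (fun k => S k m + S k u) = fun k => S k x := by
            funext k; rw [hmdef, hudef, S_smul, S_smul, S_add, S_sub]; ring
          have e2 : (fun k => S k m - S k u) = fun k => S k y := by
            funext k; rw [hmdef, hudef, S_smul, S_smul, S_add, S_sub]; ring
          rw [e1, e2] at gp
          have h2 := F_mid (n := n) (m := fun k => -S k m) (p := fun k => -S k x)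
            (q := fun k => -S k y) fun k _ => by rw [hmdef, S_smul, S_add]; linarith
          have h3 : β * (2 * η * mu.real (TwoPeak n (fun k => S k m) a ha (a + D) hb η)) < 16 := by
            refine lt_of_le_of_lt ?_ hgap
            unfold Vd
            nlinarith
          have hn0 : (0 : ℝ) < n := by exact_mod_cast (by omega : 0 < n)
          set E := Real.exp (-(7000 * (8 * R) ^ 2 * (κ + 1))) with hEdef
          have hE0 : 0 < E := Real.exp_pos _
          have h4 : E * (η * (η / 4) / n) ≤ E * (η * √D / n) := by gcongr; linarith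
          have h5 : β * (2 * η * (E * (η * (η / 4) / n))) ≤
              β * (2 * η * mu.real (TwoPeak n (fun k => S k m) a ha (a + D) hb η)) := by
            gcongr
            exact h4.trans tp
          have h6 : β * (2 * η * (E * (η * (η / 4) / n))) = β * η ^ 3 * E / (2 * n) := by
            field_simp
            ring
          rw [h6, div_le_iff₀ (by positivity)] at h5
          nlinarith)
        (fun a ha h hh' => ⟨loc_of_big (by linarith) ha hm1
          (hρ.trans (by exact_mod_cast hh')), hh.trans hh'⟩)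
        ⟨loc_of_not_bad hR (Nat.zero_le _) hm1 hρ h01 hκ hm2, le_rfl⟩
        ⟨loc_of_not_bad hR hsn hm1 hρ h01 hκ hm3, le_rfl⟩ hsn hh0 hh hM0 hM hΛ hJ hΓ1 hΓ2
      have hx' : 16 * 2 ^ J * η ≤ S s x - S 0 x := hx
      have hy' : 16 * 2 ^ J * η ≤ S 0 y - S s y := hy
      rw [S_zero] at hx' hy'
      have h7 := (abs_le.1 hb).2
      rw [hudef, S_smul, S_sub] at h7
      have h8 : 0 < 2 ^ J * η := by positivity
      linarith)
  rw [Gibbs_incr_symm hV 0 s, ← sq] at h1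
  have h2 := (pow_le_pow_iff_left₀ measureReal_nonneg
    (add_nonneg (Real.exp_pos _).le measureReal_nonneg) (by norm_num)).1 h1
  linarith

lemma union_step {n : ℕ} {V : (ℕ → ℝ) → ℝ} (hV : IsHam n V) {a b p R : ℝ} {j : ℕ} (hR : 3 ≤ R)
    (hb : 5 * R * √(2 ^ j) ≤ b)
    (hp : ∀ s ≤ n, (Gibbs V).real {x | a ≤ |S s x - S 0 x|} ≤ p) :
    (Gibbs V).real {x | ∃ k ≤ n, a + b < |S k x|} ≤
      ((n / 2 ^ j + 1 : ℕ) : ℝ) * (p + 8 * Real.exp (-R ^ 2 / 2)) := by
  have := hV.isProb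
  have hsub : {x | ∃ k ≤ n, a + b < |S k x|} ⊆ ⋃ i ∈ range (n / 2 ^ j + 1),
      ({x | a ≤ |S (i * 2 ^ j) x - S 0 x|} ∪ {x | ∃ k ≤ n, k < i * 2 ^ j + 2 ^ j ∧
        i * 2 ^ j < k + 2 ^ j ∧ 5 * R * √(2 ^ j) < |S k x - S (i * 2 ^ j) x|}) := by
    rintro x ⟨k, hk, hx⟩
    simp only [Set.mem_iUnion, mem_range]
    have h0 : 0 < 2 ^ j := by positivity
    have h1 : k / 2 ^ j ≤ n / 2 ^ j := Nat.div_le_div_right hk
    have h2 := Nat.div_mul_le_self k (2 ^ j)
    have h3 := Nat.lt_div_mul_add (a := k) h0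
    refine ⟨k / 2 ^ j, by omega, ?_⟩
    by_cases h4 : a ≤ |S (k / 2 ^ j * 2 ^ j) x - S 0 x|
    · exact Or.inl h4
    · refine Or.inr ⟨k, hk, h3, by omega, ?_⟩
      rw [S_zero, sub_zero] at h4
      have h5 := abs_add_le (S k x - S (k / 2 ^ j * 2 ^ j) x) (S (k / 2 ^ j * 2 ^ j) x)
      rw [sub_add_cancel] at h5
      linarith
  refine (measureReal_mono hsub (measure_ne_top _ _)).trans ((measureReal_biUnion_finset_le _ _).trans ?_)
  refine (sum_le_sum (g := fun _ => p + 8 * Real.exp (-R ^ 2 / 2)) fun i hi => ?_).trans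
    (le_of_eq (by rw [sum_const, card_range, nsmul_eq_mul]))
  have hi' : i * 2 ^ j ≤ n := by
    have h1 : i ≤ n / 2 ^ j := by have := mem_range.1 hi; omega
    exact (Nat.mul_le_mul_right _ h1).trans (Nat.div_mul_le_self _ _)
  exact (measureReal_union_le _ _).trans (add_le_add (hp _ hi') (Gibbs_window hV hi' j hR))

lemma two_pow_big {w : ℕ} (hw : 20 ≤ w) : 2 * w ^ 4 ≤ 2 ^ w := by
  induction w, hw using Nat.le_induction with
  | base => norm_num
  | succ w hw ih =>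
    rw [pow_succ 2 w]
    have : (w + 1) ^ 4 ≤ 2 * w ^ 4 := by
      have h1 : 20 * w ^ 3 ≤ w ^ 4 := by nlinarith [Nat.zero_le (w ^ 3)]
      have h2 : 20 * w ^ 2 ≤ w ^ 3 := by nlinarith [Nat.zero_le (w ^ 2)]
      have h3 : 20 * w ≤ w ^ 2 := by nlinarith
      nlinarith
    omega

lemma exp_neg_le_half_pow {t : ℝ} {k : ℕ} (h : (k : ℝ) ≤ t) : Real.exp (-t) ≤ (1 / 2) ^ k := by
  have h1 : Real.exp (-1) ≤ 1 / 2 := by
    rw [Real.exp_neg, one_div]
    exact inv_anti₀ (by norm_num) (by linarith [Real.add_one_le_exp (1 : ℝ)])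
  calc Real.exp (-t) ≤ Real.exp (k * (-1)) := Real.exp_le_exp.2 (by linarith)
    _ = Real.exp (-1) ^ k := Real.exp_nat_mul _ _
    _ ≤ _ := pow_le_pow_left₀ (Real.exp_pos _).le h1 k

lemma exp_window_le {w : ℕ} (hw : 1 ≤ w) :
    Real.exp (-((2 : ℝ) ^ w) ^ 2 / 2) ≤ (1 / 2) ^ (2 ^ w) := by
  rw [neg_div]
  refine exp_neg_le_half_pow ?_
  push_cast
  have : (2 : ℝ) ≤ 2 ^ w := le_self_pow₀ (by norm_num) (by omega)
  nlinarith

lemma poly_le_two_pow {w : ℕ} (hw : 1000 ≤ w) :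
    w ^ 4 + 2 * w ^ 2 + 2 * w + 20 + 4 + w ≤ 2 ^ w := by
  have := two_pow_big (w := w) (by omega)
  have h3 : 1000 * w ≤ w ^ 2 := by nlinarith
  have h4 : 1000 * w ^ 2 ≤ w ^ 2 * w ^ 2 := Nat.mul_le_mul_right _ (by omega)
  have h5 : w ^ 2 * w ^ 2 = w ^ 4 := by ring
  omega

lemma num_eighth {w : ℕ} (hw : 1000 ≤ w) :
    Real.exp (-8) + ((1 / 2) ^ w + 2 * ((2 * ((3 * w ^ 2 : ℕ) : ℝ) + 1) *
      (8 * Real.exp (-(w : ℝ) / 2)))) ≤ 1 / 8 := by
  have hw' : (1000 : ℝ) ≤ w := by exact_mod_cast hw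
  push_cast
  have e1 : Real.exp (-8) ≤ 1 / 64 := by
    have := exp_neg_le_half_pow (t := 8) (k := 6) (by norm_num)
    linarith
  have e2 : (1 / 2 : ℝ) ^ w ≤ (1 / 2) ^ 5 := pow_le_pow_of_le_one (by norm_num) (by norm_num)
    (by omega)
  have e3 := Real.pow_div_factorial_le_exp (w / 2 : ℝ) (by positivity) 4
  have e4 : Real.exp (-(w : ℝ) / 2) * (w ^ 4 / 384) ≤ 1 := by
    rw [neg_div, Real.exp_neg, inv_mul_le_iff₀ (Real.exp_pos _), mul_one]
    refine le_trans (le_of_eq ?_) e3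
    norm_num [Nat.factorial]
    ring
  have e5 : 256 * (6 * (w : ℝ) ^ 2 + 1) ≤ w ^ 4 / 384 := by
    have : (1000000 : ℝ) ≤ w ^ 2 := by nlinarith
    nlinarith
  have e6 := Real.exp_pos (-(w : ℝ) / 2)
  nlinarith

lemma boot_step {n w : ℕ} {β ρ : ℝ} (hw : 1000 ≤ w) (hβ : 0 ≤ β)
    (h1 : (n : ℝ) ≤ 2 ^ (w ^ 4) * ρ ^ 2) (h2 : n * Real.exp (2000000 * w ^ 3) ≤ β * ρ ^ 3)
    (h3 : 2 ^ (2 * w ^ 2) ≤ ρ)
    (hδ : (Gibbs (Vd n β)).real {x | ∃ k ≤ n, ρ < |S k x|} ≤ (1 / 2) ^ w) :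
    (Gibbs (Vd n β)).real {x | ∃ k ≤ n, ρ / 2 < |S k x|} ≤ (1 / 2) ^ w := by
  have hV := isHam_Vd n hβ
  have := hV.isProb
  have hw' : (1000 : ℝ) ≤ w := by exact_mod_cast hw
  set A : ℝ := 2 ^ (w ^ 2 + w + 7) with hA
  have hA0 : 0 < A := by positivity
  have hA1 : 128 ≤ A := by
    rw [hA, pow_add]
    have : (1 : ℝ) ≤ 2 ^ (w ^ 2 + w) := one_le_pow₀ (by norm_num)
    linarith
  set η := ρ / A with hηdef
  have hρη : ρ = A * η := by rw [hηdef]; field_simp
  have hη4 : 4 ≤ η := by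
    rw [hηdef, le_div_iff₀ hA0]
    refine le_trans ?_ h3
    rw [hA, show (4 : ℝ) = 2 ^ 2 by norm_num, ← pow_add]
    exact pow_le_pow_right₀ (by norm_num) (by nlinarith)
  have hη : 0 < η := by linarith
  have hρ1 : 1 ≤ ρ := by nlinarith
  set h0 := ⌊η ^ 2 / 16⌋₊ with hh0def
  set hs := ⌈16 * ρ ^ 2⌉₊ with hsdef
  have hη16 : 1 ≤ η ^ 2 / 16 := by nlinarith
  have h01 : 1 ≤ h0 := Nat.le_floor (by simpa using hη16)
  have hh0 : 16 * (h0 : ℝ) ≤ η ^ 2 := by
    have := Nat.floor_le (a := η ^ 2 / 16) (by positivity)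
    linarith
  have hh0' : η ^ 2 ≤ 32 * h0 := by
    have := Nat.lt_floor_add_one (η ^ 2 / 16)
    have h4 : (1 : ℝ) ≤ h0 := by exact_mod_cast h01
    linarith
  have hs1 : 16 * ρ ^ 2 ≤ hs := Nat.le_ceil _
  have hs2 : (hs : ℝ) ≤ 17 * ρ ^ 2 := by
    have := Nat.ceil_lt_add_one (a := 16 * ρ ^ 2) (by positivity)
    nlinarith
  have hρ2 : ρ ^ 2 = A ^ 2 * η ^ 2 := by rw [hρη]; ring
  have hA2 : A ^ 2 = 4 ^ (w ^ 2 + w + 7) := by
    rw [hA, ← pow_mul, mul_comm, pow_mul]; norm_num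
  have hh : h0 ≤ hs := by
    have : (h0 : ℝ) ≤ hs := by
      have e1 : 1 * η ^ 2 ≤ A ^ 2 * η ^ 2 :=
        mul_le_mul_of_nonneg_right (one_le_pow₀ (by linarith)) (sq_nonneg η)
      linarith [sq_nonneg η]
    exact_mod_cast this
  have hpt : ∀ s ≤ n, (Gibbs (Vd n β)).real {x | 16 * 2 ^ (w ^ 2) * η ≤ S s x - S 0 x} ≤ 1 / 8 := by
    intro s hsn
    have hsw : √(w : ℝ) ^ 2 = w := Real.sq_sqrt (by positivity)
    refine (point_bound (h0 := h0) (hs := hs) (M := 4 ^ (w ^ 2 + w + 12)) (Λ := 2 ^ (w ^ 2))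
      (J := w ^ 2) (κ := 3 * w ^ 2) (R := √w) hβ hη h01 hh0 hh0' hh hs1 (by positivity) ?_
      Nat.one_le_two_pow ?_ ?_ ?_ (Real.le_sqrt_of_sq_le (by linarith)) ?_ hsn hδ).trans ?_
    · push_cast
      rw [show w ^ 2 + w + 12 = w ^ 2 + w + 7 + 5 by ring, pow_add 4 _ 5, ← hA2]
      nlinarith [sq_nonneg (A * η)]
    · have : (n : ℝ) ≤ (2 ^ w ^ 2) ^ w ^ 2 * hs := by
        rw [← pow_mul, show w ^ 2 * w ^ 2 = w ^ 4 by ring]
        refine h1.trans (mul_le_mul_of_nonneg_left (by nlinarith) (by positivity))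
      exact_mod_cast this
    · calc 36 * 4 ^ (w ^ 2 + w + 12) * 2 ^ w ^ 2 ≤ 4 ^ 3 * 4 ^ (w ^ 2 + w + 12) * 4 ^ w ^ 2 := by
            gcongr <;> norm_num
        _ = 4 ^ (3 + (w ^ 2 + w + 12) + w ^ 2) := by rw [← pow_add, ← pow_add]
        _ ≤ _ := Nat.pow_le_pow_right (by norm_num) (by nlinarith)
    · have : (24 * 4 ^ (w ^ 2 + w + 12) * hs : ℝ) ≤ 4 ^ (3 * w ^ 2) * h0 := by
        calc (24 * 4 ^ (w ^ 2 + w + 12) * hs : ℝ) ≤
            24 * 4 ^ (w ^ 2 + w + 12) * (17 * (4 ^ (w ^ 2 + w + 7) * (32 * h0))) := by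
              refine mul_le_mul_of_nonneg_left (hs2.trans ?_) (by positivity)
              rw [hρ2, hA2]
              gcongr
          _ = 13056 * 4 ^ (w ^ 2 + w + 12) * 4 ^ (w ^ 2 + w + 7) * h0 := by ring
          _ ≤ 4 ^ 7 * 4 ^ (w ^ 2 + w + 12) * 4 ^ (w ^ 2 + w + 7) * h0 := by gcongr; norm_num
          _ = 4 ^ (7 + (w ^ 2 + w + 12) + (w ^ 2 + w + 7)) * h0 := by rw [← pow_add, ← pow_add]
          _ ≤ _ := by
              gcongr
              · norm_num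
              · nlinarith
      exact_mod_cast this
    · rw [mul_pow 8, hsw]
      push_cast
      have e1 : 32 * A ^ 3 ≤ Real.exp (32 * w ^ 3) := by
        have e2 : (2 : ℝ) ≤ Real.exp 1 := by linarith [Real.add_one_le_exp (1 : ℝ)]
        calc 32 * A ^ 3 = 2 ^ (5 + (w ^ 2 + w + 7) * 3) := by rw [hA, pow_add 2 5, pow_mul]; norm_num
          _ ≤ 2 ^ (32 * w ^ 3) := pow_le_pow_right₀ (by norm_num) (by nlinarith)
          _ ≤ Real.exp 1 ^ (32 * w ^ 3) := pow_le_pow_left₀ (by norm_num) e2 _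
          _ = _ := by rw [← Real.exp_nat_mul]; push_cast; ring_nf
      have e2 : Real.exp (32 * w ^ 3) ≤ Real.exp (2000000 * w ^ 3) *
          Real.exp (-(7000 * (8 ^ 2 * w) * (3 * w ^ 2 + 1))) := by
        rw [← Real.exp_add, Real.exp_le_exp]
        nlinarith
      have e3 : β * ρ ^ 3 = A ^ 3 * (β * η ^ 3) := by rw [hρη]; ring
      set E := Real.exp (-(7000 * (8 ^ 2 * (w : ℝ)) * (3 * w ^ 2 + 1))) with hE
      have hE0 : 0 < E := Real.exp_pos _
      have hn0 : (0 : ℝ) ≤ n := by positivity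
      have e4 : A ^ 3 * (32 * n) ≤ A ^ 3 * (β * η ^ 3 * E) := by
        calc A ^ 3 * (32 * n) = n * (32 * A ^ 3) := by ring
          _ ≤ n * (Real.exp (2000000 * w ^ 3) * E) := mul_le_mul_of_nonneg_left (e1.trans e2) hn0
          _ = n * Real.exp (2000000 * w ^ 3) * E := by ring
          _ ≤ β * ρ ^ 3 * E := by gcongr
          _ = _ := by rw [e3]; ring
      exact le_of_mul_le_mul_left e4 (by positivity)
    · rw [hsw]
      exact num_eighth hw
  have hlog1 := Nat.lt_pow_succ_log_self (b := 2) (by norm_num) h0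
  have hlog2 := Nat.pow_log_le_self 2 (x := h0) (by omega)
  have h2w : (3 : ℝ) ≤ 2 ^ w := by
    calc (3 : ℝ) ≤ 2 ^ 2 := by norm_num
      _ ≤ _ := pow_le_pow_right₀ (by norm_num) (by omega)
  have hAw : A = 128 * 2 ^ (w ^ 2) * 2 ^ w := by rw [hA, pow_add, pow_add]; ring
  have hw2 : (1 : ℝ) ≤ 2 ^ (w ^ 2) := one_le_pow₀ (by norm_num)
  have key := union_step hV (a := 2 ^ w * (16 * 2 ^ (w ^ 2) * η)) (b := ρ / 4)
    (p := (1 / 4) ^ (2 ^ w)) (R := 2 ^ w) (j := Nat.log 2 h0 + 1) h2w (by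
      have e1 : √((2 : ℝ) ^ (Nat.log 2 h0 + 1)) ≤ η := by
        rw [Real.sqrt_le_left hη.le, pow_succ]
        have : (2 : ℝ) ^ Nat.log 2 h0 ≤ h0 := by exact_mod_cast hlog2
        nlinarith
      have e2 : 0 < 2 ^ w * η := by positivity
      rw [hρη, hAw]
      nlinarith) fun s hsn => (Gibbs_abs_le hV 0 s _).trans
        (Gibbs_tail hV (Nat.zero_le _) hsn (hpt s hsn) w)
  refine le_trans (measureReal_mono ?_) (key.trans ?_)
  · rintro x ⟨k, hk, hx⟩
    refine ⟨k, hk, lt_of_le_of_lt ?_ hx⟩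
    have e2 : 0 < 2 ^ (w ^ 2) * 2 ^ w * η := by positivity
    rw [hρη, hAw]
    nlinarith
  · have e1 : ((n / 2 ^ (Nat.log 2 h0 + 1) + 1 : ℕ) : ℝ) ≤ 2 ^ (w ^ 4 + 2 * w ^ 2 + 2 * w + 20) := by
      have e2 : n / 2 ^ (Nat.log 2 h0 + 1) ≤ 2 ^ (w ^ 4 + 2 * w ^ 2 + 2 * w + 19) := by
        refine Nat.div_le_of_le_mul ?_
        have : (n : ℝ) ≤ h0 * 2 ^ (w ^ 4 + 2 * w ^ 2 + 2 * w + 19) := by
          calc (n : ℝ) ≤ 2 ^ (w ^ 4) * (4 ^ (w ^ 2 + w + 7) * (32 * h0)) := by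
                refine h1.trans ?_
                rw [hρ2, hA2]
                gcongr
            _ = _ := by
                rw [show (4 : ℝ) = 2 ^ 2 by norm_num, ← pow_mul,
                  show w ^ 4 + 2 * w ^ 2 + 2 * w + 19 = w ^ 4 + 2 * (w ^ 2 + w + 7) + 5 by ring,
                  pow_add, pow_add 2 (w ^ 4)]
                ring
        have e3 : n ≤ h0 * 2 ^ (w ^ 4 + 2 * w ^ 2 + 2 * w + 19) := by exact_mod_cast this
        exact e3.trans (Nat.mul_le_mul_right _ hlog1.le)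
      have e3 : n / 2 ^ (Nat.log 2 h0 + 1) + 1 ≤ 2 ^ (w ^ 4 + 2 * w ^ 2 + 2 * w + 20) := by
        rw [pow_succ 2 (w ^ 4 + 2 * w ^ 2 + 2 * w + 19)]
        have : 1 ≤ 2 ^ (w ^ 4 + 2 * w ^ 2 + 2 * w + 19) := Nat.one_le_two_pow
        omega
      exact_mod_cast e3
    have e2 : (1 / 4 : ℝ) ^ (2 ^ w) + 8 * Real.exp (-((2 : ℝ) ^ w) ^ 2 / 2) ≤
        2 ^ 4 * (1 / 2) ^ (2 ^ w) := by
      have e3 := exp_window_le (w := w) (by omega)
      have e4 : (1 / 4 : ℝ) ^ (2 ^ w) ≤ (1 / 2) ^ (2 ^ w) :=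
        pow_le_pow_left₀ (by norm_num) (by norm_num) _
      have e5 : (0 : ℝ) ≤ (1 / 2) ^ (2 ^ w) := by positivity
      linarith
    refine (mul_le_mul e1 e2 (by positivity) (by positivity)).trans ?_
    have e3 := poly_le_two_pow hw
    obtain ⟨c, hc⟩ := Nat.exists_eq_add_of_le e3
    rw [← mul_assoc, ← pow_add, hc, pow_add (1 / 2 : ℝ) _ c, pow_add (1 / 2 : ℝ) _ w, ← mul_assoc,
      ← mul_assoc, ← mul_pow]
    norm_num
    exact pow_le_one₀ (by norm_num) (by norm_num)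

theorem discrete_upper {n w : ℕ} {β ρ : ℝ} (hw : 1000 ≤ w) (hβ : 0 ≤ β)
    (h1 : (n : ℝ) ≤ 2 ^ (w ^ 4) * ρ ^ 2) (h2 : n * Real.exp (2000000 * w ^ 3) ≤ β * ρ ^ 3)
    (h3 : 2 ^ (2 * w ^ 2) ≤ ρ) :
    (Gibbs (Vd n β)).real {x | ∃ k ≤ n, ρ < |S k x|} ≤ (1 / 2) ^ w := by
  have hV := isHam_Vd n hβ
  have := hV.isProb
  have hρ0 : 0 < ρ := lt_of_lt_of_le (by positivity) h3
  have mono : ∀ {a b : ℝ}, a ≤ b → (Gibbs (Vd n β)).real {x | ∃ k ≤ n, b < |S k x|} ≤
      (Gibbs (Vd n β)).real {x | ∃ k ≤ n, a < |S k x|} := fun hab =>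
    measureReal_mono fun x ⟨k, hk, hx⟩ => ⟨k, hk, lt_of_le_of_lt hab hx⟩
  have step : ∀ i : ℕ, (Gibbs (Vd n β)).real {x | ∃ k ≤ n, 2 ^ i * ρ < |S k x|} ≤ (1 / 2) ^ w →
      (Gibbs (Vd n β)).real {x | ∃ k ≤ n, ρ < |S k x|} ≤ (1 / 2) ^ w := by
    intro i
    induction i with
    | zero => simp
    | succ i ih =>
      intro h
      have hle : ρ ≤ 2 ^ (i + 1) * ρ := le_mul_of_one_le_left hρ0.le (one_le_pow₀ (by norm_num))
      have := boot_step hw hβ (h1.trans (by gcongr)) (h2.trans (by gcongr)) (h3.trans hle) h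
      rw [show 2 ^ (i + 1) * ρ / 2 = 2 ^ i * ρ by ring] at this
      exact ih this
  obtain ⟨i, hi⟩ := pow_unbounded_of_one_lt (5 * 2 ^ w * √(2 ^ n) / ρ) (y := (2 : ℝ)) (by norm_num)
  rw [div_lt_iff₀ hρ0] at hi
  refine step i ((mono hi.le).trans ?_)
  have h2w : (3 : ℝ) ≤ 2 ^ w := by
    calc (3 : ℝ) ≤ 2 ^ 2 := by norm_num
      _ ≤ _ := pow_le_pow_right₀ (by norm_num) (by omega)
  have h4 := Gibbs_window hV (Nat.zero_le n) n h2w
  refine le_trans (measureReal_mono ?_) (h4.trans ?_)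
  · rintro x ⟨k, hk, hx⟩
    have := Nat.lt_two_pow_self (n := n)
    exact ⟨k, hk, by omega, by omega, by simpa using hx⟩
  · have e3 := exp_window_le (w := w) (by omega)
    have e4 : 3 + w ≤ 2 ^ w := by
      have := two_pow_big (w := w) (by omega)
      have h4 : w ≤ w ^ 4 := Nat.le_self_pow (by norm_num) _
      omega
    have e5 : (1 / 2 : ℝ) ^ (2 ^ w) ≤ (1 / 2) ^ (3 + w) :=
      pow_le_pow_of_le_one (by norm_num) (by norm_num) e4
    rw [pow_add] at e5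
    linarith

end Pool.Agent.Lib.MP_b41181_pr
end

-- part Pool.Agent.Lib.MP_b41181_pr.Model
section

/-!
The two discrete models (position of the particle, or range of the particle) and the
small ball comparison.
-/

open MeasureTheory ProbabilityTheory Finset
open scoped ENNReal NNReal

namespace Pool.Agent.Lib.MP_b41181_pr

/-- Relation between the time of the particle and the time of the trap. -/
def Rl (b : Bool) {α : Type*} [LE α] (u s : α) : Prop :=
  match b with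
  | true => u ≤ s
  | false => u = s

/-- Running maximum, or identity. -/
def Ph (b : Bool) (p : ℕ → ℝ) (k : ℕ) : ℝ :=
  match b with
  | true => Mx k p
  | false => p k

lemma Rl.le {b : Bool} {α : Type*} [Preorder α] {u s : α} (h : Rl b u s) : u ≤ s := by
  cases b
  · exact le_of_eq h
  · exact h

lemma Rl.refl (b : Bool) {α : Type*} [Preorder α] (u : α) : Rl b u u := by
  cases b
  · rfl
  · exact le_rfl

lemma Rl.map {b : Bool} {α β : Type*} [Preorder α] [Preorder β] {f : α → β} (hf : Monotone f)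
    {u s : α} (h : Rl b u s) : Rl b (f u) (f s) := by
  cases b
  · exact congrArg f h
  · exact hf h

lemma le_Ph {b : Bool} (p : ℕ → ℝ) {j k : ℕ} (h : Rl b j k) : p j ≤ Ph b p k := by
  cases b
  · exact le_of_eq (congrArg p h)
  · exact le_Mx p h

lemma exists_Ph (b : Bool) (p : ℕ → ℝ) (k : ℕ) : ∃ j, Rl b j k ∧ Ph b p k = p j := by
  cases b
  · exact ⟨k, rfl, rfl⟩
  · exact exists_Mx k p

lemma measurable_Ph {α : Type*} [MeasurableSpace α] (b : Bool) {f : ℕ → α → ℝ}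
    (hf : ∀ k, Measurable (f k)) (k : ℕ) : Measurable fun x => Ph b (fun j => f j x) k := by
  cases b
  · exact hf k
  · exact measurable_Mx hf

/-- Discrete Hamiltonian of the model `b`. -/
noncomputable def Vb (b : Bool) (n : ℕ) (β : ℝ) (x : ℕ → ℝ) : ℝ :=
  β * (F n (Ph b fun k => S k x) + F n (Ph b fun k => -S k x))

lemma Vb_false (n : ℕ) (β : ℝ) : Vb false n β = Vd n β := rfl

lemma Vb_ge (b : Bool) {n : ℕ} {β : ℝ} (hβ : 0 ≤ β) (x : ℕ → ℝ) :
    β * (2 * F n fun _ => 0) ≤ Vb b n β x :=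
  mul_le_mul_of_nonneg_left (F_mid fun k _ => by
    linarith [le_Ph (fun k => S k x) (Rl.refl b k), le_Ph (fun k => -S k x) (Rl.refl b k)]) hβ

lemma Vb_le (b : Bool) {n : ℕ} {β ρ : ℝ} (hβ : 0 ≤ β) {x : ℕ → ℝ} (hx : ∀ k ≤ n, |S k x| ≤ ρ) :
    Vb b n β x ≤ β * (2 * F n fun _ => 0) + 2 * β * ρ := by
  have h1 : F n (Ph b fun k => S k x) ≤ F n (fun _ => 0) + ρ := F_le_add fun k hk => by
    obtain ⟨j, hj, e⟩ := exists_Ph b (fun k => S k x) k
    rw [e]
    linarith [(abs_le.1 (hx j (hj.le.trans hk))).2]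
  have h2 : F n (Ph b fun k => -S k x) ≤ F n (fun _ => 0) + ρ := F_le_add fun k hk => by
    obtain ⟨j, hj, e⟩ := exists_Ph b (fun k => -S k x) k
    rw [e]
    linarith [(abs_le.1 (hx j (hj.le.trans hk))).1]
  unfold Vb
  nlinarith

lemma Ph_congr (b : Bool) {n : ℕ} {p q : ℕ → ℝ} (h : ∀ k ≤ n, p k = q k) {k : ℕ} (hk : k ≤ n) :
    Ph b p k = Ph b q k := by
  obtain ⟨i, hi, e1⟩ := exists_Ph b p k
  obtain ⟨j, hj, e2⟩ := exists_Ph b q k
  have h1 := le_Ph q hi
  have h2 := le_Ph p hj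
  have h3 := h i (hi.le.trans hk)
  have h4 := h j (hj.le.trans hk)
  linarith

lemma Ph_mid (b : Bool) {m p q : ℕ → ℝ} (h : ∀ k, 2 * m k ≤ p k + q k) (k : ℕ) :
    2 * Ph b m k ≤ Ph b p k + Ph b q k := by
  obtain ⟨i, hi, e1⟩ := exists_Ph b m k
  linarith [le_Ph p hi, le_Ph q hi, h i]

lemma isHam_Vb (b : Bool) (n : ℕ) {β : ℝ} (hβ : 0 ≤ β) : IsHam n (Vb b n β) where
  meas := ((measurable_F n (measurable_Ph b measurable_S)).add
    (measurable_F n (measurable_Ph b fun k => (measurable_S k).neg))).const_mul β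
  nonneg x := le_trans (mul_nonneg hβ (by linarith [F_zero_nonneg n])) (Vb_ge b hβ x)
  dep x y h := by
    unfold Vb
    rw [F_congr (p := Ph b fun k => S k x) (q := Ph b fun k => S k y)
        fun k hk => Ph_congr b (fun k hk => S_congr h hk) hk,
      F_congr (p := Ph b fun k => -S k x) (q := Ph b fun k => -S k y)
        fun k hk => Ph_congr b (fun k hk => by rw [S_congr h hk]) hk]
  even x := by
    unfold Vb
    simp only [S_neg, neg_neg]
    rw [add_comm]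
  conv x y := by
    unfold Vb
    have h1 := F_mid (n := n) fun k _ => Ph_mid b (m := fun k => S k ((1 / 2 : ℝ) • (x + y)))
      (p := fun k => S k x) (q := fun k => S k y) (fun k => by rw [S_smul, S_add]; linarith) k
    have h2 := F_mid (n := n) fun k _ => Ph_mid b (m := fun k => -S k ((1 / 2 : ℝ) • (x + y)))
      (p := fun k => -S k x) (q := fun k => -S k y) (fun k => by rw [S_smul, S_add]; linarith) k
    nlinarith

lemma Wt_le {V : (ℕ → ℝ) → ℝ} (hm : Measurable V) (h0 : ∀ x, 0 ≤ V x) {A : Set (ℕ → ℝ)}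
    (hA : MeasurableSet A) {c : ℝ} (h : ∀ x ∈ A, c ≤ V x) : Wt V A ≤ Real.exp (-c) * mu.real A := by
  have := setIntegral_mono_on (μ := mu) (s := A) (f := fun x => Real.exp (-V x))
    (g := fun _ => Real.exp (-c)) (integrable_exp_neg hm h0).integrableOn
    (integrableOn_const (measure_ne_top _ _)) hA
    fun x hx => Real.exp_le_exp.2 (by linarith [h x hx])
  rwa [setIntegral_const, smul_eq_mul, mul_comm] at this

lemma le_Wt {V : (ℕ → ℝ) → ℝ} (hm : Measurable V) (h0 : ∀ x, 0 ≤ V x) {A : Set (ℕ → ℝ)}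
    (hA : MeasurableSet A) {c : ℝ} (h : ∀ x ∈ A, V x ≤ c) :
    Real.exp (-c) * mu.real A ≤ Wt V Set.univ := by
  have h1 := setIntegral_mono_on (μ := mu) (s := A) (g := fun x => Real.exp (-V x))
    (f := fun _ => Real.exp (-c)) (integrableOn_const (measure_ne_top _ _))
    (integrable_exp_neg hm h0).integrableOn hA
    fun x hx => Real.exp_le_exp.2 (by linarith [h x hx])
  rw [setIntegral_const, smul_eq_mul, mul_comm] at h1
  refine h1.trans ?_
  rw [Wt, Measure.restrict_univ]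
  exact setIntegral_le_integral (integrable_exp_neg hm h0)
    (ae_of_all _ fun x => (Real.exp_pos _).le)

lemma measurableSet_small (n : ℕ) (ρ : ℝ) : MeasurableSet {x | ∀ k ≤ n, |S k x| ≤ ρ} :=
  measurableSet_all (fun k => measurableSet_le (measurable_S k).abs measurable_const) _

lemma small_ball_lower' {n l j : ℕ} {ρ : ℝ} (hρ : 6 * √l ≤ ρ) (hn : n ≤ j * l) :
    (1 / 4) ^ j ≤ mu.real {x | ∀ k ≤ n, |S k x| ≤ ρ} :=
  (small_ball_lower (l := l) (w := ρ / 2) (by linarith) j).trans (measureReal_mono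
    fun x hx k hk => by linarith [hx.1 k (hk.trans hn)])

lemma Wt_univ_ge (b : Bool) {n l j : ℕ} {β ρ : ℝ} (hβ : 0 ≤ β) (hρ : 6 * √l ≤ ρ)
    (hn : n ≤ j * l) :
    Real.exp (-(β * (2 * F n fun _ => 0) + 2 * β * ρ)) * (1 / 4) ^ j ≤ Wt (Vb b n β) Set.univ := by
  have hV := isHam_Vb b n hβ
  refine le_trans ?_ (le_Wt hV.meas hV.nonneg (measurableSet_small n ρ) fun x hx => Vb_le b hβ hx)
  gcongr
  exact small_ball_lower' hρ hn

theorem discrete_lower (b : Bool) {n m l j l' j' : ℕ} {β ρ r : ℝ} (hβ : 0 ≤ β)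
    (hρ : 6 * √l' ≤ ρ) (hn : n ≤ j' * l') (hl : 1 ≤ l) (hr0 : 0 ≤ r) (hr : 4 * r ≤ √l)
    (hm : j * l ≤ m) :
    (Gibbs (Vb b n β)).real {x | ∀ k ≤ m, |S k x| ≤ r} ≤
      (1 / 2) ^ j * 4 ^ j' * Real.exp (2 * β * ρ) := by
  have hV := isHam_Vb b n hβ
  rw [Gibbs_real _ (measurableSet_small m r), div_le_iff₀ (Wt_univ_pos hV.meas hV.nonneg)]
  have h1 := Wt_le hV.meas hV.nonneg (measurableSet_small m r) fun x _ => Vb_ge b hβ x
  have h2 : mu.real {x | ∀ k ≤ m, |S k x| ≤ r} ≤ (1 / 2) ^ j :=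
    le_trans (measureReal_mono (s₂ := {x | ∀ k ≤ j * l, |S k x| ≤ r})
      fun x hx k hk => hx k (hk.trans hm)) (small_ball_upper hl hr0 hr j)
  have h3 := Wt_univ_ge b hβ hρ hn
  refine h1.trans (le_trans ?_ (mul_le_mul_of_nonneg_left h3 (by positivity)))
  refine (mul_le_mul_of_nonneg_left h2 (Real.exp_pos _).le).trans (le_of_eq ?_)
  rw [neg_add, Real.exp_add, Real.exp_neg (2 * β * ρ), one_div 4, inv_pow]
  field_simp

end Pool.Agent.Lib.MP_b41181_pr
end

-- part Pool.Agent.Lib.MP_b41181_pr.Reduce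
section

/-!
Reduction of the continuous model to the discrete one.
-/

open MeasureTheory ProbabilityTheory Filter Topology Finset
open scoped ENNReal NNReal

namespace Pool.Agent.Lib.MP_b41181_pr

/-- Normalised increments on the grid of mesh `δ`. -/
noncomputable def incr (δ : ℝ≥0) (p : ℝ≥0 → ℝ) : ℕ → ℝ :=
  fun k => (p (((k + 1 : ℕ) : ℝ≥0) * δ) - p ((k : ℝ≥0) * δ)) / √δ

lemma measurable_incr (δ : ℝ≥0) : Measurable (incr δ) := by
  refine measurable_pi_lambda _ fun k => ?_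
  unfold incr
  fun_prop

lemma S_incr {δ : ℝ≥0} (hδ : δ ≠ 0) (p : ℝ≥0 → ℝ) (k : ℕ) :
    √δ * S k (incr δ p) = p ((k : ℝ≥0) * δ) - p 0 := by
  have h : √(δ : ℝ) ≠ 0 := (Real.sqrt_pos.2 (by positivity)).ne'
  induction k with
  | zero => simp
  | succ k ih =>
    rw [S_succ, mul_add, ih, incr]
    field_simp
    ring

variable {Ω : Type*} [MeasurableSpace Ω] {P : Measure Ω} {lam : ℝ} {X : ℝ≥0 → Ω → ℝ}
  {x : ℕ → Ω → ℝ} {Y : ℕ → ℝ≥0 → Ω → ℝ}

lemma law_incr {B : ℝ≥0 → Ω → ℝ} (hB : IsPreBrownianReal B P) (hm : ∀ s, Measurable (B s))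
    {δ : ℝ≥0} (hδ : δ ≠ 0) : P.map (fun ω => incr δ fun s => B s ω) = mu := by
  have h1 := (hB.hasIndepIncrements.nat (t := fun k : ℕ => (k : ℝ≥0) * δ)
    (fun i j hij => by simp only; gcongr)).comp (fun _ (y : ℝ) => y / √δ) (fun _ => by fun_prop)
  have h2 := h1.map_fun_eq_infinitePi_map (fun k => ((hm _).sub (hm _)).div_const _)
  refine h2.trans ?_
  unfold mu
  congr 1
  funext k
  have h3 := gaussianReal_div_const (hB.hasLaw_sub (((k + 1 : ℕ) : ℝ≥0) * δ) ((k : ℝ≥0) * δ)) √δ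
  refine h3.map_eq.trans ?_
  congr 1
  · simp
  · have hδ' : (0 : ℝ) < δ := by positivity
    ext
    simp only [NNReal.coe_div, coe_nndist, NNReal.coe_mk, NNReal.val_eq_coe, NNReal.coe_mul,
      NNReal.coe_natCast, Real.dist_eq, NNReal.coe_one, Real.sq_sqrt hδ'.le]
    push_cast
    rw [show ((k : ℝ) + 1) * δ - k * δ = δ by ring, abs_of_pos hδ', div_self hδ'.ne']

/-- Upper end of the forbidden interval. -/
def Up (b : Bool) (n : ℕ) (p q : ℕ → ℝ) : ℝ := Mx n fun k => Ph b (fun j => S j p) k - S k q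

/-- Minus the lower end of the forbidden interval. -/
def Lo (b : Bool) (n : ℕ) (p q : ℕ → ℝ) : ℝ := Mx n fun k => Ph b (fun j => -S j p) k + S k q

lemma measurable_Up {α : Type*} [MeasurableSpace α] (b : Bool) (n : ℕ) {f g : α → ℕ → ℝ}
    (hf : Measurable f) (hg : Measurable g) : Measurable fun a => Up b n (f a) (g a) :=
  measurable_Mx (f := fun k a => Ph b (fun j => S j (f a)) k - S k (g a)) fun k =>
    (measurable_Ph b (fun j => (measurable_S j).comp hf) k).sub ((measurable_S k).comp hg)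

lemma measurable_Lo {α : Type*} [MeasurableSpace α] (b : Bool) (n : ℕ) {f g : α → ℕ → ℝ}
    (hf : Measurable f) (hg : Measurable g) : Measurable fun a => Lo b n (f a) (g a) :=
  measurable_Mx (f := fun k a => Ph b (fun j => -S j (f a)) k + S k (g a)) fun k =>
    (measurable_Ph b (fun j => ((measurable_S j).comp hf).neg) k).add ((measurable_S k).comp hg)

lemma Up_add_Lo_nonneg (b : Bool) (n : ℕ) (p q : ℕ → ℝ) : 0 ≤ Up b n p q + Lo b n p q := by
  have h1 := le_Mx (n := n) (fun k => Ph b (fun j => S j p) k - S k q) (Nat.zero_le _)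
  have h2 := le_Mx (n := n) (fun k => Ph b (fun j => -S j p) k + S k q) (Nat.zero_le _)
  have h3 := le_Ph (fun j => S j p) (Rl.refl b 0)
  have h4 := le_Ph (fun j => -S j p) (Rl.refl b 0)
  unfold Up Lo
  linarith

lemma integrable_Up (b : Bool) (n : ℕ) (p : ℕ → ℝ) : Integrable (Up b n p) mu :=
  integrable_Mx (f := fun k q => Ph b (fun j => S j p) k - S k q) (fun k => by fun_prop)
    fun k => (integrable_const _).sub (integrable_S k)

lemma integral_Up (b : Bool) (n : ℕ) (p : ℕ → ℝ) :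
    ∫ q, Up b n p q ∂mu = F n (Ph b fun j => S j p) := by
  rw [← mp_neg.integral_comp (MeasurableEquiv.neg (ℕ → ℝ)).measurableEmbedding]
  simp only [Up, S_neg, sub_neg_eq_add, F]

/-- Survival on the grid. -/
def DS (b : Bool) (n : ℕ) (δ : ℝ≥0) (a : ℝ) (X : ℝ≥0 → Ω → ℝ) (x : ℕ → Ω → ℝ)
    (Y : ℕ → ℝ≥0 → Ω → ℝ) : Set Ω :=
  {ω | ∀ i, x i ω ∉ Set.Icc
    (-(√δ * Lo b n (incr δ fun s => X s ω) (incr δ fun s => Y i s ω)) - a)
    (√δ * Up b n (incr δ fun s => X s ω) (incr δ fun s => Y i s ω) + a)}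

lemma measurableSet_DS_aux (b : Bool) (n : ℕ) (σ a : ℝ) :
    MeasurableSet {q : (ℕ → ℝ) × ((ℕ → ℝ) × (ℕ → ℕ → ℝ)) | ∀ i, q.2.1 i ∉ Set.Icc
      (-(σ * Lo b n q.1 (q.2.2 i)) - a) (σ * Up b n q.1 (q.2.2 i) + a)} := by
  rw [Set.ofPred_forall]
  refine MeasurableSet.iInter fun i => MeasurableSet.compl ?_
  exact (measurableSet_le (((measurable_Lo b n measurable_fst (by fun_prop)).const_mul
    σ).neg.sub_const a) (by fun_prop)).inter (measurableSet_le (by fun_prop)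
      (((measurable_Up b n measurable_fst (by fun_prop)).const_mul σ).add_const a))

lemma IsTrapModel.measurable_incrX (h : IsTrapModel lam X x Y P) (δ : ℝ≥0) :
    Measurable fun ω => incr δ fun s => X s ω :=
  (measurable_incr δ).comp (measurable_pi_lambda _ h.measX)

lemma IsTrapModel.measurable_env (h : IsTrapModel lam X x Y P) (δ : ℝ≥0) :
    Measurable fun ω => ((fun i => x i ω), (fun i => incr δ fun s => Y i s ω)) :=
  (measurable_pi_lambda _ h.poisson.meas).prodMk (measurable_pi_lambda _ fun i =>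
    (measurable_incr δ).comp (measurable_pi_lambda _ (h.measY i)))

lemma IsTrapModel.measurableSet_DS (h : IsTrapModel lam X x Y P) (b : Bool) (n : ℕ) (δ : ℝ≥0)
    (a : ℝ) : MeasurableSet (DS b n δ a X x Y) :=
  ((h.measurable_incrX δ).prodMk (h.measurable_env δ)) (measurableSet_DS_aux b n √δ a)

theorem IsTrapModel.DS_formula (h : IsTrapModel lam X x Y P) (hlam : 0 ≤ lam) (b : Bool) (n : ℕ)
    {δ : ℝ≥0} (hδ : δ ≠ 0) {a : ℝ} (ha : 0 ≤ a) {A : Set (ℕ → ℝ)} (hA : MeasurableSet A) :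
    P.real ({ω | (incr δ fun s => X s ω) ∈ A} ∩ DS b n δ a X x Y) =
      Real.exp (-(2 * lam * a)) * Wt (Vb b n (lam * √δ)) A := by
  have := h.prob
  have mξ := h.measurable_incrX δ
  have mΘ := h.measurable_env δ
  have hind : IndepFun (fun ω => incr δ fun s => X s ω)
      (fun ω => ((fun i => x i ω), (fun i => incr δ fun s => Y i s ω))) P :=
    h.indepX.comp (measurable_incr δ) (ψ := fun q : (ℕ → ℝ) × (ℕ → ℝ≥0 → ℝ) =>
      (q.1, fun i => incr δ (q.2 i))) (measurable_fst.prodMk (measurable_pi_lambda _ fun i =>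
        (measurable_incr δ).comp (by fun_prop)))
  have hT := (measurable_fst hA).inter (measurableSet_DS_aux b n √δ a)
  have e1 := Measure.map_apply (μ := P) (mξ.prodMk mΘ) hT
  rw [hind.map_prod_eq_prod_map_map mξ.aemeasurable mΘ.aemeasurable,
    law_incr h.brownianX.toIsPreBrownianReal h.measX hδ, Measure.prod_apply hT] at e1
  have hV := isHam_Vb b n (β := lam * √δ) (by positivity)
  have e2 : ∀ p : ℕ → ℝ, (P.map fun ω => ((fun i => x i ω), (fun i => incr δ fun s => Y i s ω)))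
      (Prod.mk p ⁻¹' (Prod.fst ⁻¹' A ∩ {q : (ℕ → ℝ) × ((ℕ → ℝ) × (ℕ → ℕ → ℝ)) | ∀ i, q.2.1 i ∉
        Set.Icc (-(√δ * Lo b n q.1 (q.2.2 i)) - a) (√δ * Up b n q.1 (q.2.2 i) + a)})) =
      ENNReal.ofReal (Real.exp (-(2 * lam * a))) *
        A.indicator (fun p => ENNReal.ofReal (Real.exp (-Vb b n (lam * √δ) p))) p := by
    intro p
    rw [Measure.map_apply mΘ (measurable_prodMk_left hT)]
    by_cases hp : p ∈ A
    swap
    · rw [Set.indicator_of_notMem hp, mul_zero]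
      refine measure_mono_null (fun ω hω => absurd hω.1 hp) measure_empty
    have hiL : Integrable (Lo b n p) mu := integrable_F n _
    have hs : 0 ≤ √(δ : ℝ) := Real.sqrt_nonneg _
    have e3 := poisson_void hlam h.poisson (ν := mu) (ζ := fun i ω => incr δ fun s => Y i s ω)
      (fun i => (measurable_incr δ).comp (measurable_pi_lambda _ (h.measY i)))
      (fun i => law_incr (h.brownianY i).toIsPreBrownianReal (h.measY i) hδ)
      (h.indepY.comp (fun _ => incr δ) fun _ => measurable_incr δ)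
      (h.indepxY.comp measurable_id (ψ := fun (q : ℕ → ℝ≥0 → ℝ) i => incr δ (q i))
        (measurable_pi_lambda _ fun i => (measurable_incr δ).comp (by fun_prop)))
      (L := fun q => -(√δ * Lo b n p q) - a) (U := fun q => √δ * Up b n p q + a)
      (((measurable_Lo b n measurable_const measurable_id).const_mul _).neg.sub_const a)
      (((measurable_Up b n measurable_const measurable_id).const_mul _).add_const a)
      (fun q => by nlinarith [Up_add_Lo_nonneg b n p q])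
      ((((integrable_Up b n p).const_mul _).add (integrable_const a)).sub
        ((hiL.const_mul _).neg.sub (integrable_const a)))
    have e4 : ∫ q, (√δ * Up b n p q + a - (-(√δ * Lo b n p q) - a)) ∂mu =
        √δ * (F n (Ph b fun j => S j p) + F n (Ph b fun j => -S j p)) + 2 * a := by
      have : ∀ q, √δ * Up b n p q + a - (-(√δ * Lo b n p q) - a) =
          √δ * (Up b n p q + Lo b n p q) + 2 * a := fun q => by ring
      simp_rw [this]
      have hi : Integrable (fun q => √δ * (Up b n p q + Lo b n p q)) mu :=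
        ((integrable_Up b n p).add hiL).const_mul _
      rw [integral_add hi (integrable_const _),
        integral_const_mul, integral_add (integrable_Up b n p) hiL, integral_Up]
      simp only [integral_const, probReal_univ, smul_eq_mul, one_mul]
      rfl
    rw [e4] at e3
    rw [Set.indicator_of_mem hp, ← ENNReal.ofReal_mul (Real.exp_pos _).le, ← Real.exp_add,
      show -(2 * lam * a) + -Vb b n (lam * √δ) p = -(lam * (√δ * (F n (Ph b fun j => S j p) +
        F n (Ph b fun j => -S j p)) + 2 * a)) by unfold Vb; ring, ← e3,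
      ofReal_measureReal (measure_ne_top _ _)]
    congr 1
    ext ω
    simp [hp]
  simp_rw [e2] at e1
  rw [lintegral_const_mul' _ _ ENNReal.ofReal_ne_top, lintegral_Wt hV.meas hV.nonneg hA,
    ← ENNReal.ofReal_mul (Real.exp_pos _).le] at e1
  rw [Measure.real]
  exact Eq.trans (congrArg ENNReal.toReal e1.symm)
    (ENNReal.toReal_ofReal (mul_nonneg (Real.exp_pos _).le (Wt_nonneg _ _)))

/-- Survival up to time `t`, in continuous time. -/
def Surv (b : Bool) (a : ℝ) (X : ℝ≥0 → Ω → ℝ) (x : ℕ → Ω → ℝ) (Y : ℕ → ℝ≥0 → Ω → ℝ) (t : ℝ≥0) :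
    Set Ω :=
  {ω | ∀ i, ∀ u s : ℝ≥0, Rl b u s → s ≤ t → a < |X u ω - (x i ω + Y i s ω)|}

lemma grid_le_Up (b : Bool) {n j k : ℕ} {δ : ℝ≥0} (hδ : δ ≠ 0) {p q : ℝ≥0 → ℝ} (hp : p 0 = 0)
    (hq : q 0 = 0) (hjk : Rl b j k) (hk : k ≤ n) :
    -(√δ * Lo b n (incr δ p) (incr δ q)) ≤ p (j * δ) - q (k * δ) ∧
      p (j * δ) - q (k * δ) ≤ √δ * Up b n (incr δ p) (incr δ q) := by
  have e1 := S_incr hδ p j
  have e2 := S_incr hδ q k
  rw [hp, sub_zero] at e1
  rw [hq, sub_zero] at e2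
  have hs : 0 ≤ √(δ : ℝ) := Real.sqrt_nonneg _
  have h1 := le_Mx (n := n) (fun k => Ph b (fun j => S j (incr δ p)) k - S k (incr δ q)) hk
  have h2 := le_Mx (n := n) (fun k => Ph b (fun j => -S j (incr δ p)) k + S k (incr δ q)) hk
  have h3 := le_Ph (fun j => S j (incr δ p)) hjk
  have h4 := le_Ph (fun j => -S j (incr δ p)) hjk
  rw [← e1, ← e2]
  unfold Up Lo
  constructor <;> nlinarith

lemma exists_grid_Up (b : Bool) (n : ℕ) {δ : ℝ≥0} (hδ : δ ≠ 0) {p q : ℝ≥0 → ℝ} (hp : p 0 = 0)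
    (hq : q 0 = 0) : ∃ j k : ℕ, Rl b j k ∧ k ≤ n ∧
      √δ * Up b n (incr δ p) (incr δ q) = p (j * δ) - q (k * δ) := by
  obtain ⟨k, hk, e1⟩ := exists_Mx n fun k => Ph b (fun j => S j (incr δ p)) k - S k (incr δ q)
  obtain ⟨j, hj, e2⟩ := exists_Ph b (fun j => S j (incr δ p)) k
  refine ⟨j, k, hj, hk, ?_⟩
  rw [Up, e1, e2, mul_sub, S_incr hδ, S_incr hδ, hp, hq]
  ring

lemma exists_grid_Lo (b : Bool) (n : ℕ) {δ : ℝ≥0} (hδ : δ ≠ 0) {p q : ℝ≥0 → ℝ} (hp : p 0 = 0)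
    (hq : q 0 = 0) : ∃ j k : ℕ, Rl b j k ∧ k ≤ n ∧
      -(√δ * Lo b n (incr δ p) (incr δ q)) = p (j * δ) - q (k * δ) := by
  obtain ⟨k, hk, e1⟩ := exists_Mx n fun k => Ph b (fun j => -S j (incr δ p)) k + S k (incr δ q)
  obtain ⟨j, hj, e2⟩ := exists_Ph b (fun j => -S j (incr δ p)) k
  refine ⟨j, k, hj, hk, ?_⟩
  rw [Lo, e1, e2, mul_add, mul_neg, S_incr hδ, S_incr hδ, hp, hq]
  ring

lemma ivt_pairs (b : Bool) {p q : ℝ≥0 → ℝ} (hp : Continuous p) (hq : Continuous q)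
    {u1 s1 u2 s2 t : ℝ≥0} (h1 : Rl b u1 s1) (h2 : Rl b u2 s2) (ht1 : s1 ≤ t) (ht2 : s2 ≤ t) {c : ℝ}
    (hc1 : p u1 - q s1 ≤ c) (hc2 : c ≤ p u2 - q s2) :
    ∃ u s, Rl b u s ∧ s ≤ t ∧ p u - q s = c := by
  let f : ℝ → ℝ := fun θ => p (Real.toNNReal ((1 - θ) * u1 + θ * u2)) -
    q (Real.toNNReal ((1 - θ) * s1 + θ * s2))
  have hf : Continuous f :=
    (hp.comp (continuous_real_toNNReal.comp (by fun_prop))).sub
      (hq.comp (continuous_real_toNNReal.comp (by fun_prop)))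
  obtain ⟨θ, hθ, e⟩ := intermediate_value_Icc (zero_le_one' ℝ) hf.continuousOn
    (a := 0) (show c ∈ Set.Icc (f 0) (f 1) by simpa [f] using ⟨by linarith, hc2⟩)
  refine ⟨_, _, ?_, ?_, e⟩
  · cases b
    · have e1 : u1 = s1 := h1
      have e2 : u2 = s2 := h2
      rw [e1, e2]
      rfl
    · have e1 : (u1 : ℝ) ≤ s1 := h1
      have e2 : (u2 : ℝ) ≤ s2 := h2
      exact Real.toNNReal_le_toNNReal (by nlinarith [hθ.1, hθ.2])
  · have e1 : (s1 : ℝ) ≤ t := ht1
    have e2 : (s2 : ℝ) ≤ t := ht2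
    rw [Real.toNNReal_le_iff_le_coe]
    nlinarith [hθ.1, hθ.2]

lemma grid_le {t : ℝ≥0} {n k : ℕ} (hk : k ≤ n) : (k : ℝ≥0) * (t / n) ≤ t := by
  rcases Nat.eq_zero_or_pos n with rfl | hn
  · simp
  have : (n : ℝ≥0) ≠ 0 := by exact_mod_cast hn.ne'
  calc (k : ℝ≥0) * (t / n) ≤ n * (t / n) := by gcongr
    _ = t := by field_simp

/-- Regular sample points. -/
def Reg (X : ℝ≥0 → Ω → ℝ) (Y : ℕ → ℝ≥0 → Ω → ℝ) (ω : Ω) : Prop :=
  (Continuous (fun s => X s ω) ∧ X 0 ω = 0) ∧ ∀ i, Continuous (fun s => Y i s ω) ∧ Y i 0 ω = 0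

lemma IsTrapModel.ae_reg (h : IsTrapModel lam X x Y P) : ∀ᵐ ω ∂P, Reg X Y ω :=
  (h.brownianX.cont.and h.brownianX.eval_zero_ae_eq_zero).and (ae_all_iff.2 fun i =>
    (h.brownianY i).cont.and (h.brownianY i).eval_zero_ae_eq_zero)

lemma surv_subset_DS {b : Bool} {a : ℝ} (ha : 0 ≤ a) {t : ℝ≥0} (ht : t ≠ 0) {n : ℕ} (hn : n ≠ 0)
    {ω : Ω} (hω : Reg X Y ω) (h : ω ∈ Surv b a X x Y t) : ω ∈ DS b n (t / n) a X x Y := by
  intro i ⟨h1, h2⟩
  have hδ : t / n ≠ 0 := div_ne_zero ht (by exact_mod_cast hn)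
  obtain ⟨j1, k1, r1, l1, e1⟩ := exists_grid_Lo b n hδ (p := fun s => X s ω)
    (q := fun s => Y i s ω) hω.1.2 (hω.2 i).2
  obtain ⟨j2, k2, r2, l2, e2⟩ := exists_grid_Up b n hδ (p := fun s => X s ω)
    (q := fun s => Y i s ω) hω.1.2 (hω.2 i).2
  have hLU := (grid_le_Up b hδ (p := fun s => X s ω) (q := fun s => Y i s ω) hω.1.2 (hω.2 i).2
    r2 l2).1
  rw [e1] at h1 hLU
  rw [e2] at h2
  have hm : Monotone fun k : ℕ => (k : ℝ≥0) * (t / n) := fun i j hij => by simp only; gcongr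
  obtain ⟨u, s, r, hs, e⟩ := ivt_pairs b hω.1.1 (hω.2 i).1 (r1.map hm) (r2.map hm) (grid_le l1)
    (grid_le l2) (c := max (X (j1 * (t / n)) ω - Y i (k1 * (t / n)) ω)
      (min (x i ω) (X (j2 * (t / n)) ω - Y i (k2 * (t / n)) ω))) (le_max_left _ _)
    (max_le hLU (min_le_right _ _))
  have h3 := h i u s r hs
  rw [show X u ω - (x i ω + Y i s ω) = X u ω - Y i s ω - x i ω by ring, e] at h3
  refine absurd h3 (not_lt.2 (abs_le.2 ⟨?_, ?_⟩))
  · have := le_max_right (X (j1 * (t / n)) ω - Y i (k1 * (t / n)) ω)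
      (min (x i ω) (X (j2 * (t / n)) ω - Y i (k2 * (t / n)) ω))
    rcases min_cases (x i ω) (X (j2 * (t / n)) ω - Y i (k2 * (t / n)) ω) with h4 | h4 <;>
      linarith [h4.1]
  · have := min_le_left (x i ω) (X (j2 * (t / n)) ω - Y i (k2 * (t / n)) ω)
    rcases max_cases (X (j1 * (t / n)) ω - Y i (k1 * (t / n)) ω)
      (min (x i ω) (X (j2 * (t / n)) ω - Y i (k2 * (t / n)) ω)) with h4 | h4 <;> linarith [h4.1]

lemma tendsto_grid {t : ℝ≥0} (ht : t ≠ 0) (s : ℝ≥0) :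
    Tendsto (fun n : ℕ => (⌊(s : ℝ) / t * n⌋₊ : ℝ≥0) * (t / n)) atTop (𝓝 s) := by
  have ht' : (0 : ℝ) < t := by positivity
  rw [← NNReal.tendsto_coe]
  have h1 := ((tendsto_nat_floor_mul_div_atTop (a := (s : ℝ) / t) (by positivity)).comp
    tendsto_natCast_atTop_atTop).mul_const (t : ℝ)
  rw [div_mul_cancel₀ _ ht'.ne'] at h1
  refine h1.congr fun n => ?_
  simp only [Function.comp, NNReal.coe_mul, NNReal.coe_natCast, NNReal.coe_div]
  ring

lemma floor_grid_le {t s : ℝ≥0} (ht : t ≠ 0) (hs : s ≤ t) (n : ℕ) : ⌊(s : ℝ) / t * n⌋₊ ≤ n := by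
  have ht' : (0 : ℝ) < t := by positivity
  refine Nat.floor_le_of_le (mul_le_of_le_one_left (by positivity) ?_)
  rw [div_le_one ht']
  exact hs

lemma eventually_not_DS {b : Bool} {a : ℝ} {t : ℝ≥0} (ht : t ≠ 0) {ω : Ω} (hω : Reg X Y ω)
    (h : ω ∉ Surv b a X x Y t) : ∀ᶠ n : ℕ in atTop, ω ∉ DS b n (t / n) (a + 1) X x Y := by
  simp only [Surv, Set.mem_ofPred_eq, not_forall, not_lt] at h
  obtain ⟨i, u, s, r, hs, h⟩ := h
  have h1 := ((hω.1.1.tendsto u).comp (tendsto_grid ht u)).sub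
    (((hω.2 i).1.tendsto s).comp (tendsto_grid ht s))
  have h2 := abs_le.1 h
  filter_upwards [h1.eventually (Ioo_mem_nhds (show X u ω - Y i s ω - 1 < _ by linarith)
    (show _ < X u ω - Y i s ω + 1 by linarith)), eventually_ne_atTop 0] with n hn hn0 hD
  have hδ : t / n ≠ 0 := div_ne_zero ht (by exact_mod_cast hn0)
  have hm : Monotone fun s : ℝ≥0 => ⌊(s : ℝ) / t * n⌋₊ := fun i j hij =>
    Nat.floor_mono (by gcongr)
  have h3 := grid_le_Up b hδ (p := fun s => X s ω) (q := fun s => Y i s ω) hω.1.2 (hω.2 i).2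
    (r.map hm) (floor_grid_le ht hs n)
  simp only [Function.comp, Set.mem_Ioo] at hn
  exact hD i ⟨by linarith [h3.1, hn.2], by linarith [h3.2, hn.1]⟩

lemma real_le_of_eventually [IsFiniteMeasure P] {A : Set Ω} {D : ℕ → Set Ω} {c : ℝ}
    (h : ∀ᵐ ω ∂P, ω ∈ A → ∀ᶠ n in atTop, ω ∈ D n) (hc : ∃ᶠ n in atTop, P.real (D n) ≤ c) :
    P.real A ≤ c := by
  have h1 : P A ≤ P (⋃ N, ⋂ n ≥ N, D n) := by
    refine measure_mono_ae ?_
    filter_upwards [h] with ω hω hA
    obtain ⟨N, hN⟩ := eventually_atTop.1 (hω hA)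
    exact Set.mem_iUnion.2 ⟨N, Set.mem_iInter₂.2 hN⟩
  rw [Monotone.measure_iUnion (fun N M hNM => Set.biInter_subset_biInter_left
    fun n (hn : n ≥ M) => le_trans hNM hn)] at h1
  obtain ⟨n0, hn0⟩ := hc.exists
  refine ENNReal.toReal_le_of_le_ofReal (measureReal_nonneg.trans hn0) (h1.trans ?_)
  refine iSup_le fun N => ?_
  obtain ⟨n, hn, hn'⟩ := frequently_atTop.1 hc N
  refine (measure_mono (Set.biInter_subset_of_mem hn)).trans ?_
  exact (ENNReal.le_ofReal_iff_toReal_le (measure_ne_top _ _) (measureReal_nonneg.trans hn0)).2 hn'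

lemma IsTrapModel.le_surv (h : IsTrapModel lam X x Y P) {b : Bool} {a c : ℝ} {t : ℝ≥0}
    (ht : t ≠ 0) (hc : ∃ᶠ n : ℕ in atTop, c ≤ P.real (DS b n (t / n) (a + 1) X x Y)) :
    c ≤ P.real (Surv b a X x Y t) := by
  have := h.prob
  have h1 := real_le_of_eventually (P := P) (A := (Surv b a X x Y t)ᶜ)
    (D := fun n => (DS b n (t / n) (a + 1) X x Y)ᶜ) (c := 1 - c)
    (h.ae_reg.mono fun ω hω hS => eventually_not_DS ht hω hS) (hc.mono fun n hn => by
      rw [probReal_compl_eq_one_sub (h.measurableSet_DS _ _ _ _)]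
      linarith)
  have h2 := measureReal_union_le (μ := P) (Surv b a X x Y t) (Surv b a X x Y t)ᶜ
  rw [Set.union_compl_self, probReal_univ] at h2
  linarith

theorem IsTrapModel.surv_inter_le (h : IsTrapModel lam X x Y P) (hlam : 0 ≤ lam) {b : Bool}
    {a : ℝ} (ha : 0 ≤ a) {t : ℝ≥0} (ht : t ≠ 0) {E : Set Ω} {A : ℕ → Set (ℕ → ℝ)}
    (hA : ∀ n, MeasurableSet (A n))
    (hE : ∀ ω, Reg X Y ω → ω ∈ E → ∀ᶠ n : ℕ in atTop, (incr (t / n) fun s => X s ω) ∈ A n) {ε : ℝ}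
    (hε : ∀ᶠ n : ℕ in atTop, (Gibbs (Vb b n (lam * √(t / n : ℝ≥0)))).real (A n) ≤ ε) :
    P.real (E ∩ Surv b a X x Y t) ≤ ε * Real.exp (2 * lam) * P.real (Surv b a X x Y t) := by
  have := h.prob
  have hε0 : 0 ≤ ε := measureReal_nonneg.trans hε.exists.choose_spec
  have key : ∀ c, P.real (Surv b a X x Y t) < c →
      P.real (E ∩ Surv b a X x Y t) ≤ ε * Real.exp (2 * lam) * c := by
    intro c hc
    have h1 : ∀ᶠ n : ℕ in atTop, P.real (DS b n (t / n) (a + 1) X x Y) < c := by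
      by_contra hcon
      rw [not_eventually] at hcon
      exact absurd (h.le_surv ht (hcon.mono fun n hn => not_lt.1 hn)) (not_le.2 hc)
    refine real_le_of_eventually
      (D := fun n => {ω | (incr (t / n) fun s => X s ω) ∈ A n} ∩ DS b n (t / n) a X x Y)
      (h.ae_reg.mono fun ω hω hS => ?_) (Eventually.frequently ?_)
    · filter_upwards [hE ω hω hS.1, eventually_ne_atTop 0] with n h2 h3
      exact ⟨h2, surv_subset_DS ha ht h3 hω hS.2⟩
    · filter_upwards [h1, hε, eventually_ne_atTop 0] with n h2 h3 h4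
      have hδ : t / n ≠ 0 := div_ne_zero ht (by exact_mod_cast h4)
      have hV := isHam_Vb b n (β := lam * √(t / n : ℝ≥0)) (by positivity)
      have e1 := h.DS_formula hlam b n hδ (a := a + 1) (by linarith) MeasurableSet.univ
      simp only [Set.mem_univ, Set.ofPred_true, Set.univ_inter] at e1
      rw [Gibbs_real _ (hA n), div_le_iff₀ (Wt_univ_pos hV.meas hV.nonneg)] at h3
      rw [h.DS_formula hlam b n hδ ha (hA n)]
      rw [e1] at h2
      calc _ ≤ Real.exp (-(2 * lam * a)) * (ε * Wt (Vb b n (lam * √(t / n : ℝ≥0))) Set.univ) := by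
            gcongr
        _ = ε * Real.exp (2 * lam) * (Real.exp (-(2 * lam * (a + 1))) *
              Wt (Vb b n (lam * √(t / n : ℝ≥0))) Set.univ) := by
            rw [show -(2 * lam * a) = 2 * lam + -(2 * lam * (a + 1)) by ring, Real.exp_add]
            ring
        _ ≤ _ := by gcongr
  refine le_of_forall_pos_le_add fun η hη => ?_
  have hK : 0 ≤ ε * Real.exp (2 * lam) := by positivity
  have := key (P.real (Surv b a X x Y t) + η / (ε * Real.exp (2 * lam) + 1))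
    (lt_add_of_pos_right _ (by positivity))
  refine this.trans ?_
  rw [mul_add, add_le_add_iff_left, ← mul_div_assoc, div_le_iff₀ (by positivity)]
  nlinarith

theorem IsTrapModel.surv_pos (h : IsTrapModel lam X x Y P) (hlam : 0 ≤ lam) (b : Bool)
    {a : ℝ} (ha : 0 ≤ a) {t : ℝ≥0} (ht : t ≠ 0) : 0 < P.real (Surv b a X x Y t) := by
  refine lt_of_lt_of_le (b := Real.exp (-(2 * lam * (a + 1))) *
    (Real.exp (-(16 * lam * √t)) * (1 / 4))) (by positivity) (h.le_surv ht ?_)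
  refine Eventually.frequently ?_
  filter_upwards [eventually_ne_atTop 0] with n hn
  have hδ : t / n ≠ 0 := div_ne_zero ht (by exact_mod_cast hn)
  have e1 := h.DS_formula hlam b n hδ (a := a + 1) (by linarith) MeasurableSet.univ
  simp only [Set.mem_univ, Set.ofPred_true, Set.univ_inter] at e1
  rw [e1]
  have h1 := Wt_univ_ge b (n := n) (l := n) (j := 1) (β := lam * √(t / n : ℝ≥0)) (ρ := 6 * √n)
    (by positivity) le_rfl (by omega)
  refine mul_le_mul_of_nonneg_left (le_trans ?_ h1) (Real.exp_pos _).le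
  rw [pow_one]
  refine mul_le_mul_of_nonneg_right (Real.exp_le_exp.2 (neg_le_neg ?_)) (by norm_num)
  have h2 := F_zero_le (n := n) (by omega)
  have hn' : (0 : ℝ) < n := by exact_mod_cast Nat.pos_of_ne_zero hn
  have h3 : √(t / n : ℝ≥0) * √n = √t := by
    rw [← Real.sqrt_mul (by positivity)]
    congr 1
    push_cast
    field_simp
  have h4 : 0 ≤ lam * √(t / n : ℝ≥0) := by positivity
  calc _ ≤ lam * √(t / n : ℝ≥0) * (2 * (2 * √n)) + 2 * (lam * √(t / n : ℝ≥0)) * (6 * √n) := by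
        gcongr
    _ = 16 * lam * (√(t / n : ℝ≥0) * √n) := by ring
    _ = _ := by rw [h3]

end Pool.Agent.Lib.MP_b41181_pr
end
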